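import Pool.Agent.IRS.Defs
import Pool.Agent.TAU.Root

/-!
Tits: a subgroup of `SL_k(ℤ)`, `k ≥ 3`, containing all `1 + m e_ij` contains all conjugates of the
`1 + m² t e_ij`.
-/

set_option autoImplicit false

namespace Pool.Agent.IRS

open Pool.Agent.TAU (SL el)
open Matrix

variable {k : ℕ} {K : Subgroup (SL k)}

/-- `1 + u φᵀ` lies in `K` -/
def TE (K : Subgroup (SL k)) (u φ : Fin k → ℤ) : Prop := ∃ g ∈ K, g.1 = 1 + vecMulVec u φ

theorem te_zero (u : Fin k → ℤ) : TE K u 0 := ⟨1, K.one_mem, by simp⟩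

theorem vv_mul (u φ v ψ : Fin k → ℤ) :
    vecMulVec u φ * vecMulVec v ψ = vecMulVec u ((φ ⬝ᵥ v) • ψ) := by
  rw [vecMulVec_mul_vecMulVec]

theorem te_add_right {u φ ψ : Fin k → ℤ} (h1 : TE K u φ) (h2 : TE K u ψ) (h : φ ⬝ᵥ u = 0) :
    TE K u (φ + ψ) := by
  obtain ⟨g, hg, eg⟩ := h1
  obtain ⟨g', hg', eg'⟩ := h2
  refine ⟨g * g', K.mul_mem hg hg', ?_⟩
  have e : (g * g').1 = g.1 * g'.1 := rfl
  rw [e, eg, eg', mul_add, add_mul, add_mul, vv_mul, h, zero_smul, vecMulVec_zero, vecMulVec_add,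
    one_mul, one_mul, mul_one]
  abel

theorem te_add_left {u v φ : Fin k → ℤ} (h1 : TE K u φ) (h2 : TE K v φ) (h : φ ⬝ᵥ v = 0) :
    TE K (u + v) φ := by
  obtain ⟨g, hg, eg⟩ := h1
  obtain ⟨g', hg', eg'⟩ := h2
  refine ⟨g * g', K.mul_mem hg hg', ?_⟩
  have e : (g * g').1 = g.1 * g'.1 := rfl
  rw [e, eg, eg', mul_add, add_mul, add_mul, vv_mul, h, zero_smul, vecMulVec_zero, add_vecMulVec,
    one_mul, one_mul, mul_one]
  abel

theorem te_comm {x y z w : Fin k → ℤ} (h1 : TE K x y) (h2 : TE K z w) (hyx : y ⬝ᵥ x = 0)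
    (hwz : w ⬝ᵥ z = 0) (hwx : w ⬝ᵥ x = 0) : TE K x ((y ⬝ᵥ z) • w) := by
  obtain ⟨g, hg, eg⟩ := h1
  obtain ⟨g', hg', eg'⟩ := h2
  have key : (1 + vecMulVec x ((y ⬝ᵥ z) • w)) * (g' * g).1 = (g * g').1 := by
    have e : (g * g').1 = g.1 * g'.1 := rfl
    have e' : (g' * g).1 = g'.1 * g.1 := rfl
    rw [e, e', eg, eg']
    have hX : vecMulVec x y * vecMulVec x y = 0 := by
      rw [vv_mul, hyx, zero_smul, vecMulVec_zero]
    have hZ : vecMulVec z w * vecMulVec z w = 0 := by
      rw [vv_mul, hwz, zero_smul, vecMulVec_zero]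
    have hZX : vecMulVec z w * vecMulVec x y = 0 := by
      rw [vv_mul, hwx, zero_smul, vecMulVec_zero]
    rw [← vv_mul]
    have h3 : vecMulVec x y * vecMulVec z w * vecMulVec z w = 0 := by
      rw [mul_assoc, hZ, mul_zero]
    have h4 : vecMulVec x y * vecMulVec z w * vecMulVec x y = 0 := by
      rw [mul_assoc, hZX, mul_zero]
    generalize vecMulVec x y = X at *
    generalize vecMulVec z w = Z at *
    have e5 : (1 + Z) * (1 + X) = 1 + Z + X + Z * X := by noncomm_ring
    rw [e5, hZX, add_zero]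
    have e6 : (1 + X * Z) * (1 + Z + X) = 1 + Z + X + X * Z + X * Z * Z + X * Z * X := by
      noncomm_ring
    rw [e6, h3, h4]
    noncomm_ring
  refine ⟨g * g' * (g' * g)⁻¹, K.mul_mem (K.mul_mem hg hg') (K.inv_mem (K.mul_mem hg' hg)), ?_⟩
  have e : (g * g' * (g' * g)⁻¹).1 = (g * g').1 * ((g' * g)⁻¹).1 := rfl
  rw [e, ← key, mul_assoc]
  have e' : (g' * g).1 * ((g' * g)⁻¹).1 = 1 := by
    have := congrArg (fun x : SL k => x.1) (mul_inv_cancel (g' * g))
    exact this
  rw [e', mul_one]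

theorem te_smul {u φ : Fin k → ℤ} (c : ℤ) : TE K u (c • φ) ↔ TE K (c • u) φ := by
  unfold TE
  rw [vecMulVec_smul, smul_vecMulVec]

theorem te_el {m : ℤ} (hK : ∀ (i j : Fin k) (h : i ≠ j), el i j h m ∈ K) {i j : Fin k}
    (h : i ≠ j) (a b c : ℤ) (hab : a * b = m * c) : TE K (Pi.single i a) (Pi.single j b) := by
  refine ⟨el i j h m ^ c, K.zpow_mem (hK i j h) c, ?_⟩
  rw [Pool.Agent.TAU.rt_zpow]
  change Matrix.transvection i j (c * m) = _
  unfold Matrix.transvection
  congr 1
  ext p q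
  rw [vecMulVec_apply, Matrix.single_apply, Pi.single_apply, Pi.single_apply]
  by_cases h1 : p = i
  · by_cases h2 : q = j
    · simp [h1, h2, hab, mul_comm]
    · simp [h1, h2, Ne.symm h2]
  · simp [h1, Ne.symm h1]

/-- `u_p e_q* - u_q e_p*` -/
def psi (u : Fin k → ℤ) (p q : Fin k) : Fin k → ℤ :=
  Pi.single q (u p) + Pi.single p (-u q)

theorem psi_dot (u v : Fin k → ℤ) (p q : Fin k) : psi u p q ⬝ᵥ v = u p * v q - u q * v p := by
  unfold psi
  rw [add_dotProduct, single_dotProduct, single_dotProduct]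
  ring

theorem psi_dot_self (u : Fin k → ℤ) (p q : Fin k) : psi u p q ⬝ᵥ u = 0 := by
  rw [psi_dot]
  ring

theorem te_row {m : ℤ} (hK : ∀ (i j : Fin k) (h : i ≠ j), el i j h m ∈ K) (u : Fin k → ℤ)
    {p q r : Fin k} (hp : r ≠ p) (hq : r ≠ q) (a c : ℤ) (ha : a = m * c) :
    TE K (Pi.single r a) (psi u p q) := by
  unfold psi
  apply te_add_right
  · exact te_el hK hq a (u p) (c * u p) (by rw [ha]; ring)
  · exact te_el hK hp a (-u q) (c * -u q) (by rw [ha]; ring)
  · rw [single_dotProduct, Pi.single_eq_of_ne hq.symm, mul_zero]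

theorem te_pair {m : ℤ} (hK : ∀ (i j : Fin k) (h : i ≠ j), el i j h m ∈ K) (u : Fin k → ℤ)
    {p q l : Fin k} (hp : l ≠ p) (hq : l ≠ q) (hpq : p ≠ q) (s : ℤ) :
    TE K (Pi.single p (m * m * s * u p) + Pi.single q (m * m * s * u q)) (psi u p q) := by
  have hA : TE K (Pi.single p (m * u p) + Pi.single q (m * u q)) (Pi.single l 1) := by
    apply te_add_left
    · exact te_el hK hp.symm _ _ (u p) (by ring)
    · exact te_el hK hq.symm _ _ (u q) (by ring)
    · rw [single_dotProduct, Pi.single_eq_of_ne hq, mul_zero]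
  have hB : TE K (Pi.single l (m * s)) (psi u p q) := te_row hK u hp hq (m * s) s rfl
  have h3 := te_comm hA hB ?_ ?_ ?_
  · rw [single_dotProduct, Pi.single_eq_same, one_mul, te_smul] at h3
    have e : (m * s) • (Pi.single p (m * u p) + Pi.single q (m * u q)) =
        (Pi.single p (m * m * s * u p) + Pi.single q (m * m * s * u q) : Fin k → ℤ) := by
      funext a
      simp only [Pi.smul_apply, Pi.add_apply, Pi.single_apply, smul_eq_mul]
      split_ifs <;> ring
    rw [← e]
    exact h3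
  · rw [single_dotProduct, Pi.add_apply, Pi.single_eq_of_ne hp, Pi.single_eq_of_ne hq]
    ring
  · rw [psi_dot, Pi.single_eq_of_ne hp.symm, Pi.single_eq_of_ne hq.symm]
    ring
  · rw [psi_dot, Pi.add_apply, Pi.add_apply, Pi.single_eq_same, Pi.single_eq_same,
      Pi.single_eq_of_ne hpq, Pi.single_eq_of_ne hpq.symm]
    ring

theorem te_psi {m : ℤ} (hk : 3 ≤ k) (hK : ∀ (i j : Fin k) (h : i ≠ j), el i j h m ∈ K)
    (u : Fin k → ℤ) (p q : Fin k) (s : ℤ) : TE K ((m * m * s) • u) (psi u p q) := by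
  by_cases hpq : p = q
  · subst hpq
    have e : psi u p p = 0 := by
      funext a
      unfold psi
      simp only [Pi.add_apply, Pi.single_apply, Pi.zero_apply]
      split_ifs <;> ring
    rw [e]
    exact te_zero _
  obtain ⟨l, hl⟩ : ∃ l : Fin k, l ∉ ({p, q} : Finset (Fin k)) := by
    by_contra h
    push Not at h
    have h1 : (Finset.univ : Finset (Fin k)) ⊆ {p, q} := fun x _ => h x
    have h2 := Finset.card_le_card h1
    rw [Finset.card_univ, Fintype.card_fin] at h2
    have h3 := Finset.card_le_two (a := p) (b := q)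
    omega
  rw [Finset.mem_insert, Finset.mem_singleton, not_or] at hl
  have key : ∀ R : Finset (Fin k), p ∉ R → q ∉ R →
      TE K ((Pi.single p (m * m * s * u p) + Pi.single q (m * m * s * u q)) +
        ∑ r ∈ R, (Pi.single r (m * m * s * u r) : Fin k → ℤ)) (psi u p q) := by
    intro R
    induction R using Finset.induction_on with
    | empty =>
      intro _ _
      rw [Finset.sum_empty, add_zero]
      exact te_pair hK u hl.1 hl.2 hpq s
    | insert r R hr ih =>
      intro hp hq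
      rw [Finset.mem_insert, not_or] at hp hq
      rw [Finset.sum_insert hr, add_comm (Pi.single r _), ← add_assoc]
      apply te_add_left (ih hp.2 hq.2)
      · exact te_row hK u (Ne.symm hp.1) (Ne.symm hq.1) _ (m * s * u r) (by ring)
      · rw [psi_dot, Pi.single_eq_of_ne hp.1, Pi.single_eq_of_ne hq.1]
        ring
  have e : (m * m * s) • u = (Pi.single p (m * m * s * u p) + Pi.single q (m * m * s * u q)) +
        ∑ r ∈ (Finset.univ.erase p).erase q, (Pi.single r (m * m * s * u r) : Fin k → ℤ) := by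
    have h1 := Finset.univ_sum_single ((m * m * s) • u)
    rw [← h1, ← Finset.add_sum_erase _ _ (Finset.mem_univ p), ← Finset.add_sum_erase _ _
      (Finset.mem_erase.2 ⟨fun h => hpq h.symm, Finset.mem_univ q⟩), ← add_assoc]
    rfl
  rw [e]
  exact key _ (fun h => by simp at h) (fun h => by simp at h)

theorem te_sum {m : ℤ} (hk : 3 ≤ k) (hK : ∀ (i j : Fin k) (h : i ≠ j), el i j h m ∈ K)
    (u w φ : Fin k → ℤ) (t : ℤ) (S : Finset (Fin k × Fin k)) :
    TE K ((m * m * t) • u) (∑ a ∈ S, (w a.1 * φ a.2) • psi u a.1 a.2) := by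
  induction S using Finset.induction_on with
  | empty =>
    rw [Finset.sum_empty]
    exact te_zero _
  | insert a S ha ih =>
    rw [Finset.sum_insert ha]
    apply te_add_right _ ih
    · rw [smul_dotProduct, dotProduct_smul, psi_dot_self, smul_zero, smul_zero]
    · rw [te_smul, smul_smul]
      have h1 := te_psi hk hK u a.1 a.2 (t * (w a.1 * φ a.2))
      have e : w a.1 * φ a.2 * (m * m * t) = m * m * (t * (w a.1 * φ a.2)) := by ring
      rw [e]
      exact h1

theorem psi_sum (u w φ : Fin k → ℤ) (hw : w ⬝ᵥ u = 1) (hφ : φ ⬝ᵥ u = 0) :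
    ∑ a ∈ (Finset.univ : Finset (Fin k × Fin k)), (w a.1 * φ a.2) • psi u a.1 a.2 = φ := by
  funext b
  rw [Finset.sum_apply, Fintype.sum_prod_type]
  have h1 : ∀ p q : Fin k, ((w p * φ q) • psi u p q) b =
      (if q = b then w p * u p * φ b else 0) - (if p = b then w b * (φ q * u q) else 0) := by
    intro p q
    unfold psi
    simp only [Pi.smul_apply, Pi.add_apply, Pi.single_apply, smul_eq_mul]
    by_cases h2 : q = b
    · by_cases h3 : p = b
      · simp only [h2, h3, if_true]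
        ring
      · simp only [h2, if_true, h3, Ne.symm h3, if_false]
        ring
    · by_cases h3 : p = b
      · simp only [h3, if_true, h2, Ne.symm h2, if_false]
        ring
      · simp only [h2, h3, Ne.symm h2, Ne.symm h3, if_false]
        ring
  simp only [h1, Finset.sum_sub_distrib, Finset.sum_ite_eq', Finset.mem_univ, if_true]
  have h2 : ∑ p, w p * u p * φ b = φ b := by
    rw [← Finset.sum_mul]
    change (w ⬝ᵥ u) * φ b = φ b
    rw [hw, one_mul]
  have h3 : ∑ p, ∑ q, (if p = b then w b * (φ q * u q) else 0) = 0 := by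
    rw [Finset.sum_comm]
    simp only [Finset.sum_ite_eq', Finset.mem_univ, if_true]
    rw [← Finset.mul_sum]
    change w b * (φ ⬝ᵥ u) = 0
    rw [hφ, mul_zero]
  rw [h2, h3, sub_zero]

theorem tits (k : ℕ) (hk : 3 ≤ k) (m : ℤ) (K : Subgroup (SL k))
    (hK : ∀ (i j : Fin k) (h : i ≠ j), el i j h m ∈ K) (x : SL k) (i j : Fin k) (h : i ≠ j)
    (t : ℤ) : x * el i j h (m * m * t) * x⁻¹ ∈ K := by
  have hinv : (x⁻¹).1 * x.1 = 1 := congrArg (fun y : SL k => y.1) (inv_mul_cancel x)
  have hinv' : x.1 * (x⁻¹).1 = 1 := congrArg (fun y : SL k => y.1) (mul_inv_cancel x)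
  have hw : (fun b => (x⁻¹).1 i b) ⬝ᵥ (fun a => x.1 a i) = 1 := by
    have := congrFun (congrFun hinv i) i
    rw [Matrix.mul_apply, Matrix.one_apply_eq] at this
    exact this
  have hφ : (fun b => (x⁻¹).1 j b) ⬝ᵥ (fun a => x.1 a i) = 0 := by
    have := congrFun (congrFun hinv j) i
    rw [Matrix.mul_apply, Matrix.one_apply_ne (Ne.symm h)] at this
    exact this
  obtain ⟨g, hg, eg⟩ := te_sum hk hK (fun a => x.1 a i) (fun b => (x⁻¹).1 i b)
    (fun b => (x⁻¹).1 j b) t Finset.univ
  rw [psi_sum _ _ _ hw hφ] at eg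
  have e : x * el i j h (m * m * t) * x⁻¹ = g := by
    apply Subtype.ext
    rw [eg]
    change x.1 * Matrix.transvection i j (m * m * t) * (x⁻¹).1 = _
    unfold Matrix.transvection
    rw [mul_add, add_mul, mul_one, hinv']
    congr 1
    have e1 : Matrix.single i j (m * m * t) =
        vecMulVec (Pi.single i (m * m * t)) (Pi.single j (1 : ℤ)) := by
      ext p q
      rw [vecMulVec_apply, Matrix.single_apply, Pi.single_apply, Pi.single_apply]
      by_cases h1 : p = i
      · by_cases h2 : q = j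
        · simp [h1, h2]
        · simp [h1, h2, Ne.symm h2]
      · simp [h1, Ne.symm h1]
    rw [e1, mul_vecMulVec, vecMulVec_mul]
    congr 1
    · funext a
      rw [mulVec_single]
      simp [mul_comm]
    · funext b
      rw [single_one_vecMul]
      rfl
  rw [e]
  exact hg

end Pool.Agent.IRS
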