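import Pool.Agent.IRS.CongDefs
import Pool.Agent.K89.Csp

/-!
Coverings by finite `PSL_k(ℤ)`-sets give coverings by copies of the groups `SL_k(ℤ/M)`: the
congruence subgroup theorem.
-/

set_option autoImplicit false
open Filter Topology Finset

namespace Pool.Agent.IRS

open Pool.Agent.TAU (SL el rt_pow)

theorem redM_eq_one {k M : ℕ} {A : SL k} (h : redM k M A = 1) (a b : Fin k) :
    (M : ℤ) ∣ A.1 a b - (1 : Matrix (Fin k) (Fin k) ℤ) a b := by
  have h1 := congrArg (fun x : SLM k M => (x : Matrix (Fin k) (Fin k) (ZMod M)) a b) h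
  change ((A.1 a b : ℤ) : ZMod M) = (1 : Matrix (Fin k) (Fin k) (ZMod M)) a b at h1
  have h2 : (1 : Matrix (Fin k) (Fin k) (ZMod M)) a b =
      (((1 : Matrix (Fin k) (Fin k) ℤ) a b : ℤ) : ZMod M) := by
    by_cases hab : a = b
    · subst hab
      simp
    · rw [Matrix.one_apply_ne hab, Matrix.one_apply_ne hab]
      simp
  rw [h2] at h1
  have h3 := (ZMod.intCast_eq_intCast_iff_dvd_sub _ _ M).1 h1.symm
  exact h3

/-- an action of `SL_k(ℤ)`, `k ≥ 3`, on `N` points factors through `SL_k(ℤ/N!)` -/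
theorem act_cong (k : ℕ) (hk : 3 ≤ k) (N : ℕ) (ρ : SL k →* Equiv.Perm (Fin N)) (A : SL k)
    (h : redM k N.factorial A = 1) : ρ A = 1 := by
  have h1 : A ∈ ρ.ker := by
    refine Pool.Agent.K89.csp k hk (N.factorial : ℤ) ρ.ker ?_ A (redM_eq_one h)
    intro i j hij x
    rw [MonoidHom.mem_ker]
    have e : el i j hij ((N.factorial : ℤ) * x) = el i j hij x ^ N.factorial := by
      rw [rt_pow]
    rw [e, map_pow]
    have h2 : Fintype.card (Equiv.Perm (Fin N)) = N.factorial := by
      rw [Fintype.card_perm, Fintype.card_fin]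
    rw [← h2]
    exact pow_card_eq_one
  exact h1

theorem act_cong' (k : ℕ) (hk : 3 ≤ k) (N : ℕ) (ρ : SL k →* Equiv.Perm (Fin N)) (A B : SL k)
    (h : redM k N.factorial A = redM k N.factorial B) : ρ A = ρ B := by
  have h1 : redM k N.factorial (A * B⁻¹) = 1 := by rw [map_mul, map_inv, h, mul_inv_cancel]
  have h2 := act_cong k hk N ρ _ h1
  rw [map_mul, map_inv] at h2
  exact mul_inv_eq_one.1 h2

open Classical in
/-- the permutation of the `N` points which belongs to an element of `SL_k(ℤ/N!)` -/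
noncomputable def permM (k N : ℕ) (ρ : SL k →* Equiv.Perm (Fin N)) (q : SLM k N.factorial) :
    Equiv.Perm (Fin N) :=
  if h : ∃ A : SL k, redM k N.factorial A = q then ρ h.choose else 1

theorem permM_red (k : ℕ) (hk : 3 ≤ k) (N : ℕ) (ρ : SL k →* Equiv.Perm (Fin N)) (A : SL k) :
    permM k N ρ (redM k N.factorial A) = ρ A := by
  have h : ∃ B : SL k, redM k N.factorial B = redM k N.factorial A := ⟨A, rfl⟩
  unfold permM
  rw [dif_pos h]
  exact act_cong' k hk N ρ _ _ h.choose_spec

theorem count_lift {Q : Type} [Fintype Q] [DecidableEq Q] {N : ℕ} (F : Q → Equiv.Perm (Fin N))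
    (R : Finset Q) (P : Fin N → Prop) [DecidablePred P] :
    ((R ×ˢ (univ : Finset (Fin N))).filter fun y => P (F y.1 y.2)).card =
      R.card * (univ.filter P).card := by
  rw [← card_product]
  apply Finset.card_bij (fun y _ => (y.1, F y.1 y.2))
  · rintro ⟨q, y⟩ hy
    rw [mem_filter, mem_product] at hy
    rw [mem_product, mem_filter]
    exact ⟨hy.1.1, mem_univ _, hy.2⟩
  · rintro ⟨q, y⟩ _ ⟨q', y'⟩ _ h
    rw [Prod.mk.injEq] at h
    obtain ⟨h1, h2⟩ := h
    have h1' : q = q' := h1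
    subst h1'
    exact Prod.ext rfl ((F q).injective h2)
  · rintro ⟨q, z⟩ hz
    rw [mem_product, mem_filter] at hz
    refine ⟨(q, (F q).symm z), ?_, ?_⟩
    · rw [mem_filter, mem_product]
      refine ⟨⟨hz.1, mem_univ _⟩, ?_⟩
      change P (F q ((F q).symm z))
      rw [Equiv.apply_symm_apply]
      exact hz.2.2
    · change (q, F q ((F q).symm z)) = (q, z)
      rw [Equiv.apply_symm_apply]

theorem congCovered_of_weakly (k : ℕ) (hk : 3 ≤ k) (f : (n : ℕ) → PSL k → Equiv.Perm (Fin n))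
    (h : WeaklyCovered f) : CongCovered f := by
  classical
  obtain ⟨K, hK⟩ := h
  refine ⟨K, fun E => (hK (E.image (QuotientGroup.mk' _))).mono ?_⟩
  rintro n ⟨N, ρ, D, π, hD, hdens, hbad⟩
  have hN : 0 < N.factorial := N.factorial_pos
  have : NeZero N.factorial := ⟨hN.ne'⟩
  have hfin : Fintype (SLM k N.factorial) := Fintype.ofFinite _
  obtain ⟨ρ', hρ'⟩ : ∃ ρ' : SL k →* Equiv.Perm (Fin N), ρ' = ρ.comp (QuotientGroup.mk' _) :=
    ⟨_, rfl⟩
  obtain ⟨R, hR⟩ : ∃ R : Finset (SLM k N.factorial),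
      R = univ.filter fun q => ∃ A : SL k, redM k N.factorial A = q := ⟨_, rfl⟩
  have hRmem : ∀ q, q ∈ R ↔ ∃ A : SL k, redM k N.factorial A = q := by
    intro q
    rw [hR, mem_filter]
    simp
  have hRpos : 0 < R.card := card_pos.2 ⟨1, (hRmem 1).2 ⟨1, map_one _⟩⟩
  obtain ⟨F, hF⟩ : ∃ F : SLM k N.factorial → Equiv.Perm (Fin N), F = permM k N ρ' := ⟨_, rfl⟩
  have hFA : ∀ (A : SL k) q, q ∈ R → F (redM k N.factorial A * q) = ρ' A * F q := by
    intro A q hq
    obtain ⟨B, rfl⟩ := (hRmem q).1 hq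
    rw [← map_mul, hF, permM_red k hk, permM_red k hk, map_mul]
  obtain ⟨D', hD'⟩ : ∃ D' : Finset (SLM k N.factorial × Fin N),
      D' = (R ×ˢ (univ : Finset (Fin N))).filter fun y => F y.1 y.2 ∈ D := ⟨_, rfl⟩
  have hmemD' : ∀ q y, (q, y) ∈ D' ↔ q ∈ R ∧ F q y ∈ D := by
    intro q y
    rw [hD', mem_filter, mem_product]
    simp
  have hcount : ∀ (P : Fin N → Prop),
      (D'.filter fun y => P (F y.1 y.2)).card = R.card * (D.filter P).card := by
    intro P
    have h1 := count_lift F R (fun z => z ∈ D ∧ P z)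
    rw [hD', filter_filter]
    rw [h1]
    congr 2
    ext z
    simp
  have hcard : D'.card = R.card * D.card := by
    have h1 := hcount (fun _ => True)
    simpa using h1
  refine ⟨N.factorial, N, D', fun y => π (F y.1 y.2), hN, ?_, ?_, ?_⟩
  · rw [← card_pos, hcard]
    exact Nat.mul_pos hRpos (card_pos.2 hD)
  · intro a
    have h1 := hcount (fun z => π z = a)
    have h2 : (D'.filter fun y => π (F y.1 y.2) = a).card =
        R.card * (D.filter fun z => π z = a).card := by
      convert h1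
    rw [h2, hcard]
    have h3 := Nat.mul_le_mul_left R.card (hdens a)
    calc R.card * (D.filter fun z => π z = a).card * n =
        R.card * ((D.filter fun z => π z = a).card * n) := by ring
      _ ≤ R.card * (K * D.card) := h3
      _ = K * (R.card * D.card) := by ring
  · intro A hA
    have h1 := hcount (fun z => ρ' A z ∉ D ∨ π (ρ' A z) ≠ f n (QuotientGroup.mk' _ A) (π z))
    have h2 : (D'.filter fun y => actM A y ∉ D' ∨
        π (F (actM A y).1 (actM A y).2) ≠ f n (QuotientGroup.mk' _ A) (π (F y.1 y.2))) =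
        D'.filter fun y => (fun z => ρ' A z ∉ D ∨ π (ρ' A z) ≠
          f n (QuotientGroup.mk' _ A) (π z)) (F y.1 y.2) := by
      apply Finset.filter_congr
      rintro ⟨q, y⟩ hy
      have hq := ((hmemD' q y).1 hy).1
      have e : F (redM k N.factorial A * q) y = ρ' A (F q y) := by
        rw [hFA A q hq]
        rfl
      have hq' : redM k N.factorial A * q ∈ R := by
        obtain ⟨B, rfl⟩ := (hRmem q).1 hq
        exact (hRmem _).2 ⟨A * B, map_mul _ _ _⟩
      change ((redM k N.factorial A * q, y) ∉ D' ∨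
        π (F (redM k N.factorial A * q) y) ≠ f n (QuotientGroup.mk' _ A) (π (F q y))) ↔
        (ρ' A (F q y) ∉ D ∨ π (ρ' A (F q y)) ≠ f n (QuotientGroup.mk' _ A) (π (F q y)))
      rw [hmemD', e]
      simp only [hq', true_and]
    have h3 : (D'.filter fun y => actM A y ∉ D' ∨
        π (F (actM A y).1 (actM A y).2) ≠ f n (QuotientGroup.mk' _ A) (π (F y.1 y.2))).card =
        R.card * (D.filter fun z => ρ' A z ∉ D ∨ π (ρ' A z) ≠
          f n (QuotientGroup.mk' _ A) (π z)).card := by
      rw [h2]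
      convert h1
    have h4 := hbad (QuotientGroup.mk' _ A) (Finset.mem_image_of_mem _ hA)
    have h5 : 12 * (D.filter fun z => ρ' A z ∉ D ∨ π (ρ' A z) ≠
          f n (QuotientGroup.mk' _ A) (π z)).card ≤ D.card := by
      rw [hρ']
      exact h4
    rw [hcard]
    calc _ = 12 * (R.card * (D.filter fun z => ρ' A z ∉ D ∨ π (ρ' A z) ≠
          f n (QuotientGroup.mk' _ A) (π z)).card) := by rw [← h3]
      _ = R.card * (12 * (D.filter fun z => ρ' A z ∉ D ∨ π (ρ' A z) ≠
          f n (QuotientGroup.mk' _ A) (π z)).card) := by ring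
      _ ≤ R.card * D.card := Nat.mul_le_mul_left _ h5

end Pool.Agent.IRS
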