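import Pool.Agent.IRS.CongDefs

/-!
Coverings by copies of the groups `SL_k(ℤ/M)` are coverings by finite `SL_k(ℤ)`-sets.
-/

set_option autoImplicit false
open Filter Topology Finset

namespace Pool.Agent.IRS

open Pool.Agent.TAU (SL)

/-- the action of `SL_k(ℤ)` on `SL_k(ℤ/M) × {1, …, t}` -/
def actHom (k M t : ℕ) : SL k →* Equiv.Perm (SLM k M × Fin t) where
  toFun A :=
    { toFun := actM A
      invFun := actM A⁻¹
      left_inv := by
        rintro ⟨q, i⟩
        change (redM k M A⁻¹ * (redM k M A * q), i) = (q, i)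
        rw [map_inv, inv_mul_cancel_left]
      right_inv := by
        rintro ⟨q, i⟩
        change (redM k M A * (redM k M A⁻¹ * q), i) = (q, i)
        rw [map_inv, mul_inv_cancel_left] }
  map_one' := by
    apply Equiv.ext
    rintro ⟨q, i⟩
    change (redM k M 1 * q, i) = (q, i)
    rw [map_one, one_mul]
  map_mul' A B := by
    apply Equiv.ext
    rintro ⟨q, i⟩
    change (redM k M (A * B) * q, i) = (redM k M A * (redM k M B * q), i)
    rw [map_mul, mul_assoc]

theorem weakly_of_cong (k : ℕ) (f : (n : ℕ) → PSL k → Equiv.Perm (Fin n)) (h : CongCovered f) :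
    WeaklyCovered (fun n (A : SL k) => f n (QuotientGroup.mk' _ A)) := by
  classical
  obtain ⟨K, hK⟩ := h
  refine ⟨K, fun E => (hK E).mono ?_⟩
  rintro n ⟨M, t, D, p, hM, hD, hdens, hbad⟩
  have : NeZero M := ⟨hM.ne'⟩
  have hfin : Fintype (SLM k M × Fin t) := Fintype.ofFinite _
  obtain ⟨N, hN⟩ : ∃ N : ℕ, N = Fintype.card (SLM k M × Fin t) := ⟨_, rfl⟩
  obtain ⟨e⟩ : Nonempty ((SLM k M × Fin t) ≃ Fin N) := ⟨Fintype.equivFinOfCardEq hN.symm⟩
  obtain ⟨D', hD'⟩ : ∃ D' : Finset (Fin N), D' = D.map e.toEmbedding := ⟨_, rfl⟩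
  have hmem : ∀ y, e y ∈ D' ↔ y ∈ D := by
    intro y
    rw [hD']
    exact Finset.mem_map' _
  have hcount : ∀ (P : Fin N → Prop), (D'.filter P).card = (D.filter fun y => P (e y)).card := by
    intro P
    rw [hD', Finset.filter_map, Finset.card_map]
    rfl
  have hcard : D'.card = D.card := by rw [hD', Finset.card_map]
  refine ⟨N, (Equiv.permCongrHom e).toMonoidHom.comp (actHom k M t), D', fun y => p (e.symm y),
    ?_, ?_, ?_⟩
  · rw [← card_pos, hcard]
    exact card_pos.2 hD
  · intro a
    have h1 := hcount (fun y => p (e.symm y) = a)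
    simp only [Equiv.symm_apply_apply] at h1
    rw [hcard]
    convert hdens a using 2
    convert h1
  · intro A hA
    have h1 := hcount (fun y => ((Equiv.permCongrHom e).toMonoidHom.comp (actHom k M t)) A y ∉ D' ∨
      p (e.symm (((Equiv.permCongrHom e).toMonoidHom.comp (actHom k M t)) A y)) ≠
        f n (QuotientGroup.mk' _ A) (p (e.symm y)))
    have h2 : ∀ y, ((Equiv.permCongrHom e).toMonoidHom.comp (actHom k M t)) A (e y) =
        e (actM A y) := by
      intro y
      change e (actHom k M t A (e.symm (e y))) = e (actM A y)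
      rw [Equiv.symm_apply_apply]
      rfl
    simp only [h2, hmem, Equiv.symm_apply_apply] at h1
    rw [hcard]
    have h3 := hbad A hA
    refine le_trans (le_of_eq ?_) h3
    congr 1
    convert h1

end Pool.Agent.IRS
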