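import Pool.Agent.IRS.Psl

/-!
A model of an almost-homomorphism of `G` which comes from a quotient of `G` by a finite normal
subgroup gives a model of the almost-homomorphism of the quotient.
-/

set_option autoImplicit false
open Filter Topology Finset

namespace Pool.Agent.IRS

open Pool.Agent.FS84 (AlmostHom PartlyModelled Most most_one)

section

variable {G H : Type} [Group G] [Group H] {m : ℕ}

/-- the points fixed by the kernel of `π` -/
def FixK (π : G →* H) (ρ : G →* Equiv.Perm (Fin m)) (y : Fin m) : Prop :=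
  ∀ z : G, π z = 1 → ρ z y = y

theorem fixK_iff (π : G →* H) (ρ : G →* Equiv.Perm (Fin m)) (g : G) (y : Fin m) :
    FixK π ρ (ρ g y) ↔ FixK π ρ y := by
  have h : ∀ (g : G) (y : Fin m), FixK π ρ y → FixK π ρ (ρ g y) := by
    intro g y hy z hz
    have h1 := hy (g⁻¹ * z * g) (by rw [map_mul, map_mul, hz, map_inv]; group)
    have h2 : ρ z (ρ g y) = ρ g (ρ (g⁻¹ * z * g) y) := by
      rw [← Equiv.Perm.mul_apply, ← Equiv.Perm.mul_apply, ← map_mul, ← map_mul]
      congr 2
      group
    rw [h2, h1]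
  refine ⟨fun hy => ?_, h g y⟩
  have h1 := h g⁻¹ _ hy
  have e : ρ g⁻¹ (ρ g y) = y := by
    rw [map_inv]
    exact Equiv.symm_apply_apply _ _
  rw [e] at h1
  exact h1

open Classical in
/-- the action of `G` on the points fixed by the kernel; the other points are not moved -/
noncomputable def fixHom (π : G →* H) (ρ : G →* Equiv.Perm (Fin m)) : G →* Equiv.Perm (Fin m) where
  toFun g := Equiv.Perm.ofSubtype ((ρ g).subtypePerm (p := FixK π ρ) (fixK_iff π ρ g))
  map_one' := by
    rw [← map_one (Equiv.Perm.ofSubtype (p := FixK π ρ))]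
    congr 1
    apply Equiv.ext
    intro y
    apply Subtype.ext
    rw [Equiv.Perm.subtypePerm_apply]
    simp
  map_mul' g h := by
    rw [← map_mul]
    congr 1
    apply Equiv.ext
    intro y
    apply Subtype.ext
    rw [Equiv.Perm.mul_apply, Equiv.Perm.subtypePerm_apply, Equiv.Perm.subtypePerm_apply,
      Equiv.Perm.subtypePerm_apply]
    simp

theorem fixHom_apply (π : G →* H) (ρ : G →* Equiv.Perm (Fin m)) (g : G) (y : Fin m)
    (hy : FixK π ρ y) : fixHom π ρ g y = ρ g y := by
  classical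
  change Equiv.Perm.ofSubtype ((ρ g).subtypePerm (p := FixK π ρ) (fixK_iff π ρ g)) y = ρ g y
  rw [Equiv.Perm.ofSubtype_apply_of_mem _ hy]
  rfl

theorem fixHom_ker (π : G →* H) (ρ : G →* Equiv.Perm (Fin m)) (g : G) (hg : π g = 1) :
    fixHom π ρ g = 1 := by
  classical
  change Equiv.Perm.ofSubtype ((ρ g).subtypePerm (p := FixK π ρ) (fixK_iff π ρ g)) = 1
  rw [← map_one (Equiv.Perm.ofSubtype (p := FixK π ρ))]
  congr 1
  apply Equiv.ext
  intro y
  apply Subtype.ext
  rw [Equiv.Perm.subtypePerm_apply]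
  exact y.2 g hg

end

theorem modelled_descend {G H : Type} [Group G] [Group H] (π : G →* H)
    (hπ : Function.Surjective π) (hfin : Finite π.ker) {f : (n : ℕ) → H → Equiv.Perm (Fin n)}
    (hf : AlmostHom f) (h : PartlyModelled (fun n (g : G) => f n (π g))) : PartlyModelled f := by
  classical
  obtain ⟨δ, hδ, h⟩ := h
  refine ⟨δ / 2, by positivity, fun E η hη => ?_⟩
  have hZfin : Set.Finite (π.ker : Set G) := Set.toFinite _
  obtain ⟨Z, hZ⟩ : ∃ Z : Finset G, ∀ z, z ∈ Z ↔ π z = 1 :=
    ⟨hZfin.toFinset, fun z => by rw [Set.Finite.mem_toFinset]; exact Iff.rfl⟩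
  obtain ⟨s, hs⟩ : ∃ s : H → G, ∀ x, π (s x) = x := ⟨Function.surjInv hπ, Function.surjInv_eq hπ⟩
  obtain ⟨η', hη'⟩ : ∃ η' : ℝ, η' = min η (δ / (4 * (Z.card + 1))) := ⟨_, rfl⟩
  have hη'pos : 0 < η' := by
    rw [hη']
    exact lt_min hη (by positivity)
  have hη'1 : η' ≤ η := by
    rw [hη']
    exact min_le_left _ _
  have hη'2 : Z.card * (2 * η') ≤ δ / 2 := by
    have h1 : η' ≤ δ / (4 * (Z.card + 1)) := by
      rw [hη']
      exact min_le_right _ _
    rw [le_div_iff₀ (by positivity)] at h1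
    nlinarith
  have hone := most_one hf η' hη'pos
  refine ((h (E.image s ∪ Z) η' hη'pos).and_eventually hone).mono ?_
  rintro n ⟨⟨m, ρ, A, ι, hA, hinj, herr⟩, B, hB, hB'⟩
  refine ⟨m, MonoidHom.liftOfSurjective π hπ ⟨fixHom π ρ, fun g hg => fixHom_ker π ρ g hg⟩,
    A.filter fun x => FixK π ρ (ι x), ι, ?_, ?_, ?_⟩
  · -- the size
    have h1 : A \ (A.filter fun x => FixK π ρ (ι x)) ⊆
        Z.biUnion fun z => (A.filter fun x => f n (π z) x ∉ A ∨ ι (f n (π z) x) ≠ ρ z (ι x)) ∪ B := by
      intro x hx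
      rw [Finset.mem_sdiff, mem_filter, not_and] at hx
      have h2 := hx.2 hx.1
      unfold FixK at h2
      push Not at h2
      obtain ⟨z, hz, hzx⟩ := h2
      rw [mem_biUnion]
      refine ⟨z, (hZ z).2 hz, ?_⟩
      rw [mem_union]
      by_contra hc
      rw [not_or, mem_filter, not_and] at hc
      have h3 := hc.1 hx.1
      rw [not_or, not_not, not_not] at h3
      have h4 : f n (π z) x = x := by
        rw [hz]
        exact hB' x hc.2
      rw [h4] at h3
      exact hzx h3.2.symm
    have h2 : ((A \ (A.filter fun x => FixK π ρ (ι x))).card : ℝ) ≤ Z.card * (2 * η' * n) := by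
      have h3 := (Finset.card_le_card h1).trans Finset.card_biUnion_le
      have h4 : ((A \ (A.filter fun x => FixK π ρ (ι x))).card : ℝ) ≤ ∑ z ∈ Z,
          (((A.filter fun x => f n (π z) x ∉ A ∨ ι (f n (π z) x) ≠ ρ z (ι x)) ∪ B).card : ℝ) := by
        exact_mod_cast h3
      refine h4.trans ?_
      rw [← nsmul_eq_mul]
      apply Finset.sum_le_card_nsmul
      intro z hz
      have h5 : (((A.filter fun x => f n (π z) x ∉ A ∨ ι (f n (π z) x) ≠ ρ z (ι x)) ∪ B).card : ℝ)
          ≤ ((A.filter fun x => f n (π z) x ∉ A ∨ ι (f n (π z) x) ≠ ρ z (ι x)).card : ℝ) +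
            B.card := by
        exact_mod_cast Finset.card_union_le _ _
      have h6 := herr z (Finset.mem_union_right _ hz)
      refine h5.trans ?_
      have h7 : 2 * η' * (n : ℝ) = η' * n + η' * n := by ring
      rw [h7]
      refine add_le_add ?_ hB
      convert h6
    have h3 : ((A \ (A.filter fun x => FixK π ρ (ι x))).card : ℝ) +
        (A.filter fun x => FixK π ρ (ι x)).card = A.card := by
      exact_mod_cast Finset.card_sdiff_add_card_eq_card (Finset.filter_subset _ _)
    have h4 : (Z.card : ℝ) * (2 * η' * n) ≤ δ / 2 * n := by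
      have h5 := mul_le_mul_of_nonneg_right hη'2 (Nat.cast_nonneg (α := ℝ) n)
      linarith
    linarith
  · intro x hx y hy hxy
    rw [Finset.mem_coe, mem_filter] at hx hy
    exact hinj (Finset.mem_coe.2 hx.1) (Finset.mem_coe.2 hy.1) hxy
  · intro g hg
    have h1 := herr (s g) (Finset.mem_union_left _ (Finset.mem_image_of_mem s hg))
    refine le_trans ?_ (h1.trans (mul_le_mul_of_nonneg_right hη'1 (Nat.cast_nonneg n)))
    have hlift : MonoidHom.liftOfSurjective π hπ ⟨fixHom π ρ, fun g hg => fixHom_ker π ρ g hg⟩ g =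
        fixHom π ρ (s g) := by
      have h2 := MonoidHom.liftOfRightInverse_comp_apply π _ (Function.rightInverse_surjInv hπ)
        ⟨fixHom π ρ, fun g hg => fixHom_ker π ρ g hg⟩ (s g)
      rw [hs g] at h2
      exact h2
    rw [hlift]
    have hsub : ((A.filter fun x => FixK π ρ (ι x)).filter fun x =>
        f n g x ∉ (A.filter fun x => FixK π ρ (ι x)) ∨ ι (f n g x) ≠ fixHom π ρ (s g) (ι x)) ⊆
        A.filter fun x => f n (π (s g)) x ∉ A ∨ ι (f n (π (s g)) x) ≠ ρ (s g) (ι x) := by
      intro x hx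
      rw [mem_filter, mem_filter] at hx
      obtain ⟨⟨hxA, hxF⟩, hx2⟩ := hx
      rw [mem_filter]
      refine ⟨hxA, ?_⟩
      by_contra hc
      rw [not_or, not_not, not_not, hs] at hc
      rw [fixHom_apply π ρ (s g) (ι x) hxF] at hx2
      rcases hx2 with h2 | h2
      · apply h2
        rw [mem_filter]
        refine ⟨hc.1, ?_⟩
        rw [hc.2]
        exact (fixK_iff π ρ (s g) (ι x)).2 hxF
      · exact h2 hc.2
    have h3 := Finset.card_le_card hsub
    refine le_trans (Nat.cast_le.2 h3) (le_of_eq ?_)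
    congr 2

end Pool.Agent.IRS
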