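import Pool.Agent.IRS.Final
import Pool.Agent.FS84.FinalI
import Pool.Agent.FS84.FinalS

/-!
Flexible stability of `SL_k(ℤ)`, `k ≥ 3`, in terms of the sofic approximations of `PSL_k(ℤ)`.
-/

set_option autoImplicit false
open Filter Topology Finset

namespace Pool.Agent.IRS

open Pool.Agent.TAU (SL el IsEl ElProd Cong InBlock)
open Pool.Agent.FS84 (AlmostHom Aperiodic PartlyModelled FlexStable Most most_fixed most_one
  HasNear Inv Sofic)

/-- a residually finite group is sofic -/
theorem sofic_of_residuallyFinite {H : Type} [Group H] (hRF : Group.ResiduallyFinite H) :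
    Sofic H := by
  classical
  intro K ε hε
  have hex : ∀ t : {t : H // t ∈ K ∧ t ≠ 1}, ∃ M : Subgroup H, M.FiniteIndex ∧ (t : H) ∉ M :=
    fun t => Group.residuallyFinite_iff_exists_finiteIndex.1 hRF (t : H) t.2.2
  choose M hM hMt using hex
  have hfin : Finite {t : H // t ∈ K ∧ t ≠ 1} :=
    Finite.of_injective (fun t : {t : H // t ∈ K ∧ t ≠ 1} => (⟨t.1, t.2.1⟩ : {t // t ∈ K}))
      (fun a b h => Subtype.ext (congrArg (fun x : {t // t ∈ K} => x.1) h))
  have hN1 : (⨅ t, (M t).normalCore).FiniteIndex :=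
    Subgroup.finiteIndex_iInf fun t => by
      have := hM t
      infer_instance
  have hN2 : (⨅ t, (M t).normalCore).Normal :=
    Subgroup.normal_iInf_normal fun t => Subgroup.normalCore_normal _
  set N := ⨅ t, (M t).normalCore with hN
  have hNt : ∀ s ∈ K, s ≠ 1 → s ∉ N := by
    intro s hs hs1 hc
    exact hMt ⟨s, hs, hs1⟩ (Subgroup.normalCore_le _ ((Subgroup.mem_iInf.1 hc) ⟨s, hs, hs1⟩))
  have hQ : Finite (H ⧸ N) := Subgroup.finite_quotient_of_finiteIndex
  have hn : 0 < Nat.card (H ⧸ N) := Nat.card_pos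
  refine ⟨Nat.card (H ⧸ N), fun h => (Finite.equivFin (H ⧸ N)).permCongr
    (MulAction.toPermHom H (H ⧸ N) h), hn, ?_, ?_⟩
  · intro s _ t _
    rw [Finset.filter_false_of_mem, Finset.card_empty, Nat.cast_zero]
    · positivity
    · intro v _ hc
      apply hc
      rw [Equiv.permCongr_apply, Equiv.permCongr_apply, Equiv.permCongr_apply,
        Equiv.symm_apply_apply, map_mul]
      rfl
  · intro s hs hs1
    rw [Finset.filter_false_of_mem, Finset.card_empty, Nat.cast_zero]
    · positivity
    · intro v _ hc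
      apply hNt s hs hs1
      rw [Equiv.permCongr_apply, ← Equiv.eq_symm_apply] at hc
      obtain ⟨x, hx⟩ := QuotientGroup.mk_surjective ((Finite.equivFin (H ⧸ N)).symm v)
      rw [← hx] at hc
      have h1 : ((s * x : H) : H ⧸ N) = x := hc
      rw [QuotientGroup.eq, mul_inv_rev, mul_assoc] at h1
      have h2 := hN2.conj_mem _ h1 x
      have h3 : x * (x⁻¹ * (s⁻¹ * x)) * x⁻¹ = s⁻¹ := by group
      rw [h3] at h2
      exact N.inv_mem_iff.1 h2

/-- the spectral gap of finite actions passes to quotients -/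
theorem hasNear_of_surjective {G H : Type} [Group G] [Group H] (p : G →* H)
    (hp : Function.Surjective p) (hG : HasNear G) : HasNear H := by
  classical
  obtain ⟨F, C, hC, h⟩ := hG
  refine ⟨F.image p, C * (F.card + 1), by positivity, ?_⟩
  intro X _ _ ρ A
  obtain ⟨B, hB, hB'⟩ := h X (ρ.comp p) A
  refine ⟨B, ?_, ?_⟩
  · intro g x
    obtain ⟨g', rfl⟩ := hp g
    exact hB g' x
  · refine le_trans hB' ?_
    rw [mul_assoc]
    apply mul_le_mul_of_nonneg_left _ hC.le
    have h1 : ∀ a ∈ F, ((A.filter fun x => (ρ.comp p) a x ∉ A).card : ℝ) ≤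
        ∑ b ∈ F.image p, ((A.filter fun x => ρ b x ∉ A).card : ℝ) := by
      intro a ha
      exact Finset.single_le_sum (f := fun b => ((A.filter fun x => ρ b x ∉ A).card : ℝ))
        (fun b _ => Nat.cast_nonneg _) (Finset.mem_image_of_mem p ha)
    have h2 := Finset.sum_le_sum h1
    rw [Finset.sum_const, nsmul_eq_mul] at h2
    have h3 : 0 ≤ ∑ b ∈ F.image p, ((A.filter fun x => ρ b x ∉ A).card : ℝ) :=
      Finset.sum_nonneg fun b _ => Nat.cast_nonneg _
    nlinarith

/-- `PSL_k(ℤ)` -/
abbrev PSL (k : ℕ) : Type := Matrix.ProjectiveSpecialLinearGroup (Fin k) ℤ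

/-- `f` is a sofic approximation of `G` -/
def SoficApprox {G : Type} [Group G] (f : (n : ℕ) → G → Equiv.Perm (Fin n)) : Prop :=
  AlmostHom f ∧ ∀ g : G, g ≠ 1 → Small f g

theorem countable_sl (k : ℕ) : Countable (SL k) := by
  have hM : Countable (Matrix (Fin k) (Fin k) ℤ) :=
    inferInstanceAs (Countable (Fin k → Fin k → ℤ))
  exact Subtype.countable

theorem tendsto_of_most {G : Type} [Group G] {f : (n : ℕ) → G → Equiv.Perm (Fin n)}
    (hf : AlmostHom f) (S : Finset G) (g : G) (hmem : g ∈ Subgroup.closure (S : Set G))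
    (h1 : Small f g) :
    Tendsto (fun n : ℕ => ((univ.filter fun x : Fin n => ∀ s ∈ S, f n s x = x).card : ℝ) / n)
      atTop (𝓝 0) := by
  classical
  have h2 := (most_fixed hf S _ hmem).and h1.most
  rw [Metric.tendsto_atTop]
  intro ε hε
  obtain ⟨n1, hn1⟩ := eventually_atTop.1 (h2 (ε / 2) (by positivity))
  refine ⟨max n1 1, fun n hn => ?_⟩
  obtain ⟨B, hB, hB'⟩ := hn1 n (le_trans (le_max_left _ _) hn)
  have h3 : (0 : ℝ) < n := by
    have : 0 < n := lt_of_lt_of_le one_pos (le_trans (le_max_right _ _) hn)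
    exact_mod_cast this
  have h4 : (univ.filter fun x : Fin n => ∀ s ∈ S, f n s x = x) ⊆ B := by
    intro x hx
    rw [mem_filter] at hx
    by_contra hc
    exact (hB' x hc).2 ((hB' x hc).1 hx.2)
  have h5 : ((univ.filter fun x : Fin n => ∀ s ∈ S, f n s x = x).card : ℝ) ≤ B.card := by
    exact_mod_cast card_le_card h4
  rw [Real.dist_eq, sub_zero, abs_of_nonneg (by positivity), div_lt_iff₀ h3]
  nlinarith

theorem aperiodic_psl_iff (k : ℕ) (hk : 3 ≤ k) (f : (n : ℕ) → PSL k → Equiv.Perm (Fin n))
    (hf : AlmostHom f) : Aperiodic f ↔ ∀ g, g ≠ 1 → Small f g := by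
  classical
  have hf' : AlmostHom (fun n (g : SL k) => f n (QuotientGroup.mk' (Subgroup.center (SL k)) g)) := by
    intro g h
    have := hf (QuotientGroup.mk' (Subgroup.center (SL k)) g)
      (QuotientGroup.mk' (Subgroup.center (SL k)) h)
    rw [← map_mul] at this
    exact this
  constructor
  · intro ha g hg
    obtain ⟨x, rfl⟩ := QuotientGroup.mk'_surjective (Subgroup.center (SL k)) g
    have hx : x ∉ Subgroup.center (SL k) := by
      intro hc
      exact hg ((QuotientGroup.eq_one_iff x).2 hc)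
    refine (aperiodic_iff k hk _ hf').1 ?_ x hx
    intro S hS
    have h1 : (Subgroup.closure ((S.image (QuotientGroup.mk' (Subgroup.center (SL k))) :
        Finset (PSL k)) : Set (PSL k))).FiniteIndex := by
      rw [Finset.coe_image, ← MonoidHom.map_closure]
      constructor
      exact ne_zero_of_dvd_ne_zero hS.index_ne_zero
        (Subgroup.index_map_dvd _ (QuotientGroup.mk'_surjective _))
    have h2 := ha _ h1
    refine h2.congr fun n => ?_
    have h3 : (univ.filter fun x : Fin n => ∀ s ∈ S.image (QuotientGroup.mk' (Subgroup.center (SL k))),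
        f n s x = x) = (univ.filter fun x : Fin n => ∀ s ∈ S,
        f n (QuotientGroup.mk' (Subgroup.center (SL k)) s) x = x) := by
      apply Finset.filter_congr
      intro x _
      constructor
      · intro h s hs
        exact h _ (Finset.mem_image_of_mem _ hs)
      · intro h s hs
        obtain ⟨s', hs', rfl⟩ := Finset.mem_image.1 hs
        exact h s' hs'
    rw [h3]
  · intro hs S hS
    have i0 : (⟨0, by omega⟩ : Fin k) ≠ ⟨1, by omega⟩ := by
      intro h
      have := congrArg Fin.val h
      simp at this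
    obtain ⟨n0, hn0, _, hmem⟩ := Subgroup.exists_pow_mem_of_index_ne_zero hS.index_ne_zero
      (QuotientGroup.mk' (Subgroup.center (SL k)) (el (⟨0, by omega⟩ : Fin k) ⟨1, by omega⟩ i0 1))
    rw [← map_pow, Pool.Agent.TAU.asm_el_pow, mul_one] at hmem
    have h1 := hs _ (fun hc => el_not_central hk _ _ i0 (n0 : ℤ) (by exact_mod_cast hn0.ne')
      ((QuotientGroup.eq_one_iff _).1 hc))
    exact tendsto_of_most hf S _ hmem h1

theorem flexStable_psl_iff (k : ℕ) (hk : 3 ≤ k) : FlexStable (PSL k) ↔
    ∀ f : (n : ℕ) → PSL k → Equiv.Perm (Fin n), SoficApprox f → PartlyModelled f := by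
  have hc := countable_sl k
  have hc' : Countable (PSL k) :=
    (QuotientGroup.mk'_surjective (Subgroup.center (SL k))).countable
  have hnear : HasNear (PSL k) := hasNear_of_surjective
    (QuotientGroup.mk' (Subgroup.center (SL k))) (QuotientGroup.mk'_surjective _)
    (Pool.Agent.TAU.hasNear k hk)
  rw [Pool.Agent.FS84.flexStable_iff hnear]
  constructor
  · intro h f hf
    exact h f hf.1 ((aperiodic_psl_iff k hk f hf.1).2 hf.2)
  · intro h f hf ha
    exact h f ⟨hf, (aperiodic_psl_iff k hk f hf).1 ha⟩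

theorem flexStable_sl_psl (k : ℕ) (hk : 3 ≤ k) : FlexStable (SL k) ↔ FlexStable (PSL k) := by
  have hc := countable_sl k
  have hc' : Countable (PSL k) :=
    (QuotientGroup.mk'_surjective (Subgroup.center (SL k))).countable
  have hnear : HasNear (PSL k) := hasNear_of_surjective
    (QuotientGroup.mk' (Subgroup.center (SL k))) (QuotientGroup.mk'_surjective _)
    (Pool.Agent.TAU.hasNear k hk)
  have h1 : Finite (QuotientGroup.mk' (Subgroup.center (SL k))).ker := by
    rw [QuotientGroup.ker_mk']
    exact Finite.of_equiv _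
      (Matrix.SpecialLinearGroup.center_equiv_rootsOfUnity (n := Fin k) (R := ℤ)).symm.toEquiv
  have h2 : (QuotientGroup.mk' (Subgroup.center (SL k))).range.FiniteIndex := by
    rw [MonoidHom.range_eq_top.2 (QuotientGroup.mk'_surjective _)]
    infer_instance
  exact (Pool.Agent.FS84.flexStable_iff_of_sofic hnear
    (QuotientGroup.mk' (Subgroup.center (SL k)))
    (sofic_of_residuallyFinite (Pool.Agent.FS84.sl_residuallyFinite k))).symm

theorem flexStable_iff_sofic_approximations (k : ℕ) (hk : 3 ≤ k) : FlexStable (SL k) ↔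
    ∀ f : (n : ℕ) → PSL k → Equiv.Perm (Fin n), SoficApprox f → PartlyModelled f :=
  (flexStable_sl_psl k hk).trans (flexStable_psl_iff k hk)

end Pool.Agent.IRS
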