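import Pool.Agent.IRS.DensDefs
import Pool.Agent.IRS.Psl

/-!
Almost-homomorphisms of `PSL_k(ℤ)` which are covered, with a bounded density, by copies of the
groups `SL_k(ℤ/M)`. Definitions.
-/

set_option autoImplicit false
open Filter Topology Finset

namespace Pool.Agent.IRS

open Pool.Agent.TAU (SL)

/-- `SL_k(ℤ/M)` -/
abbrev SLM (k M : ℕ) : Type := Matrix.SpecialLinearGroup (Fin k) (ZMod M)

/-- the reduction `SL_k(ℤ) → SL_k(ℤ/M)` -/
def redM (k M : ℕ) : SL k →* SLM k M := Matrix.SpecialLinearGroup.map (Int.castRingHom (ZMod M))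

/-- the matrix `A ∈ SL_k(ℤ)` acts on the points `(q, i)` of `SL_k(ℤ/M) × {1, …, t}` -/
def actM {k M t : ℕ} (A : SL k) (y : SLM k M × Fin t) : SLM k M × Fin t := (redM k M A * y.1, y.2)

open Classical in
/-- `f` is congruence covered: there is `K` such that for every finite `E ⊆ SL_k(ℤ)` and for
infinitely many `n` there are `M ≥ 1`, `t`, a nonempty set `D` of points of
`SL_k(ℤ/M) × {1, …, t}` and a map `p` to the `n` points of `f` with at most `K |D| / n` points of
`D` over every point, so that for every `A ∈ E` at most `|D| / 12` points `y` of `D` have `A y`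
outside `D` or `p (A y) ≠ f n (± A) (p y)`. -/
def CongCovered {k : ℕ} (f : (n : ℕ) → PSL k → Equiv.Perm (Fin n)) : Prop :=
  ∃ K : ℕ, ∀ E : Finset (SL k), ∃ᶠ n : ℕ in atTop,
    ∃ (M t : ℕ) (D : Finset (SLM k M × Fin t)) (p : SLM k M × Fin t → Fin n),
      0 < M ∧ D.Nonempty ∧ (∀ a, (D.filter fun y => p y = a).card * n ≤ K * D.card) ∧
      ∀ A ∈ E, 12 * (D.filter fun y => actM A y ∉ D ∨
        p (actM A y) ≠ f n (QuotientGroup.mk' _ A) (p y)).card ≤ D.card

end Pool.Agent.IRS
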