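import Pool.Agent.IRS.DensFinal
import Pool.Agent.IRS.CongA
import Pool.Agent.IRS.CongB
import Pool.Agent.IRS.CongC

/-!
Flexible stability of `SL_k(ℤ)`, `k ≥ 3`: it is enough that every sofic approximation of
`PSL_k(ℤ)` is covered, with a bounded density, by copies of the groups `SL_k(ℤ/M)`.
-/

set_option autoImplicit false
open Filter Topology Finset

namespace Pool.Agent.IRS

open Pool.Agent.TAU (SL)
open Pool.Agent.FS84 (AlmostHom PartlyModelled FlexStable HasNear)

theorem flexStable_iff_cong (k : ℕ) (hk : 3 ≤ k) :
    FlexStable (Matrix.SpecialLinearGroup (Fin k) ℤ) ↔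
    ∀ f : (n : ℕ) → Matrix.ProjectiveSpecialLinearGroup (Fin k) ℤ → Equiv.Perm (Fin n),
      SoficApprox f → CongCovered f := by
  constructor
  · intro h f hf
    exact congCovered_of_weakly k hk f ((flexStable_iff_weakly k hk).1 h f hf)
  · intro h
    rw [flexStable_iff_sofic_approximations k hk]
    intro f hf
    have hf' : AlmostHom (fun n (A : SL k) => f n (QuotientGroup.mk' _ A)) := by
      intro A B
      simp only [map_mul]
      exact hf.1 _ _
    have h1 := partly_of_weakly hf' (weakly_of_cong k f (h f hf))
    have h2 := modelled_of_covered (Pool.Agent.TAU.hasNear k hk) h1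
    have hker : Finite (QuotientGroup.mk' (Subgroup.center (SL k))).ker := by
      rw [QuotientGroup.ker_mk']
      exact Finite.of_equiv _
        (Matrix.SpecialLinearGroup.center_equiv_rootsOfUnity (n := Fin k) (R := ℤ)).symm.toEquiv
    exact modelled_descend (QuotientGroup.mk' (Subgroup.center (SL k)))
      (QuotientGroup.mk'_surjective _) hker hf.1 h2

end Pool.Agent.IRS
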