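import Pool.Agent.IRS.CongFinal

/-!
Flexible stability of `SL_k(ℤ)`, `k ≥ 3`, in terms of coverings of the sofic approximations of
`PSL_k(ℤ)` by finite `SL_k(ℤ)`-sets, or by copies of the groups `SL_k(ℤ/M)`.
-/

set_option autoImplicit false
open Filter Topology Finset

namespace Pool.Agent.IRS

open Pool.Agent.TAU (SL)
open Pool.Agent.FS84 (AlmostHom PartlyModelled FlexStable HasNear)

/-- the almost-homomorphism of `SL_k(ℤ)` which belongs to one of `PSL_k(ℤ)`, `A ↦ f n (± A)` -/
def liftSL {k : ℕ} (f : (n : ℕ) → PSL k → Equiv.Perm (Fin n)) (n : ℕ) (A : SL k) :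
    Equiv.Perm (Fin n) :=
  f n (QuotientGroup.mk' _ A)

theorem flexStable_of_weakly_lift (k : ℕ) (hk : 3 ≤ k)
    (h : ∀ f : (n : ℕ) → PSL k → Equiv.Perm (Fin n), SoficApprox f → WeaklyCovered (liftSL f)) :
    FlexStable (SL k) := by
  rw [flexStable_iff_sofic_approximations k hk]
  intro f hf
  have hf' : AlmostHom (liftSL f) := by
    intro A B
    unfold liftSL
    simp only [map_mul]
    exact hf.1 _ _
  have h2 := modelled_of_covered (Pool.Agent.TAU.hasNear k hk) (partly_of_weakly hf' (h f hf))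
  have hker : Finite (QuotientGroup.mk' (Subgroup.center (SL k))).ker := by
    rw [QuotientGroup.ker_mk']
    exact Finite.of_equiv _
      (Matrix.SpecialLinearGroup.center_equiv_rootsOfUnity (n := Fin k) (R := ℤ)).symm.toEquiv
  exact modelled_descend (QuotientGroup.mk' (Subgroup.center (SL k)))
    (QuotientGroup.mk'_surjective _) hker hf.1 h2

theorem flexStable_tfae (k : ℕ) (hk : 3 ≤ k) :
    [FlexStable (Matrix.SpecialLinearGroup (Fin k) ℤ),
      ∀ f : (n : ℕ) → Matrix.ProjectiveSpecialLinearGroup (Fin k) ℤ → Equiv.Perm (Fin n),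
        SoficApprox f → WeaklyCovered (liftSL f),
      ∀ f : (n : ℕ) → Matrix.ProjectiveSpecialLinearGroup (Fin k) ℤ → Equiv.Perm (Fin n),
        SoficApprox f → CongCovered f].TFAE := by
  tfae_have 1 → 3 := (flexStable_iff_cong k hk).1
  tfae_have 3 → 2 := fun h f hf => weakly_of_cong k f (h f hf)
  tfae_have 2 → 1 := flexStable_of_weakly_lift k hk
  tfae_finish

end Pool.Agent.IRS
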