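import Pool.Agent.IRS.Defs
import Pool.Agent.FS84.Aper

/-!
The counting lemmas.
-/

set_option autoImplicit false
open Filter Topology Finset

namespace Pool.Agent.IRS

open Pool.Agent.FS84 (AlmostHom Aperiodic PartlyModelled FlexStable Most most_fixed most_one)

variable {G : Type}

theorem small_of_le {f : (n : ℕ) → G → Equiv.Perm (Fin n)} {g : G}
    (h : ∀ ε : ℝ, 0 < ε → ∀ᶠ n : ℕ in atTop,
      ((univ.filter fun x : Fin n => f n g x = x).card : ℝ) ≤ ε * n) : Small f g := by
  rw [Small, Metric.tendsto_atTop]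
  intro ε hε
  obtain ⟨n0, hn0⟩ := eventually_atTop.1 (h (ε / 2) (by positivity))
  refine ⟨max n0 1, fun n hn => ?_⟩
  have h1 := hn0 n (le_trans (le_max_left _ _) hn)
  have h2 : (0 : ℝ) < n := by
    have : 0 < n := lt_of_lt_of_le one_pos (le_trans (le_max_right _ _) hn)
    exact_mod_cast this
  rw [Real.dist_eq, sub_zero, abs_of_nonneg (by positivity), div_lt_iff₀ h2]
  nlinarith

theorem le_of_tendsto {P : (n : ℕ) → Fin n → Prop} [∀ n, DecidablePred (P n)]
    (h : Tendsto (fun n : ℕ => ((univ.filter (P n)).card : ℝ) / n) atTop (𝓝 0))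
    (ε : ℝ) (hε : 0 < ε) : ∀ᶠ n : ℕ in atTop, ((univ.filter (P n)).card : ℝ) ≤ ε * n := by
  filter_upwards [(tendsto_order.1 h).2 ε hε, eventually_gt_atTop 0] with n hn hn0
  rw [div_lt_iff₀ (by exact_mod_cast hn0)] at hn
  exact hn.le

theorem Small.most {f : (n : ℕ) → G → Equiv.Perm (Fin n)} {g : G} (h : Small f g) :
    Most (fun n x => f n g x ≠ x) := by
  intro ε hε
  filter_upwards [le_of_tendsto h ε hε] with n hn
  refine ⟨univ.filter fun x : Fin n => f n g x = x, hn, ?_⟩
  intro x hx hc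
  apply hx
  rw [mem_filter]
  exact ⟨mem_univ _, hc⟩

theorem Link.trans {f : (n : ℕ) → G → Equiv.Perm (Fin n)} {g h l : G} {ε ε' : ℝ}
    (h1 : Link f g h ε) (h2 : Link f h l ε') : Link f g l (ε + ε') := by
  classical
  unfold Link at h1 h2 ⊢
  filter_upwards [h1, h2] with n hn hn'
  have e : (univ.filter fun x : Fin n => f n g x = x ∧ f n l x ≠ x) ⊆
      (univ.filter fun x : Fin n => f n g x = x ∧ f n h x ≠ x) ∪
      (univ.filter fun x : Fin n => f n h x = x ∧ f n l x ≠ x) := by
    intro x hx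
    rw [mem_filter] at hx
    rw [mem_union, mem_filter, mem_filter]
    by_cases hc : f n h x = x
    · exact Or.inr ⟨mem_univ _, hc, hx.2.2⟩
    · exact Or.inl ⟨mem_univ _, hx.2.1, hc⟩
  have e1 : ((univ.filter fun x : Fin n => f n g x = x ∧ f n l x ≠ x).card : ℝ) ≤
      (univ.filter fun x : Fin n => f n g x = x ∧ f n h x ≠ x).card +
      (univ.filter fun x : Fin n => f n h x = x ∧ f n l x ≠ x).card := by
    exact_mod_cast (card_le_card e).trans (card_union_le _ _)
  linarith

theorem Link.mono {f : (n : ℕ) → G → Equiv.Perm (Fin n)} {g h : G} {ε ε' : ℝ}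
    (h1 : Link f g h ε) (h2 : ε ≤ ε') : Link f g h ε' := by
  unfold Link at h1 ⊢
  filter_upwards [h1] with n hn
  have : (0 : ℝ) ≤ n := Nat.cast_nonneg n
  nlinarith

theorem link_of_most {f : (n : ℕ) → G → Equiv.Perm (Fin n)} {g h : G}
    (hm : Most (fun n x => f n g x = x → f n h x = x)) (ε : ℝ) (hε : 0 < ε) : Link f g h ε := by
  unfold Link
  filter_upwards [hm ε hε] with n hn
  obtain ⟨B, hB, hB'⟩ := hn
  refine le_trans ?_ hB
  have : (univ.filter fun x : Fin n => f n g x = x ∧ f n h x ≠ x) ⊆ B := by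
    intro x hx
    rw [mem_filter] at hx
    by_contra hc
    exact hx.2.2 (hB' x hc hx.2.1)
  exact_mod_cast card_le_card this

/-- if the points with property `P` are moved off `P` by the `w ^ t`, `0 < t < N`, then they are
at most `n / N + o(n)` -/
theorem pack [Group G] {f : (n : ℕ) → G → Equiv.Perm (Fin n)} (hf : AlmostHom f) (w : G) (N : ℕ)
    (hN : 0 < N) (P : (n : ℕ) → Fin n → Prop) [∀ n, DecidablePred (P n)]
    (hP : ∀ t : ℕ, 0 < t → t < N → Most (fun n y => P n y → P n (f n (w ^ t) y) → False))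
    (ε : ℝ) (hε : 0 < ε) :
    ∀ᶠ n : ℕ in atTop, ((univ.filter (P n)).card : ℝ) ≤ (1 / N + ε) * n := by
  classical
  have hall : Most (fun n y => ∀ p ∈ range N ×ˢ range N, p.1 < p.2 →
      f n (w ^ p.1) (f n (w ^ (p.2 - p.1)) y) = f n (w ^ p.2) y ∧
      (P n y → P n (f n (w ^ (p.2 - p.1)) y) → False)) := by
    apply Most.allFinset
    intro p hp
    rw [mem_product, mem_range, mem_range] at hp
    by_cases h : p.1 < p.2
    · apply ((hf.most (w ^ p.1) (w ^ (p.2 - p.1))).and
        (hP (p.2 - p.1) (by omega) (by omega))).mono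
      intro n x hx _
      refine ⟨?_, hx.2⟩
      rw [hx.1, ← pow_add, Nat.add_sub_cancel' h.le]
    · exact Most.of_all fun n x hc => absurd hc h
  filter_upwards [hall ε hε] with n hn
  obtain ⟨B, hB, hB'⟩ := hn
  have hinj : (range N ×ˢ ((univ.filter (P n)) \ B)).card ≤ (univ : Finset (Fin n)).card := by
    apply Finset.card_le_card_of_injOn (fun p => f n (w ^ p.1) p.2) (fun p _ => mem_univ _)
    have key : ∀ i j : ℕ, ∀ x y : Fin n, i < N → j < N → x ∈ (univ.filter (P n)) \ B →
        y ∈ (univ.filter (P n)) \ B → f n (w ^ i) x = f n (w ^ j) y → i < j → False := by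
      intro i j x y hi hj hx hy e hij
      rw [Finset.mem_sdiff, mem_filter] at hx hy
      have h1 := hB' y hy.2 (i, j) (by
        rw [mem_product, mem_range, mem_range]
        exact ⟨hi, hj⟩) hij
      have h2 : x = f n (w ^ (j - i)) y := by
        apply (f n (w ^ i)).injective
        rw [e]
        exact h1.1.symm
      apply h1.2 hy.1.2
      show P n (f n (w ^ (j - i)) y)
      rw [← h2]
      exact hx.1.2
    rintro ⟨i, x⟩ hp ⟨j, y⟩ hq e
    rw [mem_coe, mem_product, mem_range] at hp hq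
    simp only at hp hq e
    rcases lt_trichotomy i j with h | h | h
    · exact (key i j x y hp.1 hq.1 hp.2 hq.2 e h).elim
    · subst h
      rw [(f n (w ^ i)).injective e]
    · exact (key j i y x hq.1 hp.1 hq.2 hp.2 e.symm h).elim
  rw [card_product, card_range, card_univ, Fintype.card_fin] at hinj
  have h1 : ((univ.filter (P n)).card : ℝ) ≤ ((univ.filter (P n)) \ B).card + B.card := by
    have : (univ.filter (P n)).card ≤ ((univ.filter (P n)) \ B).card + B.card := by
      have := Finset.card_le_card_sdiff_add_card (s := univ.filter (P n)) (t := B)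
      omega
    exact_mod_cast this
  have h2 : (N : ℝ) * (((univ.filter (P n)) \ B).card : ℝ) ≤ n := by exact_mod_cast hinj
  have h3 : (0 : ℝ) < N := by exact_mod_cast hN
  have h4 : ((((univ.filter (P n)) \ B).card : ℕ) : ℝ) ≤ 1 / N * n := by
    rw [one_div, ← div_eq_inv_mul, le_div_iff₀ h3]
    linarith
  linarith

theorem comm_fix [Group G] {f : (n : ℕ) → G → Equiv.Perm (Fin n)} (hf : AlmostHom f) (g a : G) :
    Most (fun n y => f n g y = y → f n g (f n a y) = f n a y →
      f n (g * a * g⁻¹ * a⁻¹) (f n a y) = f n a y) := by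
  apply ((hf.most (g * a * g⁻¹ * a⁻¹) a).and ((hf.most (g * a) g⁻¹).and ((hf.most g a).and
    ((hf.most g⁻¹ g).and (most_one hf))))).mono
  rintro n y ⟨h1, h2, h3, h4, h5⟩ hy hx
  have e1 : f n g⁻¹ y = y := by
    rw [hy, inv_mul_cancel, h5] at h4
    exact h4
  rw [h1, inv_mul_cancel_right, ← h2, e1, ← h3, hx]

theorem count [Group G] {f : (n : ℕ) → G → Equiv.Perm (Fin n)} (hf : AlmostHom f)
    (g h w : G) (N : ℕ) (hN : 0 < N)
    (hw : ∀ t : ℕ, 0 < t → t < N → ∃ s : ℤ, h = (g * w ^ t * g⁻¹ * (w ^ t)⁻¹) ^ s)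
    (ε : ℝ) (hε : 0 < ε) : Link f g h (1 / N + ε) := by
  classical
  apply pack hf w N hN (fun n x => f n g x = x ∧ f n h x ≠ x) _ ε hε
  intro t ht htN
  obtain ⟨s, hs⟩ := hw t ht htN
  have h1 : Most (fun n x => f n (g * w ^ t * g⁻¹ * (w ^ t)⁻¹) x = x → f n h x = x) := by
    apply (most_fixed hf {g * w ^ t * g⁻¹ * (w ^ t)⁻¹} h (by
      rw [hs]
      apply Subgroup.zpow_mem
      apply Subgroup.subset_closure
      simp)).mono
    intro n x hx hc
    apply hx
    intro s' hs'
    rw [Finset.mem_singleton] at hs'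
    rw [hs', hc]
  apply ((comm_fix hf g (w ^ t)).and (h1.perm (fun n => f n (w ^ t)))).mono
  rintro n y ⟨e1, e2⟩ ⟨hy, _⟩ ⟨hx, hx'⟩
  exact hx' (e2 (e1 hy hx))

theorem small_of_comm [Group G] {f : (n : ℕ) → G → Equiv.Perm (Fin n)}
    (hf : AlmostHom f) (g w : G)
    (hw : ∀ t : ℕ, 0 < t → Small f (g * w ^ t * g⁻¹ * (w ^ t)⁻¹)) : Small f g := by
  classical
  apply small_of_le
  intro ε hε
  obtain ⟨N, hN⟩ := exists_nat_gt (2 / ε)
  have hN0 : (0 : ℝ) < N := lt_trans (by positivity) hN
  have h1 := pack hf w N (by exact_mod_cast hN0) (fun n x => f n g x = x) (by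
    intro t ht _
    apply ((comm_fix hf g (w ^ t)).and ((hw t ht).most.perm (fun n => f n (w ^ t)))).mono
    rintro n y ⟨e1, e2⟩ hy hx
    exact e2 (e1 hy hx)) (ε / 2) (by positivity)
  filter_upwards [h1] with n hn
  refine le_trans hn ?_
  have h2 : (1 : ℝ) / N ≤ ε / 2 := by
    rw [div_le_iff₀ hN0]
    rw [div_lt_iff₀ hε] at hN
    linarith
  have : (0 : ℝ) ≤ n := Nat.cast_nonneg n
  nlinarith

theorem most_zpow [Group G] {f : (n : ℕ) → G → Equiv.Perm (Fin n)}
    (hf : AlmostHom f) (g : G) (s : ℤ) : Most (fun n x => f n g x = x → f n (g ^ s) x = x) := by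
  classical
  apply (most_fixed hf {g} (g ^ s) (by
    apply Subgroup.zpow_mem
    apply Subgroup.subset_closure
    simp)).mono
  intro n x hx hc
  apply hx
  intro s' hs'
  rw [Finset.mem_singleton] at hs'
  rw [hs', hc]

theorem link_zpow [Group G] {f : (n : ℕ) → G → Equiv.Perm (Fin n)}
    (hf : AlmostHom f) (g : G) (s : ℤ) (ε : ℝ) (hε : 0 < ε) : Link f g (g ^ s) ε :=
  link_of_most (most_zpow hf g s) ε hε

theorem small_of_pow [Group G] {f : (n : ℕ) → G → Equiv.Perm (Fin n)}
    (hf : AlmostHom f) (g : G) (s : ℤ) (h : Small f (g ^ s)) : Small f g := by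
  apply small_of_le
  intro ε hε
  filter_upwards [((most_zpow hf g s).and h.most) ε hε] with n hn
  obtain ⟨B, hB, hB'⟩ := hn
  refine le_trans ?_ hB
  have : (univ.filter fun x : Fin n => f n g x = x) ⊆ B := by
    intro x hx
    rw [mem_filter] at hx
    by_contra hc
    exact (hB' x hc).2 ((hB' x hc).1 hx.2)
  exact_mod_cast card_le_card this

/-- if `g` is linked to the finitely many elements of `S` with a small error, and the points
fixed by all of `S` are few, then `g` is Small -/
theorem small_of_link [DecidableEq G] {f : (n : ℕ) → G → Equiv.Perm (Fin n)} (g : G)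
    (C : ℕ) (hS : ∀ ε : ℝ, 0 < ε → ∃ S : Finset G, S.card ≤ C ∧ (∀ s ∈ S, Link f g s ε) ∧
      Tendsto (fun n : ℕ => ((univ.filter fun x : Fin n => ∀ s ∈ S, f n s x = x).card : ℝ) / n)
        atTop (𝓝 0)) : Small f g := by
  classical
  apply small_of_le
  intro ε hε
  have hC : (0 : ℝ) < C + 1 := by positivity
  obtain ⟨S, h1, h2, h3⟩ := hS (ε / (C + 1)) (by positivity)
  have h2' : ∀ᶠ n : ℕ in atTop, ∀ s ∈ S,
      ((univ.filter fun x : Fin n => f n g x = x ∧ f n s x ≠ x).card : ℝ) ≤
        ε / (C + 1) * n := by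
    rw [Filter.eventually_all_finset]
    exact h2
  filter_upwards [h2', le_of_tendsto h3 (ε / (C + 1)) (by positivity)] with n hn hn'
  have e : (univ.filter fun x : Fin n => f n g x = x) ⊆
      (S.biUnion fun s => univ.filter fun x : Fin n => f n g x = x ∧ f n s x ≠ x) ∪
      (univ.filter fun x : Fin n => ∀ s ∈ S, f n s x = x) := by
    intro x hx
    rw [mem_filter] at hx
    rw [mem_union, mem_biUnion, mem_filter]
    by_cases hc : ∀ s ∈ S, f n s x = x
    · exact Or.inr ⟨mem_univ _, hc⟩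
    · push Not at hc
      obtain ⟨s, hs, hs'⟩ := hc
      exact Or.inl ⟨s, hs, by
        rw [mem_filter]
        exact ⟨mem_univ _, hx.2, hs'⟩⟩
  have e1 : ((univ.filter fun x : Fin n => f n g x = x).card : ℝ) ≤
      (∑ s ∈ S, ((univ.filter fun x : Fin n => f n g x = x ∧ f n s x ≠ x).card : ℝ)) +
      (univ.filter fun x : Fin n => ∀ s ∈ S, f n s x = x).card := by
    have := ((card_le_card e).trans (card_union_le _ _)).trans
      (Nat.add_le_add_right card_biUnion_le _)
    exact_mod_cast this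
  have e2 : (∑ s ∈ S, ((univ.filter fun x : Fin n => f n g x = x ∧ f n s x ≠ x).card : ℝ)) ≤
      ∑ _s ∈ S, ε / (C + 1) * n := sum_le_sum hn
  rw [sum_const, nsmul_eq_mul] at e2
  have e3 : (S.card : ℝ) * (ε / (C + 1) * n) ≤ C * (ε / (C + 1) * n) := by
    apply mul_le_mul_of_nonneg_right
    · exact_mod_cast h1
    · positivity
  have e4 : (C : ℝ) * (ε / (C + 1) * n) + ε / (C + 1) * n = ε * n := by
    field_simp
  linarith

end Pool.Agent.IRS
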