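import Pool.Agent.IRS.CovDefs

/-!
Core of the covering theorem: an invariant set of pairs close to the relation `π y = π y'` on `D`
gives a finite `G`-set which models most of the image of `D`.
-/

set_option autoImplicit false
open Finset
namespace Pool.Agent.IRS.Cov51

section basic
variable {N : ℕ}

/-- the row of `y` in `B` -/
def row (B : Finset (Fin N × Fin N)) (y : Fin N) : Finset (Fin N) :=
  univ.filter fun y' => (y, y') ∈ B

theorem mem_row {B : Finset (Fin N × Fin N)} {y y' : Fin N} : y' ∈ row B y ↔ (y, y') ∈ B := by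
  simp [row]

/-- number of points in exactly one of the two sets -/
def sd (s t : Finset (Fin N)) : ℕ := (symmDiff s t).card

theorem sd_comm (s t : Finset (Fin N)) : sd s t = sd t s := by
  unfold sd; rw [symmDiff_comm]

theorem sd_self (s : Finset (Fin N)) : sd s s = 0 := by simp [sd]

theorem sd_tri (s t u : Finset (Fin N)) : sd s u ≤ sd s t + sd t u := by
  unfold sd
  exact (card_le_card (symmDiff_triangle s t u)).trans (card_union_le _ _)

theorem sd_eq (s t : Finset (Fin N)) : sd s t = (s \ t).card + (t \ s).card := by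
  unfold sd
  rw [symmDiff_def, sup_eq_union, card_union_of_disjoint disjoint_sdiff_sdiff]

theorem card_le_add_sd (s t : Finset (Fin N)) : t.card ≤ s.card + sd s t := by
  have h1 : t ⊆ s ∪ (t \ s) := by
    intro x hx
    by_cases h : x ∈ s
    · exact mem_union_left _ h
    · exact mem_union_right _ (Finset.mem_sdiff.2 ⟨hx, h⟩)
  have h2 := (card_le_card h1).trans (card_union_le _ _)
  have h3 := sd_eq s t
  omega

theorem card_rows (S : Finset (Fin N × Fin N)) : S.card = ∑ y, (row S y).card := by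
  rw [card_eq_sum_card_fiberwise (f := Prod.fst) (t := univ) (fun _ _ => by simp)]
  refine sum_congr rfl fun y _ => ?_
  have h : (S.filter fun p => p.1 = y) =
      (row S y).map ⟨fun y' => (y, y'), fun a b h => by simpa using h⟩ := by
    ext ⟨a, b⟩
    simp only [mem_filter, Finset.mem_map, mem_row, Function.Embedding.coeFn_mk, Prod.mk.injEq]
    constructor
    · rintro ⟨h, rfl⟩
      exact ⟨b, h, rfl, rfl⟩
    · rintro ⟨c, h, rfl, rfl⟩
      exact ⟨h, rfl⟩
  rw [h, card_map]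

theorem sum_sd (B R : Finset (Fin N × Fin N)) :
    ∑ y, sd (row B y) (row R y) = (B \ R).card + (R \ B).card := by
  rw [card_rows (B \ R), card_rows (R \ B), ← sum_add_distrib]
  refine sum_congr rfl fun y _ => ?_
  rw [sd_eq]
  congr 2
  · ext x; simp [mem_row]
  · ext x; simp [mem_row]

/-- distance of two points -/
def dd (B : Finset (Fin N × Fin N)) (z y : Fin N) : ℕ := sd (row B z) (row B y)

/-- points with a large row -/
def Y3 (B : Finset (Fin N × Fin N)) (m : ℕ) : Finset (Fin N) :=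
  univ.filter fun z => m ≤ 2 * (row B z).card

/-- near points -/
def Nb (B : Finset (Fin N × Fin N)) (m : ℕ) (z : Fin N) : Finset (Fin N) :=
  (Y3 B m).filter fun y => 5 * dd B z y ≤ m

/-- less near points -/
def Hb (B : Finset (Fin N × Fin N)) (m : ℕ) (z : Fin N) : Finset (Fin N) :=
  (Y3 B m).filter fun y => 5 * dd B z y ≤ 3 * m

/-- points with about `m` near points -/
def TT (B : Finset (Fin N × Fin N)) (m : ℕ) : Finset (Fin N) :=
  (Y3 B m).filter fun z => 9 * m ≤ 10 * (Nb B m z).card ∧ 10 * (Hb B m z).card ≤ 11 * m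

/-- common near point -/
def rel (B : Finset (Fin N × Fin N)) (m : ℕ) (z y : Fin N) : Prop :=
  ∃ u, u ∈ Nb B m z ∧ u ∈ Nb B m y

theorem dd_comm (B : Finset (Fin N × Fin N)) (z y : Fin N) : dd B z y = dd B y z := sd_comm _ _

theorem dd_self (B : Finset (Fin N × Fin N)) (z : Fin N) : dd B z z = 0 := sd_self _

theorem dd_tri (B : Finset (Fin N × Fin N)) (x y z : Fin N) : dd B x z ≤ dd B x y + dd B y z :=
  sd_tri _ _ _

theorem mem_Y3 {B : Finset (Fin N × Fin N)} {m : ℕ} {z : Fin N} :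
    z ∈ Y3 B m ↔ m ≤ 2 * (row B z).card := by simp [Y3]

theorem mem_Nb {B : Finset (Fin N × Fin N)} {m : ℕ} {z y : Fin N} :
    y ∈ Nb B m z ↔ y ∈ Y3 B m ∧ 5 * dd B z y ≤ m := by simp [Nb]

theorem mem_Hb {B : Finset (Fin N × Fin N)} {m : ℕ} {z y : Fin N} :
    y ∈ Hb B m z ↔ y ∈ Y3 B m ∧ 5 * dd B z y ≤ 3 * m := by simp [Hb]

theorem mem_TT {B : Finset (Fin N × Fin N)} {m : ℕ} {z : Fin N} :
    z ∈ TT B m ↔ z ∈ Y3 B m ∧ 9 * m ≤ 10 * (Nb B m z).card ∧
      10 * (Hb B m z).card ≤ 11 * m := by simp [TT]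

theorem Nb_sub_Hb (B : Finset (Fin N × Fin N)) (m : ℕ) (z : Fin N) : Nb B m z ⊆ Hb B m z := by
  intro y hy
  rw [mem_Nb] at hy
  rw [mem_Hb]
  exact ⟨hy.1, by omega⟩

theorem rel_dd {B : Finset (Fin N × Fin N)} {m : ℕ} {z y : Fin N} (h : rel B m z y) :
    5 * dd B z y ≤ 2 * m := by
  obtain ⟨u, h1, h2⟩ := h
  have h3 := (mem_Nb.1 h1).2
  have h4 := (mem_Nb.1 h2).2
  have h5 := dd_tri B z u y
  rw [dd_comm B u y] at h5
  omega

theorem Nb_sub_Hb_of_rel {B : Finset (Fin N × Fin N)} {m : ℕ} {z y : Fin N} (h : rel B m z y) :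
    Nb B m y ⊆ Hb B m z := by
  intro w hw
  rw [mem_Nb] at hw
  rw [mem_Hb]
  have h1 := rel_dd h
  have h2 := dd_tri B z y w
  exact ⟨hw.1, by omega⟩

theorem inter_card {B : Finset (Fin N × Fin N)} {m : ℕ} {z y : Fin N} (hz : z ∈ TT B m)
    (hy : y ∈ TT B m) (h : rel B m z y) : 7 * m ≤ 10 * (Nb B m z ∩ Nb B m y).card := by
  have h1 : Nb B m z ∪ Nb B m y ⊆ Hb B m z :=
    union_subset (Nb_sub_Hb B m z) (Nb_sub_Hb_of_rel h)
  have h2 := card_le_card h1
  have h3 := card_union_add_card_inter (Nb B m z) (Nb B m y)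
  have h4 := (mem_TT.1 hz).2
  have h5 := (mem_TT.1 hy).2
  omega

theorem rel_symm {B : Finset (Fin N × Fin N)} {m : ℕ} {z y : Fin N} (h : rel B m z y) :
    rel B m y z := by
  obtain ⟨u, h1, h2⟩ := h
  exact ⟨u, h2, h1⟩

theorem rel_trans {B : Finset (Fin N × Fin N)} {m : ℕ} (hm : 0 < m) {z y x : Fin N}
    (hz : z ∈ TT B m) (hy : y ∈ TT B m) (hx : x ∈ TT B m) (h1 : rel B m z y)
    (h2 : rel B m y x) : rel B m z x := by
  have h3 := inter_card hz hy h1
  have h4 := inter_card hy hx h2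
  have h5 := (mem_TT.1 hy).2.2
  have h6 := card_le_card (Nb_sub_Hb B m y)
  have h7 : (Nb B m z ∩ Nb B m y) ∪ (Nb B m y ∩ Nb B m x) ⊆ Nb B m y :=
    union_subset inter_subset_right inter_subset_left
  have h8 := card_le_card h7
  have h9 := card_union_add_card_inter (Nb B m z ∩ Nb B m y) (Nb B m y ∩ Nb B m x)
  have h10 : 0 < ((Nb B m z ∩ Nb B m y) ∩ (Nb B m y ∩ Nb B m x)).card := by omega
  obtain ⟨u, hu⟩ := card_pos.1 h10
  simp only [mem_inter] at hu
  exact ⟨u, hu.1.1, hu.2.2⟩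

theorem rel_refl {B : Finset (Fin N × Fin N)} {m : ℕ} (hm : 0 < m) {z : Fin N}
    (hz : z ∈ TT B m) : rel B m z z := by
  have h4 := (mem_TT.1 hz).2.1
  have h5 : 0 < (Nb B m z).card := by omega
  obtain ⟨u, hu⟩ := card_pos.1 h5
  exact ⟨u, hu, hu⟩

section inv
variable {G : Type} [Group G] (ρ : G →* Equiv.Perm (Fin N)) {B : Finset (Fin N × Fin N)}
  (hB : ∀ g y y', (ρ g y, ρ g y') ∈ B ↔ (y, y') ∈ B)
include hB

theorem row_inv (g : G) (z : Fin N) : (row B (ρ g z)).card = (row B z).card := by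
  symm
  apply card_equiv (ρ g)
  intro i
  rw [mem_row, mem_row, hB]

theorem dd_inv (g : G) (z y : Fin N) : dd B (ρ g z) (ρ g y) = dd B z y := by
  symm
  unfold dd sd
  apply card_equiv (ρ g)
  intro i
  simp only [mem_symmDiff, mem_row, hB]

theorem Y3_inv (m : ℕ) (g : G) (z : Fin N) : ρ g z ∈ Y3 B m ↔ z ∈ Y3 B m := by
  rw [mem_Y3, mem_Y3, row_inv ρ hB]

theorem Nb_inv (m : ℕ) (g : G) (z y : Fin N) : ρ g y ∈ Nb B m (ρ g z) ↔ y ∈ Nb B m z := by
  rw [mem_Nb, mem_Nb, Y3_inv ρ hB, dd_inv ρ hB]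

theorem Hb_inv (m : ℕ) (g : G) (z y : Fin N) : ρ g y ∈ Hb B m (ρ g z) ↔ y ∈ Hb B m z := by
  rw [mem_Hb, mem_Hb, Y3_inv ρ hB, dd_inv ρ hB]

theorem Nb_card (m : ℕ) (g : G) (z : Fin N) : (Nb B m (ρ g z)).card = (Nb B m z).card := by
  symm
  apply card_equiv (ρ g)
  intro i
  rw [Nb_inv ρ hB]

theorem Hb_card (m : ℕ) (g : G) (z : Fin N) : (Hb B m (ρ g z)).card = (Hb B m z).card := by
  symm
  apply card_equiv (ρ g)
  intro i
  rw [Hb_inv ρ hB]

theorem TT_inv (m : ℕ) (g : G) (z : Fin N) : ρ g z ∈ TT B m ↔ z ∈ TT B m := by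
  rw [mem_TT, mem_TT, Y3_inv ρ hB, Nb_card ρ hB, Hb_card ρ hB]

theorem rel_inv (m : ℕ) (g : G) (z y : Fin N) :
    rel B m (ρ g z) (ρ g y) ↔ rel B m z y := by
  constructor
  · rintro ⟨u, h1, h2⟩
    refine ⟨(ρ g)⁻¹ u, ?_, ?_⟩
    · rw [← Nb_inv ρ hB m g]; simpa using h1
    · rw [← Nb_inv ρ hB m g]; simpa using h2
  · rintro ⟨u, h1, h2⟩
    exact ⟨ρ g u, (Nb_inv ρ hB m g _ _).2 h1, (Nb_inv ρ hB m g _ _).2 h2⟩

end inv

end basic

section quot
variable {G Y : Type} [Group G] [Fintype Y]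

/-- action on finite subsets -/
def act (ρ : G →* Equiv.Perm Y) : G →* Equiv.Perm (Finset Y) where
  toFun g := (ρ g).finsetCongr
  map_one' := by
    ext s x
    simp only [map_one]
    simp
    exact Iff.rfl
  map_mul' g h := by
    ext s x
    simp
    exact Iff.rfl

theorem quot (ρ : G →* Equiv.Perm Y)
    (T : Finset Y) (hT : ∀ g z, ρ g z ∈ T ↔ z ∈ T) (r : Y → Y → Prop)
    (hr : ∀ g z y, r (ρ g z) (ρ g y) ↔ r z y) (hrefl : ∀ z ∈ T, r z z)
    (hsymm : ∀ z ∈ T, ∀ y ∈ T, r z y → r y z)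
    (htrans : ∀ z ∈ T, ∀ y ∈ T, ∀ x ∈ T, r z y → r y x → r z x) :
    ∃ (M : ℕ) (ρ' : G →* Equiv.Perm (Fin M)) (c : Y → Fin M), Nonempty (Fin M) ∧
      (∀ z ∈ T, ∀ y ∈ T, (c z = c y ↔ r z y)) ∧ ∀ g, ∀ z ∈ T, ρ' g (c z) = c (ρ g z) := by
  classical
  let e : Finset Y ≃ Fin (Fintype.card (Finset Y)) := Fintype.equivFin _
  refine ⟨Fintype.card (Finset Y), (Equiv.permCongrHom e).toMonoidHom.comp (act ρ),
    fun z => e (T.filter fun y => r z y), ⟨e ∅⟩, ?_, ?_⟩
  · intro z hz y hy
    rw [e.injective.eq_iff]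
    constructor
    · intro h
      have h1 : y ∈ T.filter fun x => r y x := mem_filter.2 ⟨hy, hrefl y hy⟩
      rw [← h] at h1
      exact (mem_filter.1 h1).2
    · intro h
      ext x
      simp only [mem_filter]
      constructor
      · rintro ⟨hx, h1⟩
        exact ⟨hx, htrans y hy z hz x hx (hsymm z hz y hy h) h1⟩
      · rintro ⟨hx, h1⟩
        exact ⟨hx, htrans z hz y hy x hx h h1⟩
  · intro g z hz
    have h1 : ((Equiv.permCongrHom e).toMonoidHom.comp (act ρ)) g
        (e (T.filter fun y => r z y)) = e (act ρ g (T.filter fun y => r z y)) := by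
      simp [Equiv.permCongrHom]
    rw [h1]
    congr 1
    ext x
    have h2 : (act ρ g (T.filter fun y => r z y)) =
      (T.filter fun y => r z y).map (ρ g).toEmbedding := rfl
    rw [h2]
    simp only [Finset.mem_map, mem_filter, Equiv.coe_toEmbedding]
    constructor
    · rintro ⟨y, ⟨hy, h3⟩, rfl⟩
      exact ⟨(hT g y).2 hy, (hr g z y).2 h3⟩
    · rintro ⟨hx, h3⟩
      refine ⟨(ρ g)⁻¹ x, ⟨?_, ?_⟩, by simp⟩
      · rw [← hT g]; simpa using hx
      · rw [← hr g]; simpa using h3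

end quot

end Pool.Agent.IRS.Cov51

namespace Pool.Agent.IRS

open Finset Cov51

/-- [COV Core] `B` invariant, close to the relation `π y = π y'` on `D` -/
theorem cov_core {G : Type} [Group G] {N n m : ℕ} (ρ : G →* Equiv.Perm (Fin N))
    (D : Finset (Fin N)) (π : Fin N → Fin n) (hm : 0 < m)
    (hfib : ∀ a ∈ D.image π, (D.filter fun y => π y = a).card = m)
    (B : Finset (Fin N × Fin N)) (hB : ∀ g y y', (ρ g y, ρ g y') ∈ B ↔ (y, y') ∈ B)
    (κ : ℝ) (hκ : 0 ≤ κ)
    (h1 : (((B \ ((D ×ˢ D).filter fun p => π p.1 = π p.2)).card : ℝ) +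
      ((((D ×ˢ D).filter fun p => π p.1 = π p.2) \ B).card : ℝ)) ≤ κ * m * D.card) :
    ∃ (M : ℕ) (ρ' : G →* Equiv.Perm (Fin M)) (A' : Finset (Fin n)) (V : Finset (Fin N))
      (ι : Fin n → Fin M), A' ⊆ D.image π ∧ V ⊆ D ∧ Set.InjOn ι A' ∧
      ((D \ V).card : ℝ) ≤ 10 * κ * D.card ∧
      ((D.image π \ A').card : ℝ) ≤ 220 * κ * (D.image π).card ∧
      ∀ g, ∀ y ∈ V, ρ g y ∈ V → π y ∈ A' → π (ρ g y) ∈ A' →
        ρ' g (ι (π y)) = ι (π (ρ g y)) := by
  classical
  set R : Finset (Fin N × Fin N) := (D ×ˢ D).filter fun p => π p.1 = π p.2 with hR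
  set A := D.image π with hA
  have hm' : (0 : ℝ) < m := by exact_mod_cast hm
  -- rows of R
  have rowR : ∀ y ∈ D, row R y = D.filter fun y' => π y' = π y := by
    intro y hy
    ext x
    simp only [mem_row, hR, mem_filter, mem_product]
    constructor
    · rintro ⟨⟨_, hx⟩, h⟩
      exact ⟨hx, h.symm⟩
    · rintro ⟨hx, h⟩
      exact ⟨⟨hy, hx⟩, h.symm⟩
  have rowR' : ∀ y, y ∉ D → row R y = ∅ := by
    intro y hy
    ext x
    simp [mem_row, hR, hy]
  have cardR : ∀ y ∈ D, (row R y).card = m := by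
    intro y hy
    rw [rowR y hy]
    exact hfib _ (mem_image_of_mem π hy)
  -- deviations
  let r : Fin N → ℕ := fun y => sd (row B y) (row R y)
  have hsum : ((∑ y, r y : ℕ) : ℝ) ≤ κ * m * D.card := by
    have : ∑ y, r y = (B \ R).card + (R \ B).card := sum_sd B R
    rw [this]
    push_cast
    exact h1
  have hcount : ∀ S : Finset (Fin N), (∀ y ∈ S, m ≤ 10 * r y) →
      (S.card : ℝ) ≤ 10 * κ * D.card := by
    intro S hS
    have h2 : S.card * m ≤ 10 * ∑ y, r y := by
      calc S.card * m = ∑ y ∈ S, m := by simp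
        _ ≤ ∑ y ∈ S, 10 * r y := sum_le_sum hS
        _ ≤ ∑ y, 10 * r y := sum_le_sum_of_subset (subset_univ _)
        _ = 10 * ∑ y, r y := by rw [mul_sum]
    have h3 : (S.card : ℝ) * m ≤ 10 * ((∑ y, r y : ℕ) : ℝ) := by exact_mod_cast h2
    have h4 : (S.card : ℝ) * m ≤ (10 * κ * D.card) * m := by nlinarith
    exact le_of_mul_le_mul_right h4 hm'
  have hDA : D.card = A.card * m := by
    rw [card_eq_sum_card_fiberwise (f := π) (t := A) (fun y hy => mem_image_of_mem π hy)]
    rw [sum_congr rfl hfib]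
    simp
  have hDA' : (D.card : ℝ) = A.card * m := by exact_mod_cast hDA
  set V : Finset (Fin N) := D.filter fun y => 10 * r y ≤ m with hV
  have memV : ∀ y, y ∈ V ↔ y ∈ D ∧ 10 * r y ≤ m := fun y => by simp [hV]
  have hVD : ((D \ V).card : ℝ) ≤ 10 * κ * D.card := by
    apply hcount
    intro y hy
    rw [Finset.mem_sdiff, memV] at hy
    by_contra h
    exact hy.2 ⟨hy.1, by omega⟩
  have hVY : ∀ y ∈ V, y ∈ Y3 B m := by
    intro y hy
    rw [memV] at hy
    rw [mem_Y3]
    have h2 := card_le_add_sd (row B y) (row R y)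
    rw [cardR y hy.1] at h2
    have h3 : 10 * sd (row B y) (row R y) ≤ m := hy.2
    omega
  set W : Finset (Fin N) := Y3 B m \ V with hW
  have hWc : (W.card : ℝ) ≤ 10 * κ * D.card := by
    apply hcount
    intro z hz
    rw [hW, Finset.mem_sdiff, memV, mem_Y3] at hz
    by_cases hzD : z ∈ D
    · by_contra h
      exact hz.2 ⟨hzD, by omega⟩
    · have h2 : r z = (row B z).card := by
        change sd (row B z) (row R z) = _
        rw [rowR' z hzD, sd_eq]
        simp
      rw [h2]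
      omega
  have dsame : ∀ y ∈ V, ∀ y' ∈ V, π y = π y' → 5 * dd B y y' ≤ m := by
    intro y hy y' hy' h
    rw [memV] at hy hy'
    have h2 : row R y = row R y' := by
      rw [rowR y hy.1, rowR y' hy'.1, h]
    have h3 := sd_tri (row B y) (row R y) (row B y')
    have h4 : sd (row R y) (row B y') = r y' := by
      rw [h2, sd_comm]
    have h5 : sd (row B y) (row R y) = r y := rfl
    have h6 : dd B y y' = sd (row B y) (row B y') := rfl
    omega
  have ddiff : ∀ y ∈ V, ∀ y' ∈ V, π y ≠ π y' → 9 * m ≤ 5 * dd B y y' := by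
    intro y hy y' hy' h
    rw [memV] at hy hy'
    have h2 : sd (row R y) (row R y') = 2 * m := by
      have hd : Disjoint (row R y) (row R y') := by
        rw [rowR y hy.1, rowR y' hy'.1, disjoint_left]
        intro x hx hx'
        rw [mem_filter] at hx hx'
        exact h (hx.2.symm.trans hx'.2)
      rw [sd_eq, sdiff_eq_self_of_disjoint hd, sdiff_eq_self_of_disjoint hd.symm,
        cardR y hy.1, cardR y' hy'.1]
      ring
    have h3 := sd_tri (row R y) (row B y) (row R y')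
    have h4 := sd_tri (row B y) (row B y') (row R y')
    have h5 : sd (row R y) (row B y) = r y := sd_comm _ _
    have h6 : sd (row B y') (row R y') = r y' := rfl
    have h7 : dd B y y' = sd (row B y) (row B y') := rfl
    omega
  -- the good image points
  let Va : Fin n → Finset (Fin N) := fun a => V.filter fun y => π y = a
  let Wa : Fin n → Finset (Fin N) := fun a =>
    W.filter fun w => ∃ z ∈ V, π z = a ∧ 5 * dd B z w ≤ 3 * m
  let A' : Finset (Fin n) := A.filter fun a => 9 * m ≤ 10 * (Va a).card ∧ 10 * (Wa a).card ≤ m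
  have memA' : ∀ a, a ∈ A' ↔ a ∈ A ∧ 9 * m ≤ 10 * (Va a).card ∧ 10 * (Wa a).card ≤ m :=
    fun a => by simp [A']
  have hWsum : ∑ a ∈ A, (Wa a).card ≤ W.card := by
    rw [← card_biUnion]
    · apply card_le_card
      intro w hw
      simp only [mem_biUnion] at hw
      obtain ⟨a, _, hw⟩ := hw
      exact (mem_filter.1 hw).1
    · intro a _ a' _ haa
      rw [Function.onFun, disjoint_left]
      intro w hw hw'
      obtain ⟨_, z, hz, hza, hzd⟩ := mem_filter.1 hw
      obtain ⟨_, z', hz', hza', hzd'⟩ := mem_filter.1 hw'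
      have h2 := ddiff z hz z' hz' (by rw [hza, hza']; exact haa)
      have h3 := dd_tri B z w z'
      rw [dd_comm B w z'] at h3
      omega
  have hVsum : ∑ a ∈ A, ((D \ V).filter fun y => π y = a).card = (D \ V).card := by
    symm
    apply card_eq_sum_card_fiberwise
    intro y hy
    have : y ∈ D \ V := by simpa using hy
    exact mem_coe.2 (mem_image_of_mem π (Finset.mem_sdiff.1 this).1)
  have hsplit : ∀ a ∈ A, (Va a).card + ((D \ V).filter fun y => π y = a).card = m := by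
    intro a ha
    rw [← hfib a ha, ← card_union_of_disjoint]
    · congr 1
      ext x
      simp only [mem_union, mem_filter, Finset.mem_sdiff, Va, memV]
      tauto
    · rw [disjoint_left]
      intro x hx hx'
      rw [mem_filter] at hx hx'
      exact (Finset.mem_sdiff.1 hx'.1).2 hx.1
  have hA'c : ((A \ A').card : ℝ) ≤ 220 * κ * A.card := by
    have h2 : (A \ A').card * m ≤ 10 * ((D \ V).card + W.card) := by
      calc (A \ A').card * m = ∑ a ∈ A \ A', m := by simp
        _ ≤ ∑ a ∈ A \ A', 10 * (((D \ V).filter fun y => π y = a).card + (Wa a).card) := by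
          refine sum_le_sum fun a ha => ?_
          rw [Finset.mem_sdiff, memA'] at ha
          have h3 := hsplit a ha.1
          by_contra h
          apply ha.2
          refine ⟨ha.1, ?_, ?_⟩ <;> omega
        _ ≤ ∑ a ∈ A, 10 * (((D \ V).filter fun y => π y = a).card + (Wa a).card) :=
          sum_le_sum_of_subset sdiff_subset
        _ = 10 * (∑ a ∈ A, ((D \ V).filter fun y => π y = a).card + ∑ a ∈ A, (Wa a).card) := by
          rw [← mul_sum, sum_add_distrib]
        _ ≤ 10 * ((D \ V).card + W.card) := by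
          rw [hVsum]
          have := hWsum
          omega
    have h3 : ((A \ A').card : ℝ) * m ≤ 10 * (((D \ V).card : ℝ) + W.card) := by
      exact_mod_cast h2
    have h4 : ((A \ A').card : ℝ) * m ≤ (220 * κ * A.card) * m := by
      have h5 : κ * D.card = κ * A.card * m := by rw [hDA']; ring
      have h6 : 0 ≤ κ * A.card * m := by positivity
      nlinarith
    exact le_of_mul_le_mul_right h4 hm'
  have hVT : ∀ z ∈ V, π z ∈ A' → z ∈ TT B m := by
    intro z hz ha
    rw [memA'] at ha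
    rw [mem_TT]
    refine ⟨hVY z hz, ?_, ?_⟩
    · have h2 : Va (π z) ⊆ Nb B m z := by
        intro y hy
        rw [mem_filter] at hy
        rw [mem_Nb]
        exact ⟨hVY y hy.1, dsame z hz y hy.1 hy.2.symm⟩
      have h3 := card_le_card h2
      omega
    · have h2 : Hb B m z ⊆ (D.filter fun y => π y = π z) ∪ Wa (π z) := by
        intro y hy
        rw [mem_Hb] at hy
        by_cases hyV : y ∈ V
        · apply mem_union_left
          rw [mem_filter]
          refine ⟨((memV y).1 hyV).1, ?_⟩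
          by_contra h
          have h3 := ddiff z hz y hyV (fun h' => h h'.symm)
          omega
        · apply mem_union_right
          rw [mem_filter]
          exact ⟨Finset.mem_sdiff.2 ⟨hy.1, hyV⟩, z, hz, rfl, hy.2⟩
      have h3 := (card_le_card h2).trans (card_union_le _ _)
      rw [hfib _ ha.1] at h3
      omega
  obtain ⟨M, ρ', c, ⟨x0⟩, hc, hρ⟩ := quot ρ (TT B m) (fun g z => TT_inv ρ hB m g z) (rel B m)
    (fun g z y => rel_inv ρ hB m g z y) (fun z hz => rel_refl hm hz)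
    (fun z _ y _ h => rel_symm h) (fun z hz y hy x hx h h' => rel_trans hm hz hy hx h h')
  let ι : Fin n → Fin M := fun a => if h : ∃ z ∈ V, π z = a then c h.choose else x0
  have hι : ∀ z ∈ V, π z ∈ A' → ι (π z) = c z := by
    intro z hz ha
    have hex : ∃ z' ∈ V, π z' = π z := ⟨z, hz, rfl⟩
    have h2 : ι (π z) = c hex.choose := by simp only [ι]; rw [dif_pos hex]
    rw [h2]
    obtain ⟨h3, h4⟩ := hex.choose_spec
    rw [hc _ (hVT _ h3 (by rw [h4]; exact ha)) _ (hVT z hz ha)]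
    refine ⟨z, ?_, ?_⟩
    · rw [mem_Nb]
      exact ⟨hVY z hz, dsame _ h3 z hz h4⟩
    · rw [mem_Nb, dd_self]
      exact ⟨hVY z hz, by omega⟩
  have hne : ∀ a ∈ A', ∃ z ∈ V, π z = a := by
    intro a ha
    rw [memA'] at ha
    have h2 : 0 < (Va a).card := by omega
    obtain ⟨z, hz⟩ := card_pos.1 h2
    rw [mem_filter] at hz
    exact ⟨z, hz.1, hz.2⟩
  refine ⟨M, ρ', A', V, ι, filter_subset _ _, filter_subset _ _, ?_, hVD, hA'c, ?_⟩
  · intro a ha a' ha' h
    rw [mem_coe] at ha ha'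
    obtain ⟨z, hz, rfl⟩ := hne a ha
    obtain ⟨z', hz', rfl⟩ := hne a' ha'
    rw [hι z hz ha, hι z' hz' ha'] at h
    rw [hc z (hVT z hz ha) z' (hVT z' hz' ha')] at h
    by_contra hzz
    have h2 := rel_dd h
    have h3 := ddiff z hz z' hz' hzz
    omega
  · intro g y hy hgy ha ha'
    rw [hι y hy ha, hι _ hgy ha']
    exact hρ g y (hVT y hy ha)

end Pool.Agent.IRS
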