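import Pool.Agent.FS84.Kaz
import Pool.Agent.FS84.Defs

/-!
Almost-homomorphisms of which a positive part is covered, `m`-to-one, by finite `G`-sets.
-/

set_option autoImplicit false
open Filter Topology Finset

namespace Pool.Agent.IRS

/-- A positive proportion of `f` is covered by finite `G`-sets: there is `δ > 0` such that for
every finite `E ⊆ G` and `η > 0` and for infinitely many `n` there are a finite `G`-set (`Fin N`
with the action `ρ`), an `m ≥ 1`, a set `D` of its points and a map `π` which is `m`-to-one from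
`D` onto a set of at least `δ n` points of `f`, so that for every `g ∈ E` at most `η |D|` points
`y` of `D` have `ρ g y` outside `D` or `π (ρ g y) ≠ f n g (π y)`. -/
def PartlyCovered {G : Type} [Group G] (f : (n : ℕ) → G → Equiv.Perm (Fin n)) : Prop :=
  ∃ δ : ℝ, 0 < δ ∧ ∀ (E : Finset G) (η : ℝ), 0 < η → ∃ᶠ n : ℕ in atTop,
    ∃ (N m : ℕ) (ρ : G →* Equiv.Perm (Fin N)) (D : Finset (Fin N)) (π : Fin N → Fin n),
      0 < m ∧ δ * n ≤ (D.image π).card ∧
      (∀ a ∈ D.image π, (D.filter fun y => π y = a).card = m) ∧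
      ∀ g ∈ E, ((D.filter fun y => ρ g y ∉ D ∨ π (ρ g y) ≠ f n g (π y)).card : ℝ) ≤ η * D.card

end Pool.Agent.IRS
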