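import Pool.Agent.IRS.CovDefs

/-!
A partly modelled almost-homomorphism is partly covered (with `m = 1`).
-/

set_option autoImplicit false
open Filter Topology Finset
namespace Pool.Agent.IRS
open Pool.Agent.FS84 (PartlyModelled)

/-- [COV ModToCov] -/
theorem covered_of_modelled {G : Type} [Group G]
    {f : (n : ℕ) → G → Equiv.Perm (Fin n)} (h : PartlyModelled f) : PartlyCovered f := by
  obtain ⟨δ, hδ, H⟩ := h
  refine ⟨δ, hδ, ?_⟩
  intro E η hη
  have H1 := (H E (η * δ) (mul_pos hη hδ)).and_eventually (eventually_gt_atTop 0)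
  refine H1.mono ?_
  rintro n ⟨⟨m, ρ, A, ι, hA, hinj, hE⟩, hn⟩
  have hinv : ∃ π : Fin m → Fin n, ∀ x ∈ A, π (ι x) = x := by
    classical
    refine ⟨fun y => if h : ∃ x ∈ A, ι x = y then h.choose else ⟨0, hn⟩, ?_⟩
    intro x hx
    have h : ∃ x' ∈ A, ι x' = ι x := ⟨x, hx, rfl⟩
    have h1 := h.choose_spec
    have h2 : (if h : ∃ x' ∈ A, ι x' = ι x then h.choose else (⟨0, hn⟩ : Fin n)) = h.choose :=
      dif_pos h
    exact h2.trans (hinj (mem_coe.2 h1.1) (mem_coe.2 hx) h1.2)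
  obtain ⟨π, hπ⟩ := hinv
  have himg : (A.image ι).image π = A := by
    ext a
    simp only [mem_image]
    constructor
    · rintro ⟨y, ⟨x, hx, rfl⟩, rfl⟩
      rw [hπ x hx]
      exact hx
    · intro ha
      exact ⟨ι a, ⟨a, ha, rfl⟩, hπ a ha⟩
  have hDcard : (A.image ι).card = A.card := card_image_of_injOn hinj
  refine ⟨m, 1, ρ, A.image ι, π, one_pos, ?_, ?_, ?_⟩
  · rw [himg]
    exact hA
  · intro a ha
    rw [himg] at ha
    rw [card_eq_one]
    refine ⟨ι a, ?_⟩
    ext y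
    simp only [mem_filter, mem_image, mem_singleton]
    constructor
    · rintro ⟨⟨x, hx, rfl⟩, hy⟩
      rw [hπ x hx] at hy
      rw [hy]
    · rintro rfl
      exact ⟨⟨a, ha, rfl⟩, hπ a ha⟩
  · intro g hg
    have h1 : ((A.image ι).filter fun y => ρ g y ∉ A.image ι ∨ π (ρ g y) ≠ f n g (π y)) ⊆
        (A.filter fun x => f n g x ∉ A ∨ ι (f n g x) ≠ ρ g (ι x)).image ι := by
      intro y hy
      obtain ⟨hyD, hbad⟩ := mem_filter.1 hy
      obtain ⟨x, hx, rfl⟩ := mem_image.1 hyD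
      refine mem_image.2 ⟨x, mem_filter.2 ⟨hx, ?_⟩, rfl⟩
      by_contra hcon
      push Not at hcon
      obtain ⟨h2, h3⟩ := hcon
      rcases hbad with h4 | h4
      · exact h4 (mem_image.2 ⟨f n g x, h2, h3⟩)
      · apply h4
        rw [← h3, hπ _ h2, hπ _ hx]
    calc (((A.image ι).filter fun y => ρ g y ∉ A.image ι ∨ π (ρ g y) ≠ f n g (π y)).card : ℝ)
        ≤ ((A.filter fun x => f n g x ∉ A ∨ ι (f n g x) ≠ ρ g (ι x)).card : ℝ) := by
          exact_mod_cast (card_le_card h1).trans card_image_le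
      _ ≤ η * δ * n := hE g hg
      _ ≤ η * (A.image ι).card := by
          rw [hDcard, mul_assoc]
          exact mul_le_mul_of_nonneg_left hA hη.le

end Pool.Agent.IRS
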