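import Pool.Agent.IRS.CovDefs

/-!
Partly covered almost-homomorphisms are partly modelled, from the core lemma (a hypothesis here)
and the spectral gap of finite actions.
-/

set_option autoImplicit false
open Filter Topology Finset

namespace Pool.Agent.IRS

open Pool.Agent.FS84 (AlmostHom PartlyModelled HasNear Inv)

/-- the diagonal action on pairs -/
def prodAct {G : Type} [Group G] {N : ℕ} (ρ : G →* Equiv.Perm (Fin N)) :
    G →* Equiv.Perm (Fin N × Fin N) where
  toFun g := (ρ g).prodCongr (ρ g)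
  map_one' := by
    rw [map_one]
    rfl
  map_mul' g h := by
    rw [map_mul]
    rfl

theorem prodAct_apply {G : Type} [Group G] {N : ℕ} (ρ : G →* Equiv.Perm (Fin N)) (g : G)
    (y y' : Fin N) : prodAct ρ g (y, y') = (ρ g y, ρ g y') := rfl

section count

variable {N n m : ℕ} (D : Finset (Fin N)) (π : Fin N → Fin n)
  (hfib : ∀ a ∈ D.image π, (D.filter fun y => π y = a).card = m)

include hfib

theorem cov_card : D.card = m * (D.image π).card := by
  rw [Finset.card_eq_sum_card_image π D, Finset.sum_congr rfl hfib, Finset.sum_const,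
    smul_eq_mul, mul_comm]

theorem cov_fst (Bad : Finset (Fin N)) (hBad : Bad ⊆ D) :
    (((D ×ˢ D).filter fun p => π p.1 = π p.2).filter fun p => p.1 ∈ Bad).card
      ≤ Bad.card * m := by
  classical
  have h1 : (((D ×ˢ D).filter fun p => π p.1 = π p.2).filter fun p => p.1 ∈ Bad)
      ⊆ Bad.biUnion fun y => (D.filter fun y' => π y' = π y).image fun y' => (y, y') := by
    rintro ⟨y, y'⟩ hp
    rw [mem_filter, mem_filter, mem_product] at hp
    refine mem_biUnion.2 ⟨y, hp.2, mem_image.2 ⟨y', ?_, rfl⟩⟩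
    exact mem_filter.2 ⟨hp.1.1.2, hp.1.2.symm⟩
  refine (card_le_card h1).trans (Finset.card_biUnion_le_card_mul _ _ _ ?_)
  intro y hy
  refine card_image_le.trans (le_of_eq (hfib _ (mem_image_of_mem π (hBad hy))))

theorem cov_snd (Bad : Finset (Fin N)) (hBad : Bad ⊆ D) :
    (((D ×ˢ D).filter fun p => π p.1 = π p.2).filter fun p => p.2 ∈ Bad).card
      ≤ Bad.card * m := by
  classical
  have h1 : (((D ×ˢ D).filter fun p => π p.1 = π p.2).filter fun p => p.2 ∈ Bad)
      ⊆ Bad.biUnion fun y => (D.filter fun y' => π y' = π y).image fun y' => (y', y) := by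
    rintro ⟨y, y'⟩ hp
    rw [mem_filter, mem_filter, mem_product] at hp
    refine mem_biUnion.2 ⟨y', hp.2, mem_image.2 ⟨y, ?_, rfl⟩⟩
    exact mem_filter.2 ⟨hp.1.1.1, hp.1.2⟩
  refine (card_le_card h1).trans (Finset.card_biUnion_le_card_mul _ _ _ ?_)
  intro y hy
  refine card_image_le.trans (le_of_eq (hfib _ (mem_image_of_mem π (hBad hy))))

theorem cov_fibres (S : Finset (Fin n)) (hS : S ⊆ D.image π) (W : Finset (Fin N))
    (hW : ∀ a ∈ S, ∀ y ∈ D, π y = a → y ∈ W) : m * S.card ≤ W.card := by
  classical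
  have h1 : (S.biUnion fun a => D.filter fun y => π y = a) ⊆ W := by
    intro y hy
    obtain ⟨a, ha, hy⟩ := mem_biUnion.1 hy
    rw [mem_filter] at hy
    exact hW a ha y hy.1 hy.2
  have h2 : (S.biUnion fun a => D.filter fun y => π y = a).card = m * S.card := by
    rw [Finset.card_biUnion]
    · rw [Finset.sum_congr rfl fun a ha => hfib a (hS ha), Finset.sum_const, smul_eq_mul, mul_comm]
    · intro a _ b _ hab
      rw [Function.onFun, Finset.disjoint_left]
      intro y hy hy'
      rw [mem_filter] at hy hy'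
      exact hab (hy.2.symm.trans hy'.2)
  rw [← h2]
  exact card_le_card h1

end count

/-- the pairs which leave the relation -/
theorem cov_leave {G : Type} [Group G] {N n m : ℕ} (ρ : G →* Equiv.Perm (Fin N))
    (D : Finset (Fin N)) (π : Fin N → Fin n)
    (hfib : ∀ a ∈ D.image π, (D.filter fun y => π y = a).card = m)
    (σ : Equiv.Perm (Fin n)) (g : G) :
    ((((D ×ˢ D).filter fun p => π p.1 = π p.2).filter fun p =>
      prodAct ρ g p ∉ ((D ×ˢ D).filter fun p => π p.1 = π p.2)).card : ℝ) ≤
      2 * m * ((D.filter fun y => ρ g y ∉ D ∨ π (ρ g y) ≠ σ (π y)).card : ℝ) := by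
  classical
  set Bad := D.filter fun y => ρ g y ∉ D ∨ π (ρ g y) ≠ σ (π y) with hBad
  set R := (D ×ˢ D).filter fun p => π p.1 = π p.2 with hR
  have h1 : (R.filter fun p => prodAct ρ g p ∉ R) ⊆
      (R.filter fun p => p.1 ∈ Bad) ∪ (R.filter fun p => p.2 ∈ Bad) := by
    rintro ⟨y, y'⟩ hp
    rw [mem_filter] at hp
    obtain ⟨hpR, hp⟩ := hp
    have hpR' := hpR
    rw [hR, mem_filter, mem_product] at hpR'
    by_contra hc
    have hy : y ∉ Bad := fun h => hc (mem_union_left _ (mem_filter.2 ⟨hpR, h⟩))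
    have hy' : y' ∉ Bad := fun h => hc (mem_union_right _ (mem_filter.2 ⟨hpR, h⟩))
    rw [hBad, mem_filter, not_and, not_or, not_not, not_not] at hy hy'
    have e1 := hy hpR'.1.1
    have e2 := hy' hpR'.1.2
    apply hp
    rw [prodAct_apply, hR, mem_filter, mem_product]
    refine ⟨⟨e1.1, e2.1⟩, ?_⟩
    show π (ρ g y) = π (ρ g y')
    rw [e1.2, e2.2]
    exact congrArg σ hpR'.2
  have hsub : Bad ⊆ D := filter_subset _ _
  have h2 := card_le_card h1
  have h3 := card_union_le (R.filter fun p => p.1 ∈ Bad) (R.filter fun p => p.2 ∈ Bad)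
  have h4 := cov_fst D π hfib Bad hsub
  have h5 := cov_snd D π hfib Bad hsub
  have h6 : (R.filter fun p => prodAct ρ g p ∉ R).card ≤ 2 * m * Bad.card := by
    calc (R.filter fun p => prodAct ρ g p ∉ R).card ≤ Bad.card * m + Bad.card * m := by
          refine h2.trans (h3.trans (add_le_add h4 h5))
      _ = 2 * m * Bad.card := by ring
  exact_mod_cast h6

theorem modelled_of_covered_of {G : Type} [Group G] (hG : HasNear G)
    (hcore : ∀ {N n m : ℕ} (ρ : G →* Equiv.Perm (Fin N))
      (D : Finset (Fin N)) (π : Fin N → Fin n), 0 < m →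
      (∀ a ∈ D.image π, (D.filter fun y => π y = a).card = m) →
      ∀ (B : Finset (Fin N × Fin N)), (∀ g y y', (ρ g y, ρ g y') ∈ B ↔ (y, y') ∈ B) →
      ∀ (κ : ℝ), 0 ≤ κ →
      (((B \ ((D ×ˢ D).filter fun p => π p.1 = π p.2)).card : ℝ) +
        ((((D ×ˢ D).filter fun p => π p.1 = π p.2) \ B).card : ℝ)) ≤ κ * m * D.card →
      ∃ (M : ℕ) (ρ' : G →* Equiv.Perm (Fin M)) (A' : Finset (Fin n)) (V : Finset (Fin N))
        (ι : Fin n → Fin M), A' ⊆ D.image π ∧ V ⊆ D ∧ Set.InjOn ι A' ∧
        ((D \ V).card : ℝ) ≤ 10 * κ * D.card ∧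
        ((D.image π \ A').card : ℝ) ≤ 220 * κ * (D.image π).card ∧
        ∀ g, ∀ y ∈ V, ρ g y ∈ V → π y ∈ A' → π (ρ g y) ∈ A' →
          ρ' g (ι (π y)) = ι (π (ρ g y)))
    {f : (n : ℕ) → G → Equiv.Perm (Fin n)} (h : PartlyCovered f) : PartlyModelled f := by
  classical
  obtain ⟨δ, hδ, h⟩ := h
  obtain ⟨F, C, hC, hnear⟩ := hG
  refine ⟨δ / 2, by positivity, ?_⟩
  intro E η hη
  set κ : ℝ := min (1 / 440) (η / 480) with hκ
  have hκ0 : 0 < κ := lt_min (by norm_num) (by positivity)
  have hκ1 : κ ≤ 1 / 440 := min_le_left _ _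
  have hκ2 : κ ≤ η / 480 := min_le_right _ _
  set η' : ℝ := min (κ / (2 * C * (F.card + 1))) (η / 2) with hη'
  have hη'0 : 0 < η' := lt_min (by positivity) (by positivity)
  have hη'1 : η' ≤ κ / (2 * C * (F.card + 1)) := min_le_left _ _
  have hη'2 : η' ≤ η / 2 := min_le_right _ _
  have hη'3 : 2 * C * (F.card + 1) * η' ≤ κ := by
    have := (le_div_iff₀ (by positivity : (0 : ℝ) < 2 * C * (F.card + 1))).1 hη'1
    linarith
  refine (h (E ∪ F) η' hη'0).mono ?_
  rintro n ⟨N, m, ρ, D, π, hm, hδn, hfib, hbad⟩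
  set R := (D ×ˢ D).filter fun p => π p.1 = π p.2 with hR
  obtain ⟨B, hB, hBR⟩ := hnear (Fin N × Fin N) (prodAct ρ) R
  have hB' : ∀ g y y', (ρ g y, ρ g y') ∈ B ↔ (y, y') ∈ B := fun g y y' => hB g (y, y')
  have hmr : (0 : ℝ) < m := by exact_mod_cast hm
  have hDn : (0 : ℝ) ≤ D.card := Nat.cast_nonneg _
  have hsum : ∑ a ∈ F, ((R.filter fun x => prodAct ρ a x ∉ R).card : ℝ) ≤
      F.card * (2 * m * (η' * D.card)) := by
    rw [← nsmul_eq_mul]
    apply Finset.sum_le_card_nsmul
    intro a ha
    refine (cov_leave ρ D π hfib (f n a) a).trans ?_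
    exact mul_le_mul_of_nonneg_left (hbad a (mem_union_right _ ha)) (by positivity)
  have h1 : (((B \ R).card : ℝ) + ((R \ B).card : ℝ)) ≤ κ * m * D.card := by
    have e1 : C * ∑ a ∈ F, ((R.filter fun x => prodAct ρ a x ∉ R).card : ℝ) ≤
        C * (F.card * (2 * m * (η' * D.card))) := mul_le_mul_of_nonneg_left hsum hC.le
    have e2 : C * (F.card * (2 * m * (η' * D.card))) ≤ κ * m * D.card := by
      have e3 : C * (F.card * (2 * m * (η' * D.card)))
          = (2 * C * F.card * η') * (m * D.card) := by ring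
      have e4 : 2 * C * F.card * η' ≤ κ := by
        have : 2 * C * F.card * η' ≤ 2 * C * (F.card + 1) * η' := by
          have e5 : (0 : ℝ) ≤ 2 * C * η' := by positivity
          nlinarith
        linarith
      rw [e3]
      calc (2 * C * F.card * η') * (m * D.card) ≤ κ * (m * D.card) :=
            mul_le_mul_of_nonneg_right e4 (by positivity)
        _ = κ * m * D.card := by ring
    linarith
  obtain ⟨M, ρ', A', V, ι, hA', hV, hι, hDV, hAA', heq⟩ :=
    hcore ρ D π hm hfib B hB' κ hκ0.le h1
  set A := D.image π with hA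
  have hAn : (A.card : ℝ) ≤ n := by
    have := card_le_univ A
    rw [Fintype.card_fin] at this
    exact_mod_cast this
  have hA0 : (0 : ℝ) ≤ A.card := Nat.cast_nonneg _
  have hDA : (D.card : ℝ) = m * A.card := by
    have := cov_card D π hfib
    exact_mod_cast this
  refine ⟨M, ρ', A', ι, ?_, hι, ?_⟩
  · have e1 : (A.card : ℝ) = A'.card + (A \ A').card := by
      have e2 := card_sdiff_add_card_eq_card hA'
      have e3 : A.card = A'.card + (A \ A').card := by omega
      exact_mod_cast e3
    have e4 : 220 * κ * (A.card : ℝ) ≤ (1 / 2) * A.card :=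
      mul_le_mul_of_nonneg_right (by linarith) hA0
    have e5 : δ / 2 * n = (δ * n) / 2 := by ring
    rw [e5]
    linarith
  · intro g hg
    have hbg := hbad g (mem_union_left _ hg)
    set Bad := D.filter fun y => ρ g y ∉ D ∨ π (ρ g y) ≠ f n g (π y) with hBad
    set W := Bad ∪ (D \ V) ∪ D.filter (fun y => ρ g y ∈ D \ V) with hW
    set Z := A'.filter fun a => f n g a ∉ A' ∨ ι (f n g a) ≠ ρ' g (ι a) with hZ
    set S := Z.filter fun a => ∀ y ∈ D, π y = a → y ∈ W with hS
    have hsub : Z ⊆ S ∪ (A'.filter fun a => f n g a ∈ A \ A') := by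
      intro a ha
      rw [mem_union]
      by_cases h2 : f n g a ∈ A \ A'
      · right
        exact mem_filter.2 ⟨(mem_filter.1 ha).1, h2⟩
      · left
        refine mem_filter.2 ⟨ha, ?_⟩
        intro y hy hya
        by_contra hyW
        rw [hW, mem_union, mem_union, not_or, not_or] at hyW
        obtain ⟨⟨hyB, hyV⟩, hgV⟩ := hyW
        rw [hBad, mem_filter, not_and, not_or, not_not, not_not] at hyB
        obtain ⟨hgD, hgπ⟩ := hyB hy
        have hyV' : y ∈ V := by
          by_contra hc
          exact hyV (Finset.mem_sdiff.2 ⟨hy, hc⟩)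
        have hgV' : ρ g y ∈ V := by
          by_contra hc
          exact hgV (mem_filter.2 ⟨hy, mem_sdiff.2 ⟨hgD, hc⟩⟩)
        rw [hya] at hgπ
        have hfa : f n g a ∈ A := by
          rw [← hgπ]
          exact mem_image_of_mem π hgD
        have hfa' : f n g a ∈ A' := by
          by_contra hc
          exact h2 (mem_sdiff.2 ⟨hfa, hc⟩)
        have haA' : a ∈ A' := (mem_filter.1 ha).1
        have h3 := heq g y hyV' hgV' (by rw [hya]; exact haA') (by rw [hgπ]; exact hfa')
        rw [hya, hgπ] at h3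
        rcases (mem_filter.1 ha).2 with h4 | h4
        · exact h4 hfa'
        · exact h4 h3.symm
    have hSA : S ⊆ A := fun a ha => hA' (mem_filter.1 (mem_filter.1 ha).1).1
    have hS1 : m * S.card ≤ W.card :=
      cov_fibres D π hfib S hSA W fun a ha y hy hya => (mem_filter.1 ha).2 y hy hya
    have hW1 : (W.card : ℝ) ≤ η' * D.card + 10 * κ * D.card + 10 * κ * D.card := by
      have e1 : W.card ≤ Bad.card + (D \ V).card + (D.filter fun y => ρ g y ∈ D \ V).card :=
        (card_union_le _ _).trans (Nat.add_le_add_right (card_union_le _ _) _)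
      have e2 : (D.filter fun y => ρ g y ∈ D \ V).card ≤ (D \ V).card := by
        apply Finset.card_le_card_of_injOn (fun y => ρ g y)
        · intro y hy
          exact (mem_filter.1 hy).2
        · intro y _ y' _ hyy'
          exact (ρ g).injective hyy'
      have e3 : (W.card : ℝ) ≤ Bad.card + (D \ V).card + (D \ V).card := by
        have : W.card ≤ Bad.card + (D \ V).card + (D \ V).card := by omega
        exact_mod_cast this
      linarith
    have hS2 : (S.card : ℝ) ≤ (η' + 20 * κ) * A.card := by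
      have e1 : (m : ℝ) * S.card ≤ W.card := by exact_mod_cast hS1
      have e2 : (m : ℝ) * S.card ≤ m * ((η' + 20 * κ) * A.card) := by
        calc (m : ℝ) * S.card ≤ W.card := e1
          _ ≤ η' * D.card + 10 * κ * D.card + 10 * κ * D.card := hW1
          _ = m * ((η' + 20 * κ) * A.card) := by
              rw [hDA]
              ring
      exact le_of_mul_le_mul_left e2 hmr
    have hT : ((A'.filter fun a => f n g a ∈ A \ A').card : ℝ) ≤ 220 * κ * A.card := by
      have e1 : (A'.filter fun a => f n g a ∈ A \ A').card ≤ (A \ A').card := by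
        apply Finset.card_le_card_of_injOn (fun a => f n g a)
        · intro a ha
          exact (mem_filter.1 ha).2
        · intro a _ b _ hab
          exact (f n g).injective hab
      have e2 : ((A'.filter fun a => f n g a ∈ A \ A').card : ℝ) ≤ (A \ A').card := by
        exact_mod_cast e1
      linarith
    have hZ1 : (Z.card : ℝ) ≤ S.card + (A'.filter fun a => f n g a ∈ A \ A').card := by
      have := (card_le_card hsub).trans (card_union_le _ _)
      exact_mod_cast this
    have hfin : (Z.card : ℝ) ≤ (η' + 240 * κ) * A.card := by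
      linarith
    calc (Z.card : ℝ) ≤ (η' + 240 * κ) * A.card := hfin
      _ ≤ η * A.card := mul_le_mul_of_nonneg_right (by linarith) hA0
      _ ≤ η * n := mul_le_mul_of_nonneg_left hAn hη.le

end Pool.Agent.IRS
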