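import Pool.Agent.IRS.CovCore
import Pool.Agent.IRS.CovToMod0

/-!
Partly covered almost-homomorphisms of a group with a spectral gap of finite actions are partly
modelled.
-/

set_option autoImplicit false
open Filter Topology Finset

namespace Pool.Agent.IRS

open Pool.Agent.FS84 (AlmostHom PartlyModelled HasNear Inv)

theorem modelled_of_covered {G : Type} [Group G] (hG : HasNear G)
    {f : (n : ℕ) → G → Equiv.Perm (Fin n)} (h : PartlyCovered f) : PartlyModelled f :=
  modelled_of_covered_of hG
    (fun ρ D π hm hfib B hB κ hκ h1 => cov_core ρ D π hm hfib B hB κ hκ h1) h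

end Pool.Agent.IRS
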