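import Pool.Agent.IRS.Psl
import Pool.Agent.IRS.CovToMod
import Pool.Agent.IRS.CovModToCov

/-!
Flexible stability of `SL_k(ℤ)`, `k ≥ 3`: it is enough that a positive part of every sofic
approximation of `PSL_k(ℤ)` is covered by finite `PSL_k(ℤ)`-sets.
-/

set_option autoImplicit false
open Filter Topology Finset

namespace Pool.Agent.IRS

open Pool.Agent.FS84 (AlmostHom PartlyModelled FlexStable HasNear)

theorem hasNear_psl (k : ℕ) (hk : 3 ≤ k) : HasNear (PSL k) :=
  hasNear_of_surjective (QuotientGroup.mk' (Subgroup.center (Pool.Agent.TAU.SL k)))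
    (QuotientGroup.mk'_surjective _) (Pool.Agent.TAU.hasNear k hk)

theorem flexStable_iff_covered (k : ℕ) (hk : 3 ≤ k) :
    FlexStable (Matrix.SpecialLinearGroup (Fin k) ℤ) ↔
    ∀ f : (n : ℕ) → Matrix.ProjectiveSpecialLinearGroup (Fin k) ℤ → Equiv.Perm (Fin n),
      SoficApprox f → PartlyCovered f := by
  rw [flexStable_iff_sofic_approximations k hk]
  constructor
  · intro h f hf
    exact covered_of_modelled (h f hf)
  · intro h f hf
    exact modelled_of_covered (hasNear_psl k hk) (h f hf)

end Pool.Agent.IRS
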