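import Pool.Agent.IRS.CovDefs

/-!
Quotient of an invariant part of a finite `G`-set by an invariant equivalence relation.
-/

set_option autoImplicit false
open Filter Topology Finset
namespace Pool.Agent.IRS

/-- [COV Quot] -/
theorem quot_action {G Y : Type} [Group G] [Fintype Y] [DecidableEq Y] (ρ : G →* Equiv.Perm Y)
    (T : Finset Y) (hT : ∀ g z, ρ g z ∈ T ↔ z ∈ T) (r : Y → Y → Prop)
    (hr : ∀ g z y, r (ρ g z) (ρ g y) ↔ r z y) (hrefl : ∀ z ∈ T, r z z)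
    (hsymm : ∀ z ∈ T, ∀ y ∈ T, r z y → r y z)
    (htrans : ∀ z ∈ T, ∀ y ∈ T, ∀ x ∈ T, r z y → r y x → r z x) :
    ∃ (M : ℕ) (ρ' : G →* Equiv.Perm (Fin M)) (c : Y → Fin M),
      (∀ z ∈ T, ∀ y ∈ T, (c z = c y ↔ r z y)) ∧ ∀ g, ∀ z ∈ T, ρ' g (c z) = c (ρ g z) := by
  classical
  have hinv : ∀ (g : G) (a b : Y), (a = b ∨ (a ∈ T ∧ b ∈ T ∧ r a b)) →
      (ρ g a = ρ g b ∨ (ρ g a ∈ T ∧ ρ g b ∈ T ∧ r (ρ g a) (ρ g b))) := by
    intro g a b h
    rcases h with h | ⟨h1, h2, h3⟩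
    · exact Or.inl (congrArg _ h)
    · exact Or.inr ⟨(hT g a).2 h1, (hT g b).2 h2, (hr g a b).2 h3⟩
  obtain ⟨s, hs⟩ : ∃ s : Setoid Y, ∀ a b, s.r a b ↔ (a = b ∨ (a ∈ T ∧ b ∈ T ∧ r a b)) := by
    refine ⟨⟨fun a b => a = b ∨ (a ∈ T ∧ b ∈ T ∧ r a b), ?_, ?_, ?_⟩, fun a b => Iff.rfl⟩
    · intro a
      exact Or.inl rfl
    · intro a b h
      rcases h with h | ⟨h1, h2, h3⟩
      · exact Or.inl h.symm
      · exact Or.inr ⟨h2, h1, hsymm a h1 b h2 h3⟩
    · intro a b c h h'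
      rcases h with h | ⟨h1, h2, h3⟩
      · rw [h]
        exact h'
      · rcases h' with h' | ⟨h4, h5, h6⟩
        · rw [← h']
          exact Or.inr ⟨h1, h2, h3⟩
        · exact Or.inr ⟨h1, h5, htrans a h1 b h2 c h5 h3 h6⟩
  have hmap : ∀ (g : G) (a b : Y), s.r a b → s.r (ρ g a) (ρ g b) := by
    intro g a b h
    exact (hs _ _).2 (hinv g a b ((hs _ _).1 h))
  obtain ⟨φ, hφ⟩ : ∃ φ : G →* Function.End (Quotient s),
      ∀ g a, φ g (Quotient.mk s a) = Quotient.mk s (ρ g a) := by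
    refine ⟨⟨⟨fun g => Quotient.map (ρ g) (hmap g), ?_⟩, ?_⟩, fun g a => rfl⟩
    · funext q
      induction q using Quotient.inductionOn with
      | h a => 
        change Quotient.mk s (ρ 1 a) = Quotient.mk s a
        rw [map_one]
        rfl
    · intro g g'
      funext q
      induction q using Quotient.inductionOn with
      | h a =>
        change Quotient.mk s (ρ (g * g') a) = Quotient.mk s (ρ g (ρ g' a))
        rw [map_mul]
        rfl
  obtain ⟨M, ⟨e⟩⟩ : ∃ M : ℕ, Nonempty (Quotient s ≃ Fin M) :=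
    ⟨Fintype.card (Quotient s), ⟨Fintype.equivFin _⟩⟩
  obtain ⟨ρ', hρ'⟩ : ∃ ρ' : G →* Equiv.Perm (Fin M), ∀ g q, ρ' g (e q) = e (φ g q) := by
    refine ⟨⟨⟨fun g => e.permCongr (φ.toHomPerm g), ?_⟩, ?_⟩, ?_⟩
    · ext x
      simp
    · intro g g'
      ext x
      simp
    · intro g q
      change e (φ.toHomPerm g (e.symm (e q))) = e (φ g q)
      rw [Equiv.symm_apply_apply]
      rfl
  refine ⟨M, ρ', fun y => e (Quotient.mk s y), ?_, ?_⟩
  · intro z hz y hy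
    rw [e.apply_eq_iff_eq]
    constructor
    · intro h
      have h1 : s.r z y := Quotient.exact h
      rcases (hs _ _).1 h1 with h2 | ⟨_, _, h2⟩
      · rw [← h2]
        exact hrefl z hz
      · exact h2
    · intro h
      exact Quotient.sound ((hs _ _).2 (Or.inr ⟨hz, hy, h⟩))
  · intro g z hz
    change ρ' g (e (Quotient.mk s z)) = e (Quotient.mk s (ρ g z))
    rw [hρ', hφ]

end Pool.Agent.IRS
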