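import Pool.Agent.TAU.Defs
import Pool.Agent.FS84.Defs

/-!
Almost-homomorphisms of `SL_k(ℤ)`, `k ≥ 3`: if they are aperiodic, only `o(n)` points are fixed by
a non-central element. Definitions.
-/

set_option autoImplicit false
open Filter Topology Finset

namespace Pool.Agent.IRS

open Pool.Agent.TAU (SL el IsEl ElProd Cong InBlock)

/-- the transvection `1 + t u φᵀ`, for `φ · u = 0` -/
def tr {k : ℕ} (u φ : Fin k → ℤ) (h : φ ⬝ᵥ u = 0) (t : ℤ) : SL k :=
  ⟨1 + Matrix.vecMulVec (t • u) φ, by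
    rw [Matrix.vecMulVec_eq Unit, Matrix.det_one_add_replicateCol_mul_replicateRow,
      dotProduct_smul, h, smul_zero, add_zero]⟩

/-- only `o(n)` points are fixed by `g` -/
def Small {G : Type} (f : (n : ℕ) → G → Equiv.Perm (Fin n)) (g : G) : Prop :=
  Tendsto (fun n : ℕ => ((univ.filter fun x : Fin n => f n g x = x).card : ℝ) / n) atTop (𝓝 0)

/-- all but `ε n` of the points fixed by `g` are fixed by `h`, for large `n` -/
def Link {G : Type} (f : (n : ℕ) → G → Equiv.Perm (Fin n)) (g h : G) (ε : ℝ) : Prop :=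
  ∀ᶠ n : ℕ in atTop, ((univ.filter fun x : Fin n => f n g x = x ∧ f n h x ≠ x).card : ℝ) ≤ ε * n

end Pool.Agent.IRS
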