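import Pool.Agent.IRS.PrecDefs

/-!
Almost-homomorphisms which are covered, with a bounded density, by finite `G`-sets. Definitions.
-/

set_option autoImplicit false
open Filter Topology Finset

namespace Pool.Agent.IRS

/-- `f` is weakly covered by finite `G`-sets: there is `K` such that for every finite `E ⊆ G` and
for infinitely many `n` there are a finite `G`-set (`Fin N` with the action `ρ`), a nonempty set
`D` of its points and a map `π` to the `n` points of `f` with at most `K |D| / n` points of `D`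
over every point, so that for every `g ∈ E` at most `|D| / 12` points `y` of `D` have `ρ g y`
outside `D` or `π (ρ g y) ≠ f n g (π y)`. -/
def WeaklyCovered {G : Type} [Group G] (f : (n : ℕ) → G → Equiv.Perm (Fin n)) : Prop :=
  ∃ K : ℕ, ∀ E : Finset G, ∃ᶠ n : ℕ in atTop,
    ∃ (N : ℕ) (ρ : G →* Equiv.Perm (Fin N)) (D : Finset (Fin N)) (π : Fin N → Fin n),
      D.Nonempty ∧ (∀ a, (D.filter fun y => π y = a).card * n ≤ K * D.card) ∧
      ∀ g ∈ E, 12 * (D.filter fun y => ρ g y ∉ D ∨ π (ρ g y) ≠ f n g (π y)).card ≤ D.card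

/-- the same with an arbitrary precision -/
def DensCovered {G : Type} [Group G] (f : (n : ℕ) → G → Equiv.Perm (Fin n)) : Prop :=
  ∃ K : ℕ, ∀ (E : Finset G) (η : ℝ), 0 < η → ∃ᶠ n : ℕ in atTop,
    ∃ (N : ℕ) (ρ : G →* Equiv.Perm (Fin N)) (D : Finset (Fin N)) (π : Fin N → Fin n),
      D.Nonempty ∧ (∀ a, (D.filter fun y => π y = a).card * n ≤ K * D.card) ∧
      ∀ g ∈ E, ((D.filter fun y => ρ g y ∉ D ∨ π (ρ g y) ≠ f n g (π y)).card : ℝ) ≤
        η * D.card

end Pool.Agent.IRS
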