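import Pool.Agent.IRS.DensPart
import Pool.Agent.IRS.CovToMod0

/-!
Coverings with a bounded density, of every precision, give `m`-to-one coverings: the main count.
-/

set_option autoImplicit false
open Filter Topology Finset

namespace Pool.Agent.IRS

theorem partly_of_dens {G : Type} [Group G] {f : (n : ℕ) → G → Equiv.Perm (Fin n)}
    (h : DensCovered f) : PartlyCovered f := by
  classical
  obtain ⟨K, h⟩ := h
  refine ⟨1 / (2 * (K + 1)), by positivity, ?_⟩
  intro E η hη
  set η' : ℝ := η / (8 * (K + 1) * (E.card + 2)) with hη'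
  have hη'0 : 0 < η' := by positivity
  have hη'1 : 8 * ((K : ℝ) + 1) * (E.card + 2) * η' = η := by
    rw [hη']
    field_simp
  refine ((h E η' hη'0).and_eventually (eventually_gt_atTop 0)).mono ?_
  rintro n ⟨⟨N, ρ, D, π, hD, hK, hbad⟩, hn⟩
  have hM : 0 < D.card := card_pos.2 hD
  set M := D.card with hMdef
  set s := fibc D π with hs
  have hsle : ∀ a, s a ≤ M := fun a => card_filter_le _ _
  obtain ⟨j0, hj1, hj2⟩ : ∃ j0 : ℕ, 2 * n * j0 < M ∧ M ≤ 2 * n * (j0 + 1) := by
    refine ⟨(M - 1) / (2 * n), ?_, ?_⟩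
    · have := Nat.mul_div_le (M - 1) (2 * n)
      omega
    · have := Nat.lt_mul_div_succ (M - 1) (show 0 < 2 * n by omega)
      omega
  set J := j0 + 1 with hJ
  have hnr : (0 : ℝ) < n := by exact_mod_cast hn
  have hMr : (0 : ℝ) < M := by exact_mod_cast hM
  -- the threshold
  have hex : ∃ t ∈ Finset.Ioc (J / 2) J,
      ∑ g ∈ E, ((univ.filter fun a => t ≤ s a ∧ s (f n g a) < t).card : ℝ) ≤
        4 * n * E.card * η' := by
    by_contra hcon
    push Not at hcon
    have hne : (Finset.Ioc (J / 2) J).Nonempty := ⟨J, Finset.mem_Ioc.2 ⟨by omega, le_rfl⟩⟩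
    have e1 := Finset.sum_lt_sum_of_nonempty hne hcon
    rw [Finset.sum_const, nsmul_eq_mul, Nat.card_Ioc, Finset.sum_comm] at e1
    have e2 : ∑ g ∈ E, ∑ t ∈ Finset.Ioc (J / 2) J,
        ((univ.filter fun a => t ≤ s a ∧ s (f n g a) < t).card : ℝ) ≤ ∑ g ∈ E, η' * M := by
      apply Finset.sum_le_sum
      intro g hg
      have e3 := (level_sum s (f n g) (Finset.Ioc (J / 2) J)).trans
        (sum_fibc_sub (ρ g) (f n g) D π)
      have e4 : ((∑ t ∈ Finset.Ioc (J / 2) J,
          (univ.filter fun a => t ≤ s a ∧ s (f n g a) < t).card : ℕ) : ℝ) ≤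
          ((D.filter fun y => ρ g y ∉ D ∨ π (ρ g y) ≠ f n g (π y)).card : ℝ) :=
        Nat.cast_le.2 e3
      rw [Nat.cast_sum] at e4
      exact e4.trans (hbad g hg)
    rw [Finset.sum_const, nsmul_eq_mul] at e2
    have e5 : M ≤ 4 * n * (J - J / 2) := by
      have e6 : J ≤ 2 * (J - J / 2) := by omega
      calc M ≤ 2 * n * J := hj2
        _ ≤ 2 * n * (2 * (J - J / 2)) := Nat.mul_le_mul_left _ e6
        _ = 4 * n * (J - J / 2) := by ring
    have e7 : (M : ℝ) ≤ 4 * n * ((J - J / 2 : ℕ) : ℝ) := by exact_mod_cast e5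
    have e8 : (0 : ℝ) ≤ E.card * η' := by positivity
    have e9 : (E.card : ℝ) * (η' * M) ≤ ((J - J / 2 : ℕ) : ℝ) * (4 * n * E.card * η') := by
      calc (E.card : ℝ) * (η' * M) = (E.card * η') * M := by ring
        _ ≤ (E.card * η') * (4 * n * ((J - J / 2 : ℕ) : ℝ)) :=
            mul_le_mul_of_nonneg_left e7 e8
        _ = ((J - J / 2 : ℕ) : ℝ) * (4 * n * E.card * η') := by ring
    linarith
  obtain ⟨t, ht, htE⟩ := hex
  have ht' := Finset.mem_Ioc.1 ht
  have ht0 : 0 < t := by omega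
  have hMt : M ≤ 4 * n * t := by
    have e1 : J ≤ 2 * t := by omega
    calc M ≤ 2 * n * J := hj2
      _ ≤ 2 * n * (2 * t) := Nat.mul_le_mul_left _ e1
      _ = 4 * n * t := by ring
  have htM : 2 * (n * (t - 1)) < M := by
    have e1 : t - 1 ≤ j0 := by omega
    calc 2 * (n * (t - 1)) = 2 * n * (t - 1) := by ring
      _ ≤ 2 * n * j0 := Nat.mul_le_mul_left _ e1
      _ < M := hj1
  obtain ⟨N', ρ', D', π', h1, h2, h3⟩ := blow ρ D π t M.factorial ht0 (Nat.factorial_pos _)
    (fun a ha => Nat.dvd_factorial (lt_of_lt_of_le ht0 ha) (hsle a))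
  set q := M.factorial with hq
  have hq0 : 0 < q := Nat.factorial_pos _
  have hqr : (0 : ℝ) < q := by exact_mod_cast hq0
  set A₀ : Finset (Fin n) := univ.filter (fun a => t ≤ fibc D π a) with hA₀
  -- the size
  have hsize : n ≤ 2 * (K + 1) * A₀.card := by
    have e1 : ∑ a ∈ A₀, s a + ∑ a ∈ univ.filter (fun a => ¬ t ≤ fibc D π a), s a = M := by
      rw [hA₀, Finset.sum_filter_add_sum_filter_not]
      exact sum_fibc D π
    have e2 : ∑ a ∈ univ.filter (fun a => ¬ t ≤ fibc D π a), s a ≤ n * (t - 1) := by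
      have e3 : ∑ a ∈ univ.filter (fun a => ¬ t ≤ fibc D π a), s a ≤
          (univ.filter (fun a => ¬ t ≤ fibc D π a)).card • (t - 1) := by
        apply Finset.sum_le_card_nsmul
        intro a ha
        have := (mem_filter.1 ha).2
        have e4 : s a < t := not_le.1 this
        omega
      refine e3.trans ?_
      rw [smul_eq_mul]
      apply Nat.mul_le_mul_right
      have := card_le_univ (univ.filter (fun a : Fin n => ¬ t ≤ fibc D π a))
      rwa [Fintype.card_fin] at this
    have e5 : M < 2 * ∑ a ∈ A₀, s a := by omega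
    have e6 : (∑ a ∈ A₀, s a) * n ≤ A₀.card * (K * M) := by
      rw [Finset.sum_mul]
      calc ∑ a ∈ A₀, s a * n ≤ A₀.card • (K * M) :=
            Finset.sum_le_card_nsmul _ _ _ fun a _ => hK a
        _ = A₀.card * (K * M) := smul_eq_mul _ _
    have e7 : M * n ≤ M * (2 * (K + 1) * A₀.card) := by
      calc M * n ≤ (2 * ∑ a ∈ A₀, s a) * n := Nat.mul_le_mul_right _ e5.le
        _ = 2 * ((∑ a ∈ A₀, s a) * n) := by ring
        _ ≤ 2 * (A₀.card * (K * M)) := Nat.mul_le_mul_left _ e6
        _ ≤ M * (2 * (K + 1) * A₀.card) := by nlinarith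
    exact Nat.le_of_mul_le_mul_left e7 hM
  have hsizer : (n : ℝ) ≤ 2 * (K + 1) * A₀.card := by exact_mod_cast hsize
  refine ⟨N', q, ρ', D', π', hq0, ?_, h2, ?_⟩
  · rw [h1]
    have e1 : (1 : ℝ) / (2 * (K + 1)) * n = n / (2 * (K + 1)) := by ring
    rw [e1, div_le_iff₀ (by positivity)]
    linarith
  · intro g hg
    have e1 := h3 g (f n g)
    have e2 : ((D'.filter fun y => ρ' g y ∉ D' ∨ π' (ρ' g y) ≠ f n g (π' y)).card : ℝ) ≤
        2 * ((D.filter fun y => ρ g y ∉ D ∨ π (ρ g y) ≠ f n g (π y)).card : ℝ) *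
          ((q / t : ℕ) : ℝ) +
        q * ((univ.filter fun a => t ≤ fibc D π a ∧ fibc D π (f n g a) < t).card : ℝ) := by
      exact_mod_cast e1
    have hcard : (D'.card : ℝ) = q * A₀.card := by
      have := cov_card D' π' h2
      rw [h1] at this
      exact_mod_cast this
    have ht0r : (0 : ℝ) < t := by exact_mod_cast ht0
    have e3 : ((q / t : ℕ) : ℝ) ≤ q / t := Nat.cast_div_le
    have e4 : 2 * ((D.filter fun y => ρ g y ∉ D ∨ π (ρ g y) ≠ f n g (π y)).card : ℝ) *
        ((q / t : ℕ) : ℝ) ≤ 8 * n * η' * q := by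
      have hMtr : (M : ℝ) ≤ 4 * n * t := by exact_mod_cast hMt
      calc 2 * ((D.filter fun y => ρ g y ∉ D ∨ π (ρ g y) ≠ f n g (π y)).card : ℝ) *
          ((q / t : ℕ) : ℝ) ≤ 2 * (η' * M) * (q / t) :=
            mul_le_mul (mul_le_mul_of_nonneg_left (hbad g hg) (by norm_num)) e3
              (Nat.cast_nonneg _) (by positivity)
        _ ≤ 2 * (η' * (4 * n * t)) * (q / t) := by
            apply mul_le_mul_of_nonneg_right _ (by positivity)
            apply mul_le_mul_of_nonneg_left _ (by norm_num)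
            exact mul_le_mul_of_nonneg_left hMtr hη'0.le
        _ = 8 * n * η' * q := by
            field_simp
            ring
    have e5 : ((univ.filter fun a => t ≤ fibc D π a ∧ fibc D π (f n g a) < t).card : ℝ) ≤
        4 * n * E.card * η' := by
      refine le_trans ?_ htE
      exact Finset.single_le_sum (f := fun g =>
        ((univ.filter fun a => t ≤ s a ∧ s (f n g a) < t).card : ℝ))
        (fun _ _ => Nat.cast_nonneg _) hg
    have e6 : q * ((univ.filter fun a => t ≤ fibc D π a ∧ fibc D π (f n g a) < t).card : ℝ) ≤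
        q * (4 * n * E.card * η') := mul_le_mul_of_nonneg_left e5 hqr.le
    rw [hcard]
    have e7 : 8 * n * η' * q + q * (4 * n * E.card * η') = q * (4 * n * (E.card + 2) * η') := by
      ring
    have e8 : 4 * n * (E.card + 2) * η' ≤ η * A₀.card := by
      have e9 : (0 : ℝ) ≤ 4 * (E.card + 2) * η' := by positivity
      calc 4 * n * (E.card + 2) * η' = (4 * (E.card + 2) * η') * n := by ring
        _ ≤ (4 * (E.card + 2) * η') * (2 * (K + 1) * A₀.card) :=
            mul_le_mul_of_nonneg_left hsizer e9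
        _ = (8 * (K + 1) * (E.card + 2) * η') * A₀.card := by ring
        _ = η * A₀.card := by rw [hη'1]
    have e10 : q * (4 * n * (E.card + 2) * η') ≤ q * (η * A₀.card) :=
      mul_le_mul_of_nonneg_left e8 hqr.le
    calc _ ≤ 2 * ((D.filter fun y => ρ g y ∉ D ∨ π (ρ g y) ≠ f n g (π y)).card : ℝ) *
          ((q / t : ℕ) : ℝ) +
        q * ((univ.filter fun a => t ≤ fibc D π a ∧ fibc D π (f n g a) < t).card : ℝ) := e2
      _ ≤ 8 * n * η' * q + q * (4 * n * E.card * η') := add_le_add e4 e6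
      _ = q * (4 * n * (E.card + 2) * η') := e7
      _ ≤ q * (η * A₀.card) := e10
      _ = η * (q * A₀.card) := by ring

end Pool.Agent.IRS
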