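import Pool.Agent.IRS.PrecDefs

/-!
Roughly modelled almost-homomorphisms are partly modelled, from `near_exact` (a hypothesis here).
-/

set_option autoImplicit false
open Filter Topology Finset

namespace Pool.Agent.IRS

open Pool.Agent.FS84 (AlmostHom PartlyModelled HasNear Inv ham)

/-- [PREC Triv] -/
theorem roughlyCovered_of_covered {G : Type} [Group G] {f : (n : ℕ) → G → Equiv.Perm (Fin n)}
    (h : PartlyCovered f) : RoughlyCovered f := by
  obtain ⟨δ, hδ, h⟩ := h
  refine ⟨δ, hδ, fun E => (h E (1 / 100000) (by norm_num)).mono ?_⟩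
  rintro n ⟨N, m, ρ, D, π, hm, hδn, hfib, hbad⟩
  refine ⟨N, m, ρ, D, π, hm, hδn, hfib, fun g hg => ?_⟩
  have h1 := hbad g hg
  have h2 : (100000 : ℝ) * ((D.filter fun y => ρ g y ∉ D ∨ π (ρ g y) ≠ f n g (π y)).card : ℝ) ≤
      D.card := by linarith
  exact_mod_cast h2

theorem prec_list {G : Type} (p q : G → Bool) : ∀ L : List G,
    (∀ g ∈ L, ¬ (p g = true ∧ q g = true)) →
    (L.filter p).length + (L.filter q).length ≤ L.length := by
  intro L
  induction L with
  | nil => intro _; simp
  | cons a L ih =>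
    intro h
    have h1 := ih fun g hg => h g (List.mem_cons_of_mem _ hg)
    have h2 := h a List.mem_cons_self
    by_cases hp : p a = true
    · have hq : ¬ q a = true := fun hq => h2 ⟨hp, hq⟩
      rw [List.filter_cons_of_pos hp, List.filter_cons_of_neg hq]
      simp only [List.length_cons]
      omega
    · by_cases hq : q a = true
      · rw [List.filter_cons_of_neg hp, List.filter_cons_of_pos hq]
        simp only [List.length_cons]
        omega
      · rw [List.filter_cons_of_neg hp, List.filter_cons_of_neg hq]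
        simp only [List.length_cons]
        omega

theorem prec_common {G X : Type} [DecidableEq X] (φ : G → Equiv.Perm X) (S : Finset X)
    (L : List G) {x y : X} (hx : L.length < 2 * psiL φ S L x) (hy : L.length < 2 * psiL φ S L y) :
    ∃ g, (φ g).symm x ∈ S ∧ (φ g).symm y ∈ S := by
  by_contra hc
  push Not at hc
  have h1 := prec_list (fun g => decide ((φ g).symm x ∈ S)) (fun g => decide ((φ g).symm y ∈ S)) L
    (by
      rintro g _ ⟨h2, h3⟩
      exact hc g (of_decide_eq_true h2) (of_decide_eq_true h3))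
  unfold psiL at hx hy
  omega

/-- [PREC Mod], `near_exact` a hypothesis -/
theorem modelled_of_roughly_of {G : Type} [Group G]
    (hne : ∀ (E : Finset G) (η : ℝ), 0 < η →
      ∃ (ET : Finset G) (τ : ℝ), 0 < τ ∧ ∀ (X : Type) [Fintype X] [DecidableEq X]
        (φ : G → Equiv.Perm X) (S : Finset X) (η₀ : ℝ),
        (∀ g ∈ ET, ∀ h ∈ ET,
          ((S.filter fun x => φ g (φ h x) ≠ φ (g * h) x).card : ℝ) ≤ τ * S.card) →
        (∀ g ∈ ET, ((S.filter fun x => φ g x ∉ S).card : ℝ) ≤ η₀ * S.card) →
        ∃ (L : List G) (S' : Finset X), (∀ x ∈ S', L.length < 2 * psiL φ S L x) ∧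
          ((S \ S').card + (S' \ S).card : ℝ) ≤ 6 * η₀ * S.card ∧
          ∀ g ∈ E, ((S'.filter fun x => φ g x ∉ S').card : ℝ) ≤ η * S.card)
    {f : (n : ℕ) → G → Equiv.Perm (Fin n)}
    (hf : AlmostHom f) (h : RoughlyModelled f) : PartlyModelled f := by
  classical
  obtain ⟨δ, hδ, h⟩ := h
  refine ⟨δ / 2, by positivity, ?_⟩
  intro E η hη
  obtain ⟨ET, τ, hτ, hexact⟩ := hne E η hη
  have hmul : ∀ᶠ n : ℕ in atTop, ∀ g ∈ ET, ∀ k ∈ ET,
      ((univ.filter fun x : Fin n => f n g (f n k x) ≠ f n (g * k) x).card : ℝ) ≤ τ * δ * n := by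
    rw [Finset.eventually_all]
    intro g _
    rw [Finset.eventually_all]
    intro k _
    have h1 := (hf g k).eventually (ge_mem_nhds (show (0 : ℝ) < τ * δ by positivity))
    filter_upwards [h1, eventually_gt_atTop 0] with n hn hn0
    have hn0' : (0 : ℝ) < n := by exact_mod_cast hn0
    unfold Pool.Agent.FS84.ham at hn
    rw [div_le_iff₀ hn0'] at hn
    exact hn
  refine ((h ET).and_eventually hmul).mono ?_
  rintro n ⟨⟨m, ρ, A, ι, hδn, hι, hbad⟩, hmn⟩
  set S : Finset (Fin n × Fin m) := A.image fun a => (a, ι a) with hS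
  have memS : ∀ a b, (a, b) ∈ S ↔ a ∈ A ∧ b = ι a := by
    intro a b
    rw [hS, mem_image]
    constructor
    · rintro ⟨c, hc, hcb⟩
      rw [Prod.mk.injEq] at hcb
      obtain ⟨rfl, rfl⟩ := hcb
      exact ⟨hc, rfl⟩
    · rintro ⟨ha, rfl⟩
      exact ⟨a, ha, rfl⟩
  have hSc : S.card = A.card := by
    rw [hS]
    exact card_image_of_injective _ fun a b hab => (Prod.mk.injEq _ _ _ _ ▸ hab).1
  let φ : G → Equiv.Perm (Fin n × Fin m) := fun g => (f n g).prodCongr (ρ g)
  have hφ : ∀ g a b, φ g (a, b) = (f n g a, ρ g b) := fun g a b => rfl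
  obtain ⟨L, S', hL, hSS', hS'⟩ := hexact (Fin n × Fin m) φ S (1 / 30)
    (by
      intro g hg k hk
      have h1 : (S.filter fun x => φ g (φ k x) ≠ φ (g * k) x).card ≤
          (univ.filter fun x : Fin n => f n g (f n k x) ≠ f n (g * k) x).card := by
        apply Finset.card_le_card_of_injOn (fun x => x.1)
        · rintro ⟨a, b⟩ hx
          rw [mem_coe, mem_filter] at hx
          rw [mem_coe, mem_filter]
          refine ⟨mem_univ _, ?_⟩
          intro hc
          apply hx.2
          rw [hφ, hφ, hφ, Prod.mk.injEq]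
          refine ⟨hc, ?_⟩
          rw [map_mul]
          rfl
        · rintro ⟨a, b⟩ hx ⟨a', b'⟩ hx' hab
          rw [mem_coe, mem_filter, memS] at hx hx'
          simp only at hab
          subst hab
          rw [hx.1.2, hx'.1.2]
      have h2 := hmn g hg k hk
      have h3 : ((S.filter fun x => φ g (φ k x) ≠ φ (g * k) x).card : ℝ) ≤
          (univ.filter fun x : Fin n => f n g (f n k x) ≠ f n (g * k) x).card := by
        exact_mod_cast h1
      rw [hSc]
      have h4 : τ * (δ * n) ≤ τ * A.card := mul_le_mul_of_nonneg_left hδn hτ.le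
      linarith)
    (by
      intro g hg
      have h1 : (S.filter fun x => φ g x ∉ S).card ≤
          (A.filter fun x => f n g x ∉ A ∨ ι (f n g x) ≠ ρ g (ι x)).card := by
        apply Finset.card_le_card_of_injOn (fun x => x.1)
        · rintro ⟨a, b⟩ hx
          rw [mem_coe, mem_filter, memS, hφ, memS] at hx
          rw [mem_coe, mem_filter]
          refine ⟨hx.1.1, ?_⟩
          by_contra hc
          push Not at hc
          apply hx.2
          refine ⟨hc.1, ?_⟩
          rw [hc.2, hx.1.2]
        · rintro ⟨a, b⟩ hx ⟨a', b'⟩ hx' hab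
          rw [mem_coe, mem_filter, memS] at hx hx'
          simp only at hab
          subst hab
          rw [hx.1.2, hx'.1.2]
      rw [hSc]
      refine le_trans ?_ (hbad g hg)
      exact_mod_cast h1)
  -- `S'` is the graph of a partial injection
  have hcom : ∀ a b a' b', (a, b) ∈ S' → (a', b') ∈ S' → (a = a' ↔ b = b') := by
    intro a b a' b' h1 h2
    obtain ⟨g, hg1, hg2⟩ := prec_common φ S L (hL _ h1) (hL _ h2)
    have e1 : (φ g).symm (a, b) = ((f n g).symm a, (ρ g).symm b) := rfl
    have e2 : (φ g).symm (a', b') = ((f n g).symm a', (ρ g).symm b') := rfl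
    rw [e1, memS] at hg1
    rw [e2, memS] at hg2
    constructor
    · rintro rfl
      apply (ρ g).symm.injective
      rw [hg1.2, hg2.2]
    · rintro rfl
      have h3 : ι ((f n g).symm a) = ι ((f n g).symm a') := by rw [← hg1.2, ← hg2.2]
      exact (f n g).symm.injective (hι hg1.1 hg2.1 h3)
  let ι' : Fin n → Fin m := fun a => if h : ∃ b, (a, b) ∈ S' then h.choose else ι a
  have hι' : ∀ a b, (a, b) ∈ S' → ι' a = b := by
    intro a b hab
    have hex : ∃ b, (a, b) ∈ S' := ⟨b, hab⟩
    have h1 : ι' a = hex.choose := by simp only [ι']; rw [dif_pos hex]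
    rw [h1]
    exact (hcom a _ a b hex.choose_spec hab).1 rfl
  have hmemA : ∀ a, a ∈ S'.image Prod.fst ↔ (a, ι' a) ∈ S' := by
    intro a
    rw [mem_image]
    constructor
    · rintro ⟨⟨c, b⟩, hcb, rfl⟩
      have := hι' c b hcb
      simp only
      rw [this]
      exact hcb
    · intro h1
      exact ⟨_, h1, rfl⟩
  have hcardA : (S'.image Prod.fst).card = S'.card := by
    apply card_image_of_injOn
    rintro ⟨a, b⟩ h1 ⟨a', b'⟩ h2 hab
    simp only at hab
    subst hab
    rw [(hcom a b a b' h1 h2).1 rfl]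
  have hAn : (A.card : ℝ) ≤ n := by
    have := card_le_univ A
    rw [Fintype.card_fin] at this
    exact_mod_cast this
  refine ⟨m, ρ, S'.image Prod.fst, ι', ?_, ?_, ?_⟩
  · rw [hcardA]
    have h1 : (S.card : ℝ) ≤ S'.card + (S \ S').card := by
      have h2 : S ⊆ S' ∪ (S \ S') := by
        intro x hx
        by_cases h3 : x ∈ S'
        · exact mem_union_left _ h3
        · exact mem_union_right _ (Finset.mem_sdiff.2 ⟨hx, h3⟩)
      exact_mod_cast (card_le_card h2).trans (card_union_le _ _)
    have h2 : (0 : ℝ) ≤ (S' \ S).card := Nat.cast_nonneg _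
    have h3 : (S.card : ℝ) = A.card := by exact_mod_cast hSc
    have h4 : (0 : ℝ) ≤ n := Nat.cast_nonneg _
    have h5 : (0 : ℝ) ≤ δ * n := by positivity
    linarith
  · intro a ha a' ha' hab
    rw [mem_coe, hmemA] at ha ha'
    exact (hcom _ _ _ _ ha ha').2 hab
  · intro g hg
    have h1 : ((S'.image Prod.fst).filter fun x => f n g x ∉ S'.image Prod.fst ∨
        ι' (f n g x) ≠ ρ g (ι' x)).card ≤ (S'.filter fun x => φ g x ∉ S').card := by
      apply Finset.card_le_card_of_injOn (fun a => (a, ι' a))
      · intro a ha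
        rw [mem_coe, mem_filter, hmemA] at ha
        rw [mem_coe, mem_filter]
        refine ⟨ha.1, ?_⟩
        intro hc
        rw [hφ] at hc
        have h2 := hι' _ _ hc
        rcases ha.2 with h3 | h3
        · apply h3
          rw [hmemA, h2]
          exact hc
        · exact h3 h2
      · intro a _ a' _ hab
        exact (Prod.mk.injEq _ _ _ _ ▸ hab).1
    have h2 : (((S'.image Prod.fst).filter fun x => f n g x ∉ S'.image Prod.fst ∨
        ι' (f n g x) ≠ ρ g (ι' x)).card : ℝ) ≤ (S'.filter fun x => φ g x ∉ S').card := by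
      exact_mod_cast h1
    refine h2.trans ((hS' g hg).trans ?_)
    rw [hSc]
    exact mul_le_mul_of_nonneg_left hAn hη.le

end Pool.Agent.IRS
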