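import Pool.Agent.IRS.PrecEn
import Pool.Agent.IRS.DensDefs
import Pool.Agent.IRS.PrecMod

/-!
Maps from finite `G`-sets with bounded density and a fixed precision can be improved to maps with
bounded density and any precision.
-/

set_option autoImplicit false
open Filter Topology Finset

namespace Pool.Agent.IRS

open Pool.Agent.FS84 (AlmostHom PartlyModelled HasNear Inv ham)

/-- [DENS D1] -/
theorem dens_improve {G : Type} [Group G] {f : (n : ℕ) → G → Equiv.Perm (Fin n)}
    (hf : AlmostHom f) (K : ℝ)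
    (h : ∀ E : Finset G, ∃ᶠ n : ℕ in atTop,
      ∃ (N : ℕ) (ρ : G →* Equiv.Perm (Fin N)) (D : Finset (Fin N)) (π : Fin N → Fin n),
        D.Nonempty ∧ (∀ a, (n : ℝ) * (D.filter fun y => π y = a).card ≤ K * D.card) ∧
        ∀ g ∈ E, 12 * (D.filter fun y => ρ g y ∉ D ∨ π (ρ g y) ≠ f n g (π y)).card ≤ D.card)
    (E : Finset G) (η : ℝ) (hη : 0 < η) : ∃ᶠ n : ℕ in atTop,
      ∃ (N : ℕ) (ρ : G →* Equiv.Perm (Fin N)) (D : Finset (Fin N)) (π : Fin N → Fin n),
        D.Nonempty ∧ (∀ a, (n : ℝ) * (D.filter fun y => π y = a).card ≤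
          4 * (|K| + 1) * D.card) ∧
        ∀ g ∈ E, ((D.filter fun y => ρ g y ∉ D ∨ π (ρ g y) ≠ f n g (π y)).card : ℝ) ≤
          η * D.card := by
  classical
  obtain ⟨ET, τ, hτ, hexact⟩ := near_exact E (η / 2) (by positivity)
  obtain ⟨K1, hK1⟩ : ∃ K1 : ℝ, K1 = |K| + 1 := ⟨_, rfl⟩
  have hK1p : 0 < K1 := by rw [hK1]; positivity
  have hKK1 : K ≤ K1 := by
    rw [hK1]
    have := le_abs_self K
    linarith
  rw [← hK1]
  have hmul : ∀ᶠ n : ℕ in atTop, 0 < n ∧ ∀ g ∈ ET, ∀ k ∈ ET,
      ((univ.filter fun x : Fin n => f n g (f n k x) ≠ f n (g * k) x).card : ℝ) ≤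
        τ / K1 * n := by
    refine (eventually_gt_atTop 0).and ?_
    rw [Finset.eventually_all]
    intro g _
    rw [Finset.eventually_all]
    intro k _
    have h1 := (hf g k).eventually (ge_mem_nhds (show (0 : ℝ) < τ / K1 by positivity))
    filter_upwards [h1, eventually_gt_atTop 0] with n hn hn0
    have hn0' : (0 : ℝ) < n := by exact_mod_cast hn0
    unfold Pool.Agent.FS84.ham at hn
    rw [div_le_iff₀ hn0'] at hn
    exact hn
  refine ((h ET).and_eventually hmul).mono ?_
  rintro n ⟨⟨N, ρ, D, π, hDne, hfib, hbad⟩, hn0, hmn⟩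
  have hn : (0 : ℝ) < n := by exact_mod_cast hn0
  have hfib1 : ∀ a, (n : ℝ) * (D.filter fun y => π y = a).card ≤ K1 * D.card := fun a =>
    (hfib a).trans (mul_le_mul_of_nonneg_right hKK1 (Nat.cast_nonneg _))
  set S : Finset (Fin N × Fin n) := D.image fun y => (y, π y) with hS
  have memS : ∀ y a, (y, a) ∈ S ↔ y ∈ D ∧ a = π y := by
    intro y a
    rw [hS, mem_image]
    constructor
    · rintro ⟨c, hc, hcb⟩
      rw [Prod.mk.injEq] at hcb
      obtain ⟨rfl, rfl⟩ := hcb
      exact ⟨hc, rfl⟩
    · rintro ⟨ha, rfl⟩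
      exact ⟨y, ha, rfl⟩
  have hSc : S.card = D.card := by
    rw [hS]
    exact card_image_of_injective _ fun a b hab => (Prod.mk.injEq _ _ _ _ ▸ hab).1
  let φ : G → Equiv.Perm (Fin N × Fin n) := fun g => (ρ g : Equiv.Perm (Fin N)).prodCongr (f n g)
  have hφ : ∀ g y a, φ g (y, a) = (ρ g y, f n g a) := fun g y a => rfl
  obtain ⟨L, S', hL, hSS', hS'⟩ := hexact (Fin N × Fin n) φ S (1 / 12)
    (by
      intro g hg k hk
      set Bd : Finset (Fin n) := univ.filter fun x : Fin n => f n g (f n k x) ≠ f n (g * k) x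
        with hBd
      have h1 : (S.filter fun x => φ g (φ k x) ≠ φ (g * k) x).card ≤
          ∑ a ∈ Bd, (D.filter fun y => π y = a).card := by
        refine le_trans ?_ card_biUnion_le
        apply Finset.card_le_card_of_injOn (fun x => x.1)
        · rintro ⟨y, a⟩ hx
          rw [mem_coe, mem_filter, memS] at hx
          rw [mem_coe, mem_biUnion]
          refine ⟨π y, ?_, mem_filter.2 ⟨hx.1.1, rfl⟩⟩
          rw [hBd, mem_filter]
          refine ⟨mem_univ _, ?_⟩
          intro hc
          apply hx.2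
          rw [hφ, hφ, hφ, Prod.mk.injEq, hx.1.2]
          refine ⟨?_, hc⟩
          rw [map_mul]
          rfl
        · rintro ⟨a, b⟩ hx ⟨a', b'⟩ hx' hab
          rw [mem_coe, mem_filter, memS] at hx hx'
          simp only at hab
          subst hab
          rw [hx.1.2, hx'.1.2]
      have h2 := hmn g hg k hk
      rw [← hBd] at h2
      have h3 : (n : ℝ) * ((S.filter fun x => φ g (φ k x) ≠ φ (g * k) x).card : ℝ) ≤
          n * (τ * S.card) := by
        calc (n : ℝ) * ((S.filter fun x => φ g (φ k x) ≠ φ (g * k) x).card : ℝ)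
            ≤ n * ((∑ a ∈ Bd, (D.filter fun y => π y = a).card : ℕ) : ℝ) := by
              refine mul_le_mul_of_nonneg_left ?_ hn.le
              exact_mod_cast h1
          _ = ∑ a ∈ Bd, (n : ℝ) * ((D.filter fun y => π y = a).card : ℝ) := by
              push_cast
              rw [mul_sum]
          _ ≤ ∑ a ∈ Bd, K1 * D.card := sum_le_sum fun a _ => hfib1 a
          _ = Bd.card * (K1 * D.card) := by rw [sum_const, nsmul_eq_mul]
          _ ≤ (τ / K1 * n) * (K1 * D.card) := mul_le_mul_of_nonneg_right h2 (by positivity)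
          _ = n * (τ * S.card) := by
              rw [hSc]
              field_simp
      exact le_of_mul_le_mul_left h3 hn)
    (by
      intro g hg
      have h1 : (S.filter fun x => φ g x ∉ S).card ≤
          (D.filter fun y => ρ g y ∉ D ∨ π (ρ g y) ≠ f n g (π y)).card := by
        apply Finset.card_le_card_of_injOn (fun x => x.1)
        · rintro ⟨a, b⟩ hx
          rw [mem_coe, mem_filter, memS, hφ, memS] at hx
          rw [mem_coe, mem_filter]
          refine ⟨hx.1.1, ?_⟩
          by_contra hc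
          push Not at hc
          apply hx.2
          refine ⟨hc.1, ?_⟩
          rw [hc.2, hx.1.2]
        · rintro ⟨a, b⟩ hx ⟨a', b'⟩ hx' hab
          rw [mem_coe, mem_filter, memS] at hx hx'
          simp only at hab
          subst hab
          rw [hx.1.2, hx'.1.2]
      have h2 := hbad g hg
      rw [hSc]
      have h3 : 12 * (S.filter fun x => φ g x ∉ S).card ≤ D.card := by omega
      have h4 : (12 : ℝ) * ((S.filter fun x => φ g x ∉ S).card : ℝ) ≤ D.card := by
        exact_mod_cast h3
      linarith)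
  -- `S'` is the graph of a map
  have hcom : ∀ y a a', (y, a) ∈ S' → (y, a') ∈ S' → a = a' := by
    intro y a a' h1 h2
    obtain ⟨g, hg1, hg2⟩ := prec_common φ S L (hL _ h1) (hL _ h2)
    have e1 : (φ g).symm (y, a) = ((ρ g).symm y, (f n g).symm a) := rfl
    have e2 : (φ g).symm (y, a') = ((ρ g).symm y, (f n g).symm a') := rfl
    rw [e1, memS] at hg1
    rw [e2, memS] at hg2
    apply (f n g).symm.injective
    rw [hg1.2, hg2.2]
  let π' : Fin N → Fin n := fun y => if h : ∃ a, (y, a) ∈ S' then h.choose else π y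
  have hπ' : ∀ y a, (y, a) ∈ S' → π' y = a := by
    intro y a hab
    have hex : ∃ a, (y, a) ∈ S' := ⟨a, hab⟩
    have h1 : π' y = hex.choose := by simp only [π']; rw [dif_pos hex]
    rw [h1]
    exact hcom y _ a hex.choose_spec hab
  have hmemD : ∀ y, y ∈ S'.image Prod.fst ↔ (y, π' y) ∈ S' := by
    intro y
    rw [mem_image]
    constructor
    · rintro ⟨⟨c, b⟩, hcb, rfl⟩
      have := hπ' c b hcb
      simp only
      rw [this]
      exact hcb
    · intro h1
      exact ⟨_, h1, rfl⟩
  have hcardD : (S'.image Prod.fst).card = S'.card := by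
    apply card_image_of_injOn
    rintro ⟨a, b⟩ h1 ⟨a', b'⟩ h2 hab
    simp only at hab
    subst hab
    rw [hcom a b b' h1 h2]
  have hDpos : (0 : ℝ) < D.card := by exact_mod_cast hDne.card_pos
  have hScR : (S.card : ℝ) = D.card := by exact_mod_cast hSc
  have hS'big : (S.card : ℝ) ≤ 2 * S'.card := by
    have h1 : (S.card : ℝ) ≤ S'.card + (S \ S').card := by
      have h2 : S ⊆ S' ∪ (S \ S') := by
        intro x hx
        by_cases h3 : x ∈ S'
        · exact mem_union_left _ h3
        · exact mem_union_right _ (Finset.mem_sdiff.2 ⟨hx, h3⟩)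
      exact_mod_cast (card_le_card h2).trans (card_union_le _ _)
    have h2 : (0 : ℝ) ≤ (S' \ S).card := Nat.cast_nonneg _
    linarith
  have hS'pos : (0 : ℝ) < S'.card := by linarith
  have hS'ne : S'.Nonempty := card_pos.1 (by exact_mod_cast hS'pos)
  have hLpos : (0 : ℝ) < L.length := by
    obtain ⟨x, hx⟩ := hS'ne
    have h1 := hL x hx
    have h2 : psiL φ S L x ≤ L.length := by
      unfold psiL
      exact List.length_filter_le _ _
    have h3 : 0 < L.length := by omega
    exact_mod_cast h3
  refine ⟨N, ρ, S'.image Prod.fst, π', ?_, ?_, ?_⟩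
  · exact hS'ne.image _
  · intro a
    rw [hcardD]
    set Fa := (S'.image Prod.fst).filter fun y => π' y = a with hFa
    have hFaS : ∀ y ∈ Fa, (y, a) ∈ S' := by
      intro y hy
      rw [hFa, mem_filter, hmemD] at hy
      rw [← hy.2]
      exact hy.1
    set P : Finset (Fin N × Fin n) := Fa.image fun y => (y, a) with hP
    have hPc : P.card = Fa.card := by
      rw [hP]
      exact card_image_of_injective _ fun a b hab => (Prod.mk.injEq _ _ _ _ ▸ hab).1
    have hup := sum_psi φ S L (K1 * D.card / n) P (by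
      intro g _
      rw [le_div_iff₀ hn, mul_comm]
      refine le_trans ?_ (hfib1 ((f n g).symm a))
      refine mul_le_mul_of_nonneg_left ?_ hn.le
      have h1 : (P.filter fun x => (φ g).symm x ∈ S).card ≤
          (D.filter fun y => π y = (f n g).symm a).card := by
        apply Finset.card_le_card_of_injOn (fun x => (ρ g).symm x.1)
        · rintro ⟨y, b⟩ hx
          rw [mem_coe, mem_filter] at hx
          obtain ⟨hx1, hx2⟩ := hx
          rw [hP, mem_image] at hx1
          obtain ⟨y', _, hy'⟩ := hx1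
          rw [Prod.mk.injEq] at hy'
          obtain ⟨rfl, rfl⟩ := hy'
          have e1 : (φ g).symm (y', a) = ((ρ g).symm y', (f n g).symm a) := rfl
          rw [e1, memS] at hx2
          rw [mem_coe, mem_filter]
          exact ⟨hx2.1, hx2.2.symm⟩
        · rintro ⟨y, b⟩ hx ⟨y', b'⟩ hx' hab
          rw [mem_coe, mem_filter, hP, mem_image] at hx hx'
          obtain ⟨⟨z, _, hz⟩, _⟩ := hx
          obtain ⟨⟨z', _, hz'⟩, _⟩ := hx'
          rw [Prod.mk.injEq] at hz hz'
          obtain ⟨rfl, rfl⟩ := hz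
          obtain ⟨rfl, rfl⟩ := hz'
          exact Prod.ext ((ρ g).symm.injective hab) rfl
      exact_mod_cast h1)
    have hlow : (P.card : ℝ) * (L.length / 2) ≤ ∑ x ∈ P, (psiL φ S L x : ℝ) := by
      rw [← nsmul_eq_mul]
      apply Finset.card_nsmul_le_sum
      intro x hx
      rw [hP, mem_image] at hx
      obtain ⟨y, hy, rfl⟩ := hx
      have h1 := hL _ (hFaS y hy)
      have h2 : (L.length : ℝ) ≤ 2 * psiL φ S L (y, a) := by exact_mod_cast h1.le
      linarith
    rw [hPc] at hlow
    have h1 : (L.length : ℝ) * (n * Fa.card) ≤ L.length * (2 * K1 * D.card) := by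
      have h2 := hlow.trans hup
      have h3 : (Fa.card : ℝ) * (L.length / 2) * n ≤ L.length * (K1 * D.card / n) * n :=
        mul_le_mul_of_nonneg_right h2 hn.le
      have h4 : (L.length : ℝ) * (K1 * D.card / n) * n = L.length * (K1 * D.card) := by
        field_simp
      rw [h4] at h3
      linarith
    have h5 := le_of_mul_le_mul_left h1 hLpos
    have h6 : 2 * K1 * (D.card : ℝ) ≤ 4 * K1 * S'.card := by
      have h7 : 2 * K1 * (D.card : ℝ) ≤ 2 * K1 * (2 * S'.card) :=
        mul_le_mul_of_nonneg_left (by linarith) (by positivity)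
      linarith
    linarith
  · intro g hg
    have h1 : ((S'.image Prod.fst).filter fun y => ρ g y ∉ S'.image Prod.fst ∨
        π' (ρ g y) ≠ f n g (π' y)).card ≤ (S'.filter fun x => φ g x ∉ S').card := by
      apply Finset.card_le_card_of_injOn (fun y => (y, π' y))
      · intro a ha
        rw [mem_coe, mem_filter, hmemD] at ha
        rw [mem_coe, mem_filter]
        refine ⟨ha.1, ?_⟩
        intro hc
        rw [hφ] at hc
        have h2 := hπ' _ _ hc
        rcases ha.2 with h3 | h3
        · apply h3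
          rw [hmemD, h2]
          exact hc
        · exact h3 h2
      · intro a _ a' _ hab
        exact (Prod.mk.injEq _ _ _ _ ▸ hab).1
    have h2 : (((S'.image Prod.fst).filter fun y => ρ g y ∉ S'.image Prod.fst ∨
        π' (ρ g y) ≠ f n g (π' y)).card : ℝ) ≤ (S'.filter fun x => φ g x ∉ S').card := by
      exact_mod_cast h1
    refine h2.trans ((hS' g hg).trans ?_)
    rw [hcardD]
    have h3 : η / 2 * (S.card : ℝ) ≤ η / 2 * (2 * S'.card) :=
      mul_le_mul_of_nonneg_left hS'big (by positivity)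
    linarith

/-- [DENS D1], the fixed precision can be improved -/
theorem dens_of_weakly {G : Type} [Group G] {f : (n : ℕ) → G → Equiv.Perm (Fin n)}
    (hf : AlmostHom f) (h : WeaklyCovered f) : DensCovered f := by
  obtain ⟨K, h⟩ := h
  refine ⟨4 * (K + 1), fun E η hη => ?_⟩
  have h1 := dens_improve hf (K : ℝ) (fun E => (h E).mono (by
    rintro n ⟨N, ρ, D, π, hD, hfib, hbad⟩
    refine ⟨N, ρ, D, π, hD, fun a => ?_, hbad⟩
    have h2 : (((D.filter fun y => π y = a).card * n : ℕ) : ℝ) ≤ ((K * D.card : ℕ) : ℝ) := by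
      exact_mod_cast hfib a
    push_cast at h2
    linarith)) E η hη
  refine h1.mono ?_
  rintro n ⟨N, ρ, D, π, hD, hfib, hbad⟩
  refine ⟨N, ρ, D, π, hD, fun a => ?_, hbad⟩
  have h2 := hfib a
  rw [abs_of_nonneg (Nat.cast_nonneg K)] at h2
  have h3 : (((D.filter fun y => π y = a).card * n : ℕ) : ℝ) ≤
      ((4 * (K + 1) * D.card : ℕ) : ℝ) := by
    push_cast
    linarith
  exact_mod_cast h3

end Pool.Agent.IRS
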