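import Pool.Agent.IRS.CovFinal
import Pool.Agent.IRS.DensMod
import Pool.Agent.IRS.DensMain

/-!
Flexible stability of `SL_k(ℤ)`, `k ≥ 3`: it is enough that every sofic approximation of
`PSL_k(ℤ)` is covered, with a bounded density and an error of one twelfth, by finite
`PSL_k(ℤ)`-sets.
-/

set_option autoImplicit false
open Filter Topology Finset

namespace Pool.Agent.IRS

open Pool.Agent.FS84 (AlmostHom PartlyModelled FlexStable HasNear)

theorem weakly_of_partly {G : Type} [Group G] {f : (n : ℕ) → G → Equiv.Perm (Fin n)}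
    (h : PartlyCovered f) : WeaklyCovered f := by
  obtain ⟨δ, hδ, h⟩ := h
  refine ⟨⌈1 / δ⌉₊, fun E => ?_⟩
  refine ((h E (1 / 12) (by norm_num)).and_eventually (eventually_gt_atTop 0)).mono ?_
  rintro n ⟨⟨N, m, ρ, D, π, hm, hA, hfib, hbad⟩, hn⟩
  have hn' : (0 : ℝ) < n := by exact_mod_cast hn
  have hA0 : (0 : ℝ) < (D.image π).card := lt_of_lt_of_le (mul_pos hδ hn') hA
  have hA1 : 0 < (D.image π).card := by exact_mod_cast hA0
  have hD : D.Nonempty := image_nonempty.1 (card_pos.1 hA1)
  refine ⟨N, ρ, D, π, hD, fun a => ?_, fun g hg => ?_⟩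
  · by_cases ha : a ∈ D.image π
    · rw [hfib a ha, cov_card D π hfib]
      have h1 : (n : ℝ) ≤ ((⌈1 / δ⌉₊ * (D.image π).card : ℕ) : ℝ) := by
        rw [Nat.cast_mul]
        calc (n : ℝ) = (1 / δ) * (δ * n) := by field_simp
          _ ≤ (1 / δ) * (D.image π).card := mul_le_mul_of_nonneg_left hA (by positivity)
          _ ≤ (⌈1 / δ⌉₊ : ℝ) * (D.image π).card :=
            mul_le_mul_of_nonneg_right (Nat.le_ceil _) hA0.le
      have h2 : n ≤ ⌈1 / δ⌉₊ * (D.image π).card := by exact_mod_cast h1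
      calc m * n ≤ m * (⌈1 / δ⌉₊ * (D.image π).card) := Nat.mul_le_mul_left _ h2
        _ = ⌈1 / δ⌉₊ * (m * (D.image π).card) := by ring
    · have h0 : (D.filter fun y => π y = a) = ∅ := by
        refine filter_eq_empty_iff.2 fun y hy h => ha ?_
        exact mem_image.2 ⟨y, hy, h⟩
      rw [h0, card_empty, Nat.zero_mul]
      exact Nat.zero_le _
  · have h1 := hbad g hg
    have h2 : (12 : ℝ) * (D.filter fun y => ρ g y ∉ D ∨ π (ρ g y) ≠ f n g (π y)).card ≤
        D.card := by linarith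
    exact_mod_cast h2

theorem partly_of_weakly {G : Type} [Group G] {f : (n : ℕ) → G → Equiv.Perm (Fin n)}
    (hf : AlmostHom f) (h : WeaklyCovered f) : PartlyCovered f :=
  partly_of_dens (dens_of_weakly hf h)

theorem flexStable_iff_weakly (k : ℕ) (hk : 3 ≤ k) :
    FlexStable (Matrix.SpecialLinearGroup (Fin k) ℤ) ↔
    ∀ f : (n : ℕ) → Matrix.ProjectiveSpecialLinearGroup (Fin k) ℤ → Equiv.Perm (Fin n),
      SoficApprox f → WeaklyCovered f := by
  rw [flexStable_iff_covered k hk]
  constructor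
  · intro h f hf
    exact weakly_of_partly (h f hf)
  · intro h f hf
    exact partly_of_weakly hf.1 (h f hf)

end Pool.Agent.IRS
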