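import Pool.Agent.IRS.DensDefs

/-!
Coverings with a bounded density, of every precision, give `m`-to-one coverings.
-/

set_option autoImplicit false
open Filter Topology Finset

namespace Pool.Agent.IRS

section transport

theorem cov_fin {G : Type} [Group G] {n : ℕ} {Y : Type} [Fintype Y] [DecidableEq Y]
    (ρ : G →* Equiv.Perm Y) (D : Finset Y) (π : Y → Fin n) :
    ∃ (N : ℕ) (ρ' : G →* Equiv.Perm (Fin N)) (D' : Finset (Fin N)) (π' : Fin N → Fin n),
      D'.card = D.card ∧ D'.image π' = D.image π ∧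
      (∀ a, (D'.filter fun y => π' y = a).card = (D.filter fun y => π y = a).card) ∧
      ∀ (g : G) (σ : Equiv.Perm (Fin n)),
        (D'.filter fun y => ρ' g y ∉ D' ∨ π' (ρ' g y) ≠ σ (π' y)).card =
          (D.filter fun y => ρ g y ∉ D ∨ π (ρ g y) ≠ σ (π y)).card := by
  classical
  let e := Fintype.equivFin Y
  refine ⟨Fintype.card Y, (e.permCongrHom : Equiv.Perm Y →* Equiv.Perm (Fin _)).comp ρ,
    D.map e.toEmbedding, fun y => π (e.symm y), card_map _, ?_, ?_, ?_⟩
  · ext a
    rw [mem_image, mem_image]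
    constructor
    · rintro ⟨y, hy, rfl⟩
      obtain ⟨x, hx, rfl⟩ := Finset.mem_map.1 hy
      refine ⟨x, hx, ?_⟩
      show π x = π (e.symm (e x))
      rw [e.symm_apply_apply]
    · rintro ⟨x, hx, rfl⟩
      refine ⟨e x, Finset.mem_map.2 ⟨x, hx, rfl⟩, ?_⟩
      show π (e.symm (e x)) = π x
      rw [e.symm_apply_apply]
  · intro a
    rw [Finset.filter_map, card_map]
    congr 1
    apply Finset.filter_congr
    intro x _
    show π (e.symm (e x)) = a ↔ _
    rw [e.symm_apply_apply]
  · intro g σ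
    rw [Finset.filter_map, card_map]
    congr 1
    apply Finset.filter_congr
    intro x _
    show (e (ρ g (e.symm (e x))) ∉ D.map e.toEmbedding ∨
      π (e.symm (e (ρ g (e.symm (e x))))) ≠ σ (π (e.symm (e x)))) ↔ _
    rw [e.symm_apply_apply, e.symm_apply_apply]
    have h1 : e (ρ g x) ∈ D.map e.toEmbedding ↔ ρ g x ∈ D := by
      rw [Finset.mem_map]
      constructor
      · rintro ⟨y, hy, hyx⟩
        rw [← e.injective hyx]
        exact hy
      · intro h
        exact ⟨_, h, rfl⟩
    rw [h1]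

end transport

/-- the number of the points of `D` over `a` -/
def fibc {N n : ℕ} (D : Finset (Fin N)) (π : Fin N → Fin n) (a : Fin n) : ℕ :=
  (D.filter fun y => π y = a).card

theorem sum_fibc {N n : ℕ} (D : Finset (Fin N)) (π : Fin N → Fin n) :
    ∑ a, fibc D π a = D.card :=
  (Finset.card_eq_sum_card_fiberwise (f := π) (t := univ) fun _ _ => mem_coe.2 (mem_univ _)).symm

theorem sub_sum_comm {n : ℕ} (s : Fin n → ℕ) (σ : Equiv.Perm (Fin n)) :
    ∑ a, (s (σ a) - s a) = ∑ a, (s a - s (σ a)) := by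
  have h1 : ∑ a, s (σ a) = ∑ a, s a := Equiv.sum_comp σ s
  have h2 : ∀ a, s (σ a) + (s a - s (σ a)) = s a + (s (σ a) - s a) := fun a => by omega
  have h3 := Finset.sum_congr rfl fun a (_ : a ∈ (univ : Finset (Fin n))) => h2 a
  rw [sum_add_distrib, sum_add_distrib, h1] at h3
  omega

theorem fibc_sub {N n : ℕ} (τ : Equiv.Perm (Fin N)) (σ : Equiv.Perm (Fin n))
    (D : Finset (Fin N)) (π : Fin N → Fin n) (a : Fin n) :
    fibc D π a - fibc D π (σ a) ≤
      fibc (D.filter fun y => τ y ∉ D ∨ π (τ y) ≠ σ (π y)) π a := by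
  classical
  unfold fibc
  have h1 : (D.filter fun y => π y = a) ⊆
      ((D.filter fun y => τ y ∉ D ∨ π (τ y) ≠ σ (π y)).filter fun y => π y = a) ∪
      ((D.filter fun y => π y = σ a).image τ.symm) := by
    intro y hy
    rw [mem_filter] at hy
    by_cases hb : τ y ∉ D ∨ π (τ y) ≠ σ (π y)
    · exact mem_union_left _ (mem_filter.2 ⟨mem_filter.2 ⟨hy.1, hb⟩, hy.2⟩)
    · rw [not_or, not_not, not_not] at hb
      refine mem_union_right _ (mem_image.2 ⟨τ y, mem_filter.2 ⟨hb.1, ?_⟩, τ.symm_apply_apply y⟩)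
      rw [hb.2, hy.2]
  have h2 := (card_le_card h1).trans (card_union_le _ _)
  have h3 : ((D.filter fun y => π y = σ a).image τ.symm).card ≤
      (D.filter fun y => π y = σ a).card := card_image_le
  omega

theorem sum_fibc_sub {N n : ℕ} (τ : Equiv.Perm (Fin N)) (σ : Equiv.Perm (Fin n))
    (D : Finset (Fin N)) (π : Fin N → Fin n) :
    ∑ a, (fibc D π a - fibc D π (σ a)) ≤
      (D.filter fun y => τ y ∉ D ∨ π (τ y) ≠ σ (π y)).card := by
  rw [← sum_fibc (D.filter fun y => τ y ∉ D ∨ π (τ y) ≠ σ (π y)) π]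
  exact Finset.sum_le_sum fun a _ => fibc_sub τ σ D π a

theorem level_sum {n : ℕ} (s : Fin n → ℕ) (σ : Equiv.Perm (Fin n)) (I : Finset ℕ) :
    ∑ t ∈ I, (univ.filter fun a => t ≤ s a ∧ s (σ a) < t).card ≤ ∑ a, (s a - s (σ a)) := by
  classical
  have h1 : ∀ t ∈ I, (univ.filter fun a => t ≤ s a ∧ s (σ a) < t).card =
      ∑ a, if t ≤ s a ∧ s (σ a) < t then 1 else 0 := by
    intro t _
    rw [Finset.card_filter]
  rw [Finset.sum_congr rfl h1, Finset.sum_comm]
  apply Finset.sum_le_sum
  intro a _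
  rw [← Finset.card_filter, ← Nat.card_Ioc]
  apply Finset.card_le_card
  intro t ht
  have := (mem_filter.1 ht).2
  exact Finset.mem_Ioc.2 ⟨this.2, this.1⟩

/-- the action on the first factor -/
def fstAct {G : Type} [Group G] {N : ℕ} (q : ℕ) (ρ : G →* Equiv.Perm (Fin N)) :
    G →* Equiv.Perm (Fin N × Fin q) where
  toFun g := (ρ g).prodCongr (Equiv.refl _)
  map_one' := by
    rw [map_one]
    rfl
  map_mul' g h := by
    rw [map_mul]
    rfl

theorem card_lt_fin (q m : ℕ) : (univ.filter fun j : Fin q => (j : ℕ) < m).card ≤ m := by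
  calc (univ.filter fun j : Fin q => (j : ℕ) < m).card
      ≤ (range m).card := by
        apply Finset.card_le_card_of_injOn (fun j : Fin q => (j : ℕ))
        · intro j hj
          exact mem_coe.2 (mem_range.2 (mem_filter.1 (mem_coe.1 hj)).2)
        · intro a _ b _ hab
          exact Fin.ext hab
    _ = m := card_range m

theorem card_Ico_fin (q m m' : ℕ) :
    (univ.filter fun j : Fin q => m ≤ (j : ℕ) ∧ (j : ℕ) < m').card ≤ m' - m := by
  calc (univ.filter fun j : Fin q => m ≤ (j : ℕ) ∧ (j : ℕ) < m').card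
      ≤ (Finset.Ico m m').card := by
        apply Finset.card_le_card_of_injOn (fun j : Fin q => (j : ℕ))
        · intro j hj
          exact mem_coe.2 (Finset.mem_Ico.2 (mem_filter.1 (mem_coe.1 hj)).2)
        · intro a _ b _ hab
          exact Fin.ext hab
    _ = m' - m := Nat.card_Ico m m'

theorem card_lt_fin_eq (q m : ℕ) (hm : m ≤ q) :
    (univ.filter fun j : Fin q => (j : ℕ) < m).card = m := by
  apply le_antisymm (card_lt_fin q m)
  calc m = (univ : Finset (Fin m)).card := by simp
    _ = ((univ : Finset (Fin m)).image (Fin.castLE hm)).card :=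
        (Finset.card_image_of_injective _ (Fin.castLE_injective hm)).symm
    _ ≤ _ := by
        apply card_le_card
        intro j hj
        obtain ⟨i, _, rfl⟩ := mem_image.1 hj
        exact mem_filter.2 ⟨mem_univ _, i.2⟩

theorem blow {G : Type} [Group G] {N n : ℕ} (ρ : G →* Equiv.Perm (Fin N))
    (D : Finset (Fin N)) (π : Fin N → Fin n) (t q : ℕ) (ht : 0 < t) (hq : 0 < q)
    (hdiv : ∀ a, t ≤ fibc D π a → fibc D π a ∣ q) :
    ∃ (N' : ℕ) (ρ' : G →* Equiv.Perm (Fin N')) (D' : Finset (Fin N')) (π' : Fin N' → Fin n),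
      D'.image π' = univ.filter (fun a => t ≤ fibc D π a) ∧
      (∀ a ∈ D'.image π', (D'.filter fun y => π' y = a).card = q) ∧
      ∀ (g : G) (σ : Equiv.Perm (Fin n)),
        (D'.filter fun y => ρ' g y ∉ D' ∨ π' (ρ' g y) ≠ σ (π' y)).card ≤
          2 * (D.filter fun y => ρ g y ∉ D ∨ π (ρ g y) ≠ σ (π y)).card * (q / t) +
          q * (univ.filter fun a => t ≤ fibc D π a ∧ fibc D π (σ a) < t).card := by
  classical
  set s := fibc D π with hs
  set D₁ : Finset (Fin N × Fin q) := (D ×ˢ univ).filter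
    fun p => t ≤ s (π p.1) ∧ (p.2 : ℕ) < q / s (π p.1) with hD₁
  have hmem : ∀ y j, (y, j) ∈ D₁ ↔ y ∈ D ∧ t ≤ s (π y) ∧ (j : ℕ) < q / s (π y) := by
    intro y j
    rw [hD₁, mem_filter, mem_product]
    simp only [mem_univ, and_true]
  -- the fibres
  have hfib : ∀ a, t ≤ s a → (D₁.filter fun p => π p.1 = a).card = q := by
    intro a ha
    have h1 : (D₁.filter fun p => π p.1 = a) =
        (D.filter fun y => π y = a) ×ˢ (univ.filter fun j : Fin q => (j : ℕ) < q / s a) := by
      ext ⟨y, j⟩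
      rw [mem_filter, hmem, mem_product, mem_filter, mem_filter]
      constructor
      · rintro ⟨⟨h1, _, h3⟩, h4⟩
        have h4' : π y = a := h4
        rw [h4'] at h3
        exact ⟨⟨h1, h4'⟩, mem_univ _, h3⟩
      · rintro ⟨⟨h1, h2⟩, _, h3⟩
        have h2' : π y = a := h2
        refine ⟨⟨h1, ?_, ?_⟩, h2'⟩
        · rw [h2']
          exact ha
        · rw [h2']
          exact h3
    rw [h1, card_product, card_lt_fin_eq q (q / s a) (Nat.div_le_self _ _)]
    exact Nat.mul_div_cancel' (hdiv a ha)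
  have himg : D₁.image (fun p => π p.1) = univ.filter (fun a => t ≤ s a) := by
    ext a
    rw [mem_image, mem_filter]
    constructor
    · rintro ⟨⟨y, j⟩, h1, rfl⟩
      exact ⟨mem_univ _, ((hmem y j).1 h1).2.1⟩
    · rintro ⟨_, ha⟩
      have h1 := hfib a ha
      have h2 : (D₁.filter fun p => π p.1 = a).Nonempty := by
        rw [← card_pos, h1]
        exact hq
      obtain ⟨p, hp⟩ := h2
      exact ⟨p, (mem_filter.1 hp).1, (mem_filter.1 hp).2⟩
  obtain ⟨N', ρ', D', π', h1, h2, h3, h4⟩ := cov_fin (fstAct q ρ) D₁ (fun p => π p.1)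
  refine ⟨N', ρ', D', π', ?_, ?_, ?_⟩
  · rw [h2, himg]
  · intro a ha
    rw [h2, himg, mem_filter] at ha
    rw [h3 a]
    exact hfib a ha.2
  · intro g σ
    rw [h4 g σ]
    set Bad := D.filter fun y => ρ g y ∉ D ∨ π (ρ g y) ≠ σ (π y) with hBad
    set Z₁ : Finset (Fin N × Fin q) := Bad ×ˢ (univ.filter fun j : Fin q => (j : ℕ) < q / t)
      with hZ₁
    set Z₂ : Finset (Fin N × Fin q) :=
      (univ.filter fun a => t ≤ s a ∧ s (σ a) < t).biUnion
        fun a => D₁.filter fun p => π p.1 = a with hZ₂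
    set Z₃ : Finset (Fin N × Fin q) := (univ.filter fun a => t ≤ s a ∧ t ≤ s (σ a)).biUnion
        fun a => (D.filter fun y => π y = a) ×ˢ
          (univ.filter fun j : Fin q => q / s (σ a) ≤ (j : ℕ) ∧ (j : ℕ) < q / s a) with hZ₃
    have hsub : (D₁.filter fun p => fstAct q ρ g p ∉ D₁ ∨
        π (fstAct q ρ g p).1 ≠ σ (π p.1)) ⊆ Z₁ ∪ Z₂ ∪ Z₃ := by
      rintro ⟨y, j⟩ hp
      rw [mem_filter] at hp
      obtain ⟨hp1, hp2⟩ := hp
      have hp1' := (hmem y j).1 hp1
      have hp2' : (ρ g y, j) ∉ D₁ ∨ π (ρ g y) ≠ σ (π y) := hp2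
      by_cases hb : y ∈ Bad
      · refine mem_union_left _ (mem_union_left _ (mem_product.2 ⟨hb, mem_filter.2
          ⟨mem_univ _, ?_⟩⟩))
        exact lt_of_lt_of_le hp1'.2.2 (Nat.div_le_div_left hp1'.2.1 ht)
      · rw [hBad, mem_filter, not_and, not_or, not_not, not_not] at hb
        obtain ⟨hb1, hb2⟩ := hb hp1'.1
        have hp3 : (ρ g y, j) ∉ D₁ := by
          rcases hp2' with h | h
          · exact h
          · exact absurd hb2 h
        rw [hmem, hb2] at hp3
        by_cases hlt : s (σ (π y)) < t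
        · refine mem_union_left _ (mem_union_right _ (mem_biUnion.2 ⟨π y, ?_, ?_⟩))
          · exact mem_filter.2 ⟨mem_univ _, hp1'.2.1, hlt⟩
          · exact mem_filter.2 ⟨hp1, rfl⟩
        · have hle := not_lt.1 hlt
          refine mem_union_right _ (mem_biUnion.2 ⟨π y, ?_, ?_⟩)
          · exact mem_filter.2 ⟨mem_univ _, hp1'.2.1, hle⟩
          · refine mem_product.2 ⟨mem_filter.2 ⟨hp1'.1, rfl⟩, mem_filter.2 ⟨mem_univ _, ?_,
              hp1'.2.2⟩⟩
            by_contra hc
            exact hp3 ⟨hb1, hle, not_le.1 hc⟩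
    have c1 : Z₁.card ≤ Bad.card * (q / t) := by
      rw [hZ₁, card_product]
      exact Nat.mul_le_mul_left _ (card_lt_fin q _)
    have c2 : Z₂.card ≤ q * (univ.filter fun a => t ≤ s a ∧ s (σ a) < t).card := by
      rw [mul_comm]
      apply Finset.card_biUnion_le_card_mul
      intro a ha
      exact (hfib a (mem_filter.1 ha).2.1).le
    have c3 : Z₃.card ≤ Bad.card * (q / t) := by
      have e1 : Z₃.card ≤ ∑ a, (q / t) * (s (σ a) - s a) := by
        refine (Finset.card_biUnion_le).trans ?_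
        refine le_trans (Finset.sum_le_sum fun a ha => ?_)
          (Finset.sum_le_sum_of_subset (f := fun a => (q / t) * (s (σ a) - s a))
            (subset_univ (univ.filter fun a => t ≤ s a ∧ t ≤ s (σ a))))
        have ha' := (mem_filter.1 ha).2
        rw [card_product]
        have e2 : (D.filter fun y => π y = a).card = s a := rfl
        rw [e2]
        refine (Nat.mul_le_mul_left _ (card_Ico_fin q _ _)).trans ?_
        obtain ⟨u, hu⟩ := hdiv (σ a) ha'.2
        have hpos : 0 < s (σ a) := lt_of_lt_of_le ht ha'.2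
        have hu' : q / s (σ a) = u := by
          have hu2 : q = s (σ a) * u := hu
          rw [hu2]
          exact Nat.mul_div_cancel_left _ hpos
        have hv : s a * (q / s a) = q := Nat.mul_div_cancel' (hdiv a ha'.1)
        rw [Nat.mul_sub, hv, hu']
        have hut : u ≤ q / t := by
          rw [← hu']
          exact Nat.div_le_div_left ha'.2 ht
        have hu2 : q = s (σ a) * u := hu
        calc q - s a * u = s (σ a) * u - s a * u := by rw [← hu2]
          _ = (s (σ a) - s a) * u := (Nat.sub_mul _ _ _).symm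
          _ = u * (s (σ a) - s a) := mul_comm _ _
          _ ≤ (q / t) * (s (σ a) - s a) := Nat.mul_le_mul_right _ hut
      rw [← Finset.mul_sum, sub_sum_comm] at e1
      refine e1.trans ?_
      rw [mul_comm]
      exact Nat.mul_le_mul_right _ (sum_fibc_sub (ρ g) σ D π)
    have c4 := (card_le_card hsub).trans (card_union_le _ _)
    have c5 := card_union_le Z₁ Z₂
    calc _ ≤ (Z₁ ∪ Z₂).card + Z₃.card := c4
      _ ≤ (Bad.card * (q / t) + q * (univ.filter fun a => t ≤ s a ∧ s (σ a) < t).card) +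
          Bad.card * (q / t) := by
            refine add_le_add (c5.trans (add_le_add c1 c2)) c3
      _ = 2 * Bad.card * (q / t) +
          q * (univ.filter fun a => t ≤ s a ∧ s (σ a) < t).card := by ring

end Pool.Agent.IRS
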