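import Pool.Agent.IRS.DensDefs
import Pool.Agent.IRS.CovDefs

/-!
From a bounded density to exactly `m`-to-one coverings: a threshold and a blow-up.
-/

set_option autoImplicit false
open Filter Topology Finset

namespace Pool.Agent.IRS

section core
variable {n : ℕ} {Y : Type} [DecidableEq Y]

/-- fibre size -/
def sz (D : Finset Y) (p : Y → Fin n) (a : Fin n) : ℕ := (D.filter fun y => p y = a).card

omit [DecidableEq Y] in
theorem sz_sum (D : Finset Y) (p : Y → Fin n) : ∑ a, sz D p a = D.card := by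
  unfold sz
  exact (Finset.card_eq_sum_card_fiberwise (f := p) (s := D) (t := univ)
    (fun y _ => by simp)).symm

theorem sz_sub (D : Finset Y) (p : Y → Fin n) (u : Equiv.Perm Y) (F : Equiv.Perm (Fin n))
    (a : Fin n) : sz D p a - sz D p (F a) ≤
      ((D.filter fun y => u y ∉ D ∨ p (u y) ≠ F (p y)).filter fun y => p y = a).card := by
  have h1 : sz D p a ≤
      ((D.filter fun y => u y ∉ D ∨ p (u y) ≠ F (p y)).filter fun y => p y = a).card +
        (D.filter fun y => (u y ∈ D ∧ p (u y) = F (p y)) ∧ p y = a).card := by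
    unfold sz
    refine le_trans (card_le_card ?_) (card_union_le _ _)
    intro y hy
    rw [mem_filter] at hy
    rw [mem_union, mem_filter, mem_filter, mem_filter]
    by_cases hb : u y ∉ D ∨ p (u y) ≠ F (p y)
    · exact Or.inl ⟨⟨hy.1, hb⟩, hy.2⟩
    · push Not at hb
      exact Or.inr ⟨hy.1, hb, hy.2⟩
  have h2 : (D.filter fun y => (u y ∈ D ∧ p (u y) = F (p y)) ∧ p y = a).card ≤
      sz D p (F a) := by
    unfold sz
    refine Finset.card_le_card_of_injOn (fun y => u y) ?_ (u.injective.injOn)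
    intro y hy
    rw [mem_coe, mem_filter] at hy
    rw [mem_coe, mem_filter]
    exact ⟨hy.2.1.1, by rw [hy.2.1.2, hy.2.2]⟩
  omega

theorem sz_sub_sum (D : Finset Y) (p : Y → Fin n) (u : Equiv.Perm Y) (F : Equiv.Perm (Fin n)) :
    ∑ a, (sz D p a - sz D p (F a)) ≤ (D.filter fun y => u y ∉ D ∨ p (u y) ≠ F (p y)).card := by
  calc ∑ a, (sz D p a - sz D p (F a)) ≤ ∑ a,
      ((D.filter fun y => u y ∉ D ∨ p (u y) ≠ F (p y)).filter fun y => p y = a).card :=
        sum_le_sum fun a _ => sz_sub D p u F a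
    _ = _ := (Finset.card_eq_sum_card_fiberwise (f := p) (t := univ) (fun y _ => by simp)).symm

theorem sz_sub_sum' (D : Finset Y) (p : Y → Fin n) (u : Equiv.Perm Y) (F : Equiv.Perm (Fin n)) :
    ∑ a, (sz D p (F a) - sz D p a) ≤ (D.filter fun y => u y ∉ D ∨ p (u y) ≠ F (p y)).card := by
  have h1 := sz_sub_sum D p u F
  have h2 : ∑ a, sz D p (F a) = ∑ a, sz D p a := Equiv.sum_comp F _
  have h3 : ∑ a, (sz D p a - sz D p (F a)) + ∑ a, sz D p (F a) =
      ∑ a, (sz D p (F a) - sz D p a) + ∑ a, sz D p a := by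
    rw [← sum_add_distrib, ← sum_add_distrib]
    refine sum_congr rfl fun a _ => ?_
    omega
  omega

/-- coarea -/
theorem coarea (s : Fin n → ℕ) (F : Equiv.Perm (Fin n)) (T : Finset ℕ) :
    ∑ t ∈ T, (univ.filter fun a => t ≤ s a ∧ s (F a) < t).card ≤ ∑ a, (s a - s (F a)) := by
  calc ∑ t ∈ T, (univ.filter fun a => t ≤ s a ∧ s (F a) < t).card
      = ∑ t ∈ T, ∑ a, (if t ≤ s a ∧ s (F a) < t then 1 else 0) := by
        refine sum_congr rfl fun t _ => ?_
        rw [card_filter]
    _ = ∑ a, ∑ t ∈ T, (if t ≤ s a ∧ s (F a) < t then 1 else 0) := sum_comm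
    _ ≤ ∑ a, (s a - s (F a)) := by
        refine sum_le_sum fun a _ => ?_
        rw [← card_filter]
        calc (T.filter fun t => t ≤ s a ∧ s (F a) < t).card ≤ (Ioc (s (F a)) (s a)).card := by
              refine card_le_card fun t ht => ?_
              rw [mem_filter] at ht
              rw [mem_Ioc]
              exact ⟨ht.2.2, ht.2.1⟩
          _ = s a - s (F a) := by rw [Nat.card_Ioc]

/-- the points of the blow-up -/
def blow (D : Finset Y) (p : Y → Fin n) (q t : ℕ) : Finset (Y × Fin q) :=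
  (D ×ˢ univ).filter fun z => t ≤ sz D p (p z.1) ∧ z.2.1 < q / sz D p (p z.1)

omit [DecidableEq Y] in
theorem mem_blow (D : Finset Y) (p : Y → Fin n) (q t : ℕ) (y : Y) (j : Fin q) :
    (y, j) ∈ blow D p q t ↔ y ∈ D ∧ t ≤ sz D p (p y) ∧ j.1 < q / sz D p (p y) := by
  unfold blow
  rw [mem_filter, mem_product]
  simp

theorem card_fin_lt (q c : ℕ) (hc : c ≤ q) : ((univ : Finset (Fin q)).filter fun j => j.1 < c).card = c := by
  rw [Fin.card_filter_val_lt]
  exact min_eq_right hc

theorem card_fin_Ico (q b c : ℕ) (hc : c ≤ q) :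
    ((univ : Finset (Fin q)).filter fun j => b ≤ j.1 ∧ j.1 < c).card = c - b := by
  rw [← Nat.card_Ico]
  refine Finset.card_bij (fun j _ => j.1) ?_ ?_ ?_
  · intro j hj
    rw [mem_filter] at hj
    rw [mem_Ico]
    exact hj.2
  · intro a _ b _ h
    exact Fin.ext h
  · intro b hb
    rw [mem_Ico] at hb
    refine ⟨⟨b, by omega⟩, ?_, rfl⟩
    rw [mem_filter]
    exact ⟨mem_univ _, hb⟩

omit [DecidableEq Y] in
theorem blow_fib (D : Finset Y) (p : Y → Fin n) (q t : ℕ)
    (hq : ∀ a, t ≤ sz D p a → sz D p a ∣ q) (a : Fin n) (ha : t ≤ sz D p a) :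
    ((blow D p q t).filter fun z => p z.1 = a).card = q := by
  have h1 : (blow D p q t).filter (fun z => p z.1 = a) =
      (D.filter fun y => p y = a) ×ˢ (univ.filter fun j : Fin q => j.1 < q / sz D p a) := by
    ext ⟨y, j⟩
    rw [mem_filter, mem_blow, mem_product, mem_filter, mem_filter]
    constructor
    · rintro ⟨⟨h1, h2, h3⟩, h4⟩
      rw [h4] at h3
      exact ⟨⟨h1, h4⟩, mem_univ _, h3⟩
    · rintro ⟨⟨h1, h4⟩, _, h3⟩
      rw [h4]
      exact ⟨⟨h1, ha, h3⟩, rfl⟩
  rw [h1, card_product, card_fin_lt _ _ (Nat.div_le_self _ _)]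
  exact Nat.mul_div_cancel' (hq a ha)

omit [DecidableEq Y] in
theorem blow_image (D : Finset Y) (p : Y → Fin n) (q t : ℕ) (ht : 1 ≤ t) (hq0 : 0 < q)
    (hq : ∀ a, t ≤ sz D p a → sz D p a ∣ q) :
    (blow D p q t).image (fun z => p z.1) = univ.filter fun a => t ≤ sz D p a := by
  ext a
  rw [mem_image, mem_filter]
  constructor
  · rintro ⟨⟨y, j⟩, h1, rfl⟩
    rw [mem_blow] at h1
    exact ⟨mem_univ _, h1.2.1⟩
  · rintro ⟨_, ha⟩
    have h1 := blow_fib D p q t hq a ha
    have h2 : 0 < ((blow D p q t).filter fun z => p z.1 = a).card := by omega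
    obtain ⟨z, hz⟩ := card_pos.1 h2
    rw [mem_filter] at hz
    exact ⟨z, hz.1, hz.2⟩

/-- the errors of the blow-up -/
theorem blow_bad (D : Finset Y) (p : Y → Fin n) (q t : ℕ) (ht : 1 ≤ t)
    (hq : ∀ a, t ≤ sz D p a → sz D p a ∣ q) (u : Equiv.Perm Y) (F : Equiv.Perm (Fin n)) :
    ((blow D p q t).filter fun z => (u z.1, z.2) ∉ blow D p q t ∨ p (u z.1) ≠ F (p z.1)).card ≤
      2 * ((q / t) * (D.filter fun y => u y ∉ D ∨ p (u y) ≠ F (p y)).card) +
        q * (univ.filter fun a => t ≤ sz D p a ∧ sz D p (F a) < t).card := by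
  have hw : ∀ a, t ≤ sz D p a → q / sz D p a ≤ q / t := fun a ha => Nat.div_le_div_left ha ht
  set B := D.filter fun y => u y ∉ D ∨ p (u y) ≠ F (p y) with hB
  set A1 := (univ : Finset (Fin n)).filter fun a => t ≤ sz D p a ∧ sz D p (F a) < t with hA1
  -- three parts
  have hsub : ((blow D p q t).filter fun z => (u z.1, z.2) ∉ blow D p q t ∨ p (u z.1) ≠ F (p z.1)) ⊆
      (B ×ˢ (univ.filter fun j : Fin q => j.1 < q / t)) ∪
      (A1.biUnion fun a => (blow D p q t).filter fun z => p z.1 = a) ∪
      (univ.filter fun a => t ≤ sz D p a ∧ t ≤ sz D p (F a)).biUnion fun a =>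
        (D.filter fun y => p y = a) ×ˢ
          (univ.filter fun j : Fin q => q / sz D p (F a) ≤ j.1 ∧ j.1 < q / sz D p a) := by
    rintro ⟨y, j⟩ hz
    rw [mem_filter] at hz
    obtain ⟨h1, h2⟩ := hz
    have h3 := (mem_blow _ _ _ _ _ _).1 h1
    simp only at h2
    rw [mem_blow] at h2
    by_cases hb : u y ∉ D ∨ p (u y) ≠ F (p y)
    · rw [mem_union, mem_union, mem_product, mem_filter, mem_filter]
      exact Or.inl (Or.inl ⟨⟨h3.1, hb⟩, mem_univ _, lt_of_lt_of_le h3.2.2 (hw _ h3.2.1)⟩)
    · push Not at hb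
      have h4 : ¬ (t ≤ sz D p (F (p y)) ∧ j.1 < q / sz D p (F (p y))) := by
        intro h5
        rcases h2 with h2 | h2
        · apply h2
          rw [hb.2]
          exact ⟨hb.1, h5⟩
        · exact h2 hb.2
      by_cases h5 : t ≤ sz D p (F (p y))
      · have h6 : q / sz D p (F (p y)) ≤ j.1 := by
          by_contra h7
          exact h4 ⟨h5, by omega⟩
        rw [mem_union]
        right
        rw [mem_biUnion]
        refine ⟨p y, ?_, ?_⟩
        · rw [mem_filter]
          exact ⟨mem_univ _, h3.2.1, h5⟩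
        · rw [mem_product, mem_filter, mem_filter]
          exact ⟨⟨h3.1, rfl⟩, mem_univ _, h6, h3.2.2⟩
      · rw [mem_union, mem_union]
        left
        right
        rw [mem_biUnion]
        refine ⟨p y, ?_, ?_⟩
        · rw [hA1, mem_filter]
          exact ⟨mem_univ _, h3.2.1, by omega⟩
        · rw [mem_filter]
          exact ⟨h1, rfl⟩
  have c1 : (B ×ˢ (univ.filter fun j : Fin q => j.1 < q / t)).card = (q / t) * B.card := by
    rw [card_product, card_fin_lt _ _ (Nat.div_le_self _ _), mul_comm]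
  have c2 : (A1.biUnion fun a => (blow D p q t).filter fun z => p z.1 = a).card ≤ q * A1.card := by
    refine le_trans card_biUnion_le ?_
    calc ∑ a ∈ A1, ((blow D p q t).filter fun z => p z.1 = a).card = ∑ a ∈ A1, q := by
          refine sum_congr rfl fun a ha => ?_
          rw [hA1, mem_filter] at ha
          exact blow_fib D p q t hq a ha.2.1
      _ = q * A1.card := by rw [sum_const, smul_eq_mul, mul_comm]
      _ ≤ _ := le_refl _
  have c3 : ((univ.filter fun a => t ≤ sz D p a ∧ t ≤ sz D p (F a)).biUnion fun a =>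
        (D.filter fun y => p y = a) ×ˢ
          (univ.filter fun j : Fin q => q / sz D p (F a) ≤ j.1 ∧ j.1 < q / sz D p a)).card ≤
      (q / t) * B.card := by
    refine le_trans card_biUnion_le ?_
    calc ∑ a ∈ univ.filter (fun a => t ≤ sz D p a ∧ t ≤ sz D p (F a)),
        ((D.filter fun y => p y = a) ×ˢ
          (univ.filter fun j : Fin q => q / sz D p (F a) ≤ j.1 ∧ j.1 < q / sz D p a)).card
        ≤ ∑ a ∈ univ.filter (fun a => t ≤ sz D p a ∧ t ≤ sz D p (F a)),
          (q / t) * (sz D p (F a) - sz D p a) := by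
          refine sum_le_sum fun a ha => ?_
          rw [mem_filter] at ha
          rw [card_product, card_fin_Ico _ _ _ (Nat.div_le_self _ _)]
          change sz D p a * _ ≤ _
          have e1 := Nat.mul_div_cancel' (hq a ha.2.1)
          have e2 := Nat.mul_div_cancel' (hq (F a) ha.2.2)
          have e3 := hw (F a) ha.2.2
          rw [Nat.mul_sub, e1]
          calc q - sz D p a * (q / sz D p (F a))
              = (sz D p (F a) - sz D p a) * (q / sz D p (F a)) := by
                rw [Nat.sub_mul, e2]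
            _ ≤ (sz D p (F a) - sz D p a) * (q / t) := Nat.mul_le_mul_left _ e3
            _ = _ := mul_comm _ _
      _ ≤ ∑ a, (q / t) * (sz D p (F a) - sz D p a) :=
          sum_le_sum_of_subset_of_nonneg (filter_subset _ _) fun _ _ _ => Nat.zero_le _
      _ = (q / t) * ∑ a, (sz D p (F a) - sz D p a) := by rw [mul_sum]
      _ ≤ (q / t) * B.card := Nat.mul_le_mul_left _ (sz_sub_sum' D p u F)
  have h4 := le_trans (card_le_card hsub) (le_trans (card_union_le _ _)
    (Nat.add_le_add_right (card_union_le _ _) _))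
  have h5 : 2 * ((q / t) * B.card) = (q / t) * B.card + (q / t) * B.card := two_mul _
  omega

end core

theorem dens_transport {G Z : Type} [Group G] [Fintype Z] [DecidableEq Z] {n : ℕ}
    (σ : G →* Equiv.Perm Z) (D : Finset Z) (p : Z → Fin n) (f : G → Equiv.Perm (Fin n)) :
    ∃ (N : ℕ) (ρ : G →* Equiv.Perm (Fin N)) (D' : Finset (Fin N)) (π : Fin N → Fin n),
      D'.card = D.card ∧ D'.image π = D.image p ∧
      (∀ a, (D'.filter fun y => π y = a).card = (D.filter fun y => p y = a).card) ∧
      ∀ g, (D'.filter fun y => ρ g y ∉ D' ∨ π (ρ g y) ≠ f g (π y)).card =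
        (D.filter fun y => σ g y ∉ D ∨ p (σ g y) ≠ f g (p y)).card := by
  classical
  let e := Fintype.equivFin Z
  refine ⟨Fintype.card Z,
    { toFun := fun g => e.symm.trans ((σ g).trans e)
      map_one' := by ext x; simp
      map_mul' := by intro a b; ext x; simp },
    D.map e.toEmbedding, fun y => p (e.symm y), card_map _, ?_, ?_, ?_⟩
  · rw [map_eq_image, image_image]
    congr 1
    funext y
    simp [e]
  · intro a
    rw [filter_map, card_map]
    congr 1
    ext y
    simp [e]
  · intro g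
    rw [filter_map, card_map]
    congr 1
    ext y
    simp [e]

theorem covered_of_dens {G : Type} [Group G] {f : (n : ℕ) → G → Equiv.Perm (Fin n)}
    (h : DensCovered f) : PartlyCovered f := by
  classical
  obtain ⟨K, h⟩ := h
  refine ⟨1 / (2 * ((K : ℝ) + 1)), by positivity, ?_⟩
  intro E η hη
  set ε : ℝ := η / (8 * ((K : ℝ) + 1) * ((E.card : ℝ) + 2)) with hε
  have hε0 : 0 < ε := by positivity
  refine (h E ε hε0).mono ?_
  rintro n ⟨N, ρ, D, π, hD, hK, hbad⟩
  have hM : 0 < D.card := card_pos.2 hD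
  obtain ⟨y0, hy0⟩ := hD
  have hn : 0 < n := lt_of_le_of_lt (Nat.zero_le _) (π y0).2
  have hMR : (0 : ℝ) < D.card := by exact_mod_cast hM
  have hnR : (0 : ℝ) < n := by exact_mod_cast hn
  set M := D.card with hMdef
  set J := M / (2 * n) + 1 with hJ
  have hJM : M < 2 * n * J := by
    rw [hJ, mul_add, mul_one]
    have := Nat.div_add_mod M (2 * n)
    have := Nat.mod_lt M (show 0 < 2 * n by omega)
    omega
  set T := Ioc (J / 2) J with hT
  have hTc : T.card = J - J / 2 := by rw [hT, Nat.card_Ioc]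
  have hJ1 : 1 ≤ J := by rw [hJ]; exact Nat.le_add_left 1 _
  have hTne : T.Nonempty := card_pos.1 (by rw [hTc]; omega)
  have hT2 : J ≤ 2 * T.card := by rw [hTc]; omega
  have hTR : (0 : ℝ) < T.card := by exact_mod_cast card_pos.2 hTne
  have hMT : (M : ℝ) ≤ 4 * n * T.card := by
    have h1 : M ≤ 4 * n * T.card := by
      calc M ≤ 2 * n * J := hJM.le
        _ ≤ 2 * n * (2 * T.card) := Nat.mul_le_mul_left _ hT2
        _ = _ := by ring
    exact_mod_cast h1
  obtain ⟨t, htT, ht⟩ : ∃ t ∈ T, (∑ g ∈ E,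
      ((univ.filter fun a => t ≤ sz D π a ∧ sz D π (f n g a) < t).card : ℝ)) ≤
        (E.card : ℝ) * ε * M / T.card := by
    apply Finset.exists_le_of_sum_le hTne
    rw [sum_comm]
    calc ∑ g ∈ E, ∑ t ∈ T, ((univ.filter fun a => t ≤ sz D π a ∧ sz D π (f n g a) < t).card : ℝ)
        ≤ ∑ g ∈ E, ε * M := by
          refine sum_le_sum fun g hg => ?_
          have h1 := coarea (sz D π) (f n g) T
          have h2 := sz_sub_sum D π (ρ g) (f n g)
          have h3 : (∑ t ∈ T, ((univ.filter fun a => t ≤ sz D π a ∧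
              sz D π (f n g a) < t).card : ℝ)) ≤
              ((D.filter fun y => ρ g y ∉ D ∨ π (ρ g y) ≠ f n g (π y)).card : ℝ) := by
            exact_mod_cast le_trans h1 h2
          exact le_trans h3 (hbad g hg)
      _ = (E.card : ℝ) * ε * M := by rw [sum_const, nsmul_eq_mul]; ring
      _ = ∑ t ∈ T, (E.card : ℝ) * ε * M / T.card := by
          rw [sum_const, nsmul_eq_mul]
          field_simp
  have htJ : J / 2 < t ∧ t ≤ J := by
    rw [hT, mem_Ioc] at htT
    exact htT
  have ht1 : 1 ≤ t := by omega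
  have htR : (0 : ℝ) < t := by exact_mod_cast ht1
  have hMt : (M : ℝ) ≤ 4 * n * t := by
    have h1 : M ≤ 4 * n * t := by
      calc M ≤ 2 * n * J := hJM.le
        _ ≤ 2 * n * (2 * t) := Nat.mul_le_mul_left _ (by omega)
        _ = _ := by ring
    exact_mod_cast h1
  have hbd : ∀ g ∈ E,
      ((univ.filter fun a => t ≤ sz D π a ∧ sz D π (f n g a) < t).card : ℝ) ≤
        4 * n * E.card * ε := by
    intro g hg
    have h1 := Finset.single_le_sum (f := fun g => ((univ.filter fun a => t ≤ sz D π a ∧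
      sz D π (f n g a) < t).card : ℝ)) (fun _ _ => Nat.cast_nonneg _) hg
    refine le_trans h1 (le_trans ht ?_)
    rw [div_le_iff₀ hTR]
    have h2 : (0 : ℝ) ≤ E.card * ε := by positivity
    nlinarith [mul_le_mul_of_nonneg_left hMT h2]
  -- the level set is large
  set A := (univ : Finset (Fin n)).filter fun a => t ≤ sz D π a with hA
  have hAn : n ≤ 2 * K * A.card := by
    have e1 : ∑ a, sz D π a = M := sz_sum D π
    have e2 : ∑ a ∈ A, sz D π a + ∑ a ∈ univ.filter (fun a => ¬ t ≤ sz D π a), sz D π a = M := by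
      rw [← e1, hA]
      exact sum_filter_add_sum_filter_not _ _ _
    have e3 : 2 * n * ∑ a ∈ univ.filter (fun a => ¬ t ≤ sz D π a), sz D π a ≤ n * M := by
      rw [mul_sum]
      calc ∑ a ∈ univ.filter (fun a => ¬ t ≤ sz D π a), 2 * n * sz D π a
          ≤ ∑ a ∈ univ.filter (fun a => ¬ t ≤ sz D π a), M := by
            refine sum_le_sum fun a ha => ?_
            rw [mem_filter] at ha
            have h1 : sz D π a ≤ M / (2 * n) := by omega
            calc 2 * n * sz D π a ≤ 2 * n * (M / (2 * n)) := Nat.mul_le_mul_left _ h1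
              _ ≤ M := Nat.mul_div_le _ _
        _ = (univ.filter (fun a => ¬ t ≤ sz D π a)).card * M := by rw [sum_const, smul_eq_mul]
        _ ≤ n * M := by
            refine Nat.mul_le_mul_right _ ?_
            calc _ ≤ (univ : Finset (Fin n)).card := card_filter_le _ _
              _ = n := by simp
    have e4 : n * ∑ a ∈ A, sz D π a ≤ A.card * (K * M) := by
      rw [mul_sum]
      calc ∑ a ∈ A, n * sz D π a ≤ ∑ a ∈ A, K * M := by
            refine sum_le_sum fun a _ => ?_
            rw [mul_comm]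
            exact hK a
        _ = _ := by rw [sum_const, smul_eq_mul]
    have e5 : n * M ≤ 2 * (n * ∑ a ∈ A, sz D π a) := by nlinarith
    have e6 : n * M ≤ 2 * K * A.card * M := by nlinarith
    exact Nat.le_of_mul_le_mul_right e6 hM
  have hq : ∀ a, t ≤ sz D π a → sz D π a ∣ M.factorial := fun a ha =>
    Nat.dvd_factorial (by omega) (card_filter_le _ _)
  have hq0 : 0 < M.factorial := Nat.factorial_pos _
  set q := M.factorial with hqdef
  have hqR : (0 : ℝ) < q := by exact_mod_cast hq0
  let σ : G →* Equiv.Perm (Fin N × Fin q) :=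
    { toFun := fun g => (ρ g).prodCongr (Equiv.refl _)
      map_one' := by ext ⟨x, y⟩ <;> simp
      map_mul' := by intro a b; ext ⟨x, y⟩ <;> simp }
  obtain ⟨N', ρ', D', π', hc, him, hfib, hb'⟩ :=
    dens_transport σ (blow D π q t) (fun z => π z.1) (f n)
  have him' : D'.image π' = A := by
    rw [him]
    exact blow_image D π q t ht1 hq0 hq
  have hfib' : ∀ a ∈ A, (D'.filter fun y => π' y = a).card = q := by
    intro a ha
    rw [hfib]
    rw [hA, mem_filter] at ha
    exact blow_fib D π q t hq a ha.2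
  have hcard : D'.card = A.card * q := by
    rw [Finset.card_eq_sum_card_image π' D', him', sum_congr rfl hfib', sum_const, smul_eq_mul]
  have hAR : (n : ℝ) ≤ 2 * (K + 1) * A.card := by
    have h1 : (n : ℝ) ≤ 2 * K * A.card := by exact_mod_cast hAn
    nlinarith [show (0 : ℝ) ≤ A.card from Nat.cast_nonneg _]
  refine ⟨N', q, ρ', D', π', hq0, ?_, ?_, ?_⟩
  · rw [him', div_mul_eq_mul_div, one_mul, div_le_iff₀ (by positivity)]
    nlinarith
  · intro a ha
    rw [him'] at ha
    exact hfib' a ha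
  · intro g hg
    rw [hb' g]
    have h1 := blow_bad D π q t ht1 hq (ρ g) (f n g)
    have h2 : (((blow D π q t).filter fun z => (ρ g z.1, z.2) ∉ blow D π q t ∨
        π (ρ g z.1) ≠ f n g (π z.1)).card : ℝ) ≤
        2 * ((q / t : ℕ) * ((D.filter fun y => ρ g y ∉ D ∨ π (ρ g y) ≠ f n g (π y)).card : ℝ)) +
          q * ((univ.filter fun a => t ≤ sz D π a ∧ sz D π (f n g a) < t).card : ℝ) := by
      exact_mod_cast h1
    have h3 : ((q / t : ℕ) : ℝ) ≤ q / t := Nat.cast_div_le
    have h4 := hbad g hg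
    have h5 := hbd g hg
    have h6 : ((q / t : ℕ) : ℝ) * ((D.filter fun y => ρ g y ∉ D ∨
        π (ρ g y) ≠ f n g (π y)).card : ℝ) ≤ 4 * n * q * ε := by
      calc ((q / t : ℕ) : ℝ) * ((D.filter fun y => ρ g y ∉ D ∨
          π (ρ g y) ≠ f n g (π y)).card : ℝ) ≤ (q / t) * (ε * M) := by
            apply mul_le_mul h3 h4 (Nat.cast_nonneg _) (by positivity)
        _ ≤ (q / t) * (ε * (4 * n * t)) := by
            apply mul_le_mul_of_nonneg_left _ (by positivity)
            exact mul_le_mul_of_nonneg_left hMt hε0.le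
        _ = 4 * n * q * ε := by field_simp
    have h7 : (q : ℝ) * ((univ.filter fun a => t ≤ sz D π a ∧
        sz D π (f n g a) < t).card : ℝ) ≤ q * (4 * n * E.card * ε) :=
      mul_le_mul_of_nonneg_left h5 hqR.le
    have h8 : (D'.card : ℝ) = A.card * q := by exact_mod_cast hcard
    have h9 : (((blow D π q t).filter fun z => (ρ g z.1, z.2) ∉ blow D π q t ∨
        π (ρ g z.1) ≠ f n g (π z.1)).card : ℝ) ≤ 4 * n * q * ε * (E.card + 2) := by
      nlinarith
    refine le_trans h9 ?_
    rw [h8]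
    have h10 : (4 : ℝ) * q * ε * (E.card + 2) * (2 * (K + 1)) = η * q := by
      rw [hε]
      field_simp
      ring
    calc (4 : ℝ) * n * q * ε * (E.card + 2) = (4 * q * ε * (E.card + 2)) * n := by ring
      _ ≤ (4 * q * ε * (E.card + 2)) * (2 * (K + 1) * A.card) :=
          mul_le_mul_of_nonneg_left hAR (by positivity)
      _ = (4 * q * ε * (E.card + 2) * (2 * (K + 1))) * A.card := by ring
      _ = η * (A.card * q) := by rw [h10]; ring

end Pool.Agent.IRS
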