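import Pool.Agent.IRS.NormalB
import Pool.Agent.IRS.Tits

/-!
A subgroup of `SL_k(ℤ)`, `k ≥ 3`, which contains the `1 + m e_ij` (for one `m ≠ 0`) has finite
index.
-/

set_option autoImplicit false

namespace Pool.Agent.IRS

open Pool.Agent.TAU (SL el IsEl ElProd Cong InBlock)

theorem finiteIndex_of_el (k : ℕ) (hk : 3 ≤ k) (m : ℤ) (hm : m ≠ 0) (K : Subgroup (SL k))
    (hK : ∀ (i j : Fin k) (h : i ≠ j), el i j h m ∈ K) : K.FiniteIndex := by
  have hm' : 0 < (m * m).natAbs := by
    rw [Int.natAbs_pos]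
    exact mul_ne_zero hm hm
  have hle : Subgroup.normalClosure {x : SL k | ∃ (i j : Fin k) (h : i ≠ j) (t : ℤ),
      x = el i j h (m * m * t)} ≤ K := by
    rw [Subgroup.normalClosure, Subgroup.closure_le]
    intro x hx
    rw [Group.mem_conjugatesOfSet_iff] at hx
    obtain ⟨_, ⟨i, j, h, t, rfl⟩, hc⟩ := hx
    rw [isConj_iff] at hc
    obtain ⟨c, hc⟩ := hc
    rw [← hc]
    exact tits k hk m K hK c i j h t
  have hfin := normal_finiteIndex k hk _ hm' (Subgroup.normalClosure {x : SL k |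
    ∃ (i j : Fin k) (h : i ≠ j) (t : ℤ), x = el i j h (m * m * t)}) (by
      intro i j h t
      apply Subgroup.subset_normalClosure
      refine ⟨i, j, h, t, ?_⟩
      congr 1
      rw [Int.natCast_natAbs, abs_of_nonneg (mul_self_nonneg m)])
  exact Subgroup.finiteIndex_of_le hle

end Pool.Agent.IRS
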