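import Pool.Agent.IRS.Defs
import Pool.Agent.TAU.Gen

/-!
[IRS Free], Step 1: in an almost-homomorphism of `SL_k(ℤ)` in which transvections fix only `o(n)`
points, a non-central element fixes only `o(n)` points (with Step 2 as a hypothesis).
-/

set_option autoImplicit false
open Filter Topology Finset

namespace Pool.Agent.IRS

open Pool.Agent.TAU (SL el IsEl)
open Pool.Agent.FS84 (AlmostHom)

theorem f1_el_add {k : ℕ} (i j : Fin k) (h : i ≠ j) (s t : ℤ) :
    el i j h s * el i j h t = el i j h (s + t) := by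
  apply Subtype.ext
  exact Matrix.transvection_mul_transvection_same i j h s t

theorem f1_el_zero {k : ℕ} (i j : Fin k) (h : i ≠ j) : el i j h 0 = 1 := by
  apply Subtype.ext
  exact Matrix.transvection_zero i j

theorem f1_el_pow {k : ℕ} (i j : Fin k) (h : i ≠ j) (t : ℕ) :
    (el i j h 1) ^ t = el i j h (t : ℤ) := by
  induction t with
  | zero => rw [pow_zero, Nat.cast_zero, f1_el_zero]
  | succ n ih => rw [pow_succ, ih, f1_el_add]; push_cast; rfl

theorem f1_el_inv {k : ℕ} (i j : Fin k) (h : i ≠ j) (t : ℤ) :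
    (el i j h t)⁻¹ = el i j h (-t) := by
  rw [inv_eq_iff_mul_eq_one, f1_el_add, add_neg_cancel, f1_el_zero]

/-- an elementary matrix fixes the vectors with `z_j = 0` -/
theorem f1_el_mulVec {k : ℕ} (i j : Fin k) (h : i ≠ j) (t : ℤ) (z : Fin k → ℤ) (hz : z j = 0) :
    (el i j h t).1.mulVec z = z := by
  change (Matrix.transvection i j t).mulVec z = z
  rw [Matrix.transvection, Matrix.add_mulVec, Matrix.one_mulVec, Matrix.single_mulVec, hz, mul_zero]
  ext a
  by_cases ha : a = i
  · subst ha; simp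
  · simp

theorem f1_comm_of {k : ℕ} (g : SL k) (i j : Fin k) (h : i ≠ j) (t : ℤ) (ht : t ≠ 0)
    (hc : g * el i j h t = el i j h t * g) (s : ℤ) : g * el i j h s = el i j h s * g := by
  have key : ∀ a : ℤ, g * el i j h a = el i j h a * g ↔
      a • (g.1 * Matrix.single i j (1 : ℤ)) = a • (Matrix.single i j (1 : ℤ) * g.1) := by
    intro a
    have e : Matrix.single i j a = a • Matrix.single i j (1 : ℤ) := by
      rw [Matrix.smul_single, smul_eq_mul, mul_one]
    rw [← Matrix.mul_smul, ← Matrix.smul_mul, ← e]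
    constructor
    · intro h1
      have h2 : g.1 * (1 + Matrix.single i j a) = (1 + Matrix.single i j a) * g.1 :=
        congrArg Subtype.val h1
      rw [Matrix.mul_add, Matrix.add_mul, Matrix.mul_one, Matrix.one_mul] at h2
      exact add_left_cancel h2
    · intro h1
      apply Subtype.ext
      change g.1 * (1 + Matrix.single i j a) = (1 + Matrix.single i j a) * g.1
      rw [Matrix.mul_add, Matrix.add_mul, Matrix.mul_one, Matrix.one_mul, h1]
  rw [key]
  have h2 := (key t).1 hc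
  have h3 : g.1 * Matrix.single i j (1 : ℤ) = Matrix.single i j (1 : ℤ) * g.1 := by
    ext a b
    have := congrFun (congrFun h2 a) b
    rw [Matrix.smul_apply, Matrix.smul_apply, smul_eq_mul, smul_eq_mul] at this
    exact mul_left_cancel₀ ht this
  rw [h3]

/-- a non-central element commutes with no power of some elementary matrix `1 + e_ij` -/
theorem f1_exists_el {k : ℕ} (hk : 3 ≤ k) (g : SL k) (hg : g ∉ Subgroup.center (SL k)) :
    ∃ (i j : Fin k) (h : i ≠ j), ∀ t : ℕ, 0 < t →
      g * el i j h 1 ^ t * g⁻¹ * (el i j h 1 ^ t)⁻¹ ≠ 1 := by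
  by_contra hcon
  apply hg
  push Not at hcon
  have hall : ∀ x : SL k, IsEl x → x ∈ Subgroup.centralizer {g} := by
    rintro x ⟨i, j, h, s, rfl⟩
    obtain ⟨t, ht, he⟩ := hcon i j h
    rw [f1_el_pow, mul_inv_eq_one, mul_inv_eq_iff_eq_mul] at he
    rw [Subgroup.mem_centralizer_singleton_iff]
    exact (f1_comm_of g i j h t (by exact_mod_cast ht.ne') he s).symm
  have htop : Subgroup.centralizer {g} = (⊤ : Subgroup (SL k)) := by
    rw [eq_top_iff, ← Pool.Agent.TAU.gen k (by omega), Subgroup.closure_le]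
    exact hall
  rw [Subgroup.mem_center_iff]
  intro x
  have hx : x ∈ Subgroup.centralizer {g} := by rw [htop]; trivial
  rw [Subgroup.mem_centralizer_singleton_iff] at hx
  exact hx

/-- a non-zero vector with `z_j = 0` and `ρ · z = 0` -/
theorem f1_vec {k : ℕ} (hk : 3 ≤ k) (ρ : Fin k → ℤ) (j : Fin k) :
    ∃ z : Fin k → ℤ, z ≠ 0 ∧ z j = 0 ∧ ρ ⬝ᵥ z = 0 := by
  obtain ⟨p, hp⟩ : ∃ p : Fin k, p ∉ ({j} : Finset (Fin k)) := by
    apply Finset.exists_mem_notMem_of_card_lt_card (s := {j}) (t := Finset.univ) ?_ |>.imp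
    · intro a ha; exact ha.2
    · rw [Finset.card_singleton, Finset.card_univ, Fintype.card_fin]; omega
  obtain ⟨q, hq⟩ : ∃ q : Fin k, q ∉ ({j, p} : Finset (Fin k)) := by
    apply Finset.exists_mem_notMem_of_card_lt_card (s := {j, p}) (t := Finset.univ) ?_ |>.imp
    · intro a ha; exact ha.2
    · rw [Finset.card_univ, Fintype.card_fin]
      exact lt_of_le_of_lt Finset.card_le_two (by omega)
  simp only [Finset.mem_singleton] at hp
  simp only [Finset.mem_insert, Finset.mem_singleton, not_or] at hq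
  obtain ⟨hqj, hqp⟩ := hq
  by_cases h0 : ρ p = 0 ∧ ρ q = 0
  · refine ⟨Pi.single p 1, ?_, ?_, ?_⟩
    · intro h
      have := congrFun h p
      simp at this
    · rw [Pi.single_eq_of_ne (Ne.symm hp)]
    · rw [dotProduct_single, h0.1, zero_mul]
  · refine ⟨Pi.single p (ρ q) - Pi.single q (ρ p), ?_, ?_, ?_⟩
    · intro h
      apply h0
      have h1 := congrFun h p
      have h2 := congrFun h q
      rw [Pi.sub_apply, Pi.single_eq_same, Pi.single_eq_of_ne (Ne.symm hqp), Pi.zero_apply, sub_zero] at h1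
      rw [Pi.sub_apply, Pi.single_eq_same, Pi.single_eq_of_ne hqp, Pi.zero_apply, zero_sub, neg_eq_zero] at h2
      exact ⟨h2, h1⟩
    · rw [Pi.sub_apply, Pi.single_eq_of_ne (Ne.symm hp), Pi.single_eq_of_ne (Ne.symm hqj), sub_zero]
    · rw [dotProduct_sub, dotProduct_single, dotProduct_single]
      ring

theorem f1_noncentral (k : ℕ) (hk : 3 ≤ k) (f : (n : ℕ) → SL k → Equiv.Perm (Fin n))
    (hcomm : ∀ g w : SL k, (∀ t : ℕ, 0 < t → Small f (g * w ^ t * g⁻¹ * (w ^ t)⁻¹)) → Small f g)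
    (hfix : ∀ (h : SL k), h ≠ 1 → ∀ z : Fin k → ℤ, z ≠ 0 → h.1.mulVec z = z → Small f h)
    (g : SL k) (hg : g ∉ Subgroup.center (SL k)) : Small f g := by
  obtain ⟨i, j, h, hij⟩ := f1_exists_el hk g hg
  apply hcomm g (el i j h 1)
  intro t ht
  obtain ⟨z, hz0, hzj, hzr⟩ := f1_vec hk (fun a => (g⁻¹ : SL k).1 j a) j
  apply hfix _ (hij t ht) z hz0
  rw [f1_el_pow, f1_el_inv]
  change (g.1 * (el i j h (t : ℤ)).1 * (g⁻¹ : SL k).1 * (el i j h (-(t : ℤ))).1).mulVec z = z
  rw [← Matrix.mulVec_mulVec, f1_el_mulVec i j h _ z hzj, ← Matrix.mulVec_mulVec,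
    ← Matrix.mulVec_mulVec, f1_el_mulVec i j h _ _ hzr, Matrix.mulVec_mulVec]
  have : g.1 * (g⁻¹ : SL k).1 = 1 := by
    have := congrArg Subtype.val (mul_inv_cancel g)
    exact this
  rw [this, Matrix.one_mulVec]

end Pool.Agent.IRS
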