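import Pool.Agent.IRS.Count

/-!
An element `h ≠ 1` of `SL_k(ℤ)` with a fixed vector has few fixed points, if all transvections have.
-/

set_option autoImplicit false
open Filter Topology Finset Matrix

namespace Pool.Agent.IRS

open Pool.Agent.TAU (SL el IsEl ElProd Cong InBlock)
open Pool.Agent.FS84 (AlmostHom)

theorem frTr_val {k : ℕ} (u φ : Fin k → ℤ) (h : φ ⬝ᵥ u = 0) (t : ℤ) :
    (tr u φ h t).1 = 1 + Matrix.vecMulVec (t • u) φ := rfl

theorem frTr_mul {k : ℕ} (u φ : Fin k → ℤ) (h : φ ⬝ᵥ u = 0) (s t : ℤ) :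
    tr u φ h s * tr u φ h t = tr u φ h (s + t) := by
  apply Subtype.ext
  rw [Matrix.SpecialLinearGroup.coe_mul]
  rw [frTr_val, frTr_val, frTr_val, Matrix.mul_add, Matrix.add_mul, Matrix.add_mul,
    Matrix.vecMulVec_mul_vecMulVec, dotProduct_smul, h, smul_zero, zero_smul,
    Matrix.vecMulVec_zero, Matrix.mul_one, Matrix.mul_one, Matrix.one_mul, add_smul,
    Matrix.add_vecMulVec]
  abel

theorem frTr_pow {k : ℕ} (u φ : Fin k → ℤ) (h : φ ⬝ᵥ u = 0) (t : ℕ) :
    tr u φ h 1 ^ t = tr u φ h t := by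
  induction t with
  | zero =>
    rw [pow_zero]
    apply Subtype.ext
    rw [frTr_val]
    simp
  | succ t ih =>
    rw [pow_succ, ih, frTr_mul]
    push_cast
    rfl

/-- the commutator of `h` with a transvection along a vector fixed by `h` -/
theorem frTr_comm {k : ℕ} (h : SL k) (z φ : Fin k → ℤ) (hz : h.1.mulVec z = z)
    (h0 : φ ⬝ᵥ z = 0) (h0' : ((φ ᵥ* (h⁻¹).1) - φ) ⬝ᵥ z = 0) (t : ℤ) :
    h * tr z φ h0 t * h⁻¹ * (tr z φ h0 t)⁻¹ = tr z ((φ ᵥ* (h⁻¹).1) - φ) h0' t := by
  rw [mul_inv_eq_iff_eq_mul]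
  apply Subtype.ext
  rw [Matrix.SpecialLinearGroup.coe_mul, Matrix.SpecialLinearGroup.coe_mul,
    Matrix.SpecialLinearGroup.coe_mul]
  have e1 : h.1 * (h⁻¹).1 = 1 := by
    rw [← Matrix.SpecialLinearGroup.coe_mul, mul_inv_cancel]
    rfl
  rw [frTr_val, frTr_val, Matrix.mul_add, Matrix.mul_one, Matrix.mul_vecMulVec,
    Matrix.mulVec_smul, hz, Matrix.add_mul, e1, Matrix.vecMulVec_mul, Matrix.mul_add,
    Matrix.mul_one, Matrix.add_mul, Matrix.one_mul, Matrix.vecMulVec_mul_vecMulVec,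
    dotProduct_smul, h0', smul_zero, zero_smul, Matrix.vecMulVec_zero, add_zero,
    Matrix.vecMulVec_sub]
  abel

/-- [IRS Free] Step 2, from small_of_comm and small_of_pow -/
theorem small_of_fix (k : ℕ) (f : (n : ℕ) → SL k → Equiv.Perm (Fin n))
    (hf : AlmostHom f)
    (htr : ∀ (u φ : Fin k → ℤ) (h : φ ⬝ᵥ u = 0) (t : ℤ), u ≠ 0 → φ ≠ 0 → t ≠ 0 →
      Small f (tr u φ h t))
    (h : SL k) (h1 : h ≠ 1) (z : Fin k → ℤ) (hz : z ≠ 0) (hhz : h.1.mulVec z = z) :
    Small f h := by
  classical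
  by_cases hA : ∃ φ : Fin k → ℤ, φ ⬝ᵥ z = 0 ∧ φ ᵥ* h.1 ≠ φ
  · obtain ⟨φ, h0, hne⟩ := hA
    have e1 : h.1 * (h⁻¹).1 = 1 := by
      rw [← Matrix.SpecialLinearGroup.coe_mul, mul_inv_cancel]
      rfl
    have e2 : (h⁻¹).1 * h.1 = 1 := by
      rw [← Matrix.SpecialLinearGroup.coe_mul, inv_mul_cancel]
      rfl
    have hz' : (h⁻¹).1.mulVec z = z := by
      conv_lhs => rw [← hhz]
      rw [Matrix.mulVec_mulVec, e2, Matrix.one_mulVec]
    have h0' : ((φ ᵥ* (h⁻¹).1) - φ) ⬝ᵥ z = 0 := by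
      rw [sub_dotProduct, ← Matrix.dotProduct_mulVec, hz', sub_self]
    have hne' : (φ ᵥ* (h⁻¹).1) - φ ≠ 0 := by
      intro he
      apply hne
      have h2 : φ ᵥ* (h⁻¹).1 = φ := sub_eq_zero.1 he
      conv_lhs => rw [← h2]
      rw [Matrix.vecMul_vecMul, e2, Matrix.vecMul_one]
    refine small_of_comm hf h (tr z φ h0 1) (fun t ht => ?_)
    rw [frTr_pow, frTr_comm h z φ hhz h0 h0' t]
    exact htr _ _ _ _ hz hne' (by exact_mod_cast ht.ne')
  · push Not at hA
    set B : Matrix (Fin k) (Fin k) ℤ := h.1 - 1 with hB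
    have hB1 : ∀ p q j, z p * B q j = z q * B p j := by
      intro p q j
      have e1 : (Pi.single q (z p) - Pi.single p (z q) : Fin k → ℤ) ⬝ᵥ z = 0 := by
        rw [sub_dotProduct, single_dotProduct, single_dotProduct]
        ring
      have e2 := congrFun (hA _ e1) j
      rw [Matrix.sub_vecMul, Matrix.single_vecMul, Matrix.single_vecMul] at e2
      simp only [Pi.sub_apply, Pi.smul_apply, smul_eq_mul, hB, Matrix.sub_apply] at e2 ⊢
      have e3 : ∀ (a b : Fin k) (c : ℤ), (Pi.single a c : Fin k → ℤ) b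
          = c * (1 : Matrix (Fin k) (Fin k) ℤ) a b := by
        intro a b c
        rw [Matrix.one_apply, Pi.single_apply]
        by_cases hab : a = b
        · subst hab; simp
        · have : ¬ b = a := fun hh => hab hh.symm
          simp [hab, this]
      rw [e3, e3] at e2
      simp only [Matrix.row_apply] at e2
      linarith
    set D : ℤ := z ⬝ᵥ z with hD
    have hD0 : 0 < D := by
      have h2 : 0 ≤ D := by
        rw [hD]
        exact Finset.sum_nonneg (fun i _ => mul_self_nonneg (z i))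
      rcases h2.lt_or_eq with h3 | h3
      · exact h3
      · exact absurd (dotProduct_self_eq_zero.1 h3.symm) hz
    set ψ : Fin k → ℤ := z ᵥ* B with hψ
    have hDB : D • B = Matrix.vecMulVec z ψ := by
      ext q j
      rw [Matrix.smul_apply, Matrix.vecMulVec_apply, smul_eq_mul, hD, hψ]
      simp only [Matrix.vecMul, dotProduct]
      rw [Finset.sum_mul, Finset.mul_sum]
      refine Finset.sum_congr rfl (fun p _ => ?_)
      calc z p * z p * B q j = z p * (z p * B q j) := by ring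
        _ = z p * (z q * B p j) := by rw [hB1 p q j]
        _ = z q * (z p * B p j) := by ring
    have hBz : B.mulVec z = 0 := by
      rw [hB, Matrix.sub_mulVec, hhz, Matrix.one_mulVec, sub_self]
    have hψz : ψ ⬝ᵥ z = 0 := by
      rw [hψ, ← Matrix.dotProduct_mulVec, hBz, dotProduct_zero]
    have hBB : B * B = 0 := by
      have h2 : D • (B * B) = 0 := by
        rw [← Matrix.mul_smul, hDB, Matrix.mul_vecMulVec, hBz, Matrix.zero_vecMulVec]
      rcases smul_eq_zero.1 h2 with h3 | h3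
      · exact absurd h3 hD0.ne'
      · exact h3
    have hpow : ∀ n : ℕ, (h ^ n).1 = 1 + (n : ℤ) • B := by
      intro n
      induction n with
      | zero => simp
      | succ n ih =>
        have h2 : h.1 = 1 + B := by rw [hB]; abel
        rw [pow_succ, Matrix.SpecialLinearGroup.coe_mul, ih, h2, Matrix.mul_add,
          Matrix.mul_one, Matrix.add_mul, Matrix.one_mul, Matrix.smul_mul, hBB, smul_zero, add_zero]
        push_cast
        rw [add_smul, one_smul]
        abel
    have hψ0 : ψ ≠ 0 := by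
      intro he
      rw [he, Matrix.vecMulVec_zero] at hDB
      rcases smul_eq_zero.1 hDB with h3 | h3
      · exact absurd h3 hD0.ne'
      · apply h1
        apply Subtype.ext
        have h4 : h.1 = 1 + B := by rw [hB]; abel
        rw [h4, h3, add_zero]
        rfl
    obtain ⟨N, hN⟩ := Int.eq_ofNat_of_zero_le hD0.le
    refine small_of_pow hf h D ?_
    have e : h ^ D = tr z ψ hψz 1 := by
      rw [hN, zpow_natCast]
      apply Subtype.ext
      rw [hpow, frTr_val, one_smul, ← hDB, ← hN]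
    rw [e]
    exact htr _ _ _ _ hz hψ0 one_ne_zero

end Pool.Agent.IRS
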