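import Pool.Agent.IRS.TrSmall
import Pool.Agent.IRS.Free1
import Pool.Agent.IRS.FreeA
import Pool.Agent.FS84.Fin
import Pool.Agent.TAU.Has

/-!
Aperiodic almost-homomorphisms of `SL_k(ℤ)`, `k ≥ 3`: only `o(n)` points are fixed by any given
non-central element.
-/

set_option autoImplicit false
open Filter Topology Finset

namespace Pool.Agent.IRS

open Pool.Agent.TAU (SL el IsEl ElProd Cong InBlock)
open Pool.Agent.FS84 (AlmostHom Aperiodic PartlyModelled FlexStable Most most_fixed most_one)

theorem small_of_noncentral (k : ℕ) (hk : 3 ≤ k) (f : (n : ℕ) → SL k → Equiv.Perm (Fin n))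
    (hf : AlmostHom f)
    (htr : ∀ (u φ : Fin k → ℤ) (h : φ ⬝ᵥ u = 0) (t : ℤ), u ≠ 0 → φ ≠ 0 → t ≠ 0 →
      Small f (tr u φ h t))
    (g : SL k) (hg : g ∉ Subgroup.center (SL k)) : Small f g :=
  f1_noncentral k hk f (fun g w hw => small_of_comm hf g w hw)
    (fun h h1 z hz hhz => small_of_fix k f hf htr h h1 z hz hhz) g hg

theorem el_not_central {k : ℕ} (hk : 3 ≤ k) (i j : Fin k) (h : i ≠ j) (t : ℤ) (ht : t ≠ 0) :
    el i j h t ∉ Subgroup.center (SL k) := by
  intro hc
  obtain ⟨l, hil, hjl⟩ : ∃ l : Fin k, i ≠ l ∧ j ≠ l := by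
    by_contra hcon
    push Not at hcon
    have hcard : (Finset.univ : Finset (Fin k)).card ≤ ({i, j} : Finset (Fin k)).card := by
      apply Finset.card_le_card
      intro l _
      rw [Finset.mem_insert, Finset.mem_singleton]
      by_cases h1 : i = l
      · exact Or.inl h1.symm
      · exact Or.inr (hcon l h1).symm
    have h2 := Finset.card_le_two (a := i) (b := j)
    rw [Finset.card_univ, Fintype.card_fin] at hcard
    omega
  have h1 := Pool.Agent.TAU.el_comm i l j hil h hjl t
  rw [← Subgroup.mem_center_iff.1 hc (el j l hjl 1), mul_assoc, eq_comm, mul_eq_right] at h1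
  have h2 := congrArg (fun x : SL k => x.1 i l) h1
  change (Matrix.transvection i l t) i l = (1 : Matrix (Fin k) (Fin k) ℤ) i l at h2
  rw [Matrix.transvection, Matrix.add_apply, Matrix.single_apply_same, Matrix.one_apply_ne hil,
    zero_add] at h2
  exact ht h2

theorem aperiodic_iff (k : ℕ) (hk : 3 ≤ k) (f : (n : ℕ) → SL k → Equiv.Perm (Fin n))
    (hf : AlmostHom f) : Aperiodic f ↔ ∀ g, g ∉ Subgroup.center (SL k) → Small f g := by
  classical
  constructor
  · intro ha g hg
    exact small_of_noncentral k hk f hf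
      (fun u φ h t hu hφ ht => tr_small k hk f hf ha u φ h hu hφ t ht) g hg
  · intro hs S hS
    have i0 : (⟨0, by omega⟩ : Fin k) ≠ ⟨1, by omega⟩ := by
      intro h
      have := congrArg Fin.val h
      simp at this
    obtain ⟨n0, hn0, _, hmem⟩ := Subgroup.exists_pow_mem_of_index_ne_zero hS.index_ne_zero
      (el (⟨0, by omega⟩ : Fin k) ⟨1, by omega⟩ i0 1)
    rw [Pool.Agent.TAU.asm_el_pow, mul_one] at hmem
    have h1 := hs _ (el_not_central hk _ _ i0 (n0 : ℤ) (by exact_mod_cast hn0.ne'))
    have h2 := (most_fixed hf S _ hmem).and h1.most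
    rw [Metric.tendsto_atTop]
    intro ε hε
    obtain ⟨n1, hn1⟩ := eventually_atTop.1 (h2 (ε / 2) (by positivity))
    refine ⟨max n1 1, fun n hn => ?_⟩
    obtain ⟨B, hB, hB'⟩ := hn1 n (le_trans (le_max_left _ _) hn)
    have h3 : (0 : ℝ) < n := by
      have : 0 < n := lt_of_lt_of_le one_pos (le_trans (le_max_right _ _) hn)
      exact_mod_cast this
    have h4 : (univ.filter fun x : Fin n => ∀ s ∈ S, f n s x = x) ⊆ B := by
      intro x hx
      rw [mem_filter] at hx
      by_contra hc
      exact (hB' x hc).2 ((hB' x hc).1 hx.2)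
    have h5 : ((univ.filter fun x : Fin n => ∀ s ∈ S, f n s x = x).card : ℝ) ≤ B.card := by
      exact_mod_cast card_le_card h4
    rw [Real.dist_eq, sub_zero, abs_of_nonneg (by positivity), div_lt_iff₀ h3]
    nlinarith

theorem flexStable_sl_iff (k : ℕ) (hk : 3 ≤ k) : FlexStable (SL k) ↔
    ∀ f : (n : ℕ) → SL k → Equiv.Perm (Fin n), AlmostHom f →
      (∀ g, g ∉ Subgroup.center (SL k) → Small f g) → PartlyModelled f := by
  have hM : Countable (Matrix (Fin k) (Fin k) ℤ) := inferInstanceAs (Countable (Fin k → Fin k → ℤ))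
  have hc : Countable (SL k) := Subtype.countable
  rw [Pool.Agent.FS84.flexStable_iff (Pool.Agent.TAU.hasNear k hk)]
  constructor
  · intro h f hf hs
    exact h f hf ((aperiodic_iff k hk f hf).2 hs)
  · intro h f hf ha
    exact h f hf ((aperiodic_iff k hk f hf).1 ha)

end Pool.Agent.IRS
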