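import Pool.Agent.IRS.Count
import Pool.Agent.TAU.Gen

/-!
Project IRS, [Free]: if all non-trivial transvections are Small, so is every element which fixes a
non-zero vector and every non-central element of `SL_k(ℤ)`.
-/

set_option autoImplicit false
open Filter Topology Finset
namespace Pool.Agent.IRS
open Pool.Agent.TAU (SL el IsEl ElProd Cong InBlock)
open Pool.Agent.FS84 (AlmostHom Aperiodic PartlyModelled FlexStable)

namespace FreeB

open Matrix

theorem tr_mul {k : ℕ} (u φ : Fin k → ℤ) (h : φ ⬝ᵥ u = 0) (s t : ℤ) :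
    tr u φ h s * tr u φ h t = tr u φ h (s + t) := by
  apply Subtype.ext
  show (1 + vecMulVec (s • u) φ) * (1 + vecMulVec (t • u) φ) = 1 + vecMulVec ((s + t) • u) φ
  rw [add_mul, mul_add, mul_add, vecMulVec_mul_vecMulVec, dotProduct_smul, h, smul_zero,
    zero_smul, vecMulVec_zero, add_smul, add_vecMulVec]
  simp only [one_mul, mul_one, add_zero]
  abel

theorem tr_zero {k : ℕ} (u φ : Fin k → ℤ) (h : φ ⬝ᵥ u = 0) : tr u φ h 0 = 1 := by
  apply Subtype.ext
  show 1 + vecMulVec ((0 : ℤ) • u) φ = 1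
  rw [zero_smul, zero_vecMulVec, add_zero]

theorem tr_pow {k : ℕ} (u φ : Fin k → ℤ) (h : φ ⬝ᵥ u = 0) (t : ℕ) :
    (tr u φ h 1) ^ t = tr u φ h t := by
  induction t with
  | zero => rw [pow_zero, Nat.cast_zero, tr_zero]
  | succ t ih => rw [pow_succ, ih, tr_mul]; push_cast; rfl

/-- the commutator of `h` and `tr z φ t`, for `h z = z` -/
theorem comm_fix {k : ℕ} (h : SL k) (z φ : Fin k → ℤ) (hz : h.1.mulVec z = z)
    (hφ : φ ⬝ᵥ z = 0) (t : ℤ) (h' : (vecMul φ (h⁻¹).1 - φ) ⬝ᵥ z = 0) :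
    h * tr z φ hφ t * h⁻¹ * (tr z φ hφ t)⁻¹ = tr z (vecMul φ (h⁻¹).1 - φ) h' t := by
  rw [mul_inv_eq_iff_eq_mul, mul_inv_eq_iff_eq_mul]
  apply Subtype.ext
  show h.1 * (1 + vecMulVec (t • z) φ)
    = (1 + vecMulVec (t • z) (vecMul φ (h⁻¹).1 - φ)) * (1 + vecMulVec (t • z) φ) * h.1
  have hi : (h⁻¹).1 * h.1 = 1 := by
    have := congrArg Subtype.val (inv_mul_cancel h)
    exact this
  have e1 : (1 + vecMulVec (t • z) (vecMul φ (h⁻¹).1 - φ)) * (1 + vecMulVec (t • z) φ)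
      = 1 + vecMulVec (t • z) (vecMul φ (h⁻¹).1) := by
    rw [add_mul, mul_add, mul_add, vecMulVec_mul_vecMulVec, dotProduct_smul, h', smul_zero,
      zero_smul, vecMulVec_zero, vecMulVec_sub]
    simp only [one_mul, mul_one, add_zero]
    abel
  rw [e1, mul_add, mul_vecMulVec, mulVec_smul, hz, add_mul, vecMulVec_mul, vecMul_vecMul, hi,
    vecMul_one, mul_one, one_mul]

/-- the functional `z_p e_q - z_q e_p` -/
def sk {k : ℕ} (z : Fin k → ℤ) (p q : Fin k) : Fin k → ℤ :=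
  z p • Pi.single q 1 - z q • Pi.single p 1

theorem sk_dot {k : ℕ} (z x : Fin k → ℤ) (p q : Fin k) :
    sk z p q ⬝ᵥ x = z p * x q - z q * x p := by
  rw [sk, sub_dotProduct, smul_dotProduct, smul_dotProduct, single_one_dotProduct,
    single_one_dotProduct, smul_eq_mul, smul_eq_mul]

theorem sk_vecMul {k : ℕ} (z : Fin k → ℤ) (p q : Fin k) (A : Matrix (Fin k) (Fin k) ℤ)
    (j : Fin k) : vecMul (sk z p q) A j = z p * A q j - z q * A p j := by
  have h := sk_dot z (fun i => A i j) p q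
  exact h

theorem pow_sq_zero {k : ℕ} (h : SL k) (hh : (h.1 - 1) * (h.1 - 1) = 0) (n : ℕ) :
    (h ^ n).1 = 1 + n • (h.1 - 1) := by
  induction n with
  | zero => rw [pow_zero, zero_smul, add_zero]; rfl
  | succ n ih =>
    rw [pow_succ]
    show (h ^ n).1 * h.1 = _
    rw [ih]
    have e : h.1 = 1 + (h.1 - 1) := by abel
    calc (1 + n • (h.1 - 1)) * h.1 = (1 + n • (h.1 - 1)) * (1 + (h.1 - 1)) := by rw [← e]
      _ = 1 + (n • (h.1 - 1) + (h.1 - 1)) + n • ((h.1 - 1) * (h.1 - 1)) := by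
        rw [add_mul, mul_add, mul_add, one_mul, mul_one, one_mul, smul_mul_assoc]; abel
      _ = _ := by rw [hh, smul_zero, add_zero, succ_nsmul]

theorem small_of_fix (k : ℕ) (f : (n : ℕ) → SL k → Equiv.Perm (Fin n)) (hf : AlmostHom f)
    (htr : ∀ (u φ : Fin k → ℤ) (h : φ ⬝ᵥ u = 0) (t : ℤ), u ≠ 0 → φ ≠ 0 → t ≠ 0 →
      Small f (tr u φ h t))
    (h : SL k) (h1 : h ≠ 1) (z : Fin k → ℤ) (hz : z ≠ 0) (hhz : h.1.mulVec z = z) :
    Small f h := by
  have hi : h.1 * (h⁻¹).1 = 1 := by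
    have := congrArg Subtype.val (mul_inv_cancel h)
    exact this
  have hi' : (h⁻¹).1 * h.1 = 1 := by
    have := congrArg Subtype.val (inv_mul_cancel h)
    exact this
  have hinv : (h⁻¹).1.mulVec z = z := by
    conv_lhs => rw [← hhz]
    rw [mulVec_mulVec, hi', one_mulVec]
  by_cases hA : ∃ p q, vecMul (sk z p q) h.1 ≠ sk z p q
  · obtain ⟨p, q, hpq⟩ := hA
    have h0 : sk z p q ⬝ᵥ z = 0 := by rw [sk_dot]; ring
    have h0' : (vecMul (sk z p q) (h⁻¹).1 - sk z p q) ⬝ᵥ z = 0 := by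
      rw [sub_dotProduct, ← dotProduct_mulVec, hinv, h0, sub_zero]
    apply small_of_comm hf h (tr z (sk z p q) h0 1)
    intro t ht
    rw [tr_pow, comm_fix h z (sk z p q) hhz h0 t h0']
    apply htr _ _ _ _ hz
    · intro h3
      apply hpq
      have h4 : vecMul (sk z p q) (h⁻¹).1 = sk z p q := sub_eq_zero.mp h3
      conv_lhs => rw [← h4]
      rw [vecMul_vecMul, hi', vecMul_one]
    · exact_mod_cast ht.ne'
  · push Not at hA
    have hB : ∀ p q j, z p * (h.1 - 1) q j = z q * (h.1 - 1) p j := by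
      intro p q j
      have h2 := congrFun (hA p q) j
      rw [sk_vecMul] at h2
      have h3 : sk z p q j = z p * (1 : Matrix (Fin k) (Fin k) ℤ) q j
          - z q * (1 : Matrix (Fin k) (Fin k) ℤ) p j := by
        rw [← sk_vecMul, vecMul_one]
      rw [h3] at h2
      rw [Matrix.sub_apply, Matrix.sub_apply]
      linarith
    have hX : (h.1 - 1).mulVec z = 0 := by
      rw [sub_mulVec, hhz, one_mulVec, sub_self]
    obtain ⟨D, hD⟩ : ∃ D : ℕ, (D : ℤ) = z ⬝ᵥ z := by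
      refine ⟨(z ⬝ᵥ z).toNat, Int.toNat_of_nonneg ?_⟩
      exact Finset.sum_nonneg fun i _ => mul_self_nonneg _
    have hD0 : (D : ℤ) ≠ 0 := by
      rw [hD]
      intro h2
      exact hz (dotProduct_self_eq_zero.mp h2)
    have hR : (D : ℤ) • (h.1 - 1) = vecMulVec z (vecMul z (h.1 - 1)) := by
      ext q j
      rw [Matrix.smul_apply, vecMulVec_apply, hD, smul_eq_mul]
      show (∑ p, z p * z p) * (h.1 - 1) q j = z q * ∑ p, z p * (h.1 - 1) p j
      rw [Finset.sum_mul, Finset.mul_sum]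
      apply Finset.sum_congr rfl
      intro p _
      have := hB p q j
      rw [mul_assoc, this]; ring
    have hψ : vecMul z (h.1 - 1) ⬝ᵥ z = 0 := by
      rw [← dotProduct_mulVec, hX, dotProduct_zero]
    have hsq : (h.1 - 1) * (h.1 - 1) = 0 := by
      have h2 : (D : ℤ) • ((h.1 - 1) * (h.1 - 1)) = 0 := by
        rw [← Matrix.mul_smul, hR, mul_vecMulVec, hX, zero_vecMulVec]
      rcases smul_eq_zero.mp h2 with h3 | h3
      · exact absurd h3 hD0
      · exact h3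
    have hpow : h ^ (D : ℤ) = tr z (vecMul z (h.1 - 1)) hψ 1 := by
      rw [zpow_natCast]
      apply Subtype.ext
      rw [pow_sq_zero h hsq]
      show _ = 1 + vecMulVec ((1 : ℤ) • z) (vecMul z (h.1 - 1))
      rw [one_smul, ← hR, natCast_zsmul]
    apply small_of_pow hf h D
    rw [hpow]
    apply htr _ _ _ _ hz _ one_ne_zero
    intro h2
    rw [h2, vecMulVec_zero] at hR
    rcases smul_eq_zero.mp hR with h3 | h3
    · exact hD0 h3
    · exact h1 (Subtype.ext (sub_eq_zero.mp h3))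

theorem tr_inv {k : ℕ} (u φ : Fin k → ℤ) (h : φ ⬝ᵥ u = 0) (t : ℤ) :
    (tr u φ h t)⁻¹ = tr u φ h (-t) := by
  rw [inv_eq_iff_mul_eq_one, tr_mul, add_neg_cancel, tr_zero]

theorem tr_zpow {k : ℕ} (u φ : Fin k → ℤ) (h : φ ⬝ᵥ u = 0) (t : ℤ) :
    (tr u φ h 1) ^ t = tr u φ h t := by
  rcases Int.eq_nat_or_neg t with ⟨n, rfl | rfl⟩
  · rw [zpow_natCast, tr_pow]
  · rw [_root_.zpow_neg, zpow_natCast, tr_pow, tr_inv]

theorem tr_fix {k : ℕ} (u φ z : Fin k → ℤ) (h : φ ⬝ᵥ u = 0) (t : ℤ) (hz : φ ⬝ᵥ z = 0) :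
    (tr u φ h t).1.mulVec z = z := by
  show (1 + vecMulVec (t • u) φ).mulVec z = z
  rw [add_mulVec, one_mulVec, vecMulVec_mulVec, hz, MulOpposite.op_zero, zero_smul, add_zero]

theorem sd {k : ℕ} (i j : Fin k) (h : i ≠ j) :
    (Pi.single j 1 : Fin k → ℤ) ⬝ᵥ (Pi.single i 1 : Fin k → ℤ) = 0 := by
  rw [single_one_dotProduct, Pi.single_eq_of_ne h.symm]

theorem el_eq_tr {k : ℕ} (i j : Fin k) (h : i ≠ j) (t : ℤ) :
    el i j h t = tr (Pi.single i 1) (Pi.single j 1) (sd i j h) t := by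
  apply Subtype.ext
  show Matrix.transvection i j t = 1 + vecMulVec (t • (Pi.single i 1 : Fin k → ℤ)) (Pi.single j 1)
  rw [Matrix.transvection]
  congr 1
  ext a b
  rw [vecMulVec_apply, Matrix.single_apply, Pi.smul_apply, Pi.single_apply, Pi.single_apply]
  by_cases ha : a = i <;> by_cases hb : b = j
  · simp [ha, hb]
  · simp [ha, hb, Ne.symm hb]
  · simp [ha, hb, Ne.symm ha]
  · simp [ha, hb, Ne.symm ha]

theorem exists_el {k : ℕ} (hk : 2 ≤ k) (g : SL k) (hg : g ∉ Subgroup.center (SL k)) :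
    ∃ (i j : Fin k) (h : i ≠ j), g * el i j h 1 ≠ el i j h 1 * g := by
  by_contra hcon
  push Not at hcon
  apply hg
  rw [Subgroup.mem_center_iff]
  have h1 : Subgroup.closure {x : SL k | IsEl x} ≤ Subgroup.centralizer {g} := by
    rw [Subgroup.closure_le]
    rintro x ⟨i, j, h, t, rfl⟩
    have h2 : el i j h 1 ∈ Subgroup.centralizer {g} := by
      rw [Subgroup.mem_centralizer_singleton_iff]
      exact (hcon i j h).symm
    have h3 : el i j h t = (el i j h 1) ^ t := by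
      rw [el_eq_tr, el_eq_tr, tr_zpow]
    rw [h3]
    exact Subgroup.zpow_mem _ h2 t
  intro x
  have h4 : x ∈ Subgroup.centralizer {g} := by
    apply h1
    rw [Pool.Agent.TAU.gen k hk]
    trivial
  exact Subgroup.mem_centralizer_singleton_iff.mp h4

theorem exists_z {k : ℕ} (hk : 3 ≤ k) (ρ : Fin k → ℤ) (j : Fin k) :
    ∃ z : Fin k → ℤ, z ≠ 0 ∧ z j = 0 ∧ ρ ⬝ᵥ z = 0 := by
  obtain ⟨p, q, hpj, hqj, hpq⟩ : ∃ p q : Fin k, p ≠ j ∧ q ≠ j ∧ p ≠ q := by
    have h1 : 1 < (univ.erase j).card := by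
      rw [Finset.card_erase_of_mem (Finset.mem_univ j), Finset.card_univ, Fintype.card_fin]
      omega
    obtain ⟨p, hp, q, hq, hpq⟩ := Finset.one_lt_card.mp h1
    exact ⟨p, q, (Finset.mem_erase.mp hp).1, (Finset.mem_erase.mp hq).1, hpq⟩
  by_cases h0 : ρ p = 0
  · refine ⟨Pi.single p 1, ?_, ?_, ?_⟩
    · intro h
      have := congrFun h p
      rw [Pi.single_eq_same] at this
      exact one_ne_zero this
    · rw [Pi.single_eq_of_ne hpj.symm]
    · rw [dotProduct_single_one, h0]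
  · refine ⟨sk ρ p q, ?_, ?_, ?_⟩
    · intro h
      have h2 := congrFun h q
      rw [sk, Pi.sub_apply, Pi.smul_apply, Pi.smul_apply, Pi.single_eq_same,
        Pi.single_eq_of_ne hpq.symm, smul_eq_mul, smul_eq_mul, mul_one, mul_zero, sub_zero] at h2
      exact h0 h2
    · rw [sk, Pi.sub_apply, Pi.smul_apply, Pi.smul_apply, Pi.single_eq_of_ne hqj.symm,
        Pi.single_eq_of_ne hpj.symm, smul_zero, smul_zero, sub_zero]
    · rw [dotProduct_comm, sk_dot]; ring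

theorem small_of_noncentral (k : ℕ) (hk : 3 ≤ k) (f : (n : ℕ) → SL k → Equiv.Perm (Fin n))
    (hf : AlmostHom f)
    (htr : ∀ (u φ : Fin k → ℤ) (h : φ ⬝ᵥ u = 0) (t : ℤ), u ≠ 0 → φ ≠ 0 → t ≠ 0 →
      Small f (tr u φ h t))
    (g : SL k) (hg : g ∉ Subgroup.center (SL k)) : Small f g := by
  obtain ⟨i, j, h, hne⟩ := exists_el (by omega) g hg
  apply small_of_comm hf g (el i j h 1)
  intro t ht
  have hw : (el i j h 1) ^ t = tr (Pi.single i 1) (Pi.single j 1) (sd i j h) t := by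
    rw [el_eq_tr, tr_pow]
  rw [hw]
  obtain ⟨z, hz, hzj, hρ⟩ := exists_z hk (fun a => (g⁻¹).1 j a) j
  refine small_of_fix k f hf htr _ ?_ z hz ?_
  · intro h2
    rw [mul_inv_eq_one, mul_inv_eq_iff_eq_mul] at h2
    have h3 := congrArg Subtype.val h2
    apply hne
    rw [el_eq_tr]
    apply Subtype.ext
    show g.1 * (1 + vecMulVec ((1 : ℤ) • (Pi.single i 1 : Fin k → ℤ)) (Pi.single j 1))
      = (1 + vecMulVec ((1 : ℤ) • (Pi.single i 1 : Fin k → ℤ)) (Pi.single j 1)) * g.1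
    change g.1 * (1 + vecMulVec ((t : ℤ) • (Pi.single i 1 : Fin k → ℤ)) (Pi.single j 1))
      = (1 + vecMulVec ((t : ℤ) • (Pi.single i 1 : Fin k → ℤ)) (Pi.single j 1)) * g.1 at h3
    rw [mul_add, add_mul, mul_one, one_mul, smul_vecMulVec, Matrix.mul_smul, Matrix.smul_mul,
      add_right_inj] at h3
    have h4 := smul_right_injective (Matrix (Fin k) (Fin k) ℤ)
      (show (t : ℤ) ≠ 0 by exact_mod_cast ht.ne') h3
    rw [mul_add, add_mul, mul_one, one_mul, one_smul]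
    congr 1
  · rw [tr_inv]
    show (g.1 * (tr _ _ _ _).1 * (g⁻¹).1 * (tr _ _ _ _).1).mulVec z = z
    rw [← mulVec_mulVec, tr_fix _ _ _ _ _ (by rw [single_one_dotProduct]; exact hzj),
      ← mulVec_mulVec, ← mulVec_mulVec, tr_fix _ _ _ _ _ (by
        rw [single_one_dotProduct]; exact hρ), mulVec_mulVec]
    have hi : g.1 * (g⁻¹).1 = 1 := by
      have := congrArg Subtype.val (mul_inv_cancel g)
      exact this
    rw [hi, one_mulVec]

end FreeB

open Matrix in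
theorem small_of_fix (k : ℕ) (f : (n : ℕ) → SL k → Equiv.Perm (Fin n)) (hf : AlmostHom f)
    (htr : ∀ (u φ : Fin k → ℤ) (h : φ ⬝ᵥ u = 0) (t : ℤ), u ≠ 0 → φ ≠ 0 → t ≠ 0 →
      Small f (tr u φ h t))
    (h : SL k) (h1 : h ≠ 1) (z : Fin k → ℤ) (hz : z ≠ 0) (hhz : h.1.mulVec z = z) :
    Small f h := FreeB.small_of_fix k f hf htr h h1 z hz hhz

open Matrix in
theorem small_of_noncentral (k : ℕ) (hk : 3 ≤ k) (f : (n : ℕ) → SL k → Equiv.Perm (Fin n))
    (hf : AlmostHom f)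
    (htr : ∀ (u φ : Fin k → ℤ) (h : φ ⬝ᵥ u = 0) (t : ℤ), u ≠ 0 → φ ≠ 0 → t ≠ 0 →
      Small f (tr u φ h t))
    (g : SL k) (hg : g ∉ Subgroup.center (SL k)) : Small f g :=
  FreeB.small_of_noncentral k hk f hf htr g hg

end Pool.Agent.IRS
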