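import Pool.Agent.IRS.Count
import Pool.Agent.TAU.Gen

set_option autoImplicit false
open Filter Topology Finset

namespace Pool.Agent.IRS

open Pool.Agent.TAU (SL el IsEl ElProd Cong InBlock)
open Pool.Agent.FS84 (AlmostHom Aperiodic PartlyModelled FlexStable)

section
variable {k : ℕ}

theorem n95_mul (i j : Fin k) (h : i ≠ j) (s t : ℤ) : el i j h s * el i j h t = el i j h (s + t) := by
  apply Subtype.ext
  show Matrix.transvection i j s * Matrix.transvection i j t = Matrix.transvection i j (s + t)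
  exact Matrix.transvection_mul_transvection_same i j h s t

theorem n95_pow (i j : Fin k) (h : i ≠ j) (t : ℕ) : el i j h 1 ^ t = el i j h t := by
  induction t with
  | zero =>
    apply Subtype.ext
    show (1 : Matrix (Fin k) (Fin k) ℤ) = Matrix.transvection i j ((0 : ℕ) : ℤ)
    rw [Nat.cast_zero, Matrix.transvection_zero]
  | succ n ih => rw [pow_succ, ih, n95_mul]; norm_cast

theorem n95_inv (i j : Fin k) (h : i ≠ j) (t : ℤ) : (el i j h t)⁻¹ = el i j h (-t) := by
  rw [inv_eq_iff_mul_eq_one, n95_mul, add_neg_cancel]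
  apply Subtype.ext
  show Matrix.transvection i j (0 : ℤ) = 1
  rw [Matrix.transvection_zero]

theorem n95_mulVec (i j : Fin k) (h : i ≠ j) (t : ℤ) (z : Fin k → ℤ) (hz : z j = 0) :
    (el i j h t).1.mulVec z = z := by
  show (Matrix.transvection i j t).mulVec z = z
  unfold Matrix.transvection
  rw [Matrix.add_mulVec, Matrix.one_mulVec]
  have : (Matrix.single i j t).mulVec z = 0 := by
    ext a
    rw [Matrix.single_mulVec]
    simp [hz]
  rw [this, add_zero]

/-- `g` commutes with `1 + t e_ij`, `t ≠ 0`, only if it commutes with `e_ij` -/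
theorem n95_comm (g : SL k) (i j : Fin k) (h : i ≠ j) (s t : ℤ) (ht : t ≠ 0)
    (hc : g * el i j h t = el i j h t * g) : g * el i j h s = el i j h s * g := by
  have h1 : g.1 * Matrix.single i j (1 : ℤ) = Matrix.single i j (1 : ℤ) * g.1 := by
    have h2 := congrArg Subtype.val hc
    have h3 : g.1 * Matrix.transvection i j t = Matrix.transvection i j t * g.1 := h2
    unfold Matrix.transvection at h3
    rw [mul_add, add_mul, mul_one, one_mul, add_right_inj] at h3
    have h4 : Matrix.single i j t = t • Matrix.single i j (1 : ℤ) := by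
      rw [Matrix.smul_single, smul_eq_mul, mul_one]
    rw [h4, Matrix.mul_smul, Matrix.smul_mul] at h3
    ext a b
    have h5 := congrFun (congrFun h3 a) b
    rw [Matrix.smul_apply, Matrix.smul_apply, smul_eq_mul, smul_eq_mul] at h5
    exact mul_left_cancel₀ ht h5
  apply Subtype.ext
  show g.1 * Matrix.transvection i j s = Matrix.transvection i j s * g.1
  unfold Matrix.transvection
  have h4 : Matrix.single i j s = s • Matrix.single i j (1 : ℤ) := by
    rw [Matrix.smul_single, smul_eq_mul, mul_one]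
  rw [mul_add, add_mul, mul_one, one_mul, h4, Matrix.mul_smul, Matrix.smul_mul, h1]

end

theorem small_of_noncentral95
    (small_of_fix : ∀ (k : ℕ) (f : (n : ℕ) → SL k → Equiv.Perm (Fin n)) (_ : AlmostHom f)
      (_ : ∀ (u φ : Fin k → ℤ) (h : φ ⬝ᵥ u = 0) (t : ℤ), u ≠ 0 → φ ≠ 0 → t ≠ 0 →
        Small f (tr u φ h t))
      (h : SL k) (_ : h ≠ 1) (z : Fin k → ℤ) (_ : z ≠ 0) (_ : h.1.mulVec z = z), Small f h)
    (k : ℕ) (hk : 3 ≤ k) (f : (n : ℕ) → SL k → Equiv.Perm (Fin n))
    (hf : AlmostHom f)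
    (htr : ∀ (u φ : Fin k → ℤ) (h : φ ⬝ᵥ u = 0) (t : ℤ), u ≠ 0 → φ ≠ 0 → t ≠ 0 →
      Small f (tr u φ h t))
    (g : SL k) (hg : g ∉ Subgroup.center (SL k)) : Small f g := by
  -- an elementary matrix which does not commute with `g`
  have hex : ∃ (i j : Fin k) (h : i ≠ j), g * el i j h 1 ≠ el i j h 1 * g := by
    by_contra hcon
    push Not at hcon
    apply hg
    rw [Subgroup.mem_center_iff]
    intro x
    have hx : x ∈ Subgroup.closure {x : SL k | IsEl x} := by
      rw [Pool.Agent.TAU.gen k (by omega)]; trivial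
    induction hx using Subgroup.closure_induction with
    | mem y hy =>
      obtain ⟨i, j, h, t, rfl⟩ := hy
      exact (n95_comm g i j h t 1 one_ne_zero (hcon i j h)).symm
    | one => rw [one_mul, mul_one]
    | mul a b _ _ ha hb => rw [mul_assoc, hb, ← mul_assoc, ha, mul_assoc]
    | inv a _ ha =>
      have : a⁻¹ * g * a = g := by rw [mul_assoc, ← ha, inv_mul_cancel_left]
      calc a⁻¹ * g = a⁻¹ * g * a * a⁻¹ := by rw [mul_inv_cancel_right]
        _ = g * a⁻¹ := by rw [this]
  obtain ⟨i, j, hij, hne⟩ := hex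
  refine small_of_comm hf g (el i j hij 1) (fun t ht => ?_)
  rw [n95_pow]
  -- two further indices
  obtain ⟨p, q, hpq, hpj, hqj⟩ : ∃ p q : Fin k, p ≠ q ∧ p ≠ j ∧ q ≠ j := by
    have hc : 1 < (univ.erase j : Finset (Fin k)).card := by
      rw [Finset.card_erase_of_mem (mem_univ _), Finset.card_univ, Fintype.card_fin]; omega
    obtain ⟨p, hp, q, hq, hpq⟩ := Finset.one_lt_card.1 hc
    exact ⟨p, q, hpq, (Finset.mem_erase.1 hp).1, (Finset.mem_erase.1 hq).1⟩
  set ρ : Fin k → ℤ := fun a => (g⁻¹).1 j a with hρ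
  obtain ⟨z, hz0, hzj, hρz⟩ : ∃ z : Fin k → ℤ, z ≠ 0 ∧ z j = 0 ∧ ρ ⬝ᵥ z = 0 := by
    by_cases h0 : ρ p = 0
    · refine ⟨Pi.single p 1, ?_, ?_, ?_⟩
      · intro h; have := congrFun h p; simp at this
      · rw [Pi.single_eq_of_ne hpj.symm]
      · rw [dotProduct_single, h0, zero_mul]
    · refine ⟨Pi.single p (ρ q) - Pi.single q (ρ p), ?_, ?_, ?_⟩
      · intro h
        have := congrFun h q
        rw [Pi.sub_apply, Pi.single_eq_of_ne hpq.symm, Pi.single_eq_same, zero_sub, Pi.zero_apply,
          neg_eq_zero] at this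
        exact h0 this
      · rw [Pi.sub_apply, Pi.single_eq_of_ne hpj.symm, Pi.single_eq_of_ne hqj.symm, sub_zero]
      · rw [dotProduct_sub, dotProduct_single, dotProduct_single]; ring
  refine small_of_fix k f hf htr _ ?_ z hz0 ?_
  · intro h1
    apply hne
    have h2 : g * el i j hij t = el i j hij t * g := by
      have h3 : g * el i j hij t * g⁻¹ = el i j hij t := by
        rwa [mul_inv_eq_one] at h1
      rw [← h3, inv_mul_cancel_right, h3]
    exact n95_comm g i j hij 1 t (by exact_mod_cast ht.ne') h2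
  · have e1 : (el i j hij t)⁻¹.1.mulVec z = z := by
      rw [n95_inv]; exact n95_mulVec i j hij _ z hzj
    have e2 : ((g⁻¹).1.mulVec z) j = 0 := hρz
    have e3 : (el i j hij t).1.mulVec ((g⁻¹).1.mulVec z) = (g⁻¹).1.mulVec z :=
      n95_mulVec i j hij t _ e2
    have e4 : g.1.mulVec ((g⁻¹).1.mulVec z) = z := by
      rw [Matrix.mulVec_mulVec]
      have : g.1 * (g⁻¹).1 = 1 := congrArg Subtype.val (mul_inv_cancel g)
      rw [this, Matrix.one_mulVec]
    have e5 : (g * el i j hij t * g⁻¹ * (el i j hij t)⁻¹).1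
        = g.1 * (el i j hij t).1 * (g⁻¹).1 * ((el i j hij t)⁻¹).1 := rfl
    rw [e5, ← Matrix.mulVec_mulVec, e1, ← Matrix.mulVec_mulVec, ← Matrix.mulVec_mulVec, e3, e4]

end Pool.Agent.IRS
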