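import Pool.Agent.IRS.HalfDefs
import Pool.Agent.IRS.CongA
import Pool.Agent.IRS.CongB

/-!
Coverings of almost-homomorphisms of `PSL_k(ℤ)` by copies of the groups `SL_k(ℤ/M)`, with any
precision.
-/

set_option autoImplicit false
open Filter Topology Finset

namespace Pool.Agent.IRS

open Pool.Agent.TAU (SL)

/-- a covering by the points of a finite `PSL_k(ℤ)`-set gives one by copies of `SL_k(ℤ/N!)` -/
theorem cong_cover (k : ℕ) (hk : 3 ≤ k) {n N : ℕ} (σ : SL k → Equiv.Perm (Fin n))
    (ρ : SL k →* Equiv.Perm (Fin N)) (D : Finset (Fin N)) (π : Fin N → Fin n) (K : ℕ) (c : ℝ)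
    (E : Finset (SL k)) (hD : D.Nonempty)
    (hdens : ∀ a, (D.filter fun y => π y = a).card * n ≤ K * D.card)
    (hbad : ∀ A ∈ E, ((D.filter fun y => ρ A y ∉ D ∨ π (ρ A y) ≠ σ A (π y)).card : ℝ) ≤
      c * D.card) (dec : DecidableEq (SLM k N.factorial × Fin N)) :
    ∃ (D' : Finset (SLM k N.factorial × Fin N)) (p : SLM k N.factorial × Fin N → Fin n),
      D'.Nonempty ∧ (∀ a, (D'.filter fun y => p y = a).card * n ≤ K * D'.card) ∧
      ∀ A ∈ E, ((D'.filter fun y => actM A y ∉ D' ∨ p (actM A y) ≠ σ A (p y)).card : ℝ) ≤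
        c * D'.card := by
  classical
  have hN : 0 < N.factorial := N.factorial_pos
  have : NeZero N.factorial := ⟨hN.ne'⟩
  have hfin : Fintype (SLM k N.factorial) := Fintype.ofFinite _
  obtain ⟨R, hR⟩ : ∃ R : Finset (SLM k N.factorial),
      R = univ.filter fun q => ∃ A : SL k, redM k N.factorial A = q := ⟨_, rfl⟩
  have hRmem : ∀ q, q ∈ R ↔ ∃ A : SL k, redM k N.factorial A = q := by
    intro q
    rw [hR, mem_filter]
    simp
  have hRpos : 0 < R.card := card_pos.2 ⟨1, (hRmem 1).2 ⟨1, map_one _⟩⟩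
  obtain ⟨F, hF⟩ : ∃ F : SLM k N.factorial → Equiv.Perm (Fin N), F = permM k N ρ := ⟨_, rfl⟩
  have hFA : ∀ (A : SL k) q, q ∈ R → F (redM k N.factorial A * q) = ρ A * F q := by
    intro A q hq
    obtain ⟨B, rfl⟩ := (hRmem q).1 hq
    rw [← map_mul, hF, permM_red k hk, permM_red k hk, map_mul]
  obtain ⟨D', hD'⟩ : ∃ D' : Finset (SLM k N.factorial × Fin N),
      D' = (R ×ˢ (univ : Finset (Fin N))).filter fun y => F y.1 y.2 ∈ D := ⟨_, rfl⟩
  have hmemD' : ∀ q y, (q, y) ∈ D' ↔ q ∈ R ∧ F q y ∈ D := by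
    intro q y
    rw [hD', mem_filter, mem_product]
    simp
  have hcount : ∀ (P : Fin N → Prop),
      (D'.filter fun y => P (F y.1 y.2)).card = R.card * (D.filter P).card := by
    intro P
    have h1 := count_lift F R (fun z => z ∈ D ∧ P z)
    rw [hD', filter_filter]
    rw [h1]
    congr 2
    ext z
    simp
  have hcard : D'.card = R.card * D.card := by
    have h1 := hcount (fun _ => True)
    simpa using h1
  refine ⟨D', fun y => π (F y.1 y.2), ?_, ?_, ?_⟩
  · rw [← card_pos, hcard]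
    exact Nat.mul_pos hRpos (card_pos.2 hD)
  · intro a
    have h1 := hcount (fun z => π z = a)
    have h2 : (D'.filter fun y => π (F y.1 y.2) = a).card =
        R.card * (D.filter fun z => π z = a).card := by
      convert h1
    rw [h2, hcard]
    have h3 := Nat.mul_le_mul_left R.card (hdens a)
    calc R.card * (D.filter fun z => π z = a).card * n =
        R.card * ((D.filter fun z => π z = a).card * n) := by ring
      _ ≤ R.card * (K * D.card) := h3
      _ = K * (R.card * D.card) := by ring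
  · intro A hA
    have h1 := hcount (fun z => ρ A z ∉ D ∨ π (ρ A z) ≠ σ A (π z))
    have h2 : (D'.filter fun y => actM A y ∉ D' ∨
        π (F (actM A y).1 (actM A y).2) ≠ σ A (π (F y.1 y.2))) =
        D'.filter fun y => (fun z => ρ A z ∉ D ∨ π (ρ A z) ≠ σ A (π z)) (F y.1 y.2) := by
      apply Finset.filter_congr
      rintro ⟨q, y⟩ hy
      have hq := ((hmemD' q y).1 hy).1
      have e : F (redM k N.factorial A * q) y = ρ A (F q y) := by
        rw [hFA A q hq]
        rfl
      have hq' : redM k N.factorial A * q ∈ R := by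
        obtain ⟨B, rfl⟩ := (hRmem q).1 hq
        exact (hRmem _).2 ⟨A * B, map_mul _ _ _⟩
      change ((redM k N.factorial A * q, y) ∉ D' ∨
        π (F (redM k N.factorial A * q) y) ≠ σ A (π (F q y))) ↔
        (ρ A (F q y) ∉ D ∨ π (ρ A (F q y)) ≠ σ A (π (F q y)))
      rw [hmemD', e]
      simp only [hq', true_and]
    have h3 : (D'.filter fun y => actM A y ∉ D' ∨
        π (F (actM A y).1 (actM A y).2) ≠ σ A (π (F y.1 y.2))).card =
        R.card * (D.filter fun z => ρ A z ∉ D ∨ π (ρ A z) ≠ σ A (π z)).card := by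
      rw [h2]
      convert h1
    have h4 := hbad A hA
    have h5 : ((D'.filter fun y => actM A y ∉ D' ∨
        π (F (actM A y).1 (actM A y).2) ≠ σ A (π (F y.1 y.2))).card : ℝ) =
        R.card * ((D.filter fun z => ρ A z ∉ D ∨ π (ρ A z) ≠ σ A (π z)).card : ℝ) := by
      rw [h3]
      push_cast
      ring
    have h6 : (D'.card : ℝ) = R.card * D.card := by
      rw [hcard]
      push_cast
      ring
    have h7 : ((D'.filter fun y => actM A y ∉ D' ∨
        π (F (actM A y).1 (actM A y).2) ≠ σ A (π (F y.1 y.2))).card : ℝ) ≤ c * D'.card := by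
      rw [h5, h6]
      calc (R.card : ℝ) * ((D.filter fun z => ρ A z ∉ D ∨ π (ρ A z) ≠ σ A (π z)).card : ℝ) ≤
          R.card * (c * D.card) := mul_le_mul_of_nonneg_left (by convert h4) (Nat.cast_nonneg _)
        _ = c * (R.card * D.card) := by ring
    convert h7

theorem congCoveredBy_of_dens (k : ℕ) (hk : 3 ≤ k) (f : (n : ℕ) → PSL k → Equiv.Perm (Fin n))
    (h : DensCovered f) : ∃ K : ℕ, ∀ c : ℝ, 0 < c → CongCoveredBy (liftSL f) K c := by
  classical
  obtain ⟨K, hK⟩ := h
  refine ⟨K, fun c hc E => (hK (E.image (QuotientGroup.mk' _)) c hc).mono ?_⟩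
  rintro n ⟨N, ρ, D, π, hD, hdens, hbad⟩
  obtain ⟨D', p, h1, h2, h3⟩ := cong_cover k hk (liftSL f n) (ρ.comp (QuotientGroup.mk' _)) D π K c
    E hD (fun a => by convert hdens a) (fun A hA => by
      have h4 := hbad (QuotientGroup.mk' _ A) (Finset.mem_image_of_mem _ hA)
      convert h4 <;> rfl) (Classical.decEq _)
  refine ⟨N.factorial, N, D', p, N.factorial_pos, h1, ?_, ?_⟩
  · intro a
    convert h2 a
  · intro A hA
    convert h3 A hA

theorem coveredBy_of_cong (k : ℕ) (f : (n : ℕ) → SL k → Equiv.Perm (Fin n)) (K : ℕ) (c : ℝ)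
    (h : CongCoveredBy f K c) : CoveredBy f K c := by
  classical
  intro E
  refine (h E).mono ?_
  rintro n ⟨M, t, D, p, hM, hD, hdens, hbad⟩
  have : NeZero M := ⟨hM.ne'⟩
  have hfin : Fintype (SLM k M × Fin t) := Fintype.ofFinite _
  obtain ⟨N, hN⟩ : ∃ N : ℕ, N = Fintype.card (SLM k M × Fin t) := ⟨_, rfl⟩
  obtain ⟨e⟩ : Nonempty ((SLM k M × Fin t) ≃ Fin N) := ⟨Fintype.equivFinOfCardEq hN.symm⟩
  obtain ⟨D', hD'⟩ : ∃ D' : Finset (Fin N), D' = D.map e.toEmbedding := ⟨_, rfl⟩
  have hmem : ∀ y, e y ∈ D' ↔ y ∈ D := by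
    intro y
    rw [hD']
    exact Finset.mem_map' _
  have hcount : ∀ (P : Fin N → Prop), (D'.filter P).card = (D.filter fun y => P (e y)).card := by
    intro P
    rw [hD', Finset.filter_map, Finset.card_map]
    rfl
  have hcard : D'.card = D.card := by rw [hD', Finset.card_map]
  refine ⟨N, (Equiv.permCongrHom e).toMonoidHom.comp (actHom k M t), D', fun y => p (e.symm y),
    ?_, ?_, ?_⟩
  · rw [← card_pos, hcard]
    exact card_pos.2 hD
  · intro a
    have h1 := hcount (fun y => p (e.symm y) = a)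
    simp only [Equiv.symm_apply_apply] at h1
    rw [hcard]
    convert hdens a using 2
    convert h1
  · intro A hA
    have h1 := hcount (fun y => ((Equiv.permCongrHom e).toMonoidHom.comp (actHom k M t)) A y ∉ D' ∨
      p (e.symm (((Equiv.permCongrHom e).toMonoidHom.comp (actHom k M t)) A y)) ≠
        f n A (p (e.symm y)))
    have h2 : ∀ y, ((Equiv.permCongrHom e).toMonoidHom.comp (actHom k M t)) A (e y) =
        e (actM A y) := by
      intro y
      change e (actHom k M t A (e.symm (e y))) = e (actM A y)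
      rw [Equiv.symm_apply_apply]
      rfl
    simp only [h2, hmem, Equiv.symm_apply_apply] at h1
    rw [hcard]
    have h3 := hbad A hA
    refine le_trans (le_of_eq ?_) h3
    congr 1
    convert h1

end Pool.Agent.IRS
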