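import Pool.Agent.IRS.CongTfae

/-!
Almost-homomorphisms which are covered by finite `G`-sets, or by copies of the groups `SL_k(ℤ/M)`,
with a bounded density and a given precision. Definitions.
-/

set_option autoImplicit false
open Filter Topology Finset

namespace Pool.Agent.IRS

open Pool.Agent.TAU (SL)

/-- `f` is covered by finite `G`-sets with the density `K` and the precision `c`: for every finite
`E ⊆ G` and for infinitely many `n` there are a finite `G`-set (`Fin N` with the action `ρ`), a
nonempty set `D` of its points and a map `p` to the `n` points of `f` with at most `K |D| / n`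
points of `D` over every point, so that for every `g ∈ E` at most `c |D|` points `y` of `D` have
`ρ g y` outside `D` or `p (ρ g y) ≠ f n g (p y)`. -/
def CoveredBy {G : Type} [Group G] (f : (n : ℕ) → G → Equiv.Perm (Fin n)) (K : ℕ) (c : ℝ) : Prop :=
  ∀ E : Finset G, ∃ᶠ n : ℕ in atTop,
    ∃ (N : ℕ) (ρ : G →* Equiv.Perm (Fin N)) (D : Finset (Fin N)) (p : Fin N → Fin n),
      D.Nonempty ∧ (∀ a, (D.filter fun y => p y = a).card * n ≤ K * D.card) ∧
      ∀ g ∈ E, ((D.filter fun y => ρ g y ∉ D ∨ p (ρ g y) ≠ f n g (p y)).card : ℝ) ≤ c * D.card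

open Classical in
/-- the same for an almost-homomorphism `f` of `SL_k(ℤ)` with the set `SL_k(ℤ/M) × {1, …, t}` -/
def CongCoveredBy {k : ℕ} (f : (n : ℕ) → SL k → Equiv.Perm (Fin n)) (K : ℕ) (c : ℝ) : Prop :=
  ∀ E : Finset (SL k), ∃ᶠ n : ℕ in atTop,
    ∃ (M t : ℕ) (D : Finset (SLM k M × Fin t)) (p : SLM k M × Fin t → Fin n),
      0 < M ∧ D.Nonempty ∧ (∀ a, (D.filter fun y => p y = a).card * n ≤ K * D.card) ∧
      ∀ A ∈ E, ((D.filter fun y => actM A y ∉ D ∨ p (actM A y) ≠ f n A (p y)).card : ℝ) ≤
        c * D.card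

end Pool.Agent.IRS
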