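import Pool.Agent.IRS.HalfMod
import Pool.Agent.IRS.HalfCong

/-!
Flexible stability of `SL_k(ℤ)`, `k ≥ 3`: it is enough that every sofic approximation of
`PSL_k(ℤ)` is covered, with a bounded density, by finite `SL_k(ℤ)`-sets, up to a proportion of
errors less than one half; and then the sets can be taken to be unions of copies of one of the
groups `SL_k(ℤ/M)`, with every precision.
-/

set_option autoImplicit false
open Filter Topology Finset

namespace Pool.Agent.IRS

open Pool.Agent.TAU (SL)
open Pool.Agent.FS84 (AlmostHom PartlyModelled FlexStable HasNear)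

theorem flexStable_of_half_lift (k : ℕ) (hk : 3 ≤ k)
    (h : ∀ f : (n : ℕ) → PSL k → Equiv.Perm (Fin n), SoficApprox f →
      ∃ (K : ℕ) (c : ℝ), c < 1 / 2 ∧ CoveredBy (liftSL f) K c) :
    FlexStable (SL k) := by
  rw [flexStable_iff_sofic_approximations k hk]
  intro f hf
  have hf' : AlmostHom (liftSL f) := by
    intro A B
    unfold liftSL
    simp only [map_mul]
    exact hf.1 _ _
  obtain ⟨K, c, hc, h1⟩ := h f hf
  have h2 := modelled_of_covered (Pool.Agent.TAU.hasNear k hk)
    (partly_of_dens (dens_of_half hf' K c hc h1))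
  have hker : Finite (QuotientGroup.mk' (Subgroup.center (SL k))).ker := by
    rw [QuotientGroup.ker_mk']
    exact Finite.of_equiv _
      (Matrix.SpecialLinearGroup.center_equiv_rootsOfUnity (n := Fin k) (R := ℤ)).symm.toEquiv
  exact modelled_descend (QuotientGroup.mk' (Subgroup.center (SL k)))
    (QuotientGroup.mk'_surjective _) hker hf.1 h2

theorem flexStable_half_tfae (k : ℕ) (hk : 3 ≤ k) :
    [FlexStable (Matrix.SpecialLinearGroup (Fin k) ℤ),
      ∀ f : (n : ℕ) → Matrix.ProjectiveSpecialLinearGroup (Fin k) ℤ → Equiv.Perm (Fin n),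
        SoficApprox f → ∃ (K : ℕ) (c : ℝ), c < 1 / 2 ∧ CoveredBy (liftSL f) K c,
      ∀ f : (n : ℕ) → Matrix.ProjectiveSpecialLinearGroup (Fin k) ℤ → Equiv.Perm (Fin n),
        SoficApprox f → ∃ K : ℕ, ∀ c : ℝ, 0 < c → CongCoveredBy (liftSL f) K c].TFAE := by
  tfae_have 1 → 3 := by
    intro h f hf
    exact congCoveredBy_of_dens k hk f
      (dens_of_weakly hf.1 ((flexStable_iff_weakly k hk).1 h f hf))
  tfae_have 3 → 2 := by
    intro h f hf
    obtain ⟨K, hK⟩ := h f hf
    exact ⟨K, 1 / 4, by norm_num, coveredBy_of_cong k _ K (1 / 4) (hK (1 / 4) (by norm_num))⟩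
  tfae_have 2 → 1 := flexStable_of_half_lift k hk
  tfae_finish

end Pool.Agent.IRS
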