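import Pool.Agent.IRS.HalfCong

/-!
The strong necessary form: if `SL_k(ℤ)` is flexibly stable then every almost-homomorphism of
`SL_k(ℤ)` is covered, `m`-to-one and with any precision, by copies of a group `SL_k(ℤ/M)`.
-/

set_option autoImplicit false
open Filter Topology Finset

namespace Pool.Agent.IRS

open Pool.Agent.TAU (SL)
open Pool.Agent.FS84 (AlmostHom PartlyModelled FlexStable HasNear flex)

open Classical in
/-- `f` is covered by copies of congruence quotients, evenly and with any precision: for every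
finite `E ⊆ SL_k(ℤ)`, every `c > 0` and all sufficiently large `n` there are `M ≥ 1`, `t`, a
nonempty set `D` of points of `SL_k(ℤ/M) × {1, …, t}` and a map `p` to the `n` points of `f` with
exactly `|D| / n` points of `D` over every point, so that for every `A ∈ E` at most `c |D|` points
`y` of `D` have `A y` outside `D` or `p (A y) ≠ f n A (p y)`. -/
def CongExact {k : ℕ} (f : (n : ℕ) → SL k → Equiv.Perm (Fin n)) : Prop :=
  ∀ (E : Finset (SL k)) (c : ℝ), 0 < c → ∀ᶠ n : ℕ in atTop,
    ∃ (M t : ℕ) (D : Finset (SLM k M × Fin t)) (p : SLM k M × Fin t → Fin n),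
      0 < M ∧ D.Nonempty ∧ (∀ a, (D.filter fun y => p y = a).card * n = D.card) ∧
      ∀ A ∈ E, ((D.filter fun y => actM A y ∉ D ∨ p (actM A y) ≠ f n A (p y)).card : ℝ) ≤
        c * D.card

theorem even_of_le {α : Type} [DecidableEq α] {n : ℕ} (D : Finset α) (p : α → Fin n)
    (h : ∀ a, (D.filter fun y => p y = a).card * n ≤ 1 * D.card) (a : Fin n) :
    (D.filter fun y => p y = a).card * n = D.card := by
  have h1 : ∑ a : Fin n, (D.filter fun y => p y = a).card * n = ∑ _a : Fin n, D.card := by
    rw [← Finset.sum_mul, sum_const, card_univ, Fintype.card_fin, smul_eq_mul, mul_comm]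
    congr 1
    exact (Finset.card_eq_sum_card_fiberwise (f := p) (s := D) (t := univ)
      (fun _ _ => by simp)).symm
  have h2 : ∀ a ∈ (univ : Finset (Fin n)), (D.filter fun y => p y = a).card * n ≤ D.card :=
    fun a _ => by simpa using h a
  exact (Finset.sum_eq_sum_iff_of_le h2).1 h1 a (mem_univ a)

theorem congExact_of_flexStable (k : ℕ) (hk : 3 ≤ k) (h : FlexStable (SL k))
    (f : (n : ℕ) → SL k → Equiv.Perm (Fin n)) (hf : AlmostHom f) : CongExact f := by
  classical
  obtain ⟨m, ρ, hm, hρ⟩ := h f hf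
  intro E c hc
  have h1 : ∀ᶠ n : ℕ in atTop, ∀ g ∈ E, flex (f n g) (ρ n g) < c := by
    rw [Finset.eventually_all]
    intro g _
    exact (hρ g).eventually (gt_mem_nhds hc)
  filter_upwards [h1, eventually_gt_atTop 0] with n hn hn0
  have hnr : (0 : ℝ) < n := by exact_mod_cast hn0
  have hmn := hm n
  have hmin : min n (m n) = n := min_eq_left hmn
  obtain ⟨D, hD⟩ : ∃ D : Finset (Fin (m n)), D = univ.filter fun y : Fin (m n) => (y : ℕ) < n :=
    ⟨_, rfl⟩
  have hmemD : ∀ y : Fin (m n), y ∈ D ↔ (y : ℕ) < n := by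
    intro y
    rw [hD, mem_filter]
    simp
  obtain ⟨p, hp⟩ : ∃ p : Fin (m n) → Fin n,
      p = fun (y : Fin (m n)) => if hy : (y : ℕ) < n then (⟨y, hy⟩ : Fin n) else ⟨0, hn0⟩ :=
    ⟨_, rfl⟩
  have hpD : ∀ y : Fin (m n), (y : ℕ) < n → ((p y : Fin n) : ℕ) = y := by
    intro y hy
    rw [hp]
    simp only [hy, dite_true]
  have hfib : ∀ a : Fin n, (D.filter fun y => p y = a).card = 1 := by
    intro a
    rw [card_eq_one]
    refine ⟨⟨a, lt_of_lt_of_le a.2 hmn⟩, ?_⟩
    ext y
    rw [mem_filter, mem_singleton, hmemD]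
    constructor
    · rintro ⟨h2, h3⟩
      have h4 := hpD y h2
      rw [h3] at h4
      exact Fin.ext h4.symm
    · rintro rfl
      refine ⟨a.2, Fin.ext ?_⟩
      exact hpD _ a.2
  have hcard : D.card = n := by
    have h2 := Finset.card_eq_sum_card_fiberwise (f := p) (s := D) (t := univ)
      (fun _ _ => by simp)
    rw [h2, Finset.sum_congr rfl fun a _ => hfib a]
    simp
  have hDne : D.Nonempty := by
    rw [← card_pos, hcard]
    exact hn0
  obtain ⟨D', p', h2, h3, h4⟩ := cong_cover k hk (f n) (ρ n) D p 1 c E hDne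
    (fun a => by rw [hcard, one_mul]; convert (by rw [hfib a, one_mul] :
      (D.filter fun y => p y = a).card * n ≤ n)) (fun A hA => by
      have h5 := hn A hA
      unfold flex at h5
      have hmin' : ((min n (m n) : ℕ) : ℝ) = n := by rw [hmin]
      rw [div_lt_iff₀ (by rw [hmin']; exact hnr), hmin'] at h5
      have h6 : (D.filter fun y => ρ n A y ∉ D ∨ p (ρ n A y) ≠ f n A (p y)).card ≤
          (univ.filter fun x : Fin (min n (m n)) =>
            (f n A ⟨x, lt_of_lt_of_le x.2 (min_le_left n (m n))⟩ : ℕ) ≠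
            ρ n A ⟨x, lt_of_lt_of_le x.2 (min_le_right n (m n))⟩).card := by
        apply Finset.card_le_card_of_injOn
          (fun (y : Fin (m n)) => if hy : (y : ℕ) < n then
            (⟨(y : ℕ), by rw [hmin]; exact hy⟩ : Fin (min n (m n)))
            else ⟨0, by rw [hmin]; exact hn0⟩)
        · intro y hy
          rw [mem_coe, mem_filter, hmemD] at hy
          obtain ⟨hy1, hy2⟩ := hy
          rw [mem_coe, mem_filter]
          refine ⟨mem_univ _, ?_⟩
          simp only [hy1, dite_true]
          intro h7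
          have h8 : (⟨(y : ℕ), hy1⟩ : Fin n) = p y := Fin.ext (hpD y hy1).symm
          have h9 : (ρ n A y : ℕ) < n := by
            have h10 : (ρ n A y : ℕ) = f n A ⟨y, hy1⟩ := h7.symm
            rw [h10]
            exact (f n A ⟨y, hy1⟩).2
          rcases hy2 with h10 | h10
          · exact h10 ((hmemD _).2 h9)
          · apply h10
            apply Fin.ext
            rw [hpD _ h9, ← h8]
            exact h7.symm
        · intro y hy y' hy' hyy
          rw [mem_coe, mem_filter, hmemD] at hy hy'
          simp only [hy.1, hy'.1, dite_true, Fin.mk.injEq] at hyy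
          exact Fin.ext hyy
      have h7 : ((D.filter fun y => ρ n A y ∉ D ∨ p (ρ n A y) ≠ f n A (p y)).card : ℝ) ≤
          c * n := by
        refine le_trans (Nat.cast_le.2 h6) ?_
        have h8 : (0 : ℝ) ≤ |(n : ℝ) - m n| := abs_nonneg _
        linarith
      rw [hcard]
      convert h7) (Classical.decEq _)
  refine ⟨(m n).factorial, m n, D', p', (m n).factorial_pos, h2, ?_, ?_⟩
  · intro a
    have h5 := even_of_le D' p' (fun a => by convert h3 a) a
    convert h5
  · intro A hA
    convert h4 A hA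

theorem congCoveredBy_of_congExact {k : ℕ} {f : (n : ℕ) → SL k → Equiv.Perm (Fin n)}
    (h : CongExact f) (c : ℝ) (hc : 0 < c) : CongCoveredBy f 1 c := by
  intro E
  refine (h E c hc).frequently.mono ?_
  rintro n ⟨M, t, D, p, h1, h2, h3, h4⟩
  exact ⟨M, t, D, p, h1, h2, fun a => by rw [h3 a, one_mul], h4⟩

theorem coveredBy_of_congExact {k : ℕ} {f : (n : ℕ) → SL k → Equiv.Perm (Fin n)}
    (h : CongExact f) (c : ℝ) (hc : 0 < c) : CoveredBy f 1 c :=
  coveredBy_of_cong k f 1 c (congCoveredBy_of_congExact h c hc)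

end Pool.Agent.IRS
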