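import Pool.Agent.IRS.HalfFinal
import Pool.Agent.IRS.HalfStrong

/-!
Flexible stability of `SL_k(ℤ)`, `k ≥ 3`: it is enough that every sofic approximation of
`PSL_k(ℤ)` is covered, with a bounded density, by finite `SL_k(ℤ)`-sets, up to a proportion of
errors less than one half; and then every almost-homomorphism of `SL_k(ℤ)` is covered exactly, with
every precision, by unions of copies of one of the groups `SL_k(ℤ/M)`.
-/

set_option autoImplicit false
open Filter Topology Finset

namespace Pool.Agent.IRS

open Pool.Agent.TAU (SL)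
open Pool.Agent.FS84 (AlmostHom PartlyModelled FlexStable HasNear)

theorem flexStable_half_tfae2 (k : ℕ) (hk : 3 ≤ k) :
    [FlexStable (Matrix.SpecialLinearGroup (Fin k) ℤ),
      ∀ f : (n : ℕ) → Matrix.ProjectiveSpecialLinearGroup (Fin k) ℤ → Equiv.Perm (Fin n),
        SoficApprox f → ∃ (K : ℕ) (c : ℝ), c < 1 / 2 ∧ CoveredBy (liftSL f) K c,
      ∀ f : (n : ℕ) → Matrix.SpecialLinearGroup (Fin k) ℤ → Equiv.Perm (Fin n),
        AlmostHom f → CongExact f].TFAE := by
  tfae_have 1 → 3 := by
    intro h f hf
    exact congExact_of_flexStable k hk h f hf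
  tfae_have 3 → 2 := by
    intro h f hf
    have hf' : AlmostHom (liftSL f) := by
      intro A B
      unfold liftSL
      simp only [map_mul]
      exact hf.1 _ _
    exact ⟨1, 1 / 4, by norm_num, coveredBy_of_congExact (h _ hf') (1 / 4) (by norm_num)⟩
  tfae_have 2 → 1 := flexStable_of_half_lift k hk
  tfae_finish

end Pool.Agent.IRS
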