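import Pool.Agent.IRS.PrecEn

/-!
Threshold sets of the averages of the translates of a set which is invariant up to an error of less
than one half.
-/

set_option autoImplicit false
open Finset

namespace Pool.Agent.IRS

section

variable {G X : Type} [Fintype X] [DecidableEq X]

/-- `m` copies of a list -/
def repL (m : ℕ) (L : List G) : List G :=
  match m with
  | 0 => []
  | m + 1 => L ++ repL m L

theorem repL_length (m : ℕ) (L : List G) : (repL m L).length = m * L.length := by
  induction m with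
  | zero => simp [repL]
  | succ m ih => rw [repL, List.length_append, ih]; ring

theorem mem_repL (m : ℕ) (L : List G) (g : G) (h : g ∈ repL m L) : g ∈ L := by
  induction m with
  | zero => simp [repL] at h
  | succ m ih =>
    rw [repL, List.mem_append] at h
    rcases h with h | h
    · exact h
    · exact ih h

theorem psiL_repL (φ : G → Equiv.Perm X) (S : Finset X) (m : ℕ) (L : List G) (x : X) :
    psiL φ S (repL m L) x = m * psiL φ S L x := by
  induction m with
  | zero => simp [repL, psiL]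
  | succ m ih =>
    have h : psiL φ S (repL (m + 1) L) x = psiL φ S L x + psiL φ S (repL m L) x := by
      rw [repL]
      unfold psiL
      rw [List.filter_append, List.length_append]
    rw [h, ih]
    ring

/-- the level sets above `b` -/
theorem level_count_half (φ : G → Equiv.Perm X) (S : Finset X) (L : List G) (b q : ℕ) (g : G) :
    ∑ j ∈ range q, (((univ.filter fun x => b + 1 + j ≤ psiL φ S L x).filter fun x =>
      φ g x ∉ (univ.filter fun x => b + 1 + j ≤ psiL φ S L x)).card : ℝ) ≤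
      ∑ x ∈ univ.filter (fun x => b < psiL φ S L x),
        |(psiL φ S L (φ g x) : ℝ) - psiL φ S L x| := by
  have h1 : ∀ j ∈ range q, (((univ.filter fun x => b + 1 + j ≤ psiL φ S L x).filter fun x =>
      φ g x ∉ (univ.filter fun x => b + 1 + j ≤ psiL φ S L x)).card : ℝ) =
      ∑ x ∈ univ.filter (fun x => b < psiL φ S L x),
        if b + 1 + j ≤ psiL φ S L x ∧ psiL φ S L (φ g x) < b + 1 + j then (1 : ℝ) else 0 := by
    intro j _
    rw [Finset.sum_boole]
    congr 2
    ext x
    simp only [mem_filter, mem_univ, true_and, not_le]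
    constructor
    · rintro ⟨a, c⟩
      exact ⟨by omega, a, c⟩
    · rintro ⟨_, a, c⟩
      exact ⟨a, c⟩
  rw [Finset.sum_congr rfl h1, Finset.sum_comm]
  apply Finset.sum_le_sum
  intro x _
  rw [Finset.sum_boole]
  by_cases hle : psiL φ S L x ≤ psiL φ S L (φ g x)
  · have : ((range q).filter fun j => b + 1 + j ≤ psiL φ S L x ∧
        psiL φ S L (φ g x) < b + 1 + j) = ∅ := by
      apply Finset.filter_eq_empty_iff.2
      intro j _ hj
      omega
    rw [this, card_empty, Nat.cast_zero]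
    exact abs_nonneg _
  · have hlt := not_le.1 hle
    have h2 : ((range q).filter fun j => b + 1 + j ≤ psiL φ S L x ∧
        psiL φ S L (φ g x) < b + 1 + j).card ≤ psiL φ S L x - psiL φ S L (φ g x) := by
      rw [← Nat.card_Ioc]
      apply Finset.card_le_card_of_injOn (fun j => b + 1 + j)
      · intro j hj
        have hj' := (mem_filter.1 (mem_coe.1 hj)).2
        exact mem_coe.2 (Finset.mem_Ioc.2 ⟨hj'.2, hj'.1⟩)
      · intro a _ c _ hac
        have : b + 1 + a = b + 1 + c := hac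
        omega
    have h3 : (((range q).filter fun j => b + 1 + j ≤ psiL φ S L x ∧
        psiL φ S L (φ g x) < b + 1 + j).card : ℝ) ≤
        (psiL φ S L x : ℝ) - psiL φ S L (φ g x) := by
      rw [← Nat.cast_sub hlt.le]
      exact Nat.cast_le.2 h2
    refine h3.trans ?_
    rw [abs_sub_comm]
    exact le_abs_self _

theorem threshold_half (φ : G → Equiv.Perm X) (S : Finset X)
    (E : Finset G) (L : List G) (q m : ℕ) (hl : L.length = 4 * (q * m)) (hq0 : 0 < q)
    (hm0 : 0 < m) (η : ℝ) (hη : 0 ≤ η)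
    (h0 : ∀ g ∈ L, 2 * m * ((S.filter fun x => φ g x ∉ S).card : ℝ) ≤ (m - 1) * S.card)
    (hE : ∀ g ∈ E, ∑ x, ((psiL φ S L (φ g x) : ℝ) - psiL φ S L x) ^ 2 ≤
      η * (L.length : ℝ) ^ 2 * S.card) :
    ∃ S' : Finset X, (∀ x ∈ S', L.length < 2 * psiL φ S L x) ∧
      (S.card : ℝ) ≤ 2 * m * S'.card ∧
      ∀ g ∈ E, ((S'.filter fun x => φ g x ∉ S').card : ℝ) ≤
        12 * m * E.card * Real.sqrt η * S.card := by
  classical
  have hqr : (0 : ℝ) < q := by exact_mod_cast hq0
  have hmr : (0 : ℝ) < m := by exact_mod_cast hm0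
  have hlr : (L.length : ℝ) = 4 * (q * m) := by rw [hl]; push_cast; ring
  have hqm : q ≤ q * m := Nat.le_mul_of_pos_right q hm0
  have hqm0 : 0 < q * m := Nat.mul_pos hq0 hm0
  have hS0 : (0 : ℝ) ≤ S.card := Nat.cast_nonneg _
  -- the mass
  have hmass : ∑ x, (psiL φ S L x : ℝ) ≤ L.length * S.card :=
    sum_psi φ S L S.card univ fun g _ => by rw [card_symm]
  have hin : ∑ x ∈ S, ((L.length : ℝ) - psiL φ S L x) ≤
      L.length * ((m - 1) * S.card / (2 * m)) :=
    sum_copsi φ S L _ _ fun g hg => (Nat.cast_le.2 (card_stay (φ g) S)).trans (by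
      rw [le_div_iff₀ (by positivity)]
      have := h0 g hg
      linarith)
  set P := univ.filter fun x => 2 * (q * m) < psiL φ S L x with hP
  have hPc : (P.card : ℝ) ≤ 2 * S.card := by
    have e1 : (P.card : ℝ) * (2 * (q * m)) ≤ ∑ x ∈ P, (psiL φ S L x : ℝ) := by
      rw [← nsmul_eq_mul]
      apply Finset.card_nsmul_le_sum
      intro x hx
      have := (mem_filter.1 hx).2
      have h2 : 2 * (q * m) ≤ psiL φ S L x := by omega
      exact_mod_cast h2
    have e2 : ∑ x ∈ P, (psiL φ S L x : ℝ) ≤ ∑ x, (psiL φ S L x : ℝ) :=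
      Finset.sum_le_sum_of_subset_of_nonneg (subset_univ _) fun _ _ _ => Nat.cast_nonneg _
    rw [hlr] at hmass
    have e3 : (P.card : ℝ) * (2 * (q * m)) ≤ (2 * S.card) * (2 * (q * m)) := by
      linarith
    exact le_of_mul_le_mul_right e3 (by positivity)
  set r := Real.sqrt η with hr
  have hr0 : 0 ≤ r := Real.sqrt_nonneg _
  have hrr : r ^ 2 = η := Real.sq_sqrt hη
  have hB : ∀ g ∈ E, ∑ x ∈ P, |(psiL φ S L (φ g x) : ℝ) - psiL φ S L x| ≤
      6 * (q * m) * r * S.card := by
    intro g hg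
    have e1 := sq_sum_le_card_mul_sum_sq (s := P)
      (f := fun x => |(psiL φ S L (φ g x) : ℝ) - psiL φ S L x|)
    have e2 : ∑ x ∈ P, |(psiL φ S L (φ g x) : ℝ) - psiL φ S L x| ^ 2 ≤
        η * (L.length : ℝ) ^ 2 * S.card := by
      refine le_trans ?_ (hE g hg)
      simp only [sq_abs]
      exact Finset.sum_le_sum_of_subset_of_nonneg (subset_univ _) fun _ _ _ => sq_nonneg _
    have e3 : 0 ≤ ∑ x ∈ P, |(psiL φ S L (φ g x) : ℝ) - psiL φ S L x| ^ 2 :=
      Finset.sum_nonneg fun _ _ => sq_nonneg _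
    have e4 : (∑ x ∈ P, |(psiL φ S L (φ g x) : ℝ) - psiL φ S L x|) ^ 2 ≤
        (6 * (q * m) * r * S.card) ^ 2 := by
      refine e1.trans ?_
      calc (P.card : ℝ) * ∑ x ∈ P, |(psiL φ S L (φ g x) : ℝ) - psiL φ S L x| ^ 2
          ≤ (2 * S.card) * (η * (L.length : ℝ) ^ 2 * S.card) :=
            mul_le_mul hPc e2 e3 (by positivity)
        _ = 32 * ((q : ℝ) * m) ^ 2 * r ^ 2 * (S.card : ℝ) ^ 2 := by
            rw [hlr, hrr]
            ring
        _ ≤ 36 * ((q : ℝ) * m) ^ 2 * r ^ 2 * (S.card : ℝ) ^ 2 := by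
            have : (0 : ℝ) ≤ ((q : ℝ) * m) ^ 2 * r ^ 2 * (S.card : ℝ) ^ 2 := by positivity
            nlinarith
        _ = (6 * (q * m) * r * S.card) ^ 2 := by ring
    exact (pow_le_pow_iff_left₀ (Finset.sum_nonneg fun _ _ => abs_nonneg _) (by positivity)
      two_ne_zero).1 e4
  -- pigeonhole
  have hex : ∃ j ∈ range q, ∑ g ∈ E, (((univ.filter fun x =>
      2 * (q * m) + 1 + j ≤ psiL φ S L x).filter fun x =>
      φ g x ∉ (univ.filter fun x => 2 * (q * m) + 1 + j ≤ psiL φ S L x)).card : ℝ) ≤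
      12 * m * E.card * r * S.card := by
    by_contra hcon
    push Not at hcon
    have e1 : ∑ j ∈ range q, 12 * m * E.card * r * S.card < ∑ j ∈ range q, ∑ g ∈ E,
        (((univ.filter fun x => 2 * (q * m) + 1 + j ≤ psiL φ S L x).filter fun x =>
        φ g x ∉ (univ.filter fun x => 2 * (q * m) + 1 + j ≤ psiL φ S L x)).card : ℝ) :=
      Finset.sum_lt_sum_of_nonempty ⟨0, mem_range.2 hq0⟩ hcon
    rw [Finset.sum_comm] at e1
    have e2 : ∑ g ∈ E, ∑ j ∈ range q, (((univ.filter fun x =>
        2 * (q * m) + 1 + j ≤ psiL φ S L x).filter fun x =>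
        φ g x ∉ (univ.filter fun x => 2 * (q * m) + 1 + j ≤ psiL φ S L x)).card : ℝ) ≤
        ∑ g ∈ E, 6 * (q * m) * r * S.card :=
      Finset.sum_le_sum fun g hg => (level_count_half φ S L (2 * (q * m)) q g).trans (hB g hg)
    rw [Finset.sum_const, card_range, nsmul_eq_mul] at e1
    rw [Finset.sum_const, nsmul_eq_mul] at e2
    have e3 : (0 : ℝ) ≤ (q : ℝ) * m * E.card * r * S.card := by positivity
    nlinarith
  obtain ⟨j, hj, hjE⟩ := hex
  have hjq : j < q := mem_range.1 hj
  refine ⟨univ.filter fun x => 2 * (q * m) + 1 + j ≤ psiL φ S L x, ?_, ?_, ?_⟩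
  · intro x hx
    have := (mem_filter.1 hx).2
    omega
  · set S' := univ.filter fun x => 2 * (q * m) + 1 + j ≤ psiL φ S L x with hS'
    have f1 : ((S \ S').card : ℝ) * (2 * (q * m) - q) ≤
        L.length * ((m - 1) * S.card / (2 * m)) := by
      refine le_trans ?_ hin
      rw [← nsmul_eq_mul]
      refine le_trans (Finset.card_nsmul_le_sum (S \ S')
        (fun x => (L.length : ℝ) - psiL φ S L x) (2 * (q * m) - q) ?_) ?_
      · intro x hx
        have h1 := (Finset.mem_sdiff.1 hx).2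
        have h2 : psiL φ S L x < 2 * (q * m) + 1 + j := by
          by_contra hc
          exact h1 (mem_filter.2 ⟨mem_univ _, not_lt.1 hc⟩)
        have h3 : psiL φ S L x + 2 * (q * m) ≤ L.length + q := by omega
        have h4 : ((psiL φ S L x + 2 * (q * m) : ℕ) : ℝ) ≤ ((L.length + q : ℕ) : ℝ) :=
          Nat.cast_le.2 h3
        push_cast at h4
        linarith
      · apply Finset.sum_le_sum_of_subset_of_nonneg Finset.sdiff_subset
        intro x _ _
        have : (psiL φ S L x : ℝ) ≤ L.length := Nat.cast_le.2 (psiL_le φ S L x)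
        linarith
    have f2 : (L.length : ℝ) * ((m - 1) * S.card / (2 * m)) = q * ((2 * m - 2) * S.card) := by
      rw [hlr]
      field_simp
      ring
    have f3 : ((S \ S').card : ℝ) * (2 * m - 1) ≤ (2 * m - 2) * S.card := by
      have h1 : (q : ℝ) * (((S \ S').card : ℝ) * (2 * m - 1)) ≤ q * ((2 * m - 2) * S.card) := by
        rw [← f2]
        refine le_trans (le_of_eq ?_) f1
        ring
      exact le_of_mul_le_mul_left h1 hqr
    have f4 : (S.card : ℝ) ≤ S'.card + (S \ S').card := by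
      have h2 : S ⊆ S' ∪ (S \ S') := by
        intro x hx
        by_cases h3 : x ∈ S'
        · exact mem_union_left _ h3
        · exact mem_union_right _ (Finset.mem_sdiff.2 ⟨hx, h3⟩)
      exact_mod_cast (card_le_card h2).trans (card_union_le _ _)
    have hm1 : (1 : ℝ) ≤ m := by exact_mod_cast hm0
    have f5 : (S.card : ℝ) * (2 * m - 1) ≤ (S'.card + (S \ S').card) * (2 * m - 1) :=
      mul_le_mul_of_nonneg_right f4 (by linarith)
    have f6 : (0 : ℝ) ≤ S'.card := Nat.cast_nonneg _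
    nlinarith
  · intro g hg
    refine le_trans ?_ hjE
    exact Finset.single_le_sum (f := fun g => (((univ.filter fun x =>
      2 * (q * m) + 1 + j ≤ psiL φ S L x).filter fun x =>
      φ g x ∉ (univ.filter fun x => 2 * (q * m) + 1 + j ≤ psiL φ S L x)).card : ℝ))
      (fun _ _ => Nat.cast_nonneg _) hg

end

theorem near_half {G : Type} [Group G] (E : Finset G) (η : ℝ) (hη : 0 < η) (m : ℕ)
    (hm : 0 < m) :
    ∃ (ET : Finset G) (τ : ℝ), 0 < τ ∧ ∀ (X : Type) [Fintype X] [DecidableEq X]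
      (φ : G → Equiv.Perm X) (S : Finset X),
      (∀ g ∈ ET, ∀ h ∈ ET,
        ((S.filter fun x => φ g (φ h x) ≠ φ (g * h) x).card : ℝ) ≤ τ * S.card) →
      (∀ g ∈ ET, 2 * m * ((S.filter fun x => φ g x ∉ S).card : ℝ) ≤ (m - 1) * S.card) →
      ∃ (L : List G) (S' : Finset X), (∀ x ∈ S', L.length < 2 * psiL φ S L x) ∧
        (S.card : ℝ) ≤ 2 * m * S'.card ∧
        ∀ g ∈ E, ((S'.filter fun x => φ g x ∉ S').card : ℝ) ≤ η * S.card := by
  have hmr : (0 : ℝ) < m := by exact_mod_cast hm
  set e : ℝ := (η / (12 * m * (E.card + 1))) ^ 2 with he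
  have he0 : 0 < e := by positivity
  obtain ⟨ET, τ, hτ, H⟩ := energy E e he0
  refine ⟨ET, τ, hτ, ?_⟩
  intro X _ _ φ S hmul hinv
  obtain ⟨L, hL1, ⟨q, hq⟩, hL3, hL4⟩ := H X φ S hmul
  have hq0 : 0 < q := by omega
  obtain ⟨S', h1, h2, h3⟩ := threshold_half φ S E (repL m L) q m
    (by rw [repL_length, hq]; ring) hq0 hm e he0.le
    (fun g hg => hinv g (hL1 g (mem_repL m L g hg))) (by
      intro g hg
      have h4 := hL4 g hg
      have h5 : ∑ x, ((psiL φ S (repL m L) (φ g x) : ℝ) - psiL φ S (repL m L) x) ^ 2 =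
          (m : ℝ) ^ 2 * ∑ x, ((psiL φ S L (φ g x) : ℝ) - psiL φ S L x) ^ 2 := by
        rw [mul_sum]
        refine sum_congr rfl fun x _ => ?_
        rw [psiL_repL, psiL_repL]
        push_cast
        ring
      rw [h5, repL_length]
      push_cast
      calc (m : ℝ) ^ 2 * ∑ x, ((psiL φ S L (φ g x) : ℝ) - psiL φ S L x) ^ 2
          ≤ (m : ℝ) ^ 2 * (e * (L.length : ℝ) ^ 2 * S.card) :=
            mul_le_mul_of_nonneg_left h4 (by positivity)
        _ = e * ((m : ℝ) * L.length) ^ 2 * S.card := by ring)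
  refine ⟨repL m L, S', h1, h2, ?_⟩
  intro g hg
  refine (h3 g hg).trans ?_
  have hsq : Real.sqrt e = η / (12 * m * (E.card + 1)) := by
    rw [he]
    exact Real.sqrt_sq (by positivity)
  rw [hsq]
  apply mul_le_mul_of_nonneg_right _ (Nat.cast_nonneg _)
  rw [mul_div_assoc']
  rw [div_le_iff₀ (by positivity)]
  have : (0 : ℝ) ≤ E.card := Nat.cast_nonneg _
  have h7 : (0 : ℝ) ≤ η * m := by positivity
  nlinarith

end Pool.Agent.IRS
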