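import Pool.Agent.IRS.PrecEn

/-!
Threshold sets, above one half, of the averages of the translates of a set.
-/

set_option autoImplicit false
open Finset

namespace Pool.Agent.IRS

section

variable {G X : Type} [Fintype X] [DecidableEq X]

/-- the level sets -/
theorem level_countB (σ : Equiv.Perm X) (Ψ : X → ℕ) (B q : ℕ) :
    ∑ j ∈ range q, (((univ.filter fun x => B + 1 + j ≤ Ψ x).filter fun x =>
      σ x ∉ (univ.filter fun x => B + 1 + j ≤ Ψ x)).card : ℝ) ≤
      ∑ x ∈ univ.filter (fun x => B < Ψ x), |(Ψ (σ x) : ℝ) - Ψ x| := by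
  have h1 : ∀ j ∈ range q, (((univ.filter fun x => B + 1 + j ≤ Ψ x).filter fun x =>
      σ x ∉ (univ.filter fun x => B + 1 + j ≤ Ψ x)).card : ℝ) =
      ∑ x ∈ univ.filter (fun x => B < Ψ x),
        if B + 1 + j ≤ Ψ x ∧ Ψ (σ x) < B + 1 + j then (1 : ℝ) else 0 := by
    intro j _
    rw [Finset.sum_boole]
    congr 2
    ext x
    simp only [mem_filter, mem_univ, true_and, not_le]
    constructor
    · rintro ⟨a, b⟩
      exact ⟨by omega, a, b⟩
    · rintro ⟨_, a, b⟩
      exact ⟨a, b⟩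
  rw [Finset.sum_congr rfl h1, Finset.sum_comm]
  apply Finset.sum_le_sum
  intro x _
  rw [Finset.sum_boole]
  by_cases hle : Ψ x ≤ Ψ (σ x)
  · have : ((range q).filter fun j => B + 1 + j ≤ Ψ x ∧ Ψ (σ x) < B + 1 + j) = ∅ := by
      apply Finset.filter_eq_empty_iff.2
      intro j _ hj
      omega
    rw [this, card_empty, Nat.cast_zero]
    exact abs_nonneg _
  · have hlt := not_le.1 hle
    have h2 : ((range q).filter fun j => B + 1 + j ≤ Ψ x ∧ Ψ (σ x) < B + 1 + j).card ≤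
        Ψ x - Ψ (σ x) := by
      rw [← Nat.card_Ioc]
      apply Finset.card_le_card_of_injOn (fun j => B + 1 + j)
      · intro j hj
        have hj' := (mem_filter.1 (mem_coe.1 hj)).2
        exact mem_coe.2 (Finset.mem_Ioc.2 ⟨hj'.2, hj'.1⟩)
      · intro a _ b _ hab
        have : B + 1 + a = B + 1 + b := hab
        omega
    have h3 : (((range q).filter fun j => B + 1 + j ≤ Ψ x ∧ Ψ (σ x) < B + 1 + j).card : ℝ) ≤
        (Ψ x : ℝ) - Ψ (σ x) := by
      rw [← Nat.cast_sub hlt.le]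
      exact Nat.cast_le.2 h2
    refine h3.trans ?_
    rw [abs_sub_comm]
    exact le_abs_self _

theorem threshold_halfB (φ : G → Equiv.Perm X) (S : Finset X)
    (E : Finset G) (L : List G) (h4 : 4 ∣ L.length) (hL : 0 < L.length) (c η : ℝ) (hη : 0 ≤ η)
    (b : ℕ) (hb : 2 ≤ b) (hc : 2 * (b : ℝ) * c ≤ b - 2)
    (h0 : ∀ g ∈ L, ((S.filter fun x => φ g x ∉ S).card : ℝ) ≤ c * S.card)
    (hE : ∀ g ∈ E, ∑ x, ((psiL φ S L (φ g x) : ℝ) - psiL φ S L x) ^ 2 ≤
      η * (L.length : ℝ) ^ 2 * S.card) :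
    ∃ S' : Finset X, (∀ x ∈ S', L.length < 2 * psiL φ S L x) ∧
      (S.card : ℝ) ≤ b * S'.card ∧
      ∀ g ∈ E, ((S'.filter fun x => φ g x ∉ S').card : ℝ) ≤
        4 * b * E.card * Real.sqrt η * S.card := by
  classical
  obtain ⟨m, hm⟩ : ∃ m, L.length = 2 * m := by
    obtain ⟨q, hq⟩ := h4
    exact ⟨2 * q, by omega⟩
  have hm0 : 0 < m := by omega
  have hmr : (0 : ℝ) < m := by exact_mod_cast hm0
  have hbr : (2 : ℝ) ≤ b := by exact_mod_cast hb
  have hlr : (L.length : ℝ) = 2 * m := by rw [hm]; push_cast; ring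
  have hS0 : (0 : ℝ) ≤ S.card := Nat.cast_nonneg _
  -- the mass
  have hmass : ∑ x, (psiL φ S L x : ℝ) ≤ L.length * S.card :=
    sum_psi φ S L S.card univ fun g _ => by rw [card_symm]
  have hin : ∑ x ∈ S, ((L.length : ℝ) - psiL φ S L x) ≤ L.length * (c * S.card) :=
    sum_copsi φ S L _ _ fun g hg => (Nat.cast_le.2 (card_stay (φ g) S)).trans (h0 g hg)
  obtain ⟨Ψ, hΨ⟩ : ∃ Ψ : X → ℕ, ∀ x, Ψ x = b * psiL φ S L x := ⟨_, fun _ => rfl⟩
  set P := univ.filter fun x => b * m < Ψ x with hP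
  have hPc : (P.card : ℝ) ≤ 2 * S.card := by
    have e1 : (P.card : ℝ) * m ≤ ∑ x ∈ P, (psiL φ S L x : ℝ) := by
      rw [← nsmul_eq_mul]
      apply Finset.card_nsmul_le_sum
      intro x hx
      have h1 := (mem_filter.1 hx).2
      rw [hΨ] at h1
      have h2 : m ≤ psiL φ S L x := (Nat.lt_of_mul_lt_mul_left h1).le
      exact_mod_cast h2
    have e2 : ∑ x ∈ P, (psiL φ S L x : ℝ) ≤ ∑ x, (psiL φ S L x : ℝ) :=
      Finset.sum_le_sum_of_subset_of_nonneg (subset_univ _) fun _ _ _ => Nat.cast_nonneg _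
    rw [hlr] at hmass
    have e3 : (P.card : ℝ) * m ≤ (2 * S.card) * m := by
      linarith
    exact le_of_mul_le_mul_right e3 hmr
  set r := Real.sqrt η with hr
  have hr0 : 0 ≤ r := Real.sqrt_nonneg _
  have hrr : r ^ 2 = η := Real.sq_sqrt hη
  have hB : ∀ g ∈ E, ∑ x ∈ P, |(Ψ (φ g x) : ℝ) - Ψ x| ≤ 4 * b * m * r * S.card := by
    intro g hg
    have e1 := sq_sum_le_card_mul_sum_sq (s := P)
      (f := fun x => |(psiL φ S L (φ g x) : ℝ) - psiL φ S L x|)
    have e2 : ∑ x ∈ P, |(psiL φ S L (φ g x) : ℝ) - psiL φ S L x| ^ 2 ≤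
        η * (L.length : ℝ) ^ 2 * S.card := by
      refine le_trans ?_ (hE g hg)
      simp only [sq_abs]
      exact Finset.sum_le_sum_of_subset_of_nonneg (subset_univ _) fun _ _ _ => sq_nonneg _
    have e3 : 0 ≤ ∑ x ∈ P, |(psiL φ S L (φ g x) : ℝ) - psiL φ S L x| ^ 2 :=
      Finset.sum_nonneg fun _ _ => sq_nonneg _
    have e4 : (∑ x ∈ P, |(psiL φ S L (φ g x) : ℝ) - psiL φ S L x|) ^ 2 ≤
        (4 * m * r * S.card) ^ 2 := by
      refine e1.trans ?_
      calc (P.card : ℝ) * ∑ x ∈ P, |(psiL φ S L (φ g x) : ℝ) - psiL φ S L x| ^ 2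
          ≤ (2 * S.card) * (η * (L.length : ℝ) ^ 2 * S.card) :=
            mul_le_mul hPc e2 e3 (by positivity)
        _ = 8 * (m : ℝ) ^ 2 * r ^ 2 * (S.card : ℝ) ^ 2 := by
            rw [hlr, hrr]
            ring
        _ ≤ 16 * (m : ℝ) ^ 2 * r ^ 2 * (S.card : ℝ) ^ 2 := by
            have : (0 : ℝ) ≤ (m : ℝ) ^ 2 * r ^ 2 * (S.card : ℝ) ^ 2 := by positivity
            nlinarith
        _ = (4 * m * r * S.card) ^ 2 := by ring
    have e5 := (pow_le_pow_iff_left₀ (Finset.sum_nonneg fun _ _ => abs_nonneg _) (by positivity)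
      two_ne_zero).1 e4
    have e6 : ∑ x ∈ P, |(Ψ (φ g x) : ℝ) - Ψ x| =
        b * ∑ x ∈ P, |(psiL φ S L (φ g x) : ℝ) - psiL φ S L x| := by
      rw [Finset.mul_sum]
      refine Finset.sum_congr rfl fun x _ => ?_
      rw [hΨ, hΨ]
      push_cast
      rw [← mul_sub, abs_mul, abs_of_nonneg (by positivity : (0 : ℝ) ≤ b)]
    rw [e6]
    calc (b : ℝ) * ∑ x ∈ P, |(psiL φ S L (φ g x) : ℝ) - psiL φ S L x| ≤
        b * (4 * m * r * S.card) := mul_le_mul_of_nonneg_left e5 (by positivity)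
      _ = 4 * b * m * r * S.card := by ring
  -- pigeonhole
  have hex : ∃ j ∈ range m, ∑ g ∈ E, (((univ.filter fun x =>
      b * m + 1 + j ≤ Ψ x).filter fun x =>
      φ g x ∉ (univ.filter fun x => b * m + 1 + j ≤ Ψ x)).card : ℝ) ≤
      4 * b * E.card * r * S.card := by
    by_contra hcon
    push Not at hcon
    have e1 : ∑ j ∈ range m, 4 * b * E.card * r * S.card < ∑ j ∈ range m, ∑ g ∈ E,
        (((univ.filter fun x => b * m + 1 + j ≤ Ψ x).filter fun x =>
        φ g x ∉ (univ.filter fun x => b * m + 1 + j ≤ Ψ x)).card : ℝ) :=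
      Finset.sum_lt_sum_of_nonempty ⟨0, mem_range.2 hm0⟩ hcon
    rw [Finset.sum_comm] at e1
    have e2 : ∑ g ∈ E, ∑ j ∈ range m, (((univ.filter fun x =>
        b * m + 1 + j ≤ Ψ x).filter fun x =>
        φ g x ∉ (univ.filter fun x => b * m + 1 + j ≤ Ψ x)).card : ℝ) ≤
        ∑ g ∈ E, 4 * b * m * r * S.card :=
      Finset.sum_le_sum fun g hg => (level_countB (φ g) Ψ (b * m) m).trans (hB g hg)
    rw [Finset.sum_const, card_range, nsmul_eq_mul] at e1
    rw [Finset.sum_const, nsmul_eq_mul] at e2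
    have e3 : (E.card : ℝ) * (4 * b * m * r * S.card) = m * (4 * b * E.card * r * S.card) := by
      ring
    linarith
  obtain ⟨j, hj, hjE⟩ := hex
  have hjm : j < m := mem_range.1 hj
  refine ⟨univ.filter fun x => b * m + 1 + j ≤ Ψ x, ?_, ?_, ?_⟩
  · intro x hx
    have h1 := (mem_filter.1 hx).2
    rw [hΨ] at h1
    have h2 : m < psiL φ S L x := by
      have h3 : b * m < b * psiL φ S L x := by omega
      exact Nat.lt_of_mul_lt_mul_left h3
    omega
  · set S' := univ.filter fun x => b * m + 1 + j ≤ Ψ x with hS'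
    have f1 : ((S \ S').card : ℝ) * ((b - 1) * m) ≤ b * (L.length * (c * S.card)) := by
      refine le_trans ?_ (mul_le_mul_of_nonneg_left hin (by positivity))
      rw [← nsmul_eq_mul, Finset.mul_sum]
      refine le_trans (Finset.card_nsmul_le_sum (S \ S')
        (fun x => (b : ℝ) * ((L.length : ℝ) - psiL φ S L x)) ((b - 1) * m) ?_) ?_
      · intro x hx
        have h1 := (Finset.mem_sdiff.1 hx).2
        have h2 : Ψ x < b * m + 1 + j := by
          by_contra hc
          exact h1 (mem_filter.2 ⟨mem_univ _, not_lt.1 hc⟩)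
        have h3 : Ψ x ≤ b * m + m := by omega
        rw [hΨ] at h3
        have h4 : ((b * psiL φ S L x : ℕ) : ℝ) ≤ ((b * m + m : ℕ) : ℝ) := Nat.cast_le.2 h3
        push_cast at h4
        rw [hlr]
        linarith
      · apply Finset.sum_le_sum_of_subset_of_nonneg Finset.sdiff_subset
        intro x _ _
        have : (psiL φ S L x : ℝ) ≤ L.length := Nat.cast_le.2 (psiL_le φ S L x)
        exact mul_nonneg (by positivity) (by linarith)
    rw [hlr] at f1
    have h2 : S.card ≤ S'.card + (S \ S').card := by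
      have h3 : S ⊆ S' ∪ (S \ S') := by
        intro x hx
        by_cases h3 : x ∈ S'
        · exact mem_union_left _ h3
        · exact mem_union_right _ (Finset.mem_sdiff.2 ⟨hx, h3⟩)
      exact (card_le_card h3).trans (card_union_le _ _)
    have h2' : (S.card : ℝ) ≤ S'.card + (S \ S').card := by exact_mod_cast h2
    -- `(b - 1) |S \ S'| ≤ 2 b c |S| ≤ (b - 2) |S|`
    have f2 : ((S \ S').card : ℝ) * (b - 1) ≤ (b - 2) * S.card := by
      have e1 : (((S \ S').card : ℝ) * (b - 1)) * m ≤ ((b - 2) * S.card) * m := by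
        have e2 : (2 * (b : ℝ) * c) * S.card ≤ (b - 2) * S.card :=
          mul_le_mul_of_nonneg_right hc hS0
        have e3 := mul_le_mul_of_nonneg_right e2 hmr.le
        calc (((S \ S').card : ℝ) * (b - 1)) * m = ((S \ S').card : ℝ) * ((b - 1) * m) := by ring
          _ ≤ b * (2 * m * (c * S.card)) := f1
          _ = (2 * (b : ℝ) * c) * S.card * m := by ring
          _ ≤ _ := e3
      exact le_of_mul_le_mul_right e1 hmr
    have e4 : (b - 1 : ℝ) * S.card ≤ (b - 1) * S'.card + (b - 2) * S.card := by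
      have e5 := mul_le_mul_of_nonneg_left h2' (show (0 : ℝ) ≤ b - 1 by linarith)
      linarith
    have hS'0 : (0 : ℝ) ≤ S'.card := Nat.cast_nonneg _
    linarith
  · intro g hg
    refine le_trans ?_ hjE
    exact Finset.single_le_sum (f := fun g => (((univ.filter fun x =>
      b * m + 1 + j ≤ Ψ x).filter fun x =>
      φ g x ∉ (univ.filter fun x => b * m + 1 + j ≤ Ψ x)).card : ℝ))
      (fun _ _ => Nat.cast_nonneg _) hg

end

theorem near_halfB {G : Type} [Group G] (E : Finset G) (η : ℝ) (hη : 0 < η) (b : ℕ) (hb : 2 ≤ b) :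
    ∃ (ET : Finset G) (τ : ℝ), 0 < τ ∧ ∀ (X : Type) [Fintype X] [DecidableEq X]
      (φ : G → Equiv.Perm X) (S : Finset X) (c : ℝ), 2 * (b : ℝ) * c ≤ b - 2 →
      (∀ g ∈ ET, ∀ h ∈ ET,
        ((S.filter fun x => φ g (φ h x) ≠ φ (g * h) x).card : ℝ) ≤ τ * S.card) →
      (∀ g ∈ ET, ((S.filter fun x => φ g x ∉ S).card : ℝ) ≤ c * S.card) →
      ∃ (L : List G) (S' : Finset X), (∀ x ∈ S', L.length < 2 * psiL φ S L x) ∧
        (S.card : ℝ) ≤ b * S'.card ∧
        ∀ g ∈ E, ((S'.filter fun x => φ g x ∉ S').card : ℝ) ≤ η * S.card := by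
  set e : ℝ := (η / (4 * b * (E.card + 1))) ^ 2 with he
  have hbr : (2 : ℝ) ≤ b := by exact_mod_cast hb
  have hb0 : (0 : ℝ) < b := by linarith
  have he0 : 0 < e := by positivity
  obtain ⟨ET, τ, hτ, H⟩ := energy E e he0
  refine ⟨ET, τ, hτ, ?_⟩
  intro X _ _ φ S c hc hmul hinv
  obtain ⟨L, hL1, hL2, hL3, hL4⟩ := H X φ S hmul
  obtain ⟨S', h1, h2, h3⟩ := threshold_halfB φ S E L hL2 hL3 c e he0.le b hb hc
    (fun g hg => hinv g (hL1 g hg)) hL4
  refine ⟨L, S', h1, h2, ?_⟩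
  intro g hg
  refine (h3 g hg).trans ?_
  have hsq : Real.sqrt e = η / (4 * b * (E.card + 1)) := by
    rw [he]
    exact Real.sqrt_sq (by positivity)
  rw [hsq]
  apply mul_le_mul_of_nonneg_right _ (Nat.cast_nonneg _)
  rw [mul_div_assoc']
  rw [div_le_iff₀ (by positivity)]
  have h5 : (0 : ℝ) ≤ η * (4 * b) := by positivity
  nlinarith

end Pool.Agent.IRS
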