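import Pool.Agent.IRS.Defs
import Pool.Agent.TAU.Gen
import Pool.Agent.TAU.Central
import Pool.Agent.TAU.Decomp

/-!
[IRS Normal]: a normal subgroup of `SL_k(ℤ)`, `k ≥ 3`, which contains all `1 + m t e_ij` has
finite index.
-/

set_option autoImplicit false
open Filter Topology Finset

namespace Pool.Agent.IRS

open Pool.Agent.TAU (SL el IsEl ElProd Cong InBlock)

/-- a perfect group whose centre has finite index is finite (Schur) -/
theorem nb_schur {Q : Type} [Group Q] (hZ : (Subgroup.center Q).FiniteIndex)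
    (hp : ∀ (A : Type) [CommGroup A] (f : Q →* A) (x : Q), f x = 1) : Finite Q := by
  have hfin : Finite (Q ⧸ Subgroup.center Q) := inferInstance
  have hc : (commutatorSet Q).Finite := by
    have hsub : commutatorSet Q ⊆ Set.range
        (fun p : (Q ⧸ Subgroup.center Q) × (Q ⧸ Subgroup.center Q) =>
          p.1.out * p.2.out * p.1.out⁻¹ * p.2.out⁻¹) := by
      rintro _ ⟨a, b, rfl⟩
      refine ⟨(QuotientGroup.mk a, QuotientGroup.mk b), ?_⟩
      obtain ⟨z, hz⟩ := QuotientGroup.mk_out_eq_mul (Subgroup.center Q) a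
      obtain ⟨w, hw⟩ := QuotientGroup.mk_out_eq_mul (Subgroup.center Q) b
      rw [commutatorElement_def]
      change (QuotientGroup.mk a : Q ⧸ Subgroup.center Q).out *
        (QuotientGroup.mk b : Q ⧸ Subgroup.center Q).out *
        (QuotientGroup.mk a : Q ⧸ Subgroup.center Q).out⁻¹ *
        (QuotientGroup.mk b : Q ⧸ Subgroup.center Q).out⁻¹ = a * b * a⁻¹ * b⁻¹
      rw [hz, hw]
      have hz' : ∀ x : Q, x * z = z * x := Subgroup.mem_center_iff.1 z.2
      have hw' : ∀ x : Q, x * w = w * x := Subgroup.mem_center_iff.1 w.2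
      rw [mul_inv_rev, mul_inv_rev]
      have e1 : a * (z : Q) * (b * (w : Q)) * ((z : Q)⁻¹ * a⁻¹) * ((w : Q)⁻¹ * b⁻¹) =
          a * b * a⁻¹ * b⁻¹ := by
        have h1 : a * (z : Q) * (b * (w : Q)) = a * b * ((w : Q) * z) := by
          rw [mul_assoc a, ← hz' (b * w)]; group
        have h2 : a * b * ((w : Q) * z) * ((z : Q)⁻¹ * a⁻¹) = a * b * (w : Q) * a⁻¹ := by group
        have h3 : a * b * (w : Q) * a⁻¹ * ((w : Q)⁻¹ * b⁻¹) = a * b * ((w : Q) * (a⁻¹ * (w : Q)⁻¹)) * b⁻¹ := by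
          group
        have h4 : (w : Q) * (a⁻¹ * (w : Q)⁻¹) = a⁻¹ := by
          rw [← mul_assoc, ← hw' a⁻¹]; group
        rw [h1, h2, h3, h4]
      exact e1
    exact (Set.finite_range _).subset hsub
  have hc' : Finite (commutatorSet Q) := hc.to_subtype
  have hcom : Finite (_root_.commutator Q) := inferInstance
  have htop : _root_.commutator Q = ⊤ := by
    rw [eq_top_iff]
    intro x _
    have h1 := hp (Abelianization Q) Abelianization.of x
    rw [← Abelianization.ker_of]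
    exact h1
  rw [htop] at hcom
  exact Finite.of_equiv _ Subgroup.topEquiv.toEquiv

theorem nb_elset (k : ℕ) (m : ℕ) (hm : 0 < m) (N : Subgroup (SL k)) [N.Normal]
    (hN : ∀ (i j : Fin k) (h : i ≠ j) (t : ℤ), el i j h (m * t) ∈ N) :
    {x : SL k ⧸ N | ∃ y, IsEl y ∧ x = QuotientGroup.mk' N y}.Finite := by
  have hsub : {x : SL k ⧸ N | ∃ y, IsEl y ∧ x = QuotientGroup.mk' N y} ⊆ Set.range
      (fun p : Fin k × Fin k × Fin m => if h : p.1 ≠ p.2.1 then
        QuotientGroup.mk' N (el p.1 p.2.1 h (p.2.2 : ℕ)) else 1) := by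
    rintro _ ⟨_, ⟨i, j, h, t, rfl⟩, rfl⟩
    have hm' : (0 : ℤ) < m := by exact_mod_cast hm
    have h1 : 0 ≤ t % (m : ℤ) := Int.emod_nonneg _ hm'.ne'
    have h2 : t % (m : ℤ) < m := Int.emod_lt_of_pos _ hm'
    refine ⟨(i, j, ⟨(t % (m : ℤ)).toNat, by omega⟩), ?_⟩
    refine (dif_pos h).trans ?_
    have h3 : (((t % (m : ℤ)).toNat : ℕ) : ℤ) = t % m := Int.toNat_of_nonneg h1
    change QuotientGroup.mk' N (el i j h (((t % (m : ℤ)).toNat : ℕ) : ℤ)) = _
    rw [h3]
    have h4 : el i j h t = el i j h (t % m) * el i j h (m * (t / m)) := by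
      apply Subtype.ext
      change Matrix.transvection i j t = Matrix.transvection i j (t % m) *
        Matrix.transvection i j (m * (t / m))
      rw [Matrix.transvection_mul_transvection_same i j h]
      rw [Int.emod_add_mul_ediv]
    rw [h4, map_mul]
    have h5 : QuotientGroup.mk' N (el i j h (m * (t / m))) = 1 :=
      (QuotientGroup.eq_one_iff _).2 (hN i j h _)
    rw [h5, mul_one]
  exact (Set.finite_range _).subset hsub

theorem nb_elProd (k : ℕ) (m : ℕ) (hm : 0 < m) (N : Subgroup (SL k)) [N.Normal]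
    (hN : ∀ (i j : Fin k) (h : i ≠ j) (t : ℤ), el i j h (m * t) ∈ N) (r : ℕ) :
    {x : SL k ⧸ N | ∃ y, ElProd r y ∧ x = QuotientGroup.mk' N y}.Finite := by
  induction r with
  | zero =>
    apply (Set.finite_singleton (1 : SL k ⧸ N)).subset
    rintro _ ⟨y, ⟨l, hl, _, rfl⟩, rfl⟩
    have : l = [] := List.length_eq_zero_iff.1 (by omega)
    subst this
    simp
  | succ r ih =>
    apply (((nb_elset k m hm N hN).mul ih).union (Set.finite_singleton (1 : SL k ⧸ N))).subset
    rintro _ ⟨y, ⟨l, hl, hy, rfl⟩, rfl⟩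
    cases l with
    | nil => right; simp
    | cons a l =>
      left
      rw [List.prod_cons, map_mul]
      apply Set.mul_mem_mul
      · exact ⟨a, hy a (List.mem_cons_self), rfl⟩
      · exact ⟨l.prod, ⟨l, by simpa using hl, fun y h => hy y (List.mem_cons_of_mem _ h), rfl⟩, rfl⟩

theorem nb_center (k : ℕ) (hk : 3 ≤ k) (m : ℕ) (N : Subgroup (SL k)) [N.Normal]
    (hN : ∀ (i j : Fin k) (h : i ≠ j) (t : ℤ), el i j h (m * t) ∈ N) (c : SL k)
    (hc : InBlock c) (hm : Cong m c) :
    QuotientGroup.mk' N c ∈ Subgroup.center (SL k ⧸ N) := by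
  have hle : (⊤ : Subgroup (SL k)) ≤
      (Subgroup.centralizer {QuotientGroup.mk' N c}).comap (QuotientGroup.mk' N) := by
    rw [← Pool.Agent.TAU.gen k (by omega), Subgroup.closure_le]
    intro x hx
    have h1 := Pool.Agent.TAU.central k hk m N hN c hc hm x hx
    have h2 : QuotientGroup.mk' N (c * x * c⁻¹ * x⁻¹) = 1 := (QuotientGroup.eq_one_iff _).2 h1
    rw [map_mul, map_mul, map_mul, map_inv, map_inv, mul_inv_eq_one, mul_inv_eq_iff_eq_mul] at h2
    change QuotientGroup.mk' N x ∈ Subgroup.centralizer {QuotientGroup.mk' N c}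
    rw [Subgroup.mem_centralizer_singleton_iff]
    exact h2.symm
  rw [Subgroup.mem_center_iff]
  intro y
  obtain ⟨x, rfl⟩ := QuotientGroup.mk'_surjective N y
  have := hle (Subgroup.mem_top x)
  change QuotientGroup.mk' N x ∈ Subgroup.centralizer {QuotientGroup.mk' N c} at this
  rw [Subgroup.mem_centralizer_singleton_iff] at this
  exact this

/-- [IRS Normal] -/
theorem normal_finiteIndex (k : ℕ) (hk : 3 ≤ k) (m : ℕ) (hm : 0 < m) (N : Subgroup (SL k))
    [N.Normal] (hN : ∀ (i j : Fin k) (h : i ≠ j) (t : ℤ), el i j h (m * t) ∈ N) :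
    N.FiniteIndex := by
  obtain ⟨r, hr⟩ := Pool.Agent.TAU.decomp k (by omega)
  have hP := nb_elProd k m hm N hN r
  have hfin : Finite ((SL k ⧸ N) ⧸ Subgroup.center (SL k ⧸ N)) := by
    rw [← Set.finite_univ_iff]
    apply ((hP.mul hP).image (QuotientGroup.mk' (Subgroup.center (SL k ⧸ N)))).subset
    intro z _
    obtain ⟨y, rfl⟩ := QuotientGroup.mk'_surjective _ z
    obtain ⟨g, rfl⟩ := QuotientGroup.mk'_surjective N y
    obtain ⟨p, q, c, hp, hq, hc, hcm, rfl⟩ := hr m hm g
    refine ⟨QuotientGroup.mk' N p * QuotientGroup.mk' N q,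
      Set.mul_mem_mul ⟨p, hp, rfl⟩ ⟨q, hq, rfl⟩, ?_⟩
    have h1 : QuotientGroup.mk' (Subgroup.center (SL k ⧸ N)) (QuotientGroup.mk' N c) = 1 :=
      (QuotientGroup.eq_one_iff _).2 (nb_center k hk m N hN c hc hcm)
    rw [map_mul, map_mul, map_mul, map_mul, map_mul, h1, mul_one]
  have hZ : (Subgroup.center (SL k ⧸ N)).FiniteIndex := Subgroup.finiteIndex_of_finite_quotient
  have hQ : Finite (SL k ⧸ N) := by
    apply nb_schur hZ
    intro A _ f x
    obtain ⟨g, rfl⟩ := QuotientGroup.mk'_surjective N x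
    exact Pool.Agent.TAU.perfect k hk A (f.comp (QuotientGroup.mk' N)) g
  exact Subgroup.finiteIndex_of_finite_quotient

end Pool.Agent.IRS
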