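import Pool.Agent.IRS.PrecDefs
import Pool.Agent.IRS.CovToMod0
import Pool.Agent.IRS.CovCore

/-!
Roughly covered almost-homomorphisms are roughly modelled (group with the spectral gap of finite
actions), from `near_exact` (a hypothesis here).
-/

set_option autoImplicit false
open Filter Topology Finset

namespace Pool.Agent.IRS

open Pool.Agent.FS84 (AlmostHom PartlyModelled HasNear Inv)

theorem prec_cardR {N n m : ℕ} (D : Finset (Fin N)) (π : Fin N → Fin n)
    (hfib : ∀ a ∈ D.image π, (D.filter fun y => π y = a).card = m) :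
    ((D ×ˢ D).filter fun p => π p.1 = π p.2).card = m * D.card := by
  classical
  rw [Cov51.card_rows]
  have h1 : ∀ y, (Cov51.row ((D ×ˢ D).filter fun p => π p.1 = π p.2) y).card =
      if y ∈ D then m else 0 := by
    intro y
    by_cases hy : y ∈ D
    · rw [if_pos hy, ← hfib (π y) (mem_image_of_mem π hy)]
      congr 1
      ext x
      simp only [Cov51.mem_row, mem_filter, mem_product]
      constructor
      · rintro ⟨⟨_, hx⟩, h⟩
        exact ⟨hx, h.symm⟩
      · rintro ⟨hx, h⟩
        exact ⟨⟨hy, hx⟩, h.symm⟩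
    · rw [if_neg hy, card_eq_zero]
      ext x
      simp [Cov51.mem_row, hy]
  rw [Finset.sum_congr rfl fun y _ => h1 y, ← Finset.sum_filter]
  simp [mul_comm]

/-- the two differences of `B` and `R` through a third set -/
theorem prec_tri {X : Type} [DecidableEq X] (B R' R : Finset X) :
    (B \ R).card + (R \ B).card ≤
      ((R' \ B).card + (B \ R').card) + ((R \ R').card + (R' \ R).card) := by
  have h1 : B \ R ⊆ (B \ R') ∪ (R' \ R) := by
    intro x hx
    rw [Finset.mem_sdiff] at hx
    by_cases h : x ∈ R'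
    · exact mem_union_right _ (Finset.mem_sdiff.2 ⟨h, hx.2⟩)
    · exact mem_union_left _ (Finset.mem_sdiff.2 ⟨hx.1, h⟩)
  have h2 : R \ B ⊆ (R \ R') ∪ (R' \ B) := by
    intro x hx
    rw [Finset.mem_sdiff] at hx
    by_cases h : x ∈ R'
    · exact mem_union_right _ (Finset.mem_sdiff.2 ⟨h, hx.2⟩)
    · exact mem_union_left _ (Finset.mem_sdiff.2 ⟨hx.1, h⟩)
  have h3 := (card_le_card h1).trans (card_union_le _ _)
  have h4 := (card_le_card h2).trans (card_union_le _ _)
  omega

/-- the errors of the model obtained from `cov_core` -/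
theorem prec_errors {G : Type} [Group G] {N n m M : ℕ} (hm : 0 < m)
    (ρ : G →* Equiv.Perm (Fin N)) (ρ' : G →* Equiv.Perm (Fin M)) (D V : Finset (Fin N))
    (π : Fin N → Fin n) (hfib : ∀ a ∈ D.image π, (D.filter fun y => π y = a).card = m)
    (σ : Equiv.Perm (Fin n)) (A' : Finset (Fin n)) (ι : Fin n → Fin M)
    (hA' : A' ⊆ D.image π) (κ₁ κ₂ β : ℝ)
    (hDV : ((D \ V).card : ℝ) ≤ κ₁ * D.card)
    (hAA' : ((D.image π \ A').card : ℝ) ≤ κ₂ * (D.image π).card) (g : G)
    (heq : ∀ y ∈ V, ρ g y ∈ V → π y ∈ A' → π (ρ g y) ∈ A' →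
        ρ' g (ι (π y)) = ι (π (ρ g y)))
    (hbg : ((D.filter fun y => ρ g y ∉ D ∨ π (ρ g y) ≠ σ (π y)).card : ℝ) ≤ β * D.card) :
    ((A'.filter fun a => σ a ∉ A' ∨ ι (σ a) ≠ ρ' g (ι a)).card : ℝ) ≤
      (β + 2 * κ₁ + κ₂) * (D.image π).card := by
  classical
  have hmr : (0 : ℝ) < m := by exact_mod_cast hm
  set A := D.image π with hA
  have hDA : (D.card : ℝ) = m * A.card := by
    have := cov_card D π hfib
    exact_mod_cast this
  set Bad := D.filter fun y => ρ g y ∉ D ∨ π (ρ g y) ≠ σ (π y) with hBad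
  set W := Bad ∪ (D \ V) ∪ D.filter (fun y => ρ g y ∈ D \ V) with hW
  set Z := A'.filter fun a => σ a ∉ A' ∨ ι (σ a) ≠ ρ' g (ι a) with hZ
  set S := Z.filter fun a => ∀ y ∈ D, π y = a → y ∈ W with hS
  have hsub : Z ⊆ S ∪ (A'.filter fun a => σ a ∈ A \ A') := by
    intro a ha
    rw [mem_union]
    by_cases h2 : σ a ∈ A \ A'
    · right
      exact mem_filter.2 ⟨(mem_filter.1 ha).1, h2⟩
    · left
      refine mem_filter.2 ⟨ha, ?_⟩
      intro y hy hya
      by_contra hyW
      rw [hW, mem_union, mem_union, not_or, not_or] at hyW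
      obtain ⟨⟨hyB, hyV⟩, hgV⟩ := hyW
      rw [hBad, mem_filter, not_and, not_or, not_not, not_not] at hyB
      obtain ⟨hgD, hgπ⟩ := hyB hy
      have hyV' : y ∈ V := by
        by_contra hc
        exact hyV (Finset.mem_sdiff.2 ⟨hy, hc⟩)
      have hgV' : ρ g y ∈ V := by
        by_contra hc
        exact hgV (mem_filter.2 ⟨hy, Finset.mem_sdiff.2 ⟨hgD, hc⟩⟩)
      rw [hya] at hgπ
      have hfa : σ a ∈ A := by
        rw [← hgπ]
        exact mem_image_of_mem π hgD
      have hfa' : σ a ∈ A' := by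
        by_contra hc
        exact h2 (Finset.mem_sdiff.2 ⟨hfa, hc⟩)
      have haA' : a ∈ A' := (mem_filter.1 ha).1
      have h3 := heq y hyV' hgV' (by rw [hya]; exact haA') (by rw [hgπ]; exact hfa')
      rw [hya, hgπ] at h3
      rcases (mem_filter.1 ha).2 with h4 | h4
      · exact h4 hfa'
      · exact h4 h3.symm
  have hSA : S ⊆ A := fun a ha => hA' (mem_filter.1 (mem_filter.1 ha).1).1
  have hS1 : m * S.card ≤ W.card :=
    cov_fibres D π hfib S hSA W fun a ha y hy hya => (mem_filter.1 ha).2 y hy hya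
  have hW1 : (W.card : ℝ) ≤ β * D.card + κ₁ * D.card + κ₁ * D.card := by
    have e1 : W.card ≤ Bad.card + (D \ V).card + (D.filter fun y => ρ g y ∈ D \ V).card :=
      (card_union_le _ _).trans (Nat.add_le_add_right (card_union_le _ _) _)
    have e2 : (D.filter fun y => ρ g y ∈ D \ V).card ≤ (D \ V).card := by
      apply Finset.card_le_card_of_injOn (fun y => ρ g y)
      · intro y hy
        exact (mem_filter.1 hy).2
      · intro y _ y' _ hyy'
        exact (ρ g).injective hyy'
    have e3 : (W.card : ℝ) ≤ Bad.card + (D \ V).card + (D \ V).card := by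
      have : W.card ≤ Bad.card + (D \ V).card + (D \ V).card := by omega
      exact_mod_cast this
    linarith
  have hS2 : (S.card : ℝ) ≤ (β + 2 * κ₁) * A.card := by
    have e1 : (m : ℝ) * S.card ≤ W.card := by exact_mod_cast hS1
    have e2 : (m : ℝ) * S.card ≤ m * ((β + 2 * κ₁) * A.card) := by
      calc (m : ℝ) * S.card ≤ W.card := e1
        _ ≤ β * D.card + κ₁ * D.card + κ₁ * D.card := hW1
        _ = m * ((β + 2 * κ₁) * A.card) := by
            rw [hDA]
            ring
    exact le_of_mul_le_mul_left e2 hmr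
  have hT : ((A'.filter fun a => σ a ∈ A \ A').card : ℝ) ≤ κ₂ * A.card := by
    have e1 : (A'.filter fun a => σ a ∈ A \ A').card ≤ (A \ A').card := by
      apply Finset.card_le_card_of_injOn (fun a => σ a)
      · intro a ha
        exact (mem_filter.1 ha).2
      · intro a _ b _ hab
        exact σ.injective hab
    have e2 : ((A'.filter fun a => σ a ∈ A \ A').card : ℝ) ≤ (A \ A').card := by
      exact_mod_cast e1
    linarith
  have hZ1 : (Z.card : ℝ) ≤ S.card + (A'.filter fun a => σ a ∈ A \ A').card := by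
    have := (card_le_card hsub).trans (card_union_le _ _)
    exact_mod_cast this
  linarith

/-- [PREC Cov], `near_exact` a hypothesis -/
theorem roughly_of_covered_of {G : Type} [Group G]
    (hne : ∀ (E : Finset G) (η : ℝ), 0 < η →
      ∃ (ET : Finset G) (τ : ℝ), 0 < τ ∧ ∀ (X : Type) [Fintype X] [DecidableEq X]
        (φ : G → Equiv.Perm X) (S : Finset X) (η₀ : ℝ),
        (∀ g ∈ ET, ∀ h ∈ ET,
          ((S.filter fun x => φ g (φ h x) ≠ φ (g * h) x).card : ℝ) ≤ τ * S.card) →
        (∀ g ∈ ET, ((S.filter fun x => φ g x ∉ S).card : ℝ) ≤ η₀ * S.card) →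
        ∃ (L : List G) (S' : Finset X), (∀ x ∈ S', L.length < 2 * psiL φ S L x) ∧
          ((S \ S').card + (S' \ S).card : ℝ) ≤ 6 * η₀ * S.card ∧
          ∀ g ∈ E, ((S'.filter fun x => φ g x ∉ S').card : ℝ) ≤ η * S.card)
    (hG : HasNear G)
    {f : (n : ℕ) → G → Equiv.Perm (Fin n)} (h : RoughlyCovered f) : RoughlyModelled f := by
  classical
  obtain ⟨δ, hδ, h⟩ := h
  obtain ⟨F, C, hC, hnear⟩ := hG
  refine ⟨δ / 2, by positivity, ?_⟩
  intro E
  obtain ⟨ET, τ, hτ, hexact⟩ := hne F (1 / 100000 / (C * (F.card + 1))) (by positivity)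
  refine (h (E ∪ ET)).mono ?_
  rintro n ⟨N, m, ρ, D, π, hm, hδn, hfib, hbad⟩
  have hbad' : ∀ g ∈ E ∪ ET,
      ((D.filter fun y => ρ g y ∉ D ∨ π (ρ g y) ≠ f n g (π y)).card : ℝ) ≤
        1 / 100000 * D.card := by
    intro g hg
    have h1 : ((100000 * (D.filter fun y => ρ g y ∉ D ∨ π (ρ g y) ≠ f n g (π y)).card : ℕ) : ℝ) ≤
      D.card := by exact_mod_cast hbad g hg
    push_cast at h1
    linarith
  have hmr : (0 : ℝ) < m := by exact_mod_cast hm
  have hDn : (0 : ℝ) ≤ D.card := Nat.cast_nonneg _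
  set R := (D ×ˢ D).filter fun p => π p.1 = π p.2 with hR
  have hRc : (R.card : ℝ) = m * D.card := by
    have := prec_cardR D π hfib
    exact_mod_cast this
  obtain ⟨L, R', -, hRR', hR'⟩ := hexact (Fin N × Fin N) (fun g => prodAct ρ g) R (2 / 100000)
    (by
      intro g _ k _
      have h1 : (R.filter fun x => prodAct ρ g (prodAct ρ k x) ≠ prodAct ρ (g * k) x) = ∅ := by
        rw [filter_eq_empty_iff]
        intro x _ hx
        apply hx
        rw [map_mul]
        rfl
      rw [h1, card_empty]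
      push_cast
      positivity)
    (by
      intro g hg
      refine (cov_leave ρ D π hfib (f n g) g).trans ?_
      have h1 := hbad' g (mem_union_right _ hg)
      calc 2 * (m : ℝ) * ((D.filter fun y => ρ g y ∉ D ∨ π (ρ g y) ≠ f n g (π y)).card : ℝ)
          ≤ 2 * m * (1 / 100000 * D.card) := mul_le_mul_of_nonneg_left h1 (by positivity)
        _ = 2 / 100000 * R.card := by rw [hRc]; ring)
  obtain ⟨B, hB, hBR'⟩ := hnear (Fin N × Fin N) (prodAct ρ) R'
  have hB' : ∀ g y y', (ρ g y, ρ g y') ∈ B ↔ (y, y') ∈ B := fun g y y' => hB g (y, y')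
  have hsum : C * ∑ a ∈ F, ((R'.filter fun x => prodAct ρ a x ∉ R').card : ℝ) ≤
      1 / 100000 * R.card := by
    have e1 : ∑ a ∈ F, ((R'.filter fun x => prodAct ρ a x ∉ R').card : ℝ) ≤
        F.card * (1 / 100000 / (C * (F.card + 1)) * R.card) := by
      rw [← nsmul_eq_mul]
      exact Finset.sum_le_card_nsmul _ _ _ hR'
    have e2 : C * (F.card * (1 / 100000 / (C * (F.card + 1)) * R.card)) ≤
        1 / 100000 * R.card := by
      have e3 : C * (F.card * (1 / 100000 / (C * (F.card + 1)) * R.card)) =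
          (F.card / (F.card + 1)) * (1 / 100000 * R.card) := by
        field_simp
      rw [e3]
      have e4 : (F.card : ℝ) / (F.card + 1) ≤ 1 := by
        rw [div_le_one (by positivity)]
        linarith
      have e5 : (0 : ℝ) ≤ 1 / 100000 * R.card := by positivity
      nlinarith
    exact (mul_le_mul_of_nonneg_left e1 hC.le).trans e2
  have h1 : (((B \ R).card : ℝ) + ((R \ B).card : ℝ)) ≤ 13 / 100000 * m * D.card := by
    have e1 : (((B \ R).card : ℝ) + ((R \ B).card : ℝ)) ≤
        ((R' \ B).card + (B \ R').card) + ((R \ R').card + (R' \ R).card) := by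
      exact_mod_cast prec_tri B R' R
    have e2 : 13 / 100000 * (m : ℝ) * D.card = 1 / 100000 * R.card + 6 * (2 / 100000) * R.card := by
      rw [hRc]; ring
    rw [e2]
    linarith
  obtain ⟨M, ρ', A', V, ι, hA', hV, hι, hDV, hAA', heq⟩ :=
    cov_core ρ D π hm hfib B hB' (13 / 100000) (by norm_num) h1
  set A := D.image π with hA
  have hA0 : (0 : ℝ) ≤ A.card := Nat.cast_nonneg _
  have e1 : (A.card : ℝ) = A'.card + (A \ A').card := by
    have e2 := card_sdiff_add_card_eq_card hA'
    have e3 : A.card = A'.card + (A \ A').card := by omega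
    exact_mod_cast e3
  refine ⟨M, ρ', A', ι, ?_, hι, ?_⟩
  · have e5 : δ / 2 * n = (δ * n) / 2 := by ring
    rw [e5]
    linarith
  · intro g hg
    have h2 := prec_errors hm ρ ρ' D V π hfib (f n g) A' ι hA' (10 * (13 / 100000))
      (220 * (13 / 100000)) (1 / 100000) hDV hAA' g (heq g) (hbad' g (mem_union_left _ hg))
    refine h2.trans ?_
    rw [← hA]
    linarith

end Pool.Agent.IRS
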