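import Pool.Agent.IRS.CovDefs

/-!
Coverings of a positive part of an almost-homomorphism with a fixed precision.
-/

set_option autoImplicit false
open Filter Topology Finset

namespace Pool.Agent.IRS

/-- A positive proportion of `f` is roughly covered by finite `G`-sets: there is `δ > 0` such that
for every finite `E ⊆ G` and for infinitely many `n` there are a finite `G`-set (`Fin N` with the
action `ρ`), an `m ≥ 1`, a set `D` of its points and a map `π` which is `m`-to-one from `D` onto a
set of at least `δ n` points of `f`, so that for every `g ∈ E` at most `|D| / 100000` points `y` of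
`D` have `ρ g y` outside `D` or `π (ρ g y) ≠ f n g (π y)`. -/
def RoughlyCovered {G : Type} [Group G] (f : (n : ℕ) → G → Equiv.Perm (Fin n)) : Prop :=
  ∃ δ : ℝ, 0 < δ ∧ ∀ E : Finset G, ∃ᶠ n : ℕ in atTop,
    ∃ (N m : ℕ) (ρ : G →* Equiv.Perm (Fin N)) (D : Finset (Fin N)) (π : Fin N → Fin n),
      0 < m ∧ δ * n ≤ (D.image π).card ∧
      (∀ a ∈ D.image π, (D.filter fun y => π y = a).card = m) ∧
      ∀ g ∈ E, 100000 * (D.filter fun y => ρ g y ∉ D ∨ π (ρ g y) ≠ f n g (π y)).card ≤ D.card

/-- A positive proportion of `f` is roughly modelled by finite `G`-sets: `1 / 30` of the points of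
the part may be wrong. -/
def RoughlyModelled {G : Type} [Group G] (f : (n : ℕ) → G → Equiv.Perm (Fin n)) : Prop :=
  ∃ δ : ℝ, 0 < δ ∧ ∀ E : Finset G, ∃ᶠ n : ℕ in atTop,
    ∃ (m : ℕ) (ρ : G →* Equiv.Perm (Fin m)) (A : Finset (Fin n)) (ι : Fin n → Fin m),
      δ * n ≤ A.card ∧ Set.InjOn ι A ∧
      ∀ g ∈ E, ((A.filter fun x => f n g x ∉ A ∨ ι (f n g x) ≠ ρ g (ι x)).card : ℝ) ≤
        1 / 30 * A.card

/-- the number of the terms `g` of the list `L` with `x ∈ φ g '' S` -/
def psiL {G X : Type} [DecidableEq X] (φ : G → Equiv.Perm X) (S : Finset X) (L : List G) (x : X) :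
    ℕ :=
  (L.filter fun g => decide ((φ g).symm x ∈ S)).length

end Pool.Agent.IRS
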