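import Pool.Agent.IRS.PrecEn1

/-!
Threshold sets of the averages of the translates of an almost invariant set.
-/

set_option autoImplicit false
open Finset

namespace Pool.Agent.IRS

section

variable {G X : Type} [Fintype X] [DecidableEq X]

theorem sum_copsi (φ : G → Equiv.Perm X) (S : Finset X) (L : List G) (c : ℝ) (P : Finset X)
    (h : ∀ g ∈ L, ((P.filter fun x => (φ g).symm x ∉ S).card : ℝ) ≤ c) :
    ∑ x ∈ P, ((L.length : ℝ) - psiL φ S L x) ≤ L.length * c := by
  classical
  induction L with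
  | nil =>
    have : ∀ x ∈ P, ((([] : List G).length : ℝ) - psiL φ S [] x) = 0 := by
      intro x _
      unfold psiL
      simp
    rw [sum_congr rfl this]
    simp
  | cons g L ih =>
    have h1 := ih fun g hg => h g (List.mem_cons_of_mem _ hg)
    have h2 := h g List.mem_cons_self
    have h3 : ∑ x ∈ P, (((g :: L).length : ℝ) - psiL φ S (g :: L) x) =
        ((P.filter fun x => (φ g).symm x ∉ S).card : ℝ) +
          ∑ x ∈ P, ((L.length : ℝ) - psiL φ S L x) := by
      rw [Finset.card_filter]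
      push_cast
      rw [← sum_add_distrib]
      apply sum_congr rfl
      intro x _
      rw [psiL_cons, List.length_cons]
      push_cast
      by_cases hx : (φ g).symm x ∈ S
      · rw [if_pos hx, if_neg (not_not.2 hx)]
        ring
      · rw [if_neg hx, if_pos hx]
        ring
    rw [h3, List.length_cons]
    push_cast
    linarith

theorem card_enter (σ : Equiv.Perm X) (S : Finset X) :
    ((univ \ S).filter fun x => σ.symm x ∈ S).card ≤ (S.filter fun x => σ x ∉ S).card := by
  apply Finset.card_le_card_of_injOn (fun x => σ.symm x)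
  · intro x hx
    have hx' := mem_filter.1 (mem_coe.1 hx)
    refine mem_coe.2 (mem_filter.2 ⟨hx'.2, ?_⟩)
    rw [σ.apply_symm_apply]
    exact (Finset.mem_sdiff.1 hx'.1).2
  · intro x _ y _ hxy
    exact σ.symm.injective hxy

theorem card_stay (σ : Equiv.Perm X) (S : Finset X) :
    (S.filter fun x => σ.symm x ∉ S).card ≤ (S.filter fun x => σ x ∉ S).card := by
  have h1 : (S.filter fun x => σ x ∈ S).card ≤ (S.filter fun x => σ.symm x ∈ S).card := by
    apply Finset.card_le_card_of_injOn (fun x => σ x)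
    · intro x hx
      have hx' := mem_filter.1 (mem_coe.1 hx)
      refine mem_coe.2 (mem_filter.2 ⟨hx'.2, ?_⟩)
      rw [σ.symm_apply_apply]
      exact hx'.1
    · intro x _ y _ hxy
      exact σ.injective hxy
  have h2 := Finset.card_filter_add_card_filter_not (s := S) (fun x => σ x ∈ S)
  have h3 := Finset.card_filter_add_card_filter_not (s := S) (fun x => σ.symm x ∈ S)
  omega

/-- the level sets -/
theorem level_count (φ : G → Equiv.Perm X) (S : Finset X) (L : List G) (q : ℕ) (g : G) :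
    ∑ j ∈ range q, (((univ.filter fun x => 2 * q + 1 + j ≤ psiL φ S L x).filter fun x =>
      φ g x ∉ (univ.filter fun x => 2 * q + 1 + j ≤ psiL φ S L x)).card : ℝ) ≤
      ∑ x ∈ univ.filter (fun x => 2 * q < psiL φ S L x),
        |(psiL φ S L (φ g x) : ℝ) - psiL φ S L x| := by
  have h1 : ∀ j ∈ range q, (((univ.filter fun x => 2 * q + 1 + j ≤ psiL φ S L x).filter fun x =>
      φ g x ∉ (univ.filter fun x => 2 * q + 1 + j ≤ psiL φ S L x)).card : ℝ) =
      ∑ x ∈ univ.filter (fun x => 2 * q < psiL φ S L x),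
        if 2 * q + 1 + j ≤ psiL φ S L x ∧ psiL φ S L (φ g x) < 2 * q + 1 + j then (1 : ℝ) else 0 := by
    intro j _
    rw [Finset.sum_boole]
    congr 2
    ext x
    simp only [mem_filter, mem_univ, true_and, not_le]
    constructor
    · rintro ⟨a, b⟩
      exact ⟨by omega, a, b⟩
    · rintro ⟨_, a, b⟩
      exact ⟨a, b⟩
  rw [Finset.sum_congr rfl h1, Finset.sum_comm]
  apply Finset.sum_le_sum
  intro x _
  rw [Finset.sum_boole]
  by_cases hle : psiL φ S L x ≤ psiL φ S L (φ g x)
  · have : ((range q).filter fun j => 2 * q + 1 + j ≤ psiL φ S L x ∧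
        psiL φ S L (φ g x) < 2 * q + 1 + j) = ∅ := by
      apply Finset.filter_eq_empty_iff.2
      intro j _ hj
      omega
    rw [this, card_empty, Nat.cast_zero]
    exact abs_nonneg _
  · have hlt := not_le.1 hle
    have h2 : ((range q).filter fun j => 2 * q + 1 + j ≤ psiL φ S L x ∧
        psiL φ S L (φ g x) < 2 * q + 1 + j).card ≤ psiL φ S L x - psiL φ S L (φ g x) := by
      rw [← Nat.card_Ioc]
      apply Finset.card_le_card_of_injOn (fun j => 2 * q + 1 + j)
      · intro j hj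
        have hj' := (mem_filter.1 (mem_coe.1 hj)).2
        exact mem_coe.2 (Finset.mem_Ioc.2 ⟨hj'.2, hj'.1⟩)
      · intro a _ b _ hab
        have : 2 * q + 1 + a = 2 * q + 1 + b := hab
        omega
    have h3 : (((range q).filter fun j => 2 * q + 1 + j ≤ psiL φ S L x ∧
        psiL φ S L (φ g x) < 2 * q + 1 + j).card : ℝ) ≤
        (psiL φ S L x : ℝ) - psiL φ S L (φ g x) := by
      rw [← Nat.cast_sub hlt.le]
      exact Nat.cast_le.2 h2
    refine h3.trans ?_
    rw [abs_sub_comm]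
    exact le_abs_self _

theorem threshold (φ : G → Equiv.Perm X) (S : Finset X)
    (E : Finset G) (L : List G) (h4 : 4 ∣ L.length) (hL : 0 < L.length) (η₀ η : ℝ) (hη : 0 ≤ η)
    (h0 : ∀ g ∈ L, ((S.filter fun x => φ g x ∉ S).card : ℝ) ≤ η₀ * S.card)
    (hE : ∀ g ∈ E, ∑ x, ((psiL φ S L (φ g x) : ℝ) - psiL φ S L x) ^ 2 ≤
      η * (L.length : ℝ) ^ 2 * S.card) :
    ∃ S' : Finset X, (∀ x ∈ S', L.length < 2 * psiL φ S L x) ∧
      ((S \ S').card + (S' \ S).card : ℝ) ≤ 6 * η₀ * S.card ∧
      ∀ g ∈ E, ((S'.filter fun x => φ g x ∉ S').card : ℝ) ≤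
        12 * E.card * Real.sqrt η * S.card := by
  classical
  obtain ⟨q, hq⟩ := h4
  have hq0 : 0 < q := by omega
  have hqr : (0 : ℝ) < q := by exact_mod_cast hq0
  have hlr : (L.length : ℝ) = 4 * q := by rw [hq]; push_cast; ring
  have hS0 : (0 : ℝ) ≤ S.card := Nat.cast_nonneg _
  -- the mass
  have hmass : ∑ x, (psiL φ S L x : ℝ) ≤ L.length * S.card :=
    sum_psi φ S L S.card univ fun g _ => by rw [card_symm]
  have hout : ∑ x ∈ univ \ S, (psiL φ S L x : ℝ) ≤ L.length * (η₀ * S.card) :=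
    sum_psi φ S L _ _ fun g hg => (Nat.cast_le.2 (card_enter (φ g) S)).trans (h0 g hg)
  have hin : ∑ x ∈ S, ((L.length : ℝ) - psiL φ S L x) ≤ L.length * (η₀ * S.card) :=
    sum_copsi φ S L _ _ fun g hg => (Nat.cast_le.2 (card_stay (φ g) S)).trans (h0 g hg)
  set P := univ.filter fun x => 2 * q < psiL φ S L x with hP
  have hPc : (P.card : ℝ) ≤ 2 * S.card := by
    have e1 : (P.card : ℝ) * (2 * q) ≤ ∑ x ∈ P, (psiL φ S L x : ℝ) := by
      rw [← nsmul_eq_mul]
      apply Finset.card_nsmul_le_sum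
      intro x hx
      have := (mem_filter.1 hx).2
      have h2 : 2 * q ≤ psiL φ S L x := by omega
      exact_mod_cast h2
    have e2 : ∑ x ∈ P, (psiL φ S L x : ℝ) ≤ ∑ x, (psiL φ S L x : ℝ) :=
      Finset.sum_le_sum_of_subset_of_nonneg (subset_univ _) fun _ _ _ => Nat.cast_nonneg _
    rw [hlr] at hmass
    have e3 : (P.card : ℝ) * (2 * q) ≤ (2 * S.card) * (2 * q) := by
      linarith
    exact le_of_mul_le_mul_right e3 (by positivity)
  set r := Real.sqrt η with hr
  have hr0 : 0 ≤ r := Real.sqrt_nonneg _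
  have hrr : r ^ 2 = η := Real.sq_sqrt hη
  have hB : ∀ g ∈ E, ∑ x ∈ P, |(psiL φ S L (φ g x) : ℝ) - psiL φ S L x| ≤
      6 * q * r * S.card := by
    intro g hg
    have e1 := sq_sum_le_card_mul_sum_sq (s := P)
      (f := fun x => |(psiL φ S L (φ g x) : ℝ) - psiL φ S L x|)
    have e2 : ∑ x ∈ P, |(psiL φ S L (φ g x) : ℝ) - psiL φ S L x| ^ 2 ≤
        η * (L.length : ℝ) ^ 2 * S.card := by
      refine le_trans ?_ (hE g hg)
      simp only [sq_abs]
      exact Finset.sum_le_sum_of_subset_of_nonneg (subset_univ _) fun _ _ _ => sq_nonneg _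
    have e3 : 0 ≤ ∑ x ∈ P, |(psiL φ S L (φ g x) : ℝ) - psiL φ S L x| ^ 2 :=
      Finset.sum_nonneg fun _ _ => sq_nonneg _
    have e4 : (∑ x ∈ P, |(psiL φ S L (φ g x) : ℝ) - psiL φ S L x|) ^ 2 ≤
        (6 * q * r * S.card) ^ 2 := by
      refine e1.trans ?_
      calc (P.card : ℝ) * ∑ x ∈ P, |(psiL φ S L (φ g x) : ℝ) - psiL φ S L x| ^ 2
          ≤ (2 * S.card) * (η * (L.length : ℝ) ^ 2 * S.card) :=
            mul_le_mul hPc e2 e3 (by positivity)
        _ = 32 * (q : ℝ) ^ 2 * r ^ 2 * (S.card : ℝ) ^ 2 := by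
            rw [hlr, hrr]
            ring
        _ ≤ 36 * (q : ℝ) ^ 2 * r ^ 2 * (S.card : ℝ) ^ 2 := by
            have : (0 : ℝ) ≤ (q : ℝ) ^ 2 * r ^ 2 * (S.card : ℝ) ^ 2 := by positivity
            nlinarith
        _ = (6 * q * r * S.card) ^ 2 := by ring
    exact (pow_le_pow_iff_left₀ (Finset.sum_nonneg fun _ _ => abs_nonneg _) (by positivity)
      two_ne_zero).1 e4
  -- pigeonhole
  have hex : ∃ j ∈ range q, ∑ g ∈ E, (((univ.filter fun x =>
      2 * q + 1 + j ≤ psiL φ S L x).filter fun x =>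
      φ g x ∉ (univ.filter fun x => 2 * q + 1 + j ≤ psiL φ S L x)).card : ℝ) ≤
      12 * E.card * r * S.card := by
    by_contra hcon
    push Not at hcon
    have e1 : ∑ j ∈ range q, 12 * E.card * r * S.card < ∑ j ∈ range q, ∑ g ∈ E,
        (((univ.filter fun x => 2 * q + 1 + j ≤ psiL φ S L x).filter fun x =>
        φ g x ∉ (univ.filter fun x => 2 * q + 1 + j ≤ psiL φ S L x)).card : ℝ) :=
      Finset.sum_lt_sum_of_nonempty ⟨0, mem_range.2 hq0⟩ hcon
    rw [Finset.sum_comm] at e1
    have e2 : ∑ g ∈ E, ∑ j ∈ range q, (((univ.filter fun x =>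
        2 * q + 1 + j ≤ psiL φ S L x).filter fun x =>
        φ g x ∉ (univ.filter fun x => 2 * q + 1 + j ≤ psiL φ S L x)).card : ℝ) ≤
        ∑ g ∈ E, 6 * q * r * S.card :=
      Finset.sum_le_sum fun g hg => (level_count φ S L q g).trans (hB g hg)
    rw [Finset.sum_const, card_range, nsmul_eq_mul] at e1
    rw [Finset.sum_const, nsmul_eq_mul] at e2
    have e3 : (0 : ℝ) ≤ (q : ℝ) * E.card * r * S.card := by positivity
    nlinarith
  obtain ⟨j, hj, hjE⟩ := hex
  have hjq : j < q := mem_range.1 hj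
  refine ⟨univ.filter fun x => 2 * q + 1 + j ≤ psiL φ S L x, ?_, ?_, ?_⟩
  · intro x hx
    have := (mem_filter.1 hx).2
    omega
  · set S' := univ.filter fun x => 2 * q + 1 + j ≤ psiL φ S L x with hS'
    have f1 : ((S \ S').card : ℝ) * q ≤ L.length * (η₀ * S.card) := by
      refine le_trans ?_ hin
      rw [← nsmul_eq_mul]
      refine le_trans (Finset.card_nsmul_le_sum (S \ S')
        (fun x => (L.length : ℝ) - psiL φ S L x) q ?_) ?_
      · intro x hx
        have h1 := (Finset.mem_sdiff.1 hx).2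
        have h2 : psiL φ S L x < 2 * q + 1 + j := by
          by_contra hc
          exact h1 (mem_filter.2 ⟨mem_univ _, not_lt.1 hc⟩)
        have h3 : psiL φ S L x + q ≤ L.length := by omega
        have h4 : ((psiL φ S L x + q : ℕ) : ℝ) ≤ L.length := Nat.cast_le.2 h3
        push_cast at h4
        linarith
      · apply Finset.sum_le_sum_of_subset_of_nonneg Finset.sdiff_subset
        intro x _ _
        have : (psiL φ S L x : ℝ) ≤ L.length := Nat.cast_le.2 (psiL_le φ S L x)
        linarith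
    have f2 : ((S' \ S).card : ℝ) * (2 * q) ≤ L.length * (η₀ * S.card) := by
      refine le_trans ?_ hout
      rw [← nsmul_eq_mul]
      refine le_trans (Finset.card_nsmul_le_sum (S' \ S)
        (fun x => (psiL φ S L x : ℝ)) (2 * q) ?_) ?_
      · intro x hx
        have h1 := (mem_filter.1 (Finset.mem_sdiff.1 hx).1).2
        have h2 : 2 * q ≤ psiL φ S L x := by omega
        exact_mod_cast h2
      · apply Finset.sum_le_sum_of_subset_of_nonneg
        · exact Finset.sdiff_subset_sdiff (subset_univ _) (Finset.Subset.refl _)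
        · intro x _ _
          exact Nat.cast_nonneg _
    rw [hlr] at f1 f2
    have g1 : ((S \ S').card : ℝ) ≤ 4 * η₀ * S.card := by
      have : ((S \ S').card : ℝ) * q ≤ (4 * η₀ * S.card) * q := by linarith
      exact le_of_mul_le_mul_right this hqr
    have g2 : ((S' \ S).card : ℝ) ≤ 2 * η₀ * S.card := by
      have : ((S' \ S).card : ℝ) * (2 * q) ≤ (2 * η₀ * S.card) * (2 * q) := by linarith
      exact le_of_mul_le_mul_right this (by positivity)
    linarith
  · intro g hg
    refine le_trans ?_ hjE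
    exact Finset.single_le_sum (f := fun g => (((univ.filter fun x =>
      2 * q + 1 + j ≤ psiL φ S L x).filter fun x =>
      φ g x ∉ (univ.filter fun x => 2 * q + 1 + j ≤ psiL φ S L x)).card : ℝ))
      (fun _ _ => Nat.cast_nonneg _) hg

end

theorem near_exact {G : Type} [Group G] (E : Finset G) (η : ℝ) (hη : 0 < η) :
    ∃ (ET : Finset G) (τ : ℝ), 0 < τ ∧ ∀ (X : Type) [Fintype X] [DecidableEq X]
      (φ : G → Equiv.Perm X) (S : Finset X) (η₀ : ℝ),
      (∀ g ∈ ET, ∀ h ∈ ET,
        ((S.filter fun x => φ g (φ h x) ≠ φ (g * h) x).card : ℝ) ≤ τ * S.card) →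
      (∀ g ∈ ET, ((S.filter fun x => φ g x ∉ S).card : ℝ) ≤ η₀ * S.card) →
      ∃ (L : List G) (S' : Finset X), (∀ x ∈ S', L.length < 2 * psiL φ S L x) ∧
        ((S \ S').card + (S' \ S).card : ℝ) ≤ 6 * η₀ * S.card ∧
        ∀ g ∈ E, ((S'.filter fun x => φ g x ∉ S').card : ℝ) ≤ η * S.card := by
  set e : ℝ := (η / (12 * (E.card + 1))) ^ 2 with he
  have he0 : 0 < e := by positivity
  obtain ⟨ET, τ, hτ, H⟩ := energy E e he0
  refine ⟨ET, τ, hτ, ?_⟩
  intro X _ _ φ S η₀ hmul hinv
  obtain ⟨L, hL1, hL2, hL3, hL4⟩ := H X φ S hmul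
  obtain ⟨S', h1, h2, h3⟩ := threshold φ S E L hL2 hL3 η₀ e he0.le
    (fun g hg => hinv g (hL1 g hg)) hL4
  refine ⟨L, S', h1, h2, ?_⟩
  intro g hg
  refine (h3 g hg).trans ?_
  have hsq : Real.sqrt e = η / (12 * (E.card + 1)) := by
    rw [he]
    exact Real.sqrt_sq (by positivity)
  rw [hsq]
  apply mul_le_mul_of_nonneg_right _ (Nat.cast_nonneg _)
  rw [mul_div_assoc']
  rw [div_le_iff₀ (by positivity)]
  have : (0 : ℝ) ≤ E.card := Nat.cast_nonneg _
  nlinarith

end Pool.Agent.IRS
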