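import Pool.Agent.IRS.PrecDefs

/-!
Energy decrement: averages of translates of an almost invariant set are almost invariant with any
precision.
-/

set_option autoImplicit false
open Finset

namespace Pool.Agent.IRS

variable {G X : Type} [Fintype X] [DecidableEq X]

theorem psiL_append (φ : G → Equiv.Perm X) (S : Finset X) (L L' : List G) (x : X) :
    psiL φ S (L ++ L') x = psiL φ S L x + psiL φ S L' x := by
  unfold psiL
  rw [List.filter_append, List.length_append]

theorem psiL_cons (φ : G → Equiv.Perm X) (S : Finset X) (g : G) (L : List G) (x : X) :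
    psiL φ S (g :: L) x = (if (φ g).symm x ∈ S then 1 else 0) + psiL φ S L x := by
  unfold psiL
  by_cases h : (φ g).symm x ∈ S
  · rw [List.filter_cons_of_pos (by simpa using h), List.length_cons, if_pos h, add_comm]
  · rw [List.filter_cons_of_neg (by simpa using h), if_neg h, zero_add]

theorem psiL_le (φ : G → Equiv.Perm X) (S : Finset X) (L : List G) (x : X) :
    psiL φ S L x ≤ L.length := by
  unfold psiL
  exact List.length_filter_le _ _

/-- the sum of `psiL` over a set of points -/
theorem sum_psi (φ : G → Equiv.Perm X) (S : Finset X) (L : List G) (c : ℝ) (P : Finset X)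
    (h : ∀ g ∈ L, ((P.filter fun x => (φ g).symm x ∈ S).card : ℝ) ≤ c) :
    ∑ x ∈ P, (psiL φ S L x : ℝ) ≤ L.length * c := by
  classical
  induction L with
  | nil =>
    have : ∀ x ∈ P, (psiL φ S [] x : ℝ) = 0 := by
      intro x _
      unfold psiL
      simp
    rw [sum_congr rfl this]
    simp
  | cons g L ih =>
    have h1 := ih fun g hg => h g (List.mem_cons_of_mem _ hg)
    have h2 := h g List.mem_cons_self
    have h3 : ∑ x ∈ P, (psiL φ S (g :: L) x : ℝ) =
        ((P.filter fun x => (φ g).symm x ∈ S).card : ℝ) + ∑ x ∈ P, (psiL φ S L x : ℝ) := by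
      rw [Finset.card_filter]
      push_cast
      rw [← sum_add_distrib]
      apply sum_congr rfl
      intro x _
      rw [psiL_cons]
      push_cast
      rfl
    rw [h3, List.length_cons]
    push_cast
    linarith

/-- `psiL` of the translated list -/
theorem sum_psi_map [Group G] (φ : G → Equiv.Perm X) (S : Finset X) (L : List G) (g : G)
    (c : ℝ) (h : ∀ h ∈ L, ((S.filter fun x => φ g (φ h x) ≠ φ (g * h) x).card : ℝ) ≤ c) :
    ∑ x, |(psiL φ S (L.map (g * ·)) x : ℝ) - psiL φ S L ((φ g).symm x)| ≤ L.length * (2 * c) := by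
  classical
  induction L with
  | nil =>
    have : ∀ x, |(psiL φ S (([] : List G).map (g * ·)) x : ℝ) - psiL φ S [] ((φ g).symm x)| = 0 := by
      intro x
      unfold psiL
      simp
    rw [sum_congr rfl fun x _ => this x]
    simp
  | cons a L ih =>
    have h1 := ih fun b hb => h b (List.mem_cons_of_mem _ hb)
    have h2 := h a List.mem_cons_self
    have h3 : ∀ x, |(psiL φ S ((a :: L).map (g * ·)) x : ℝ) - psiL φ S (a :: L) ((φ g).symm x)| ≤
        (if ¬((φ (g * a)).symm x ∈ S ↔ (φ a).symm ((φ g).symm x) ∈ S) then 1 else 0) +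
        |(psiL φ S (L.map (g * ·)) x : ℝ) - psiL φ S L ((φ g).symm x)| := by
      intro x
      rw [List.map_cons, psiL_cons, psiL_cons]
      push_cast
      have e : ∀ a b c d : ℝ, |(a + b) - (c + d)| ≤ |a - c| + |b - d| := by
        intro a b c d
        have : (a + b) - (c + d) = (a - c) + (b - d) := by ring
        rw [this]
        exact abs_add_le _ _
      refine (e _ _ _ _).trans ?_
      apply add_le_add_left
      by_cases p : (φ (g * a)).symm x ∈ S <;> by_cases q : (φ a).symm ((φ g).symm x) ∈ S <;>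
        simp [p, q]
    have h4 : ∑ x : X, (if ¬((φ (g * a)).symm x ∈ S ↔ (φ a).symm ((φ g).symm x) ∈ S) then (1 : ℝ)
        else 0) ≤ 2 * c := by
      have h5 : (univ.filter fun x : X =>
          ¬((φ (g * a)).symm x ∈ S ↔ (φ a).symm ((φ g).symm x) ∈ S)) ⊆
          ((S.filter fun x => φ g (φ a x) ≠ φ (g * a) x).image (φ (g * a))) ∪
          ((S.filter fun x => φ g (φ a x) ≠ φ (g * a) x).image fun x => φ g (φ a x)) := by
        intro x hx
        rw [mem_filter] at hx
        rw [mem_union, mem_image, mem_image]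
        by_cases p : (φ (g * a)).symm x ∈ S
        · left
          refine ⟨(φ (g * a)).symm x, ?_, Equiv.apply_symm_apply _ _⟩
          rw [mem_filter]
          refine ⟨p, ?_⟩
          intro hc
          rw [Equiv.apply_symm_apply] at hc
          apply hx.2
          refine ⟨fun _ => ?_, fun _ => p⟩
          have e1 : (φ a).symm ((φ g).symm x) = (φ (g * a)).symm x := by
            rw [Equiv.symm_apply_eq, Equiv.symm_apply_eq]
            exact hc.symm
          rw [e1]
          exact p
        · right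
          have q : (φ a).symm ((φ g).symm x) ∈ S := by
            by_contra q
            exact hx.2 ⟨fun h => absurd h p, fun h => absurd h q⟩
          refine ⟨(φ a).symm ((φ g).symm x), ?_, ?_⟩
          · rw [mem_filter]
            refine ⟨q, ?_⟩
            intro hc
            rw [Equiv.apply_symm_apply, Equiv.apply_symm_apply] at hc
            apply p
            have e1 : (φ (g * a)).symm x = (φ a).symm ((φ g).symm x) := by
              rw [Equiv.symm_apply_eq]
              exact hc
            rw [e1]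
            exact q
          · rw [Equiv.apply_symm_apply, Equiv.apply_symm_apply]
      have h6 := (card_le_card h5).trans (card_union_le _ _)
      have h7 : ((univ.filter fun x : X =>
          ¬((φ (g * a)).symm x ∈ S ↔ (φ a).symm ((φ g).symm x) ∈ S)).card : ℝ) ≤
          (S.filter fun x => φ g (φ a x) ≠ φ (g * a) x).card +
          (S.filter fun x => φ g (φ a x) ≠ φ (g * a) x).card := by
        refine le_trans (Nat.cast_le.2 h6) ?_
        push_cast
        apply add_le_add
        · exact Nat.cast_le.2 card_image_le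
        · exact Nat.cast_le.2 card_image_le
      rw [Finset.sum_boole]
      linarith
    have h8 := sum_le_sum fun x (_ : x ∈ (univ : Finset X)) => h3 x
    rw [sum_add_distrib] at h8
    rw [List.length_cons]
    push_cast
    linarith

theorem energy_step [Group G] (φ : G → Equiv.Perm X) (S : Finset X) (L : List G) (g : G)
    (τ η : ℝ)
    (hmul : ∀ h ∈ L, ((S.filter fun x => φ g (φ h x) ≠ φ (g * h) x).card : ℝ) ≤ τ * S.card)
    (hbad : η * (L.length : ℝ) ^ 2 * S.card <
      ∑ x, ((psiL φ S L (φ g x) : ℝ) - psiL φ S L x) ^ 2) :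
    ∑ x, (psiL φ S (L ++ L.map (g * ·)) x : ℝ) ^ 2 ≤
      4 * (∑ x, (psiL φ S L x : ℝ) ^ 2) - (η - 8 * τ) * (L.length : ℝ) ^ 2 * S.card := by
  classical
  have h1 := sum_psi_map φ S L g (τ * S.card) hmul
  have hpt : ∀ x, (psiL φ S (L ++ L.map (g * ·)) x : ℝ) ^ 2 ≤
      ((psiL φ S L x : ℝ) + psiL φ S L ((φ g).symm x)) ^ 2 +
      4 * L.length * |(psiL φ S (L.map (g * ·)) x : ℝ) - psiL φ S L ((φ g).symm x)| := by
    intro x
    rw [psiL_append]
    push_cast
    have a1 : (psiL φ S L x : ℝ) ≤ L.length := by exact_mod_cast psiL_le φ S L x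
    have b1 : (psiL φ S L ((φ g).symm x) : ℝ) ≤ L.length := by
      exact_mod_cast psiL_le φ S L ((φ g).symm x)
    have c1 : (psiL φ S (L.map (g * ·)) x : ℝ) ≤ L.length := by
      have := psiL_le φ S (L.map (g * ·)) x
      rw [List.length_map] at this
      exact_mod_cast this
    have a0 : (0 : ℝ) ≤ psiL φ S L x := Nat.cast_nonneg _
    have b0 : (0 : ℝ) ≤ psiL φ S L ((φ g).symm x) := Nat.cast_nonneg _
    have c0 : (0 : ℝ) ≤ psiL φ S (L.map (g * ·)) x := Nat.cast_nonneg _
    generalize (psiL φ S L x : ℝ) = a at *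
    generalize (psiL φ S L ((φ g).symm x) : ℝ) = b at *
    generalize (psiL φ S (L.map (g * ·)) x : ℝ) = c at *
    generalize (L.length : ℝ) = l at *
    have e1 : (a + c) ^ 2 - (a + b) ^ 2 = (c - b) * (2 * a + b + c) := by ring
    have e2 : (c - b) * (2 * a + b + c) ≤ |c - b| * (4 * l) := by
      calc (c - b) * (2 * a + b + c) ≤ |c - b| * (2 * a + b + c) :=
            mul_le_mul_of_nonneg_right (le_abs_self _) (by linarith)
        _ ≤ |c - b| * (4 * l) := mul_le_mul_of_nonneg_left (by linarith) (abs_nonneg _)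
    nlinarith
  have hsum := Finset.sum_le_sum fun x (_ : x ∈ (univ : Finset X)) => hpt x
  rw [Finset.sum_add_distrib, ← Finset.mul_sum] at hsum
  have hpar : ∑ x, ((psiL φ S L x : ℝ) + psiL φ S L ((φ g).symm x)) ^ 2 =
      4 * (∑ x, (psiL φ S L x : ℝ) ^ 2) -
        ∑ x, ((psiL φ S L (φ g x) : ℝ) - psiL φ S L x) ^ 2 := by
    have e1 : ∑ x, (psiL φ S L ((φ g).symm x) : ℝ) ^ 2 = ∑ x, (psiL φ S L x : ℝ) ^ 2 :=
      Equiv.sum_comp (φ g).symm fun x => (psiL φ S L x : ℝ) ^ 2
    have e2 : ∑ x, ((psiL φ S L x : ℝ) - psiL φ S L ((φ g).symm x)) ^ 2 =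
        ∑ x, ((psiL φ S L (φ g x) : ℝ) - psiL φ S L x) ^ 2 := by
      rw [← Equiv.sum_comp (φ g) fun x =>
        ((psiL φ S L x : ℝ) - psiL φ S L ((φ g).symm x)) ^ 2]
      apply Finset.sum_congr rfl
      intro x _
      rw [Equiv.symm_apply_apply]
    rw [← e2]
    have e3 : ∀ x, ((psiL φ S L x : ℝ) + psiL φ S L ((φ g).symm x)) ^ 2 =
        2 * (psiL φ S L x : ℝ) ^ 2 + 2 * (psiL φ S L ((φ g).symm x) : ℝ) ^ 2 -
        ((psiL φ S L x : ℝ) - psiL φ S L ((φ g).symm x)) ^ 2 := fun x => by ring
    rw [Finset.sum_congr rfl fun x _ => e3 x, Finset.sum_sub_distrib, Finset.sum_add_distrib,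
      ← Finset.mul_sum, ← Finset.mul_sum, e1]
    ring
  have hl : (0 : ℝ) ≤ L.length := Nat.cast_nonneg _
  have h2 : 4 * (L.length : ℝ) * ∑ x, |(psiL φ S (L.map (g * ·)) x : ℝ) -
      psiL φ S L ((φ g).symm x)| ≤ 4 * L.length * (L.length * (2 * (τ * S.card))) :=
    mul_le_mul_of_nonneg_left h1 (by positivity)
  rw [hpar] at hsum
  have h3 : 4 * (L.length : ℝ) * (L.length * (2 * (τ * S.card))) =
      8 * τ * (L.length : ℝ) ^ 2 * S.card := by ring
  rw [h3] at h2
  have h4 : (η - 8 * τ) * (L.length : ℝ) ^ 2 * S.card =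
      η * (L.length : ℝ) ^ 2 * S.card - 8 * τ * (L.length : ℝ) ^ 2 * S.card := by ring
  rw [h4]
  linarith

open Classical in
/-- the products of at most `i` elements of `E` -/
noncomputable def pset [Group G] (E : Finset G) : ℕ → Finset G
  | 0 => {1}
  | i + 1 => pset E i ∪ Finset.image₂ (· * ·) E (pset E i)

theorem pset_mono [Group G] (E : Finset G) {i j : ℕ} (h : i ≤ j) : pset E i ⊆ pset E j := by
  classical
  induction h with
  | refl => exact Finset.Subset.refl _
  | step _ ih =>
    refine ih.trans ?_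
    intro x hx
    rw [pset]
    exact Finset.mem_union_left _ hx

theorem card_symm (σ : Equiv.Perm X) (S : Finset X) :
    (univ.filter fun x : X => σ.symm x ∈ S).card = S.card := by
  classical
  have : (univ.filter fun x : X => σ.symm x ∈ S) = S.image σ := by
    ext x
    rw [mem_filter, mem_image]
    constructor
    · intro h
      exact ⟨σ.symm x, h.2, σ.apply_symm_apply x⟩
    · rintro ⟨y, hy, rfl⟩
      exact ⟨mem_univ _, by rw [σ.symm_apply_apply]; exact hy⟩
  rw [this, card_image_of_injective _ σ.injective]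

theorem energy {G : Type} [Group G] (E : Finset G) (η : ℝ) (hη : 0 < η) :
    ∃ (ET : Finset G) (τ : ℝ), 0 < τ ∧ ∀ (X : Type) [Fintype X] [DecidableEq X]
      (φ : G → Equiv.Perm X) (S : Finset X),
      (∀ g ∈ ET, ∀ h ∈ ET,
        ((S.filter fun x => φ g (φ h x) ≠ φ (g * h) x).card : ℝ) ≤ τ * S.card) →
      ∃ L : List G, (∀ g ∈ L, g ∈ ET) ∧ 4 ∣ L.length ∧ 0 < L.length ∧
        ∀ g ∈ E, ∑ x, ((psiL φ S L (φ g x) : ℝ) - psiL φ S L x) ^ 2 ≤
          η * (L.length : ℝ) ^ 2 * S.card := by
  classical
  obtain ⟨T, hT⟩ := exists_nat_gt (8 / η)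
  refine ⟨pset E T ∪ E, η / 16, by positivity, ?_⟩
  intro X _ _ φ S hmul
  have hPE : ∀ {i}, i ≤ T → ∀ g ∈ pset E i, g ∈ pset E T ∪ E := fun h g hg =>
    mem_union_left _ (pset_mono E h hg)
  by_cases hS : S.card = 0
  · refine ⟨[1, 1, 1, 1], ?_, ⟨1, rfl⟩, by norm_num, ?_⟩
    · intro g hg
      have : g = 1 := by simpa using hg
      rw [this]
      exact hPE (Nat.zero_le T) 1 (by rw [pset]; exact mem_singleton_self _)
    · intro g _
      have hS' : S = ∅ := card_eq_zero.1 hS
      subst hS'
      have : ∀ L x, psiL φ (∅ : Finset X) L x = 0 := by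
        intro L x
        unfold psiL
        simp
      simp [this]
  have hSpos : (0 : ℝ) < S.card := by exact_mod_cast Nat.pos_of_ne_zero hS
  by_contra hcon
  push Not at hcon
  have key : ∀ i, i ≤ T → ∃ L : List G, (∀ g ∈ L, g ∈ pset E i) ∧ 4 ∣ L.length ∧
      0 < L.length ∧ ∑ x, (psiL φ S L x : ℝ) ^ 2 ≤
        (1 - i * (η / 8)) * (L.length : ℝ) ^ 2 * S.card := by
    intro i
    induction i with
    | zero =>
      intro _
      refine ⟨[1, 1, 1, 1], ?_, ⟨1, rfl⟩, by norm_num, ?_⟩
      · intro g hg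
        have : g = 1 := by simpa using hg
        rw [this]
        rw [pset]
        exact mem_singleton_self _
      · have e1 : ∀ x, (psiL φ S [1, 1, 1, 1] x : ℝ) ^ 2 =
            if (φ 1).symm x ∈ S then (16 : ℝ) else 0 := by
          intro x
          rw [psiL_cons, psiL_cons, psiL_cons, psiL_cons]
          have e0 : psiL φ S [] x = 0 := rfl
          rw [e0]
          by_cases h : (φ 1).symm x ∈ S
          · simp only [if_pos h]
            norm_num
          · simp only [if_neg h]
            norm_num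
        rw [Finset.sum_congr rfl fun x _ => e1 x, ← Finset.sum_filter, Finset.sum_const,
          card_symm, nsmul_eq_mul]
        have e2 : (([1, 1, 1, 1] : List G).length : ℝ) = 4 := by norm_num
        rw [e2]
        push_cast
        linarith
    | succ i ih =>
      intro hi
      obtain ⟨L, hL1, hL2, hL3, hL4⟩ := ih (by omega)
      obtain ⟨g, hgE, hg⟩ := hcon L (fun g hg => hPE (by omega) g (hL1 g hg)) hL2 hL3
      have hstep := energy_step φ S L g (η / 16) η
        (fun h hh => hmul g (mem_union_right _ hgE) h (hPE (by omega) h (hL1 h hh))) hg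
      refine ⟨L ++ L.map (g * ·), ?_, ?_, ?_, ?_⟩
      · intro h hh
        rw [List.mem_append] at hh
        rw [pset]
        rcases hh with hh | hh
        · exact mem_union_left _ (hL1 h hh)
        · obtain ⟨a, ha, rfl⟩ := List.mem_map.1 hh
          exact mem_union_right _ (mem_image₂_of_mem hgE (hL1 a ha))
      · rw [List.length_append, List.length_map]
        exact dvd_add hL2 hL2
      · rw [List.length_append]
        omega
      · refine hstep.trans ?_
        rw [List.length_append, List.length_map]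
        push_cast
        nlinarith
  obtain ⟨L, _, _, hL3, hL4⟩ := key T le_rfl
  have h1 : (0 : ℝ) ≤ ∑ x, (psiL φ S L x : ℝ) ^ 2 := Finset.sum_nonneg fun _ _ => sq_nonneg _
  have h2 : 1 - (T : ℝ) * (η / 8) < 0 := by
    have := (div_lt_iff₀ hη).1 hT
    linarith
  have h3 : (0 : ℝ) < (L.length : ℝ) ^ 2 * S.card := by
    have : (0 : ℝ) < L.length := by exact_mod_cast hL3
    positivity
  have h4 : (1 - (T : ℝ) * (η / 8)) * (L.length : ℝ) ^ 2 * S.card < 0 := by
    rw [mul_assoc]
    exact mul_neg_of_neg_of_pos h2 h3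
  linarith

end Pool.Agent.IRS
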