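import Pool.Agent.IRS.CovFinal
import Pool.Agent.IRS.PrecEn
import Pool.Agent.IRS.PrecCov
import Pool.Agent.IRS.PrecMod

/-!
Flexible stability of `SL_k(ℤ)`, `k ≥ 3`: it is enough that a positive part of every sofic
approximation of `PSL_k(ℤ)` is covered by finite `PSL_k(ℤ)`-sets with a fixed precision.
-/

set_option autoImplicit false
open Filter Topology Finset

namespace Pool.Agent.IRS

open Pool.Agent.FS84 (AlmostHom PartlyModelled FlexStable HasNear)

theorem roughly_of_covered {G : Type} [Group G] (hG : HasNear G)
    {f : (n : ℕ) → G → Equiv.Perm (Fin n)} (h : RoughlyCovered f) : RoughlyModelled f :=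
  roughly_of_covered_of (fun E η hη => near_exact E η hη) hG h

theorem modelled_of_roughly {G : Type} [Group G] {f : (n : ℕ) → G → Equiv.Perm (Fin n)}
    (hf : AlmostHom f) (h : RoughlyModelled f) : PartlyModelled f :=
  modelled_of_roughly_of (fun E η hη => near_exact E η hη) hf h

theorem flexStable_iff_roughly (k : ℕ) (hk : 3 ≤ k) :
    FlexStable (Matrix.SpecialLinearGroup (Fin k) ℤ) ↔
    ∀ f : (n : ℕ) → Matrix.ProjectiveSpecialLinearGroup (Fin k) ℤ → Equiv.Perm (Fin n),
      SoficApprox f → RoughlyCovered f := by
  rw [flexStable_iff_sofic_approximations k hk]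
  constructor
  · intro h f hf
    exact roughlyCovered_of_covered (covered_of_modelled (h f hf))
  · intro h f hf
    exact modelled_of_roughly hf.1 (roughly_of_covered (hasNear_psl k hk) (h f hf))

end Pool.Agent.IRS
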