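import Pool.Agent.IRS.PrecDefs

/-!
`near_exact` from the energy decrement and the threshold lemma (hypotheses here).
-/

set_option autoImplicit false
open Finset

namespace Pool.Agent.IRS

/-- [PREC En3] from energy and threshold -/
theorem near_exact_of {G : Type} [Group G]
    (energy : ∀ (E : Finset G) (η : ℝ), 0 < η →
      ∃ (ET : Finset G) (τ : ℝ), 0 < τ ∧ ∀ (X : Type) [Fintype X] [DecidableEq X]
        (φ : G → Equiv.Perm X) (S : Finset X),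
        (∀ g ∈ ET, ∀ h ∈ ET,
          ((S.filter fun x => φ g (φ h x) ≠ φ (g * h) x).card : ℝ) ≤ τ * S.card) →
        ∃ L : List G, (∀ g ∈ L, g ∈ ET) ∧ 4 ∣ L.length ∧ 0 < L.length ∧
          ∀ g ∈ E, ∑ x, ((psiL φ S L (φ g x) : ℝ) - psiL φ S L x) ^ 2 ≤
            η * (L.length : ℝ) ^ 2 * S.card)
    (threshold : ∀ (X : Type) [Fintype X] [DecidableEq X] (φ : G → Equiv.Perm X) (S : Finset X)
      (E : Finset G) (L : List G), 4 ∣ L.length → 0 < L.length → ∀ (η₀ η : ℝ), 0 ≤ η →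
      (∀ g ∈ L, ((S.filter fun x => φ g x ∉ S).card : ℝ) ≤ η₀ * S.card) →
      (∀ g ∈ E, ∑ x, ((psiL φ S L (φ g x) : ℝ) - psiL φ S L x) ^ 2 ≤
        η * (L.length : ℝ) ^ 2 * S.card) →
      ∃ S' : Finset X, (∀ x ∈ S', L.length < 2 * psiL φ S L x) ∧
        ((S \ S').card + (S' \ S).card : ℝ) ≤ 6 * η₀ * S.card ∧
        ∀ g ∈ E, ((S'.filter fun x => φ g x ∉ S').card : ℝ) ≤
          12 * E.card * Real.sqrt η * S.card)
    (E : Finset G) (η : ℝ) (hη : 0 < η) :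
    ∃ (ET : Finset G) (τ : ℝ), 0 < τ ∧ ∀ (X : Type) [Fintype X] [DecidableEq X]
      (φ : G → Equiv.Perm X) (S : Finset X) (η₀ : ℝ),
      (∀ g ∈ ET, ∀ h ∈ ET,
        ((S.filter fun x => φ g (φ h x) ≠ φ (g * h) x).card : ℝ) ≤ τ * S.card) →
      (∀ g ∈ ET, ((S.filter fun x => φ g x ∉ S).card : ℝ) ≤ η₀ * S.card) →
      ∃ (L : List G) (S' : Finset X), (∀ x ∈ S', L.length < 2 * psiL φ S L x) ∧
        ((S \ S').card + (S' \ S).card : ℝ) ≤ 6 * η₀ * S.card ∧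
        ∀ g ∈ E, ((S'.filter fun x => φ g x ∉ S').card : ℝ) ≤ η * S.card := by
  have hc : (0 : ℝ) ≤ E.card := Nat.cast_nonneg _
  have hd : (0 : ℝ) < 12 * E.card + 12 := by positivity
  obtain ⟨ET, τ, hτ, h⟩ := energy E ((η / (12 * E.card + 12)) ^ 2) (by positivity)
  refine ⟨ET, τ, hτ, ?_⟩
  intro X _ _ φ S η₀ hmul h0
  obtain ⟨L, hL, h4, hL0, hE⟩ := h X φ S hmul
  obtain ⟨S', h1, h2, h3⟩ := threshold X φ S E L h4 hL0 η₀ ((η / (12 * E.card + 12)) ^ 2)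
    (by positivity) (fun g hg => h0 g (hL g hg)) hE
  refine ⟨L, S', h1, h2, fun g hg => (h3 g hg).trans ?_⟩
  rw [Real.sqrt_sq (by positivity)]
  refine mul_le_mul_of_nonneg_right ?_ (Nat.cast_nonneg _)
  rw [mul_div_assoc', div_le_iff₀ hd]
  nlinarith

end Pool.Agent.IRS
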