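import Pool.Agent.IRS.Defs

/-!
Almost-homomorphisms of `SL_k(ℤ)`: all transvections move almost all points (module TransB).
-/

set_option autoImplicit false
open Filter Topology Finset

namespace Pool.Agent.IRS

open Pool.Agent.TAU (SL el IsEl ElProd Cong InBlock)
open Pool.Agent.FS84 (AlmostHom Aperiodic PartlyModelled FlexStable)

theorem tr_single {k : ℕ} (p q : Fin k) (h : p ≠ q)
    (h' : (Pi.single q 1 : Fin k → ℤ) ⬝ᵥ (Pi.single p 1 : Fin k → ℤ) = 0) (T : ℤ) :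
    tr (Pi.single p 1) (Pi.single q 1) h' T = el p q h T := by
  apply Subtype.ext
  change (1 : Matrix (Fin k) (Fin k) ℤ) + Matrix.vecMulVec (T • Pi.single p 1) (Pi.single q 1) =
    Matrix.transvection p q T
  rw [Matrix.transvection]
  congr 1
  ext a b
  rw [Matrix.vecMulVec_apply, Pi.smul_apply, smul_eq_mul, Matrix.single_apply, Pi.single_apply,
    Pi.single_apply]
  by_cases h1 : a = p
  · by_cases h2 : b = q
    · simp [h1, h2]
    · simp [h1, h2, Ne.symm h2]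
  · simp [h1, Ne.symm h1]

theorem exists_vec {k : ℕ} (hk : 3 ≤ k) (φ : Fin k → ℤ) (q : Fin k) :
    ∃ v : Fin k → ℤ, v ≠ 0 ∧ φ ⬝ᵥ v = 0 ∧ v q = 0 := by
  obtain ⟨a, b, ha, hb, hab⟩ : ∃ a b : Fin k, a ≠ q ∧ b ≠ q ∧ a ≠ b := by
    obtain ⟨s, hs⟩ : ∃ s : Finset (Fin k), s = univ.erase q := ⟨_, rfl⟩
    have hcard : 1 < s.card := by
      rw [hs, Finset.card_erase_of_mem (Finset.mem_univ q), Finset.card_univ, Fintype.card_fin]
      omega
    obtain ⟨a, ha, b, hb, hab⟩ := Finset.one_lt_card.1 hcard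
    rw [hs, Finset.mem_erase] at ha hb
    exact ⟨a, b, ha.1, hb.1, hab⟩
  by_cases h : φ a = 0
  · refine ⟨Pi.single a 1, ?_, ?_, ?_⟩
    · intro h2
      have := congrFun h2 a
      simp at this
    · rw [dotProduct_single, h, zero_mul]
    · rw [Pi.single_eq_of_ne ha.symm]
  · refine ⟨Pi.single a (φ b) - Pi.single b (φ a), ?_, ?_, ?_⟩
    · intro h2
      have := congrFun h2 b
      rw [Pi.sub_apply, Pi.single_eq_of_ne hab.symm, Pi.single_eq_same, Pi.zero_apply] at this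
      exact h (by linarith)
    · rw [dotProduct_sub, dotProduct_single, dotProduct_single]
      ring
    · rw [Pi.sub_apply, Pi.single_eq_of_ne ha.symm, Pi.single_eq_of_ne hb.symm, sub_zero]

/-- [IRS TransB], the other modules as hypotheses -/
theorem tr_small_of (k : ℕ) (hk : 3 ≤ k) (f : (n : ℕ) → SL k → Equiv.Perm (Fin n))
    (ha : Aperiodic f)
    (hleft : ∀ (u v φ : Fin k → ℤ) (hu : φ ⬝ᵥ u = 0) (hv : φ ⬝ᵥ v = 0), u ≠ 0 → v ≠ 0 →
      ∀ M : ℤ, M ≠ 0 → ∀ ε : ℝ, 0 < ε →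
      ∃ M' : ℤ, M' ≠ 0 ∧ ∀ c : ℤ, Link f (tr u φ hu M) (tr v φ hv (M' * c)) ε)
    (hright : ∀ (u φ χ : Fin k → ℤ) (h : φ ⬝ᵥ u = 0) (h' : χ ⬝ᵥ u = 0), φ ≠ 0 → χ ≠ 0 →
      ∀ M : ℤ, M ≠ 0 → ∀ ε : ℝ, 0 < ε →
      ∃ M' : ℤ, M' ≠ 0 ∧ ∀ c : ℤ, Link f (tr u φ h M) (tr u χ h' (M' * c)) ε)
    (htrans : ∀ (g h l : SL k) (ε ε' : ℝ), Link f g h ε → Link f h l ε' → Link f g l (ε + ε'))
    (hsmall : ∀ (g : SL k) (C : ℕ), (∀ ε : ℝ, 0 < ε → ∃ S : Finset (SL k), S.card ≤ C ∧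
      (∀ s ∈ S, Link f g s ε) ∧
      Tendsto (fun n : ℕ => ((univ.filter fun x : Fin n => ∀ s ∈ S, f n s x = x).card : ℝ) / n)
        atTop (𝓝 0)) → Small f g)
    (hfin : ∀ m : ℤ, m ≠ 0 → ∀ K : Subgroup (SL k),
      (∀ (i j : Fin k) (h : i ≠ j), el i j h m ∈ K) → K.FiniteIndex)
    (u φ : Fin k → ℤ) (h : φ ⬝ᵥ u = 0) (hu : u ≠ 0)
    (hφ : φ ≠ 0) (t : ℤ) (ht : t ≠ 0) : Small f (tr u φ h t) := by
  classical
  have hsing : ∀ p : Fin k, (Pi.single p 1 : Fin k → ℤ) ≠ 0 := by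
    intro p h2
    have := congrFun h2 p
    simp at this
  apply hsmall _ (k * k)
  intro ε hε
  have hε3 : 0 < ε / 3 := by linarith
  -- one pair
  have hone : ∀ pq : {pq : Fin k × Fin k // pq.1 ≠ pq.2}, ∃ M : ℤ, M ≠ 0 ∧
      ∀ c : ℤ, Link f (tr u φ h t) (el pq.1.1 pq.1.2 pq.2 (M * c)) ε := by
    rintro ⟨⟨p, q⟩, hpq⟩
    obtain ⟨v, v0, hφv, hvq⟩ := exists_vec hk φ q
    have hqv : (Pi.single q 1 : Fin k → ℤ) ⬝ᵥ v = 0 := by
      rw [single_dotProduct, hvq, mul_zero]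
    have hqp : (Pi.single q 1 : Fin k → ℤ) ⬝ᵥ (Pi.single p 1 : Fin k → ℤ) = 0 := by
      rw [single_dotProduct, Pi.single_eq_of_ne hpq.symm, mul_zero]
    obtain ⟨M1, hM1, hL1⟩ := hleft u v φ h hφv hu v0 t ht (ε / 3) hε3
    obtain ⟨M2, hM2, hL2⟩ := hright v φ (Pi.single q 1) hφv hqv hφ (hsing q) (M1 * 1)
      (by rw [mul_one]; exact hM1) (ε / 3) hε3
    obtain ⟨M3, hM3, hL3⟩ := hleft v (Pi.single p 1) (Pi.single q 1) hqv hqp v0 (hsing p)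
      (M2 * 1) (by rw [mul_one]; exact hM2) (ε / 3) hε3
    refine ⟨M3, hM3, fun c => ?_⟩
    have h1 := htrans _ _ _ _ _ (htrans _ _ _ _ _ (hL1 1) (hL2 1)) (hL3 c)
    rw [tr_single p q hpq hqp] at h1
    have h2 : ε / 3 + ε / 3 + ε / 3 = ε := by ring
    rw [h2] at h1
    exact h1
  choose Mf hMf hLf using hone
  obtain ⟨M, hM⟩ : ∃ M : ℤ, M = ∏ pq, Mf pq := ⟨_, rfl⟩
  have hM0 : M ≠ 0 := by
    rw [hM]
    exact Finset.prod_ne_zero_iff.2 fun pq _ => hMf pq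
  have hdvd : ∀ pq, ∃ c, M = Mf pq * c := by
    intro pq
    rw [hM]
    exact Finset.dvd_prod_of_mem Mf (Finset.mem_univ pq)
  refine ⟨(univ : Finset {pq : Fin k × Fin k // pq.1 ≠ pq.2}).image
    (fun pq => el pq.1.1 pq.1.2 pq.2 M), ?_, ?_, ?_⟩
  · refine Finset.card_image_le.trans ?_
    rw [Finset.card_univ]
    refine (Fintype.card_subtype_le _).trans ?_
    rw [Fintype.card_prod, Fintype.card_fin]
  · intro s hs
    rw [Finset.mem_image] at hs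
    obtain ⟨pq, _, rfl⟩ := hs
    obtain ⟨c, hc⟩ := hdvd pq
    rw [hc]
    exact hLf pq c
  · apply ha
    apply hfin M hM0
    intro i j hij
    apply Subgroup.subset_closure
    rw [Finset.mem_coe, Finset.mem_image]
    exact ⟨⟨(i, j), hij⟩, Finset.mem_univ _, rfl⟩

end Pool.Agent.IRS
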