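import Pool.Agent.IRS.TransA
import Pool.Agent.IRS.TransB
import Pool.Agent.IRS.FinIndex

/-!
In an aperiodic almost-homomorphism of `SL_k(ℤ)`, `k ≥ 3`, a transvection fixes only `o(n)` points.
-/

set_option autoImplicit false
open Filter Topology Finset

namespace Pool.Agent.IRS

open Pool.Agent.TAU (SL el IsEl ElProd Cong InBlock)
open Pool.Agent.FS84 (AlmostHom Aperiodic PartlyModelled FlexStable)

theorem tr_small (k : ℕ) (hk : 3 ≤ k) (f : (n : ℕ) → SL k → Equiv.Perm (Fin n))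
    (hf : AlmostHom f) (ha : Aperiodic f) (u φ : Fin k → ℤ) (h : φ ⬝ᵥ u = 0) (hu : u ≠ 0)
    (hφ : φ ≠ 0) (t : ℤ) (ht : t ≠ 0) : Small f (tr u φ h t) := by
  classical
  exact tr_small_of k hk f ha
    (fun u v φ hu hv u0 v0 M hM ε hε => link_left hf u v φ hu hv u0 v0 M hM ε hε)
    (fun u φ χ h h' φ0 χ0 M hM ε hε => link_right hf u φ χ h h' φ0 χ0 M hM ε hε)
    (fun g h l ε ε' h1 h2 => h1.trans h2)
    (fun g C hS => small_of_link g C hS)
    (fun m hm K hK => finiteIndex_of_el k hk m hm K hK) u φ h hu hφ t ht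

end Pool.Agent.IRS
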