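import Pool.Agent.IRS.Defs

/-!
Transvections `1 + t u φᵀ`: powers, commutators, and the links between transvections with the same
`u` or the same `φ`, from the counting lemma (a hypothesis here).
-/

set_option autoImplicit false
open Filter Topology Finset

namespace Pool.Agent.IRS

open Pool.Agent.TAU (SL el IsEl ElProd Cong InBlock)

variable {k : ℕ}

theorem tr_val (u φ : Fin k → ℤ) (h : φ ⬝ᵥ u = 0) (t : ℤ) :
    (tr u φ h t).1 = 1 + t • Matrix.vecMulVec u φ := by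
  show 1 + Matrix.vecMulVec (t • u) φ = _
  rw [Matrix.smul_vecMulVec]

theorem vmv_mul (a b c d : Fin k → ℤ) : Matrix.vecMulVec a b * Matrix.vecMulVec c d
    = (b ⬝ᵥ c) • Matrix.vecMulVec a d := by
  rw [Matrix.vecMulVec_mul_vecMulVec, Matrix.vecMulVec_smul]

theorem tr_mul (u φ : Fin k → ℤ) (h : φ ⬝ᵥ u = 0) (s t : ℤ) :
    tr u φ h s * tr u φ h t = tr u φ h (s + t) := by
  apply Subtype.ext
  show (tr u φ h s).1 * (tr u φ h t).1 = (tr u φ h (s + t)).1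
  rw [tr_val, tr_val, tr_val]
  simp only [mul_add, add_mul, mul_one, one_mul, smul_mul_smul_comm, vmv_mul, h, zero_smul,
    smul_zero, add_smul, add_zero]
  abel

theorem tr_zero (u φ : Fin k → ℤ) (h : φ ⬝ᵥ u = 0) : tr u φ h 0 = 1 := by
  apply Subtype.ext
  rw [tr_val, zero_smul, add_zero]
  rfl

theorem tr_inv (u φ : Fin k → ℤ) (h : φ ⬝ᵥ u = 0) (t : ℤ) :
    (tr u φ h t)⁻¹ = tr u φ h (-t) := by
  rw [inv_eq_iff_mul_eq_one, tr_mul, add_neg_cancel, tr_zero]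

theorem tr_pow (u φ : Fin k → ℤ) (h : φ ⬝ᵥ u = 0) (t : ℤ) (n : ℕ) :
    tr u φ h t ^ n = tr u φ h (n * t) := by
  induction n with
  | zero => simp [tr_zero]
  | succ n ih =>
    rw [pow_succ, ih, tr_mul]
    congr 1
    push_cast
    ring

theorem tr_zpow (u φ : Fin k → ℤ) (h : φ ⬝ᵥ u = 0) (t s : ℤ) :
    tr u φ h t ^ s = tr u φ h (s * t) := by
  rcases s with n | n
  · rw [Int.ofNat_eq_natCast, zpow_natCast, tr_pow]
  · rw [zpow_negSucc, tr_pow, tr_inv]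
    congr 1
    rw [Int.negSucc_eq]
    push_cast
    ring

theorem tr_par_left (u v φ : Fin k → ℤ) (hu : φ ⬝ᵥ u = 0) (hv : φ ⬝ᵥ v = 0) (a b : ℤ)
    (hab : a • u = b • v) (t : ℤ) : tr u φ hu (t * a) = tr v φ hv (t * b) := by
  apply Subtype.ext
  rw [tr_val, tr_val, mul_smul, mul_smul, ← Matrix.smul_vecMulVec a, hab, Matrix.smul_vecMulVec]

theorem tr_par_right (u φ χ : Fin k → ℤ) (h : φ ⬝ᵥ u = 0) (h' : χ ⬝ᵥ u = 0) (a b : ℤ)
    (hab : a • φ = b • χ) (t : ℤ) : tr u φ h (t * a) = tr u χ h' (t * b) := by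
  apply Subtype.ext
  rw [tr_val, tr_val, mul_smul, mul_smul, ← Matrix.vecMulVec_smul a, hab, Matrix.vecMulVec_smul]

/-- two nonzero vectors are parallel or separated by a functional -/
theorem par_or (u v : Fin k → ℤ) (u0 : u ≠ 0) (v0 : v ≠ 0) :
    (∃ a b : ℤ, a ≠ 0 ∧ b ≠ 0 ∧ a • u = b • v) ∨
      ∃ ψ : Fin k → ℤ, ψ ⬝ᵥ v = 0 ∧ ψ ⬝ᵥ u ≠ 0 := by
  by_cases hp : ∀ p q, u p * v q = u q * v p
  · left
    obtain ⟨q, hq⟩ := Function.ne_iff.1 v0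
    rw [Pi.zero_apply] at hq
    refine ⟨v q, u q, hq, ?_, ?_⟩
    · intro h0
      apply u0
      funext p
      have h1 := hp p q
      rw [h0, zero_mul] at h1
      exact (mul_eq_zero.1 h1).resolve_right hq
    · funext p
      rw [Pi.smul_apply, Pi.smul_apply, smul_eq_mul, smul_eq_mul]
      have h1 := hp p q
      linarith
  · right
    push Not at hp
    obtain ⟨p, q, hpq⟩ := hp
    refine ⟨Pi.single q (v p) - Pi.single p (v q), ?_, ?_⟩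
    · rw [sub_dotProduct, single_dotProduct, single_dotProduct]
      ring
    · rw [sub_dotProduct, single_dotProduct, single_dotProduct]
      intro h0
      apply hpq
      linarith

theorem comm_left (u v φ ψ : Fin k → ℤ) (hu : φ ⬝ᵥ u = 0) (hv : φ ⬝ᵥ v = 0) (hψ : ψ ⬝ᵥ v = 0)
    (s t : ℤ) : tr u φ hu s * tr v ψ hψ t * (tr u φ hu s)⁻¹ * (tr v ψ hψ t)⁻¹
      = tr v φ hv (-(s * t * (ψ ⬝ᵥ u))) := by
  rw [mul_inv_eq_iff_eq_mul, mul_inv_eq_iff_eq_mul]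
  apply Subtype.ext
  show (tr u φ hu s).1 * (tr v ψ hψ t).1
    = (tr v φ hv (-(s * t * (ψ ⬝ᵥ u)))).1 * (tr v ψ hψ t).1 * (tr u φ hu s).1
  rw [tr_val, tr_val, tr_val]
  simp only [mul_add, add_mul, mul_one, one_mul, smul_mul_smul_comm, vmv_mul, hu, hv, hψ, zero_smul,
    smul_zero, add_zero, smul_smul]
  module

theorem comm_right (u x φ χ : Fin k → ℤ) (h : φ ⬝ᵥ u = 0) (h' : χ ⬝ᵥ u = 0) (hx : χ ⬝ᵥ x = 0)
    (s t : ℤ) : tr u φ h s * tr x χ hx t * (tr u φ h s)⁻¹ * (tr x χ hx t)⁻¹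
      = tr u χ h' (s * t * (φ ⬝ᵥ x)) := by
  rw [mul_inv_eq_iff_eq_mul, mul_inv_eq_iff_eq_mul]
  apply Subtype.ext
  show (tr u φ h s).1 * (tr x χ hx t).1
    = (tr u χ h' (s * t * (φ ⬝ᵥ x))).1 * (tr x χ hx t).1 * (tr u φ h s).1
  rw [tr_val, tr_val, tr_val]
  simp only [mul_add, add_mul, mul_one, one_mul, smul_mul_smul_comm, vmv_mul, h, h', hx, zero_smul,
    smul_zero, add_zero, smul_smul]
  module

theorem link_mono_a {G : Type} {f : (n : ℕ) → G → Equiv.Perm (Fin n)} {g h : G} {ε ε' : ℝ}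
    (h1 : Link f g h ε) (hε : ε ≤ ε') : Link f g h ε' := by
  unfold Link at *
  filter_upwards [h1] with n hn
  exact hn.trans (mul_le_mul_of_nonneg_right hε (Nat.cast_nonneg n))

theorem exists_N (ε : ℝ) (hε : 0 < ε) : ∃ N : ℕ, 0 < N ∧ (1 : ℝ) / N + ε / 2 ≤ ε := by
  obtain ⟨n, hn⟩ := exists_nat_gt (2 / ε)
  have h0 : (0 : ℝ) < n := lt_trans (by positivity) hn
  refine ⟨n, by exact_mod_cast h0, ?_⟩
  have h1 : (1 : ℝ) / n ≤ ε / 2 := by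
    rw [div_le_iff₀ h0]
    have h2 : 2 < n * ε := (div_lt_iff₀ hε).1 hn
    linarith
  linarith

/-- the factorials: `h` is a power of all the commutators -/
theorem exists_pow (u φ : Fin k → ℤ) (h : φ ⬝ᵥ u = 0) (D c : ℤ) (N t : ℕ) (ht : 0 < t)
    (htN : t < N) : ∃ s : ℤ, tr u φ h (((N - 1).factorial : ℤ) * D * c)
      = tr u φ h (t * D) ^ s := by
  obtain ⟨q, hq⟩ : t ∣ (N - 1).factorial := Nat.dvd_factorial ht (by omega)
  refine ⟨q * c, ?_⟩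
  rw [tr_zpow, hq]
  congr 1
  push_cast
  ring

theorem link_left_of {f : (n : ℕ) → SL k → Equiv.Perm (Fin n)}
    (hcount : ∀ (g h w : SL k) (N : ℕ), 0 < N →
      (∀ t : ℕ, 0 < t → t < N → ∃ s : ℤ, h = (g * w ^ t * g⁻¹ * (w ^ t)⁻¹) ^ s) →
      ∀ ε : ℝ, 0 < ε → Link f g h (1 / N + ε))
    (hzpow : ∀ (g : SL k) (s : ℤ) (ε : ℝ), 0 < ε → Link f g (g ^ s) ε)
    (u v φ : Fin k → ℤ) (hu : φ ⬝ᵥ u = 0) (hv : φ ⬝ᵥ v = 0) (u0 : u ≠ 0) (v0 : v ≠ 0)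
    (M : ℤ) (hM : M ≠ 0) (ε : ℝ) (hε : 0 < ε) :
    ∃ M' : ℤ, M' ≠ 0 ∧ ∀ c : ℤ, Link f (tr u φ hu M) (tr v φ hv (M' * c)) ε := by
  rcases par_or u v u0 v0 with ⟨a, b, ha, hb, hab⟩ | ⟨ψ, hψ, hP⟩
  · refine ⟨M * b, mul_ne_zero hM hb, ?_⟩
    intro c
    have h1 := tr_par_left u v φ hu hv a b hab (M * c)
    have h2 : tr v φ hv (M * b * c) = tr u φ hu M ^ (a * c) := by
      rw [tr_zpow, show M * b * c = M * c * b by ring, ← h1]
      congr 1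
      ring
    rw [h2]
    exact hzpow _ _ _ hε
  · obtain ⟨N, hN, hNε⟩ := exists_N ε hε
    refine ⟨((N - 1).factorial : ℤ) * (-(M * (ψ ⬝ᵥ u))), ?_, ?_⟩
    · refine mul_ne_zero (by exact_mod_cast Nat.factorial_ne_zero _) (neg_ne_zero.2 ?_)
      exact mul_ne_zero hM hP
    · intro c
      refine link_mono_a (hcount (tr u φ hu M) _ (tr v ψ hψ 1) N hN ?_ (ε / 2) (by linarith)) hNε
      intro t ht htN
      obtain ⟨s, hs⟩ := exists_pow v φ hv (-(M * (ψ ⬝ᵥ u))) c N t ht htN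
      refine ⟨s, ?_⟩
      rw [hs, tr_pow, comm_left u v φ ψ hu hv hψ]
      congr 2
      ring

theorem link_right_of {f : (n : ℕ) → SL k → Equiv.Perm (Fin n)}
    (hcount : ∀ (g h w : SL k) (N : ℕ), 0 < N →
      (∀ t : ℕ, 0 < t → t < N → ∃ s : ℤ, h = (g * w ^ t * g⁻¹ * (w ^ t)⁻¹) ^ s) →
      ∀ ε : ℝ, 0 < ε → Link f g h (1 / N + ε))
    (hzpow : ∀ (g : SL k) (s : ℤ) (ε : ℝ), 0 < ε → Link f g (g ^ s) ε)
    (u φ χ : Fin k → ℤ) (h : φ ⬝ᵥ u = 0) (h' : χ ⬝ᵥ u = 0) (φ0 : φ ≠ 0) (χ0 : χ ≠ 0)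
    (M : ℤ) (hM : M ≠ 0) (ε : ℝ) (hε : 0 < ε) :
    ∃ M' : ℤ, M' ≠ 0 ∧ ∀ c : ℤ, Link f (tr u φ h M) (tr u χ h' (M' * c)) ε := by
  rcases par_or φ χ φ0 χ0 with ⟨a, b, ha, hb, hab⟩ | ⟨x, hx, hP⟩
  · refine ⟨M * b, mul_ne_zero hM hb, ?_⟩
    intro c
    have h1 := tr_par_right u φ χ h h' a b hab (M * c)
    have h2 : tr u χ h' (M * b * c) = tr u φ h M ^ (a * c) := by
      rw [tr_zpow, show M * b * c = M * c * b by ring, ← h1]
      congr 1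
      ring
    rw [h2]
    exact hzpow _ _ _ hε
  · rw [dotProduct_comm] at hx hP
    obtain ⟨N, hN, hNε⟩ := exists_N ε hε
    refine ⟨((N - 1).factorial : ℤ) * (M * (φ ⬝ᵥ x)), ?_, ?_⟩
    · exact mul_ne_zero (by exact_mod_cast Nat.factorial_ne_zero _) (mul_ne_zero hM hP)
    · intro c
      refine link_mono_a (hcount (tr u φ h M) _ (tr x χ hx 1) N hN ?_ (ε / 2) (by linarith)) hNε
      intro t ht htN
      obtain ⟨s, hs⟩ := exists_pow u χ h' (M * (φ ⬝ᵥ x)) c N t ht htN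
      refine ⟨s, ?_⟩
      rw [hs, tr_pow, comm_right u x φ χ h h' hx]
      congr 2
      ring

end Pool.Agent.IRS
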