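import Pool.Agent.IRS.Count
import Pool.Agent.IRS.TransA0

/-!
Links between transvections with the same `u` or the same `φ`.
-/

set_option autoImplicit false
open Filter Topology Finset

namespace Pool.Agent.IRS

open Pool.Agent.TAU (SL el IsEl ElProd Cong InBlock)
open Pool.Agent.FS84 (AlmostHom Aperiodic PartlyModelled FlexStable)

theorem link_left {k : ℕ} {f : (n : ℕ) → SL k → Equiv.Perm (Fin n)} (hf : AlmostHom f)
    (u v φ : Fin k → ℤ) (hu : φ ⬝ᵥ u = 0) (hv : φ ⬝ᵥ v = 0) (u0 : u ≠ 0) (v0 : v ≠ 0)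
    (M : ℤ) (hM : M ≠ 0) (ε : ℝ) (hε : 0 < ε) :
    ∃ M' : ℤ, M' ≠ 0 ∧ ∀ c : ℤ, Link f (tr u φ hu M) (tr v φ hv (M' * c)) ε :=
  link_left_of (fun g h w N hN hw ε hε => count hf g h w N hN hw ε hε)
    (fun g s ε hε => link_zpow hf g s ε hε) u v φ hu hv u0 v0 M hM ε hε

theorem link_right {k : ℕ} {f : (n : ℕ) → SL k → Equiv.Perm (Fin n)} (hf : AlmostHom f)
    (u φ χ : Fin k → ℤ) (h : φ ⬝ᵥ u = 0) (h' : χ ⬝ᵥ u = 0) (φ0 : φ ≠ 0) (χ0 : χ ≠ 0)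
    (M : ℤ) (hM : M ≠ 0) (ε : ℝ) (hε : 0 < ε) :
    ∃ M' : ℤ, M' ≠ 0 ∧ ∀ c : ℤ, Link f (tr u φ h M) (tr u χ h' (M' * c)) ε :=
  link_right_of (fun g h w N hN hw ε hε => count hf g h w N hN hw ε hε)
    (fun g s ε hε => link_zpow hf g s ε hε) u φ χ h h' φ0 χ0 M hM ε hε

end Pool.Agent.IRS
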